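import Pool.Agent.Lib.MP_d81181_an.Emb

/-! The anti-automorphism exchanging left and right invariance. -/

open scoped Classical InnerProductSpace ComplexConjugate
open ContinuousLinearMap

noncomputable section

namespace Pool.Agent.Lib.MP_d81181_an

/-- The contragredient matrix with signs. -/
def WW (α' α : Fin 2) : BH →L[ℂ] BH := ((sgn α * sgn α' : ℝ) : ℂ) • star (VV (bar α) (bar α'))

lemma anti_star_WW (α' α : Fin 2) :
    star (WW α' α) = ((sgn α * sgn α' : ℝ) : ℂ) • VV (bar α) (bar α') := by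
  rw [WW, star_smul, star_star, Complex.star_def, Complex.conj_ofReal]

lemma anti_sgn (α β γ : Fin 2) :
    ((sgn α * sgn γ : ℝ) : ℂ) * ((sgn β * sgn γ : ℝ) : ℂ) = ((sgn α * sgn β : ℝ) : ℂ) := by
  rw [← Complex.ofReal_mul]
  congr 1
  linear_combination (sgn α * sgn β) * sgn_mul_self γ

lemma anti_sgn' (α β γ : Fin 2) :
    ((sgn γ * sgn α : ℝ) : ℂ) * ((sgn γ * sgn β : ℝ) : ℂ) = ((sgn α * sgn β : ℝ) : ℂ) := by
  rw [mul_comm (sgn γ), mul_comm (sgn γ), anti_sgn]

lemma anti_sgn_ind (α β : Fin 2) :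
    ((sgn α * sgn β : ℝ) : ℂ) * (ind (bar α = bar β) : ℂ) = (ind (α = β) : ℂ) := by
  rw [ind_congr fk_bar_inj]
  by_cases h : α = β
  · subst h
    rw [sgn_mul_self, Complex.ofReal_one, one_mul]
  · rw [ind_of_not h, Complex.ofReal_zero, mul_zero]

lemma WW_uni : IsUni WW where
  col α β := by
    have h : ∀ γ, star (WW γ α) * WW γ β = ((sgn α * sgn β : ℝ) : ℂ) •
        (VV (bar α) (bar γ) * star (VV (bar β) (bar γ))) := fun γ => by
      rw [anti_star_WW, WW, smul_mul_smul_comm, anti_sgn]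
    simp only [h]
    rw [← Finset.smul_sum, sum_bar (fun γ => VV (bar α) γ * star (VV (bar β) γ)), VV_uni.row,
      smul_smul, anti_sgn_ind]
  row α β := by
    have h : ∀ γ, WW α γ * star (WW β γ) = ((sgn α * sgn β : ℝ) : ℂ) •
        (star (VV (bar γ) (bar α)) * VV (bar γ) (bar β)) := fun γ => by
      rw [anti_star_WW, WW, smul_mul_smul_comm, anti_sgn']
    simp only [h]
    rw [← Finset.smul_sum, sum_bar (fun γ => star (VV γ (bar α)) * VV γ (bar β)), VV_uni.col,
      smul_smul, anti_sgn_ind]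

/-- The reversal of indices. -/
def antiRot : Idx → Idx
  | .leaf B p => .leaf B.rot ⟨(p.1.2.2, p.1.2.1, p.1.1), leafV_rot.mpr p.2⟩
  | .node i j => .node (antiRot j) (antiRot i)

lemma antiRot_inj : ∀ {i j : Idx}, antiRot i = antiRot j → i = j
  | .leaf B p, .leaf C q, h => by
    obtain ⟨h1, h2⟩ := Idx.leaf.inj h
    obtain rfl : B = C := Tm.rot.inj h1
    have h3 := congrArg Subtype.val (eq_of_heq h2)
    have h4 : p = q := Subtype.ext (Prod.ext (congrArg (fun r => r.2.2) h3)
      (Prod.ext (congrArg (fun r => r.2.1) h3) (congrArg (fun r => r.1) h3)))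
    rw [h4]
  | .leaf B p, .node i j, h => by cases h
  | .node i j, .leaf B p, h => by cases h
  | .node i j, .node i' j', h => by
    obtain ⟨h1, h2⟩ := Idx.node.inj h
    rw [antiRot_inj h1, antiRot_inj h2]

theorem exists_JJ : ∃ J : BH →L[ℂ] BH, IsEmb WW J ∧ ∀ a b, J (NN (tm a b)) = NN (tm (J b) (J a)) := by
  have hg : ∀ i j : Idx, ⟪eb Idx (antiRot i), eb Idx (antiRot j)⟫_ℂ = (ind (i = j) : ℂ) :=
    fun i j => by
      rw [inner_basis]; congr 1; exact ind_congr ⟨antiRot_inj, fun h => by rw [h]⟩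
  obtain ⟨J, hJ⟩ := exists_op_of_orthonormal (eb Idx) _ hg
  have hN : ∀ a b, J (NN (tm a b)) = NN (tm (J b) (J a)) := fun a b => by
    have h : J ∘L NN = NN ∘L tens J J ∘L flipHT :=
      basis_ext (tensBasis (eb Idx) (eb Idx)) fun p => by
        simp only [comp_apply, tensBasis_apply, flipHT_tm, tens_tm, NN_eb, hJ, antiRot]
    have h1 := congrArg (fun Y => Y (tm a b)) h
    simpa only [comp_apply, flipHT_tm, tens_tm] using h1
  refine ⟨J, ⟨WW_uni, ?_, isometry_of_basis (eb Idx) J fun i j => by rw [hJ, hJ, hg]⟩, hN⟩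
  have key : ∀ (i : Idx) (α' α : Fin 2), VV α' α (J (eb Idx i)) = J (WW α' α (eb Idx i)) := by
    intro i
    induction i with
    | leaf B p =>
      intro α' α
      obtain ⟨K, hK, hK'⟩ := exists_jop B.c
      have h1 : J ∘L JL B = JL B.rot ∘L K := basis_ext (eb _) fun q => by
        have e1 : eb _ q = bv B.c q.1.1 q.1.2.1 q.1.2.2 := (bvec_of q.2).symm
        have e2 : bv B.c.rot q.1.2.2 q.1.2.1 q.1.1 =
            eb _ (⟨(q.1.2.2, q.1.2.1, q.1.1), leafV_rot.mpr q.2⟩ : {p // LV B.c.rot p}) :=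
          bvec_of _
        have e3 := (congrArg K e1).trans ((hK _ _ _).trans e2)
        exact ((congrArg J (JL_eb B q)).trans (hJ _)).trans
          ((congrArg (JL B.rot) e3).trans (JL_eb B.rot _)).symm
      have h2 : ∀ v, J (JL B v) = JL B.rot (K v) := fun v => congrArg (fun Y => Y v) h1
      have h3 : ∀ w, VV α' α (JL B.rot w) = JL B.rot (VL B.c.rot α' α w) := fun w =>
        congrArg (fun Y => Y w) (JL_intw B.rot α' α)
      have h4 : ∀ v, VL B.c.rot α' α (K v) =
          ((sgn α * sgn α' : ℝ) : ℂ) • K (star (VL B.c (bar α) (bar α')) v) := fun v =>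
        congrArg (fun Y => Y v) (hK' α' α)
      have h5 : ∀ v, star (VV (bar α) (bar α')) (JL B v) =
          JL B (star (VL B.c (bar α) (bar α')) v) := fun v =>
        congrArg (fun Y => Y v) ((JL_intw B).star' (VL_uni _) VV_uni (bar α) (bar α'))
      rw [← JL_eb, h2, h3, h4, WW, smul_apply, h5, map_smul J, h2]
      exact map_smul (JL B.rot) _ _
    | node i j ihi ihj =>
      intro α' α
      have h3 : ∀ w, VV α' α (NN w) = NN (node VV VV α' α w) := fun w =>
        congrArg (fun Y => Y w) (NN_intw α' α)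
      have h5 : ∀ w, star (VV (bar α) (bar α')) (NN w) =
          NN (star (node VV VV (bar α) (bar α')) w) := fun w =>
        congrArg (fun Y => Y w) (NN_intw.star' (VV_uni.node VV_uni) VV_uni (bar α) (bar α'))
      rw [← NN_eb, hN, h3, node_tm, WW, smul_apply, h5, star_node,
        ← sum_bar (fun γ => tens (star (VV γ (bar α'))) (star (VV (bar α) γ))), sum_apply,
        map_sum, map_sum, map_smul, map_sum, Finset.smul_sum]
      refine Finset.sum_congr rfl fun γ _ => ?_
      rw [ihi, ihj, ← hN, tens_tm, WW, WW, smul_apply, smul_apply, tm_smul_left, tm_smul_right,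
        smul_smul, mul_comm (sgn γ), anti_sgn, map_smul, map_smul, mul_comm (sgn α')]
  exact fun α β => basis_ext (eb Idx) fun i => key i α β

/-- The reversal of trees. -/
def JJ : BH →L[ℂ] BH := exists_JJ.choose

lemma emb_JJ : IsEmb WW JJ := exists_JJ.choose_spec.1

lemma JJ_NN (a b : BH) : JJ (NN (tm a b)) = NN (tm (JJ b) (JJ a)) := exists_JJ.choose_spec.2 a b

lemma gam_mem {x : BH →L[ℂ] BH} (hx : x ∈ MM) : cp JJ x ∈ MM :=
  mem_MM.mpr fun T hT => emb_JJ.cp_comm hx fun α β => by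
    rw [WW, smul_comp, comp_smul, hT.star' VV_uni VV_uni]

lemma anti_intw : Intw VV WW JJ := fun α β => by
  have h := emb_JJ.intw.star' WW_uni VV_uni (bar β) (bar α)
  rw [WW, smul_comp, h, anti_star_WW, bar_bar, bar_bar, comp_smul, smul_smul, sgn_bar, sgn_bar,
    ← Complex.ofReal_mul]
  have e : sgn β * sgn α * (-sgn α * -sgn β) = 1 := by
    linear_combination (sgn α * sgn α) * sgn_mul_self β + sgn_mul_self α
  rw [e, Complex.ofReal_one, one_smul]

lemma gam_gam {x : BH →L[ℂ] BH} (hx : x ∈ MM) : cp JJ (cp JJ x) = x := by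
  have h1 : IsEmb VV (JJ ∘L JJ) := emb_JJ.comp VV_uni anti_intw emb_JJ.iso
  have h2 := h1.nat emb_one Intw.id hx
  rw [cp_one, cp_comp] at h2
  exact h2.symm

lemma gam_sliceR {x : BH →L[ℂ] BH} (hx : x ∈ MM) (ξ : BH) :
    cp JJ (sliceR ξ ξ (Delta x)) = sliceL (JJ ξ) (JJ ξ) (Delta (cp JJ x)) := by
  have h : ∀ y : BH →L[ℂ] BH, sliceR ξ ξ (Delta (cp JJ y)) =
      cp JJ (sliceL (JJ ξ) (JJ ξ) (Delta y)) := fun y =>
    ContinuousLinearMap.ext fun η => ext_inner_left ℂ fun η' => by
      rw [inner_sliceR, inner_Delta, inner_cp, JJ_NN, JJ_NN, inner_cp, inner_sliceL, inner_Delta]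
  have h1 := h (cp JJ x)
  rw [gam_gam hx] at h1
  rw [h1, gam_gam (sliceL_mem (gam_mem hx) _ _)]

end Pool.Agent.Lib.MP_d81181_an
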