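import Pool.Agent.Lib.MP_d81181_an.Trace

/-! Sphericality of the connections generated by the letters. -/

open scoped Classical ComplexConjugate InnerProductSpace

noncomputable section

namespace Pool.Agent.Lib.MP_d81181_an

open Conn

variable {A B C Z Z' : Conn}

lemma sph_one : Sph Conn.one := fun f => by
  change ∑ e ∈ ({0} : Finset ℕ), ((1 : ℝ) : ℂ) * f.k e e =
    ∑ e ∈ ({0} : Finset ℕ), ((1 : ℝ) : ℂ)⁻¹ * f.k e e
  simp

lemma sph_letter (β : ℝ) (hβ : 2 ≤ β) : Sph (letter β hβ) := fun f => by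
  have h0 : f.k ((1, 0) : ℕ × ℕ) ((1, 2) : ℕ × ℕ) = 0 := by
    by_contra h
    have h1 : (0 : ℕ) = 2 := (f.supp h).2.2.2
    omega
  have hc := f.isMor.comm ((1, 0) : ℕ × ℕ) ((0, 1) : ℕ × ℕ)
  have hL := sum_letter_out hβ 0 fun g : ℕ × ℕ =>
    ((lx β (1, 0) g : ℝ) : ℂ) * f.k g ((0, 1) : ℕ × ℕ)
  have hR := sum_letter_out hβ (0 + 1) fun g : ℕ × ℕ =>
    f.k ((1, 0) : ℕ × ℕ) g * ((lx β g (0, 1) : ℝ) : ℂ)
  have h2 := hL.symm.trans (hc.trans hR)
  rw [sum_nb_zero, sum_nb_succ] at h2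
  have hx : lx β (1, 0) (0, 1) = -1 := by
    have := lx_ou β 0
    simpa using this
  have h3 : f.k ((0, 1) : ℕ × ℕ) ((0, 1) : ℕ × ℕ) = f.k ((1, 0) : ℕ × ℕ) ((1, 0) : ℕ × ℕ) := by
    have h4 : ((lx β (1, 0) (0, 1) : ℝ) : ℂ) * f.k ((0, 1) : ℕ × ℕ) ((0, 1) : ℕ × ℕ) =
        f.k ((1, 0) : ℕ × ℕ) ((1, 0) : ℕ × ℕ) * ((lx β (1, 0) (0, 1) : ℝ) : ℂ) +
          f.k ((1, 0) : ℕ × ℕ) ((1, 2) : ℕ × ℕ) * ((lx β (1, 2) (0, 1) : ℝ) : ℂ) := h2
    rw [h0, hx] at h4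
    push_cast at h4
    linear_combination -h4
  have hl := sum_letter_out hβ 0 fun e : ℕ × ℕ => ((mu β e.2 / mu β e.1 : ℝ) : ℂ) * f.k e e
  have hr := sum_letter_inn hβ 0 fun e : ℕ × ℕ => ((mu β e.2 / mu β e.1 : ℝ) : ℂ)⁻¹ * f.k e e
  refine hl.trans (Eq.trans ?_ hr.symm)
  rw [sum_nb_zero, sum_nb_zero, h3]
  simp

lemma sph_sq (x : ℝ) (hx : 0 < x) (z : ℂ) :
    (Real.sqrt x : ℂ) * z * conj ((Real.sqrt x : ℂ) * ((1 : ℝ) : ℂ)) = (x : ℂ) * z := by
  have h : (Real.sqrt x : ℂ) * (Real.sqrt x : ℂ) = x := by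
    exact_mod_cast Real.mul_self_sqrt hx.le
  rw [map_mul, Complex.conj_ofReal, Complex.conj_ofReal, ← h]
  push_cast
  ring

lemma sph_sq_inv (x : ℝ) (hx : 0 < x) (z : ℂ) :
    (Real.sqrt x : ℂ)⁻¹ * z * conj ((Real.sqrt x : ℂ)⁻¹ * ((1 : ℝ) : ℂ)) = (x : ℂ)⁻¹ * z := by
  have h : (Real.sqrt x : ℂ) * (Real.sqrt x : ℂ) = x := by
    exact_mod_cast Real.mul_self_sqrt hx.le
  rw [map_mul, map_inv₀, Complex.conj_ofReal, Complex.conj_ofReal, ← h, mul_inv]
  push_cast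
  ring

lemma sph_left (f : Mor (comp B C) (comp B C)) {e : C.E} (he : C.valid e) :
    (f.flat * (Mor.one (comp B C)).flat.adj).k e e =
      ∑ g ∈ B.out (C.tgt e), (B.w g : ℂ) * f.k (g, e) (g, e) := by
  have h0 : (f.flat * (Mor.one (comp B C)).flat.adj).k e e =
      ∑ e' ∈ C.out (C.src e), ∑ g ∈ B.out (C.tgt e'), ∑ g' ∈ B.inn (B.tgt g),
        (Real.sqrt (B.w g') : ℂ) * f.k (g', e) (g, e') *
          conj ((Real.sqrt (B.w g') : ℂ) *
            (ind ((g', e) = (g, e') ∧ (comp B C).valid (g, e')) : ℂ)) :=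
    (Mor.mul_k _ _ _ _).trans ((sum_comp_out B.conj (comp B C) _ _).trans (sum_comp_out B C _ _))
  rw [h0, Finset.sum_eq_single e]
  · refine Finset.sum_congr rfl fun g hg => ?_
    obtain ⟨hg1, hg2⟩ := B.mem_out.mp hg
    rw [Finset.sum_eq_single g]
    · rw [ind_of ⟨rfl, (comp_valid B C g e).mpr ⟨hg1, he, hg2⟩⟩]
      exact sph_sq _ (B.w_pos g) _
    · intro g' _ hne
      rw [ind_of_not fun h => hne (Prod.mk.inj h.1).1]
      simp
    · intro h
      exact absurd (B.mem_inn.mpr ⟨hg1, rfl⟩) h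
  · intro e' _ hne
    refine Finset.sum_eq_zero fun g _ => Finset.sum_eq_zero fun g' _ => ?_
    rw [ind_of_not fun h => hne (Prod.mk.inj h.1).2.symm]
    simp
  · intro h
    exact absurd he h

lemma sph_right (f : Mor (comp B C) (comp B C)) {g : B.E} (hg : B.valid g) :
    (f.sharp * (Mor.one (comp B C)).sharp.adj).k g g =
      ∑ e ∈ C.inn (B.src g), (C.w e : ℂ)⁻¹ * f.k (g, e) (g, e) := by
  have h0 : (f.sharp * (Mor.one (comp B C)).sharp.adj).k g g =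
      ∑ g' ∈ B.inn (B.tgt g), ∑ e ∈ C.inn (B.src g'), ∑ e' ∈ C.out (C.src e),
        (Real.sqrt (C.w e') : ℂ)⁻¹ * f.k (g, e') (g', e) *
          conj ((Real.sqrt (C.w e') : ℂ)⁻¹ *
            (ind ((g, e') = (g', e) ∧ (comp B C).valid (g', e)) : ℂ)) :=
    (Mor.mul_k_inn _ _ _ _).trans
      ((sum_comp_inn (comp B C) C.conj _ _).trans (sum_comp_inn B C _ _))
  rw [h0, Finset.sum_eq_single g]
  · refine Finset.sum_congr rfl fun e he => ?_
    obtain ⟨he1, he2⟩ := C.mem_inn.mp he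
    rw [Finset.sum_eq_single e]
    · rw [ind_of ⟨rfl, (comp_valid B C g e).mpr ⟨hg, he1, he2.symm⟩⟩]
      exact sph_sq_inv _ (C.w_pos e) _
    · intro e' _ hne
      rw [ind_of_not fun h => hne (Prod.mk.inj h.1).2]
      simp
    · intro h
      exact absurd he1 h
  · intro g' _ hne
    refine Finset.sum_eq_zero fun e _ => Finset.sum_eq_zero fun e' _ => ?_
    rw [ind_of_not fun h => hne (Prod.mk.inj h.1).1.symm]
    simp
  · intro h
    exact absurd (B.mem_inn.mpr ⟨hg, rfl⟩) h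

lemma Sph.comp (hB : Sph B) (hC : Sph C) : Sph (comp B C) := fun f => by
  have h1 : tauL f 0 = tauL (f.flat * (Mor.one (Conn.comp B C)).flat.adj) 0 := by
    refine (sum_comp_out B C _ _).trans (Finset.sum_congr rfl fun e he => ?_)
    rw [sph_left f (C.mem_out.mp he).1, Finset.mul_sum]
    refine Finset.sum_congr rfl fun g _ => ?_
    change ((B.w g * C.w e : ℝ) : ℂ) * f.k (g, e) (g, e) = _
    push_cast
    ring
  have h2 : tauR (f.flat * (Mor.one (Conn.comp B C)).flat.adj) 0 =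
      tauL (f.sharp * (Mor.one (Conn.comp B C)).sharp.adj) 0 := by
    have a1 : tauR (f.flat * (Mor.one (Conn.comp B C)).flat.adj) 0 =
        ∑ e ∈ C.inn 0, ∑ g ∈ B.out 0, (C.w e : ℂ)⁻¹ * ((B.w g : ℂ) * f.k (g, e) (g, e)) := by
      refine Finset.sum_congr rfl fun e he => ?_
      rw [sph_left f (C.mem_inn.mp he).1, Finset.mul_sum, (C.mem_inn.mp he).2]
    have a2 : tauL (f.sharp * (Mor.one (Conn.comp B C)).sharp.adj) 0 =
        ∑ g ∈ B.out 0, ∑ e ∈ C.inn 0, (B.w g : ℂ) * ((C.w e : ℂ)⁻¹ * f.k (g, e) (g, e)) := by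
      refine Finset.sum_congr rfl fun g hg => ?_
      rw [sph_right f (B.mem_out.mp hg).1, Finset.mul_sum, (B.mem_out.mp hg).2]
    rw [a1, a2, Finset.sum_comm]
    refine Finset.sum_congr rfl fun g _ => Finset.sum_congr rfl fun e _ => ?_
    ring
  have h3 : tauR (f.sharp * (Mor.one (Conn.comp B C)).sharp.adj) 0 = tauR f 0 := by
    refine Eq.trans (Finset.sum_congr rfl fun g hg => ?_) (sum_comp_inn B C _ _).symm
    rw [sph_right f (B.mem_inn.mp hg).1, Finset.mul_sum]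
    refine Finset.sum_congr rfl fun e _ => ?_
    change _ = ((B.w g * C.w e : ℝ) : ℂ)⁻¹ * f.k (g, e) (g, e)
    push_cast
    rw [mul_inv]
    ring
  rw [h1, hC, h2, hB, h3]

lemma Sph.conj (hB : Sph B) : Sph B.conj := fun f => by
  have hs : ∀ e : B.E, (Real.sqrt (B.w e) : ℂ) ≠ 0 := fun e => by
    exact_mod_cast (Real.sqrt_pos.mpr (B.w_pos e)).ne'
  have hm : IsMor B B (fun e' e =>
      (Real.sqrt (B.w e') : ℂ)⁻¹ * (Real.sqrt (B.w e) : ℂ) * f.k e' e) := by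
    refine isMor_conj.mp ?_
    have : (fun e' e : B.E => (Real.sqrt (B.w e') : ℂ) * (Real.sqrt (B.w e) : ℂ)⁻¹ *
        ((Real.sqrt (B.w e') : ℂ)⁻¹ * (Real.sqrt (B.w e) : ℂ) * f.k e' e)) = f.k := by
      funext e' e
      have h1 := hs e'
      have h2 := hs e
      field_simp
    exact (congrArg (IsMor B.conj B.conj) this).mpr f.isMor
  have h := hB (Mor.mk' _ hm)
  have a1 : tauL f 0 = tauR (Mor.mk' _ hm) 0 := by
    refine Finset.sum_congr rfl fun e _ => ?_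
    change (((B.w e)⁻¹ : ℝ) : ℂ) * f.k e e = (B.w e : ℂ)⁻¹ *
      ((Real.sqrt (B.w e) : ℂ)⁻¹ * (Real.sqrt (B.w e) : ℂ) * f.k e e)
    rw [inv_mul_cancel₀ (hs e), one_mul, Complex.ofReal_inv]
  have a2 : tauR f 0 = tauL (Mor.mk' _ hm) 0 := by
    refine Finset.sum_congr rfl fun e _ => ?_
    change (((B.w e)⁻¹ : ℝ) : ℂ)⁻¹ * f.k e e = (B.w e : ℂ) *
      ((Real.sqrt (B.w e) : ℂ)⁻¹ * (Real.sqrt (B.w e) : ℂ) * f.k e e)
    rw [inv_mul_cancel₀ (hs e), one_mul, Complex.ofReal_inv, inv_inv]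
  rw [a1, a2, h]

lemma Sph.rot (hB : Sph B) : Sph B.rot := fun f => by
  have hm : IsMor B B f.k := isMor_rot.mp f.isMor
  have h := hB (Mor.mk' _ hm)
  have a1 : tauL f 0 = tauR (Mor.mk' _ hm) 0 := by
    refine Finset.sum_congr rfl fun e _ => ?_
    change (((B.w e)⁻¹ : ℝ) : ℂ) * f.k e e = (B.w e : ℂ)⁻¹ * f.k e e
    rw [Complex.ofReal_inv]
  have a2 : tauR f 0 = tauL (Mor.mk' _ hm) 0 := by
    refine Finset.sum_congr rfl fun e _ => ?_
    change (((B.w e)⁻¹ : ℝ) : ℂ)⁻¹ * f.k e e = (B.w e : ℂ) * f.k e e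
    rw [Complex.ofReal_inv, inv_inv]
  rw [a1, a2, h]

/-- Terms: the connections generated by the unit and the two Temperley-Lieb connections. -/
inductive Tm : Type
  | one : Tm
  | X : Tm
  | Y : Tm
  | comp : Tm → Tm → Tm
  | conj : Tm → Tm
  | rot : Tm → Tm

/-- The connection of a term. -/
def Tm.c : Tm → Conn
  | .one => Conn.one
  | .X => cX
  | .Y => cY
  | .comp a b => Conn.comp a.c b.c
  | .conj a => a.c.conj
  | .rot a => a.c.rot

lemma Tm.sph : ∀ t : Tm, Sph t.c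
  | .one => sph_one
  | .X => sph_letter 2 le_rfl
  | .Y => sph_letter 5 (by norm_num)
  | .comp a b => a.sph.comp b.sph
  | .conj a => a.sph.conj
  | .rot a => a.sph.rot

end Pool.Agent.Lib.MP_d81181_an
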