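import Pool.Agent.Lib.MP_d81181_an.LeafV
import Pool.Agent.Lib.MP_d81181_an.Sph

/-! The big Hilbert space: all leaves and all their iterated tensor products. -/

open scoped Classical InnerProductSpace ComplexConjugate
open ContinuousLinearMap

noncomputable section

namespace Pool.Agent.Lib.MP_d81181_an

/-- Binary trees whose leaves are valid indices of terms. -/
inductive Idx : Type
  | leaf (B : Tm) (p : {p // LV B.c p}) : Idx
  | node (i j : Idx) : Idx

/-- The big Hilbert space. -/
abbrev BH : Type := L2 Idx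

lemma isometry_of_basis {E F : Type} [NormedAddCommGroup E] [InnerProductSpace ℂ E]
    [CompleteSpace E] [NormedAddCommGroup F] [InnerProductSpace ℂ F] [CompleteSpace F] {ι : Type}
    (b : HilbertBasis ι ℂ E) (T : E →L[ℂ] F)
    (h : ∀ i j, ⟪T (b i), T (b j)⟫_ℂ = (ind (i = j) : ℂ)) : adjoint T ∘L T = 1 :=
  basis_ext b fun j => basis_vec_ext b fun i => by
    rw [comp_apply, adjoint_inner_right, h, one_apply_eq_self, inner_basis]

lemma inner_of_isometry {E F : Type} [NormedAddCommGroup E] [InnerProductSpace ℂ E]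
    [CompleteSpace E] [NormedAddCommGroup F] [InnerProductSpace ℂ F] [CompleteSpace F]
    {T : E →L[ℂ] F} (h : adjoint T ∘L T = 1) (v w : E) : ⟪T v, T w⟫_ℂ = ⟪v, w⟫_ℂ := by
  rw [← adjoint_inner_right, ← comp_apply, h, one_apply_eq_self]

lemma exists_JL (B : Tm) :
    ∃ J : HL B.c →L[ℂ] BH, ∀ p, J (eb _ p) = eb Idx (Idx.leaf B p) :=
  exists_op_of_orthonormal (eb _) _ fun p q => by
    rw [inner_basis]; congr 1; exact ind_congr (by simp)

/-- The embedding of a leaf. -/
def JL (B : Tm) : HL B.c →L[ℂ] BH := (exists_JL B).choose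

lemma JL_eb (B : Tm) (p : {p // LV B.c p}) : JL B (eb _ p) = eb Idx (Idx.leaf B p) :=
  (exists_JL B).choose_spec p

lemma JL_iso (B : Tm) : adjoint (JL B) ∘L JL B = 1 :=
  isometry_of_basis (eb _) _ fun p q => by
    rw [JL_eb, JL_eb, inner_basis]; congr 1; exact ind_congr (by simp)

lemma exists_NN : ∃ N : HT BH BH →L[ℂ] BH,
    ∀ i j, N (tm (eb Idx i) (eb Idx j)) = eb Idx (Idx.node i j) := by
  obtain ⟨N, hN⟩ := exists_op_of_orthonormal (tensBasis (eb Idx) (eb Idx))
    (fun p => eb Idx (Idx.node p.1 p.2)) fun p q => by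
      rw [inner_basis]; congr 1; exact ind_congr (by simp [Prod.ext_iff])
  exact ⟨N, fun i j => by simpa using hN (i, j)⟩

/-- The embedding of the tensor square. -/
def NN : HT BH BH →L[ℂ] BH := exists_NN.choose

lemma NN_eb (i j : Idx) : NN (tm (eb Idx i) (eb Idx j)) = eb Idx (Idx.node i j) :=
  exists_NN.choose_spec i j

lemma NN_iso : adjoint NN ∘L NN = 1 :=
  isometry_of_basis (tensBasis (eb Idx) (eb Idx)) _ fun p q => by
    rw [tensBasis_apply, tensBasis_apply, NN_eb, NN_eb, inner_basis]
    congr 1; exact ind_congr (by simp [Prod.ext_iff])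

lemma JL_orth {B C : Tm} (h : B ≠ C) (v : HL B.c) (w : HL C.c) : ⟪JL B v, JL C w⟫_ℂ = 0 := by
  have : adjoint (JL B) ∘L JL C = 0 :=
    basis_ext (eb _) fun q => basis_vec_ext (eb _) fun p => by
      rw [comp_apply, adjoint_inner_right, JL_eb, JL_eb, inner_basis, ind_of_not]
      · simp
      · intro h1; exact h (Idx.leaf.inj h1).1
  rw [← adjoint_inner_right, ← comp_apply, this, zero_apply, inner_zero_right]

lemma JL_NN_orth (B : Tm) (v : HL B.c) (w : HT BH BH) : ⟪JL B v, NN w⟫_ℂ = 0 := by
  have : adjoint (JL B) ∘L NN = 0 :=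
    basis_ext (tensBasis (eb Idx) (eb Idx)) fun q => basis_vec_ext (eb _) fun p => by
      rw [comp_apply, adjoint_inner_right, JL_eb, tensBasis_apply, NN_eb, inner_basis, ind_of_not]
      · simp
      · intro h1; cases h1
  rw [← adjoint_inner_right, ← comp_apply, this, zero_apply, inner_zero_right]

lemma NN_JL_orth (B : Tm) (v : HL B.c) (w : HT BH BH) : ⟪NN w, JL B v⟫_ℂ = 0 := by
  rw [← inner_conj_symm, JL_NN_orth, map_zero]

/-- The columns of the big matrix. -/
def bcol : Idx → Fin 2 → Fin 2 → BH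
  | .leaf B p => fun α β => JL B (VL B.c α β (eb _ p))
  | .node i j => fun α β => ∑ γ, NN (tm (bcol i γ β) (bcol j α γ))

/-- The columns of the adjoints of the entries of the big matrix. -/
def brow : Idx → Fin 2 → Fin 2 → BH
  | .leaf B p => fun α β => JL B (star (VL B.c α β) (eb _ p))
  | .node i j => fun α β => ∑ γ, NN (tm (brow i γ β) (brow j α γ))

lemma indC_and (P Q : Prop) : ((ind (P ∧ Q) : ℝ) : ℂ) = (ind P : ℂ) * (ind Q : ℂ) := by
  rw [ind_and]; push_cast; rfl

lemma bcol_gram : ∀ (i j : Idx) (α β : Fin 2),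
    ∑ γ, ⟪bcol i γ α, bcol j γ β⟫_ℂ = (ind (i = j) : ℂ) * ind (α = β)
  | .leaf B p, .leaf C q, α, β => by
    by_cases h : B = C
    · subst h
      simp only [bcol, inner_of_isometry (JL_iso B)]
      have h1 := congrArg (fun Y => ⟪eb _ p, Y (eb _ q)⟫_ℂ) ((VL_uni B.c).col α β)
      simp only [sum_apply, inner_sum, mul_apply_eq_comp, star_eq_adjoint, adjoint_inner_right,
        smul_apply, one_apply_eq_self, inner_smul_right, inner_basis] at h1
      rw [h1, mul_comm]
      congr 2
      exact ind_congr (by simp)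
    · simp only [bcol, JL_orth h, Finset.sum_const_zero]
      rw [ind_of_not fun h1 => h (Idx.leaf.inj h1).1]; simp
  | .leaf B p, .node i j, α, β => by
    simp only [bcol, inner_sum, JL_NN_orth, Finset.sum_const_zero]
    rw [ind_of_not fun h1 => by cases h1]; simp
  | .node i j, .leaf B p, α, β => by
    simp only [bcol, sum_inner, NN_JL_orth, Finset.sum_const_zero]
    rw [ind_of_not fun h1 => by cases h1]; simp
  | .node i j, .node i' j', α, β => by
    simp only [bcol, sum_inner, inner_sum, inner_of_isometry NN_iso, inner_tm]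
    have h1 := bcol_gram i i' α β
    have h2 := bcol_gram j j'
    have h3 : ((ind (Idx.node i j = Idx.node i' j') : ℝ) : ℂ) = ind (i = i') * ind (j = j') := by
      rw [← indC_and]; congr 1; exact ind_congr (by simp)
    have h00 := h2 0 0
    have h01 := h2 0 1
    have h10 := h2 1 0
    have h11 := h2 1 1
    simp only [Fin.sum_univ_two, ind_true, Fin.zero_eq_one_iff, Fin.one_eq_zero_iff,
      OfNat.ofNat_ne_one, ind_false, Complex.ofReal_one, Complex.ofReal_zero, mul_one,
      mul_zero] at h1 h00 h01 h10 h11 ⊢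
    rw [h3]
    linear_combination (ind (j = j') : ℂ) * h1 + ⟪bcol i 0 α, bcol i' 0 β⟫_ℂ * h00 +
      ⟪bcol i 0 α, bcol i' 1 β⟫_ℂ * h01 + ⟪bcol i 1 α, bcol i' 0 β⟫_ℂ * h10 +
      ⟪bcol i 1 α, bcol i' 1 β⟫_ℂ * h11

lemma brow_gram : ∀ (i j : Idx) (α β : Fin 2),
    ∑ γ, ⟪brow i α γ, brow j β γ⟫_ℂ = (ind (i = j) : ℂ) * ind (α = β)
  | .leaf B p, .leaf C q, α, β => by
    by_cases h : B = C
    · subst h
      simp only [brow, inner_of_isometry (JL_iso B)]
      have h1 := congrArg (fun Y => ⟪eb _ p, Y (eb _ q)⟫_ℂ) ((VL_uni B.c).row α β)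
      simp only [sum_apply, inner_sum, mul_apply_eq_comp, star_eq_adjoint,
        smul_apply, one_apply_eq_self, inner_smul_right, inner_basis] at h1
      simp only [star_eq_adjoint, adjoint_inner_left]
      rw [h1, mul_comm]
      congr 2
      exact ind_congr (by simp)
    · simp only [brow, JL_orth h, Finset.sum_const_zero]
      rw [ind_of_not fun h1 => h (Idx.leaf.inj h1).1]; simp
  | .leaf B p, .node i j, α, β => by
    simp only [brow, inner_sum, JL_NN_orth, Finset.sum_const_zero]
    rw [ind_of_not fun h1 => by cases h1]; simp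
  | .node i j, .leaf B p, α, β => by
    simp only [brow, sum_inner, NN_JL_orth, Finset.sum_const_zero]
    rw [ind_of_not fun h1 => by cases h1]; simp
  | .node i j, .node i' j', α, β => by
    simp only [brow, sum_inner, inner_sum, inner_of_isometry NN_iso, inner_tm]
    have h1 := brow_gram j j' α β
    have h2 := brow_gram i i'
    have h3 : ((ind (Idx.node i j = Idx.node i' j') : ℝ) : ℂ) = ind (i = i') * ind (j = j') := by
      rw [← indC_and]; congr 1; exact ind_congr (by simp)
    have h00 := h2 0 0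
    have h01 := h2 0 1
    have h10 := h2 1 0
    have h11 := h2 1 1
    simp only [Fin.sum_univ_two, ind_true, Fin.zero_eq_one_iff, Fin.one_eq_zero_iff,
      OfNat.ofNat_ne_one, ind_false, Complex.ofReal_one, Complex.ofReal_zero, mul_one,
      mul_zero] at h1 h00 h01 h10 h11 ⊢
    rw [h3]
    linear_combination (ind (i = i') : ℂ) * h1 + ⟪brow j α 0, brow j' β 0⟫_ℂ * h00 +
      ⟪brow j α 0, brow j' β 1⟫_ℂ * h01 + ⟪brow j α 1, brow j' β 0⟫_ℂ * h10 +
      ⟪brow j α 1, brow j' β 1⟫_ℂ * h11

lemma brow_bcol : ∀ (i j : Idx) (α β : Fin 2),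
    ⟪brow i α β, eb Idx j⟫_ℂ = ⟪eb Idx i, bcol j α β⟫_ℂ
  | .leaf B p, .leaf C q, α, β => by
    rw [← JL_eb, ← JL_eb]
    by_cases h : B = C
    · subst h
      simp only [brow, bcol, inner_of_isometry (JL_iso B), star_eq_adjoint, adjoint_inner_left]
    · simp only [brow, bcol, JL_orth h]
  | .leaf B p, .node i j, α, β => by
    rw [← JL_eb, ← NN_eb]
    simp only [brow, bcol, inner_sum, JL_NN_orth, Finset.sum_const_zero]
  | .node i j, .leaf B p, α, β => by
    rw [← JL_eb, ← NN_eb]
    simp only [brow, bcol, sum_inner, NN_JL_orth, Finset.sum_const_zero]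
  | .node i j, .node i' j', α, β => by
    rw [← NN_eb, ← NN_eb]
    simp only [brow, bcol, sum_inner, inner_sum, inner_of_isometry NN_iso, inner_tm,
      brow_bcol i i', brow_bcol j j']

lemma exists_VV (α β : Fin 2) : ∃ V : BH →L[ℂ] BH, ∀ i, V (eb Idx i) = bcol i α β := by
  refine exists_op (eb Idx) (fun i => bcol i α β) (fun i => bcol i (bar α) β) fun i j => ?_
  have := bcol_gram i j β β
  rw [ind_of (rfl : β = β), Fin.sum_univ_two] at this
  fin_cases α
  · simpa [bar] using this
  · simpa [bar, add_comm] using this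

/-- The big matrix. -/
def VV (α β : Fin 2) : BH →L[ℂ] BH := (exists_VV α β).choose

lemma VV_eb (α β : Fin 2) (i : Idx) : VV α β (eb Idx i) = bcol i α β :=
  (exists_VV α β).choose_spec i

lemma star_VV_eb (α β : Fin 2) (i : Idx) : star (VV α β) (eb Idx i) = brow i α β :=
  basis_vec_ext (eb Idx) fun j => by
    rw [star_eq_adjoint, adjoint_inner_right, VV_eb, ← inner_conj_symm, ← brow_bcol,
      inner_conj_symm]

theorem VV_uni : IsUni VV where
  col α β := basis_ext (eb Idx) fun j => basis_vec_ext (eb Idx) fun i => by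
    simp only [sum_apply, inner_sum, mul_apply_eq_comp, star_eq_adjoint, adjoint_inner_right,
      smul_apply, one_apply_eq_self, inner_smul_right, inner_basis, VV_eb]
    rw [bcol_gram, mul_comm]
  row α β := basis_ext (eb Idx) fun j => basis_vec_ext (eb Idx) fun i => by
    simp only [sum_apply, inner_sum, mul_apply_eq_comp, smul_apply, one_apply_eq_self,
      inner_smul_right, inner_basis, star_VV_eb]
    rw [mul_comm, ← brow_gram]
    refine Finset.sum_congr rfl fun γ _ => ?_
    rw [← star_VV_eb, ← star_VV_eb, star_eq_adjoint (VV α γ), adjoint_inner_left]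

theorem JL_intw (B : Tm) : Intw (VL B.c) VV (JL B) := fun α β =>
  basis_ext (eb _) fun p => by rw [comp_apply, comp_apply, JL_eb, VV_eb, bcol]

theorem NN_intw : Intw (node VV VV) VV NN := fun α β =>
  basis_ext (tensBasis (eb Idx) (eb Idx)) fun p => by
    rw [comp_apply, comp_apply, tensBasis_apply, NN_eb, VV_eb, bcol, node_tm, map_sum]
    simp only [VV_eb]

end Pool.Agent.Lib.MP_d81181_an
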