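import Pool.Agent.Lib.MP_d81181_an.Fock

/-! Hexagon identities for the Clebsch-Gordan coefficients. -/

open scoped Classical

noncomputable section

namespace Pool.Agent.Lib.MP_d81181_an

/-- Two steps through the level `n`, first kind. -/
def hexQ (n : ℕ) (r s : St) (γ α : Fin 2) : ℝ := ∑ u ∈ lev n, A u r γ * A u s α

/-- Two steps through the level `n`, second kind. -/
def hexP (n : ℕ) (r s : St) (γ α : Fin 2) : ℝ := ∑ u ∈ lev n, A r u α * A s u γ

lemma hexQ_zero {n : ℕ} {r s : St} (h : ¬ Adj n (sz s)) (γ α : Fin 2) : hexQ n r s γ α = 0 :=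
  Finset.sum_eq_zero fun u hu => by
    rw [fk_A_eq_zero (s := s) (by rwa [mem_lev.1 hu]), mul_zero]

lemma hex_comm {k : ℕ} {r s : St} (hr : sz r = k) (hs : sz s = k + 2) (γ α : Fin 2) :
    hexQ (k + 1) r s γ α = hexP (k + 1) r s γ α := by
  have h1 := sum_A_up hr γ (fun u => A u s α)
  have h2 := sum_A_down hr α (fun u => A s u γ)
  simp only [smul_eq_mul] at h1 h2
  rw [hexQ, hexP, h1, h2, fk_A_below (by rw [sz_up]; omega), fk_A_above (by rw [sz_up]; omega),
    fk_up_comm γ]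
  rcases fk_eq_or_eq_bar α γ with rfl | rfl
  · rw [fk_co_bar_up, fk_co_up_bar]; ring
  · ring

lemma hex_comm' {k : ℕ} {r s : St} (hr : sz r = k + 2) (hs : sz s = k) (γ α : Fin 2) :
    hexQ (k + 1) r s γ α = hexP (k + 1) r s γ α := by
  have := hex_comm hs hr α γ
  simp only [hexQ, hexP, mul_comm] at this ⊢
  exact this

lemma hex_key {n : ℕ} {r s : St} (hr : sz r = n) (hs : sz s = n) (γ α : Fin 2) :
    hexQ (n + 1) r s γ α + hexP (n + 1) r s γ α = (n + 2) * ind (r = s ∧ γ = α) := by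
  have h1 := sum_A_up hr γ (fun u => A u s α)
  have h2 := sum_A_down hr α (fun u => A s u γ)
  simp only [smul_eq_mul] at h1 h2
  rw [hexQ, hexP, h1, h2, fk_A_above (by rw [sz_up]; omega), fk_A_below (by rw [sz_up]; omega)]
  rcases fk_eq_or_eq_bar α γ with rfl | rfl
  · by_cases h : r = s
    · subst h
      have hn : ((co r γ : ℝ) + co r (bar γ)) = n := by
        rw [← hs, ← fk_co_add_co_bar r γ]; push_cast; rfl
      rw [ind_of rfl, ind_of rfl, ind_of ⟨rfl, rfl⟩]
      linear_combination fk_sqrt_succ_mul_self (co r γ) +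
        (sgn γ * sgn γ) * fk_sqrt_succ_mul_self (co r (bar γ)) +
        ((co r (bar γ) : ℝ) + 1) * sgn_mul_self γ + hn
    · rw [ind_of_not (fun h' => h (fk_up_inj.1 h')), ind_of_not (fun h' => h (fk_up_inj.1 h')),
        ind_of_not (fun h' => h h'.1)]
      ring
  · rw [ind_of_not (P := _ ∧ _) (fun h' => fk_bar_ne α h'.2.symm), bar_bar, sgn_bar]
    linear_combination (-(Real.sqrt ((co r (bar α) : ℝ) + 1) * ind (up (bar α) r = up α s) *
      Real.sqrt ((co s α : ℝ) + 1))) * sgn_mul_self α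

lemma hex_A1 {n : ℕ} {r s : St} (hr : sz r = n + 1) (hs : sz s = n + 1) (γ α : Fin 2) :
    hexQ n r s γ α + hexQ (n + 2) r s γ α = (n + 2) * ind (r = s ∧ γ = α) := by
  have := A1 hr hs γ α
  rw [sum_nb_succ] at this
  rw [hexQ, hexQ, this]; push_cast; ring

lemma hex_A1_zero {r s : St} (hr : sz r = 0) (hs : sz s = 0) (γ α : Fin 2) :
    hexQ 1 r s γ α = ind (r = s ∧ γ = α) := by
  have := A1 hr hs γ α
  rw [sum_nb_zero] at this
  rw [hexQ, this]; simp

lemma hex_A4 {n : ℕ} {r s : St} (hr : sz r = n + 1) (hs : sz s = n + 1) (γ α : Fin 2) :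
    hexP n r s γ α + hexP (n + 2) r s γ α = (n + 2) * ind (r = s ∧ γ = α) := by
  have := A4 hr hs α γ
  rw [sum_nb_succ, ind_congr (and_congr_right fun _ => eq_comm)] at this
  rw [hexP, hexP, this]; push_cast; ring

/-- Compatibility of left and right Clebsch-Gordan maps, first form. -/
lemma hexL {m c m' : ℕ} (h1 : Adj m c) (h2 : Adj m m') {s s₀' : St} (hs : sz s = c)
    (hs' : sz s₀' = m') (α γ : Fin 2) :
    ∑ c' ∈ nb m', ∑ s' ∈ lev c', A s' s₀' γ * A s' s α * lx 2 (m', c') (m, c) /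
        Real.sqrt ((m' + 1) * (c + 1)) =
      ∑ s₀ ∈ lev m, A s₀' s₀ α * A s s₀ γ / (m + 1) := by
  have e1 : ∀ c', ∑ s' ∈ lev c', A s' s₀' γ * A s' s α * lx 2 (m', c') (m, c) /
      Real.sqrt ((m' + 1) * (c + 1)) =
      hexQ c' s₀' s γ α * lx 2 (m', c') (m, c) / Real.sqrt ((m' + 1) * (c + 1)) := fun c' => by
    rw [hexQ, Finset.sum_mul, Finset.sum_div]
  simp only [e1]
  rw [← Finset.sum_div (lev m)]
  change _ = hexP m s₀' s γ α / (m + 1)
  rcases h1 with rfl | rfl <;> rcases h2 with h2 | h2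
  · subst h2
    have k1 := hex_key hs' hs γ α
    have k2 := hex_A1 hs' hs γ α
    have k3 := hex_A4 hs' hs γ α
    rw [sum_nb_succ, lx_ou, lx_uu, mu_two, Real.sqrt_mul_self (by positivity)]
    push_cast at k1 ⊢
    field_simp
    linear_combination ((m : ℝ) + 2) * k1 - k2 - ((m : ℝ) + 2) * k3
  · subst h2
    have hp : 0 < Real.sqrt (((m' : ℝ) + 1) * ((m' : ℝ) + 2 + 1)) := Real.sqrt_pos.2 (by positivity)
    have e2 : hexQ (m' + 1) s₀' s γ α * lx 2 (m', m' + 1) (m' + 1, m' + 1 + 1) /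
        Real.sqrt ((m' + 1) * (((m' + 1 + 1 : ℕ) : ℝ) + 1)) =
        hexP (m' + 1) s₀' s γ α / (((m' + 1 : ℕ) : ℝ) + 1) := by
      rw [hex_comm hs' hs, lx_ud, mu_two, mu_two, mu_two]
      push_cast
      rw [show (m' : ℝ) + 1 + 1 + 1 = m' + 2 + 1 by ring]
      field_simp
    rcases m' with _ | k
    · rw [sum_nb_zero]; exact e2
    · rw [sum_nb_succ, hexQ_zero (by rw [hs]; unfold Adj; omega), zero_mul, zero_div, zero_add]
      exact e2
  · subst h2
    have hp : 0 < Real.sqrt (((c : ℝ) + 1) * ((c : ℝ) + 2 + 1)) := Real.sqrt_pos.2 (by positivity)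
    rw [sum_nb_succ, hexQ_zero (n := c + 1 + 2) (by rw [hs]; unfold Adj; omega), zero_mul, zero_div,
      add_zero, hex_comm' hs' hs, lx_du, mu_two, mu_two, mu_two]
    push_cast
    rw [show ((c : ℝ) + 1 + 1 + 1) * (c + 1) = (c + 1) * (c + 2 + 1) by ring]
    field_simp
  · obtain rfl : m' = c := by omega
    have k1 := hex_key hs' hs γ α
    rw [Real.sqrt_mul_self (by positivity)]
    rcases m' with _ | k
    · have k2 := hex_A1_zero hs' hs γ α
      rw [sum_nb_zero, lx_od, mu_two]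
      push_cast at k1 ⊢
      field_simp
      linear_combination 2 * k2 - k1
    · have k2 := hex_A1 hs' hs γ α
      rw [sum_nb_succ, lx_od, lx_dd, mu_two]
      push_cast at k1 ⊢
      field_simp
      linear_combination ((k : ℝ) + 3) * k2 - ((k : ℝ) + 2) * k1

lemma hex_sg_up (n : ℕ) : Conn.sg n (n + 1) = 1 := by unfold Conn.sg; rw [if_pos (by omega)]
lemma hex_sg_down (n : ℕ) : Conn.sg (n + 1) n = -1 := by unfold Conn.sg; rw [if_neg (by omega)]

/-- Compatibility of left and right Clebsch-Gordan maps, second form. -/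
lemma hexR {a m m' : ℕ} (h1 : Adj a m) (h2 : Adj m m') {t u' : St} (ht : sz t = a)
    (hu : sz u' = m') (α γ : Fin 2) :
    ∑ a' ∈ nb m', ∑ t' ∈ lev a', A u' t' γ * A t' t α * lx 2 (a', m') (a, m) /
        Real.sqrt (a' + 1) =
      ∑ u ∈ lev m, A u' u α * A u t γ / Real.sqrt (m + 1) := by
  have e1 : ∀ a', ∑ t' ∈ lev a', A u' t' γ * A t' t α * lx 2 (a', m') (a, m) /
      Real.sqrt (a' + 1) = sgn γ * (Conn.sg m' a' * hexQ a' u' t (bar γ) α *
        lx 2 (a', m') (a, m) / Real.sqrt (a' + 1)) := fun a' => by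
    rw [hexQ, Finset.mul_sum, Finset.sum_mul, Finset.sum_div, Finset.mul_sum]
    refine Finset.sum_congr rfl fun t' ht' => ?_
    rw [A5 u' t', hu, mem_lev.1 ht']; ring
  have e2 : ∑ u ∈ lev m, A u' u α * A u t γ / Real.sqrt (m + 1) =
      sgn γ * (Conn.sg m a * hexP m u' t (bar γ) α / Real.sqrt (m + 1)) := by
    rw [hexP, Finset.mul_sum, Finset.sum_div, Finset.mul_sum]
    refine Finset.sum_congr rfl fun u hu' => ?_
    rw [A5 u t, ht, mem_lev.1 hu']; ring
  simp only [e1]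
  rw [e2, ← Finset.mul_sum]
  congr 1
  generalize bar γ = δ
  rcases h1 with rfl | rfl <;> rcases h2 with h2 | h2
  · subst h2
    rw [sum_nb_succ, hexQ_zero (n := a + 1 + 2) (by rw [ht]; unfold Adj; omega), hex_comm' hu ht,
      lx_uu, hex_sg_down, hex_sg_down]
    ring
  · obtain rfl : m' = a := by omega
    have k1 := hex_key hu ht δ α
    rcases m' with _ | k
    · have k2 := hex_A1_zero hu ht δ α
      rw [sum_nb_zero, lx_ou, mu_two, hex_sg_down, hex_sg_up]
      push_cast at k1 ⊢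
      field_simp
      linear_combination k1 - 2 * k2
    · have k2 := hex_A1 hu ht δ α
      rw [sum_nb_succ, lx_ou, lx_ud, mu_two, mu_two, mu_two, hex_sg_down, hex_sg_down, hex_sg_up,
        Real.sqrt_mul (by positivity)]
      push_cast at k1 ⊢
      have p1 : 0 < Real.sqrt ((k : ℝ) + 1) := Real.sqrt_pos.2 (by positivity)
      have p2 : 0 < Real.sqrt ((k : ℝ) + 2 + 1) := Real.sqrt_pos.2 (by positivity)
      have q2 : Real.sqrt ((k : ℝ) + 2 + 1) ^ 2 = k + 2 + 1 := Real.sq_sqrt (by positivity)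
      rw [show (k : ℝ) + 1 + 1 + 1 = k + 2 + 1 by ring]
      field_simp
      rw [q2]
      linear_combination ((k : ℝ) + 2) * k1 - ((k : ℝ) + 3) * k2
  · subst h2
    have k1 := hex_key hu ht δ α
    have k2 := hex_A1 hu ht δ α
    have k3 := hex_A4 hu ht δ α
    rw [sum_nb_succ, lx_od, lx_du, mu_two, mu_two, mu_two, hex_sg_down, hex_sg_up, hex_sg_up,
      Real.sqrt_mul (by positivity)]
    push_cast at k1 ⊢
    have p1 : 0 < Real.sqrt ((m : ℝ) + 1) := Real.sqrt_pos.2 (by positivity)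
    have p2 : 0 < Real.sqrt ((m : ℝ) + 2 + 1) := Real.sqrt_pos.2 (by positivity)
    have q1 : Real.sqrt ((m : ℝ) + 1) ^ 2 = m + 1 := Real.sq_sqrt (by positivity)
    field_simp
    rw [q1]
    linear_combination ((m : ℝ) + 2) * k1 - k2 - ((m : ℝ) + 2) * k3
  · subst h2
    have e3 : Conn.sg m' (m' + 1) * hexQ (m' + 1) u' t δ α * lx 2 (m' + 1, m') (m' + 1 + 1, m' + 1) /
        Real.sqrt (((m' + 1 : ℕ) : ℝ) + 1) = Conn.sg (m' + 1) (m' + 1 + 1) * hexP (m' + 1) u' t δ α /
        Real.sqrt (((m' + 1 : ℕ) : ℝ) + 1) := by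
      rw [hex_comm hu ht, lx_dd, hex_sg_up, hex_sg_up, mul_one]
    rcases m' with _ | k
    · rw [sum_nb_zero]; exact e3
    · rw [sum_nb_succ, hexQ_zero (by rw [ht]; unfold Adj; omega), mul_zero, zero_mul, zero_div,
        zero_add]
      exact e3

end Pool.Agent.Lib.MP_d81181_an
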