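import Pool.Agent.Lib.MP_d81181_an.LeafV
import Pool.Agent.Lib.MP_d81181_an.Hex

/-! The leaf of `Z ∘ X`. -/

open scoped Classical InnerProductSpace ComplexConjugate
open ContinuousLinearMap

noncomputable section

namespace Pool.Agent.Lib.MP_d81181_an

open Conn

/-- Validity of an index of the composite. -/
lemma rop_LV (Z : Conn) (s : St) (e : Z.E) (a m : ℕ) (t : St) :
    LV (comp Z cX) (s, (e, ((a, m) : ℕ × ℕ)), t) ↔
      (Z.valid e ∧ Adj a m ∧ Z.src e = m) ∧ sz s = Z.tgt e ∧ sz t = a := by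
  have h1 := comp_valid Z cX e ((a, m) : ℕ × ℕ)
  have h2 : cX.valid ((a, m) : ℕ × ℕ) ↔ Adj a m := letter_valid le_rfl a m
  rw [h2] at h1
  exact and_congr h1 Iff.rfl

/-- The image of a basis vector. -/
def ropv (Z : Conn) (γ : Fin 2) (s : St) (e : Z.E) (m : ℕ) (t : St) : HL Z :=
  ∑ u ∈ lev m, ((A u t γ / Real.sqrt (m + 1) : ℝ) : ℂ) • bv Z s e u

lemma rop_coef (Z : Conn) (γ : Fin 2) {s' : St} {g : Z.E} {u' : St} (hq : LV Z (s', g, u'))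
    (s : St) (e : Z.E) (t : St) :
    ⟪bv Z s' g u', ropv Z γ s e (Z.src e) t⟫_ℂ =
      ((A u' t γ / Real.sqrt (Z.src g + 1) * ind (s' = s ∧ g = e) : ℝ) : ℂ) := by
  rw [ropv, inner_sum]
  simp only [inner_smul_right, inner_bv]
  by_cases h : s' = s ∧ g = e
  · obtain ⟨rfl, rfl⟩ := h
    rw [Finset.sum_eq_single u']
    · rw [ind_of ⟨⟨rfl, rfl, rfl⟩, hq⟩, ind_of ⟨rfl, rfl⟩]; simp
    · intro b _ hb
      rw [ind_of_not (fun h => hb h.1.2.2.symm)]; simp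
    · intro h; exact absurd (mem_lev.mpr hq.2.2) h
  · rw [ind_of_not h]
    simp only [mul_zero, Complex.ofReal_zero]
    refine Finset.sum_eq_zero fun u _ => ?_
    rw [ind_of_not (fun h' => h ⟨h'.1.1, h'.1.2.1⟩)]; simp

lemma rop_gram (Z : Conn) {s s' : St} {e e' : Z.E} {a a' m m' : ℕ} {t t' : St}
    (hp : LV (comp Z cX) (s, (e, ((a, m) : ℕ × ℕ)), t))
    (hq : LV (comp Z cX) (s', (e', ((a', m') : ℕ × ℕ)), t')) :
    ∑ γ, ⟪ropv Z γ s e m t, ropv Z γ s' e' m' t'⟫_ℂ =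
      (ind (s = s' ∧ ((e, ((a, m) : ℕ × ℕ)) : Z.E × (ℕ × ℕ)) = (e', ((a', m') : ℕ × ℕ)) ∧ t = t') :
        ℂ) := by
  obtain ⟨⟨hv, had, rfl⟩, hs, rfl⟩ := (rop_LV Z _ _ _ _ _).mp hp
  obtain ⟨⟨hv', had', rfl⟩, hs', rfl⟩ := (rop_LV Z _ _ _ _ _).mp hq
  have h1 : ∀ γ, ⟪ropv Z γ s e (Z.src e) t, ropv Z γ s' e' (Z.src e') t'⟫_ℂ =
      ((∑ u ∈ lev (Z.src e), A u t γ * A u t' γ / (Z.src e + 1) * ind (s = s' ∧ e = e') : ℝ) :
        ℂ) := fun γ => by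
    rw [ropv, sum_inner, Complex.ofReal_sum]
    refine Finset.sum_congr rfl fun u hu => ?_
    rw [inner_smul_left, rop_coef Z γ (s' := s) (g := e) (u' := u) ⟨hv, hs, mem_lev.mp hu⟩,
      Complex.conj_ofReal, ← Complex.ofReal_mul]
    congr 1
    have h0 : (0 : ℝ) ≤ (Z.src e : ℝ) + 1 := by positivity
    rw [← mul_assoc, div_mul_div_comm, Real.mul_self_sqrt h0]
  simp only [h1]
  rw [← Complex.ofReal_sum]
  congr 1
  simp only [← Finset.sum_mul, ← Finset.sum_div]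
  rw [A3]
  have h0 : (Z.src e : ℝ) + 1 ≠ 0 := by positivity
  rw [mul_div_cancel_left₀ _ h0, ← ind_and]
  refine ind_congr ⟨?_, ?_⟩
  · rintro ⟨⟨rfl, _⟩, rfl, rfl⟩; exact ⟨rfl, rfl, rfl⟩
  · rintro ⟨rfl, h, rfl⟩
    exact ⟨⟨rfl, had.symm⟩, rfl, (Prod.mk.inj h).1⟩

lemma rop_exists (Z : Conn) (γ : Fin 2) : ∃ r : HL (comp Z cX) →L[ℂ] HL Z,
    ∀ s e (a m : ℕ) t, LV (comp Z cX) (s, (e, ((a, m) : ℕ × ℕ)), t) →
      r (bv (comp Z cX) s (e, ((a, m) : ℕ × ℕ)) t) = ropv Z γ s e m t := by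
  obtain ⟨T, hT⟩ := exists_op_bvec (F := HL Z) (F' := HL Z) (LV (comp Z cX))
    (fun p => ropv Z γ p.1 p.2.1.1 (p.2.1.2 : ℕ × ℕ).2 p.2.2)
    (fun p => ropv Z (bar γ) p.1 p.2.1.1 (p.2.1.2 : ℕ × ℕ).2 p.2.2) (by
      rintro ⟨s, ⟨e, a, m⟩, t⟩ ⟨s', ⟨e', a', m'⟩, t'⟩ hp hq
      have h := rop_gram Z hp hq
      rw [Fin.sum_univ_two] at h
      have h3 : ⟪ropv Z γ s e m t, ropv Z γ s' e' m' t'⟫_ℂ +
          ⟪ropv Z (bar γ) s e m t, ropv Z (bar γ) s' e' m' t'⟫_ℂ =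
          ⟪ropv Z 0 s e m t, ropv Z 0 s' e' m' t'⟫_ℂ +
          ⟪ropv Z 1 s e m t, ropv Z 1 s' e' m' t'⟫_ℂ := by
        fin_cases γ
        · rfl
        · exact add_comm _ _
      refine h3.trans (h.trans ?_)
      refine congrArg _ (ind_congr ⟨?_, ?_⟩)
      · rintro ⟨rfl, h2, rfl⟩
        exact congrArg (fun z => ((s, z, t) : Raw (comp Z cX))) h2
      · intro h2
        exact ⟨congrArg (fun z : Raw (comp Z cX) => z.1) h2,
          congrArg (fun z : Raw (comp Z cX) => z.2.1) h2,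
          congrArg (fun z : Raw (comp Z cX) => z.2.2) h2⟩)
  exact ⟨T, fun s e a m t h => hT (s, (e, ((a, m) : ℕ × ℕ)), t) h⟩

lemma rop_adj (Z : Conn) (γ : Fin 2) {r : HL (comp Z cX) →L[ℂ] HL Z}
    (hr : ∀ s e (a m : ℕ) t, LV (comp Z cX) (s, (e, ((a, m) : ℕ × ℕ)), t) →
      r (bv (comp Z cX) s (e, ((a, m) : ℕ × ℕ)) t) = ropv Z γ s e m t)
    {s' : St} {g : Z.E} {u' : St} (hq : LV Z (s', g, u')) :
    adjoint r (bv Z s' g u') = ∑ a' ∈ nb (Z.src g), ∑ t' ∈ lev a',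
      ((A u' t' γ / Real.sqrt (Z.src g + 1) : ℝ) : ℂ) •
        bv (comp Z cX) s' (g, ((a', Z.src g) : ℕ × ℕ)) t' := by
  refine bv_vec_ext ?_
  rintro s ⟨e, a, m⟩ t hp
  rw [adjoint_inner_right, hr s e a m t hp]
  obtain ⟨⟨hv, had, rfl⟩, hs, rfl⟩ := (rop_LV Z _ _ _ _ _).mp hp
  rw [← inner_conj_symm, rop_coef Z γ hq, Complex.conj_ofReal]
  simp only [inner_sum, inner_smul_right, inner_bv]
  by_cases h : s' = s ∧ g = e
  · obtain ⟨rfl, rfl⟩ := h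
    rw [Finset.sum_eq_single (sz t), Finset.sum_eq_single t]
    · rw [ind_of ⟨rfl, rfl⟩, ind_of ⟨⟨rfl, rfl, rfl⟩, hp⟩]; simp
    · intro b _ hb
      rw [ind_of_not (fun h => hb h.1.2.2.symm)]; simp
    · intro h; exact absurd (mem_lev.mpr rfl) h
    · intro b _ hb
      refine Finset.sum_eq_zero fun t' _ => ?_
      rw [ind_of_not]
      · simp
      · rintro ⟨⟨_, h, _⟩, _⟩
        exact hb (Prod.mk.inj (Prod.mk.inj h).2).1.symm
    · intro h; exact absurd (mem_nb.mpr had.symm) h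
  · rw [ind_of_not h]
    simp only [mul_zero, Complex.ofReal_zero]
    symm
    refine Finset.sum_eq_zero fun a' _ => Finset.sum_eq_zero fun t' _ => ?_
    rw [ind_of_not]
    · simp
    · rintro ⟨⟨h1, h2, _⟩, _⟩
      exact h ⟨h1.symm, (Prod.mk.inj h2).1.symm⟩

lemma rop_Vk (Z : Conn) (α' α : Fin 2) (s' s : St) (g e : Z.E) (a' a : ℕ) (t' t : St) :
    Vk (comp Z cX) α' α (s', (g, ((a', Z.src g) : ℕ × ℕ)), t') (s, (e, ((a, Z.src e) : ℕ × ℕ)), t) =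
      A s' s α * A t' t α' * (Z.x g e * lx 2 (a', Z.src g) (a, Z.src e)) /
        Real.sqrt ((sz s + 1) * (sz t' + 1)) := by
  change A s' s α * A t' t α' * (ind (Z.src g = Z.src g) * ind (Z.src e = Z.src e) *
    (Z.x g e * lx 2 (a', Z.src g) (a, Z.src e))) / Real.sqrt ((sz s + 1) * (sz t' + 1)) = _
  rw [ind_of rfl, ind_of rfl, one_mul, one_mul]

lemma rop_intw (Z : Conn) (γ : Fin 2) {r : HL (comp Z cX) →L[ℂ] HL Z}
    (hr : ∀ s e (a m : ℕ) t, LV (comp Z cX) (s, (e, ((a, m) : ℕ × ℕ)), t) →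
      r (bv (comp Z cX) s (e, ((a, m) : ℕ × ℕ)) t) = ropv Z γ s e m t) :
    Intw (VL (comp Z cX)) (VL Z) r := by
  intro α' α
  refine bv_ext ?_
  rintro s ⟨e, a, m⟩ t hp
  refine bv_vec_ext fun s' g u' hq => ?_
  rw [comp_apply, comp_apply, hr s e a m t hp, ← adjoint_inner_left r, rop_adj Z γ hr hq]
  obtain ⟨⟨hv, had, rfl⟩, hs, rfl⟩ := (rop_LV Z _ _ _ _ _).mp hp
  have hL : ⟪bv Z s' g u', VL Z α' α (ropv Z γ s e (Z.src e) t)⟫_ℂ =
      ((∑ u ∈ lev (Z.src e), A u t γ / Real.sqrt (Z.src e + 1) *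
        Vk Z α' α (s', g, u') (s, e, u) : ℝ) : ℂ) := by
    rw [ropv, map_sum, inner_sum, Complex.ofReal_sum]
    refine Finset.sum_congr rfl fun u hu => ?_
    rw [map_smul, inner_smul_right, Complex.ofReal_mul]
    congr 1
    exact inner_VL Z α' α hq (p := (s, e, u)) ⟨hv, hs, mem_lev.mp hu⟩
  have hR : ⟪∑ a' ∈ nb (Z.src g), ∑ t' ∈ lev a',
      ((A u' t' γ / Real.sqrt (Z.src g + 1) : ℝ) : ℂ) •
        bv (comp Z cX) s' (g, ((a', Z.src g) : ℕ × ℕ)) t',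
      VL (comp Z cX) α' α (bv (comp Z cX) s (e, ((sz t, Z.src e) : ℕ × ℕ)) t)⟫_ℂ =
      ((∑ a' ∈ nb (Z.src g), ∑ t' ∈ lev a', A u' t' γ / Real.sqrt (Z.src g + 1) *
        (A s' s α * A t' t α' * (Z.x g e * lx 2 (a', Z.src g) (sz t, Z.src e)) /
          Real.sqrt ((sz s + 1) * (a' + 1))) : ℝ) : ℂ) := by
    rw [sum_inner, Complex.ofReal_sum]
    refine Finset.sum_congr rfl fun a' ha' => ?_
    rw [sum_inner, Complex.ofReal_sum]
    refine Finset.sum_congr rfl fun t' ht' => ?_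
    rw [inner_smul_left, Complex.conj_ofReal, Complex.ofReal_mul]
    congr 1
    have ht := mem_lev.mp ht'
    subst ht
    rw [← rop_Vk]
    exact inner_VL (comp Z cX) α' α (q := (s', (g, ((sz t', Z.src g) : ℕ × ℕ)), t'))
      ((rop_LV Z _ _ _ _ _).mpr ⟨⟨hq.1, (mem_nb.mp ha').symm, rfl⟩, hq.2.1, rfl⟩) hp
  refine hL.trans (Eq.trans ?_ hR.symm)
  congr 1
  by_cases hx : Z.x g e = 0
  · simp [Vk, hx]
  have hadj : Adj (Z.src e) (Z.src g) := (Z.x_supp' hx).2.2.1.symm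
  have hu' : sz u' = Z.src g := hq.2.2
  have hex := hexR had hadj rfl hu' α' γ
  have key : ∀ K : ℝ, K * (∑ u ∈ lev (Z.src e), A u' u α' * A u t γ / Real.sqrt (Z.src e + 1)) =
      K * ∑ a' ∈ nb (Z.src g), ∑ t' ∈ lev a', A u' t' γ * A t' t α' *
        lx 2 (a', Z.src g) (sz t, Z.src e) / Real.sqrt (a' + 1) := fun K => by rw [hex]
  have h := key (A s' s α * Z.x g e / (Real.sqrt (sz s + 1) * Real.sqrt (Z.src g + 1)))
  have h0 : (0 : ℝ) ≤ (sz s : ℝ) + 1 := by positivity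
  simp only [Finset.mul_sum] at h
  refine Eq.trans (Finset.sum_congr rfl fun u _ => ?_) (h.trans ?_)
  · simp only [Vk, hu', Real.sqrt_mul h0]
    ring
  · refine Finset.sum_congr rfl fun a' _ => Finset.sum_congr rfl fun t' _ => ?_
    rw [Real.sqrt_mul h0]
    ring

/-- The leaf of `Z ∘ X` is two copies of the leaf of `Z`. -/
theorem exists_rop (Z : Conn) : ∃ r : Fin 2 → HL (comp Z cX) →L[ℂ] HL Z,
    ∑ γ, adjoint (r γ) ∘L r γ = 1 ∧ (∀ γ, Intw (VL (comp Z cX)) (VL Z) (r γ)) ∧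
    ∀ γ s e (a m : ℕ) t, LV (comp Z cX) (s, (e, ((a, m) : ℕ × ℕ)), t) →
      r γ (bv (comp Z cX) s (e, ((a, m) : ℕ × ℕ)) t) =
        ∑ u ∈ lev m, ((A u t γ / Real.sqrt (m + 1) : ℝ) : ℂ) • bv Z s e u := by
  choose r hr using rop_exists Z
  refine ⟨r, ?_, fun γ => rop_intw Z γ (hr γ), hr⟩
  refine bv_ext ?_
  rintro s ⟨e, a, m⟩ t hp
  refine bv_vec_ext ?_
  rintro s' ⟨e', a', m'⟩ t' hq
  rw [_root_.sum_apply, inner_sum, one_apply_eq_self, inner_bv]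
  simp only [comp_apply, adjoint_inner_right]
  have h1 : ∀ γ, ⟪r γ (bv (comp Z cX) s' (e', a', m') t'), r γ (bv (comp Z cX) s (e, a, m) t)⟫_ℂ =
      ⟪ropv Z γ s' e' m' t', ropv Z γ s e m t⟫_ℂ := fun γ => by
    rw [hr γ s e a m t hp, hr γ s' e' a' m' t' hq]
  refine (Finset.sum_congr rfl fun γ _ => h1 γ).trans ((rop_gram Z hq hp).trans ?_)
  congr 1
  exact ind_congr ⟨fun h => ⟨h, hp⟩, fun h => h.1⟩

end Pool.Agent.Lib.MP_d81181_an
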