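import Pool.Agent.Lib.MP_d81181_an.Emb
import Pool.Agent.Lib.MP_d81181_an.Rop

/-! Block diagonality in the right state. -/

open scoped Classical InnerProductSpace ComplexConjugate
open ContinuousLinearMap

noncomputable section

namespace Pool.Agent.Lib.MP_d81181_an

open Conn

/-- `y` does not change the right state. -/
def Blk (y : BH →L[ℂ] BH) : Prop :=
  ∀ (B : Tm) (s' s : St) (e' e : B.c.E) (t' t : St), t' ≠ t →
    ⟪JL B (bv B.c s' e' t'), y (JL B (bv B.c s e t))⟫_ℂ = 0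

lemma blk_adj (Z : Conn) (γ : Fin 2) {r : HL (comp Z cX) →L[ℂ] HL Z}
    (hr : ∀ s e (a m : ℕ) t, LV (comp Z cX) (s, (e, ((a, m) : ℕ × ℕ)), t) →
      r (bv (comp Z cX) s (e, ((a, m) : ℕ × ℕ)) t) = ropv Z γ s e m t)
    {s' : St} {e' : Z.E} {t' : St} (h' : LV Z (s', e', t')) :
    adjoint r (bv Z s' e' t') = ∑ u ∈ (nb (Z.src e')).biUnion lev,
      ((A t' u γ / Real.sqrt (Z.src e' + 1) : ℝ) : ℂ) •
        bv (comp Z cX) s' (e', ((sz u, Z.src e') : ℕ × ℕ)) u := by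
  refine bv_vec_ext ?_
  rintro s ⟨e, a, m⟩ t hp
  rw [adjoint_inner_right, hr _ _ _ _ _ hp]
  obtain ⟨⟨hv, had, rfl⟩, hs, rfl⟩ := (rop_LV Z _ _ _ _ _).mp hp
  rw [← inner_conj_symm, rop_coef Z γ h', Complex.conj_ofReal, inner_sum]
  simp only [inner_smul_right, inner_bv]
  by_cases h : s' = s ∧ e' = e
  · obtain ⟨rfl, rfl⟩ := h
    rw [Finset.sum_eq_single t]
    · rw [ind_of ⟨rfl, rfl⟩, ind_of ⟨⟨rfl, rfl, rfl⟩, hp⟩]; simp
    · intro b _ hb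
      rw [ind_of_not (fun h => hb h.1.2.2.symm)]; simp
    · intro h
      exact absurd (Finset.mem_biUnion.2 ⟨_, mem_nb.2 had.symm, mem_lev.2 rfl⟩) h
  · rw [ind_of_not h]
    simp only [mul_zero, Complex.ofReal_zero]
    refine (Finset.sum_eq_zero fun u _ => ?_).symm
    rw [ind_of_not (fun h' => h ⟨h'.1.1.symm, (Prod.mk.inj h'.1.2.1).1.symm⟩)]; simp

lemma blk_ropv (Z : Conn) (γ : Fin 2) (s : St) (e : Z.E) (t₀ : St) :
    ropv Z γ s e (sz t₀ + 1) t₀ =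
      ((Real.sqrt (co t₀ γ + 1) / Real.sqrt ((sz t₀ + 1 : ℕ) + 1) : ℝ) : ℂ) •
        bv Z s e (up γ t₀) := by
  rw [ropv, Finset.sum_eq_single (up γ t₀)]
  · rw [fk_A_above (sz_up γ t₀), ind_of rfl, one_mul]
  · intro u hu hne
    rw [fk_A_above (mem_lev.1 hu), ind_of_not hne]; simp
  · intro h
    exact absurd (mem_lev.2 (sz_up γ t₀)) h

lemma blk_ne (γ : Fin 2) (t₀ : St) :
    ((Real.sqrt (co t₀ γ + 1) / Real.sqrt ((sz t₀ + 1 : ℕ) + 1) : ℝ) : ℂ) ≠ 0 := by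
  have h1 : 0 < Real.sqrt (co t₀ γ + 1) := Real.sqrt_pos.2 (by positivity)
  have h2 : 0 < Real.sqrt ((sz t₀ + 1 : ℕ) + 1) := Real.sqrt_pos.2 (by positivity)
  exact_mod_cast (div_pos h1 h2).ne'

lemma blk_step {y : BH →L[ℂ] BH} (hy : y ∈ MM) (B : Tm) (s' s : St) (e' e : B.c.E) (γ : Fin 2)
    (t' t₀ : St) (h' : LV B.c (s', e', t')) (h : LV B.c (s, e, up γ t₀))
    (hz : ∀ u, u ≠ t₀ →
      ⟪JL (B.comp Tm.X) (bv (comp B.c cX) s' (e', ((sz u, B.c.src e') : ℕ × ℕ)) u),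
        y (JL (B.comp Tm.X) (bv (comp B.c cX) s (e, ((sz t₀, sz t₀ + 1) : ℕ × ℕ)) t₀))⟫_ℂ = 0) :
    ((Real.sqrt (co t₀ γ + 1) / Real.sqrt ((sz t₀ + 1 : ℕ) + 1) : ℝ) : ℂ) *
      ⟪JL B (bv B.c s' e' t'), y (JL B (bv B.c s e (up γ t₀)))⟫_ℂ =
    ((A t' t₀ γ / Real.sqrt (B.c.src e' + 1) : ℝ) : ℂ) *
      ⟪JL (B.comp Tm.X) (bv (comp B.c cX) s' (e', ((sz t₀, B.c.src e') : ℕ × ℕ)) t₀),
        y (JL (B.comp Tm.X) (bv (comp B.c cX) s (e, ((sz t₀, sz t₀ + 1) : ℕ × ℕ)) t₀))⟫_ℂ := by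
  obtain ⟨r, hr⟩ := rop_exists B.c γ
  have hv : LV (comp B.c cX) (s, (e, ((sz t₀, sz t₀ + 1) : ℕ × ℕ)), t₀) :=
    (rop_LV _ _ _ _ _ _).2 ⟨⟨h.1, Or.inl rfl, h.2.2.symm.trans (sz_up γ t₀)⟩, h.2.1, rfl⟩
  have h1 := (emb_JL (B.comp Tm.X)).nat_inner (emb_JL B) (T := r) (rop_intw B.c γ hr) hy
    (bv B.c s' e' t') (bv (comp B.c cX) s (e, ((sz t₀, sz t₀ + 1) : ℕ × ℕ)) t₀)
  have h2 := hr _ _ _ _ _ hv
  rw [blk_ropv] at h2
  have h3 := blk_adj B.c γ hr h'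
  let J : HL (comp B.c cX) →L[ℂ] BH := JL (B.comp Tm.X)
  change ⟪JL B (bv B.c s' e' t'),
      y (JL B (r (bv (comp B.c cX) s (e, ((sz t₀, sz t₀ + 1) : ℕ × ℕ)) t₀)))⟫_ℂ =
    ⟪J (adjoint r (bv B.c s' e' t')),
      y (J (bv (comp B.c cX) s (e, ((sz t₀, sz t₀ + 1) : ℕ × ℕ)) t₀))⟫_ℂ at h1
  rw [h2, h3, map_smul, map_smul, inner_smul_right, map_sum, sum_inner,
    Finset.sum_eq_single t₀] at h1
  · rw [map_smul, inner_smul_left, Complex.conj_ofReal] at h1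
    exact h1
  · intro u _ hu
    rw [map_smul, inner_smul_left]
    exact mul_eq_zero_of_right _ (hz u hu)
  · intro hn
    rw [fk_A_eq_zero]
    · simp
    · intro had
      exact hn (Finset.mem_biUnion.2 ⟨_, mem_nb.2 (h'.2.2 ▸ had), mem_lev.2 rfl⟩)

theorem blk_of_base {y : BH →L[ℂ] BH} (hy : y ∈ MM) (hs : star y = y)
    (h : ∀ (B : Tm) (s' s : St) (e' e : B.c.E) (t' : St), t' ≠ (0, 0) →
      ⟪JL B (bv B.c s' e' t'), y (JL B (bv B.c s e (0, 0)))⟫_ℂ = 0) : Blk y := by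
  have key : ∀ n, ∀ (B : Tm) (s' s : St) (e' e : B.c.E) (t' t : St), t' ≠ t → sz t = n →
      n ≤ sz t' → ⟪JL B (bv B.c s' e' t'), y (JL B (bv B.c s e t))⟫_ℂ = 0 := by
    intro n
    induction n with
    | zero =>
      intro B s' s e' e t' t hne ht _
      obtain rfl := sz_eq_zero ht
      exact h B s' s e' e t' hne
    | succ n ih =>
      intro B s' s e' e t' t hne ht hle
      obtain ⟨γ, t₀, ht₀, rfl⟩ := exists_up ht
      by_cases h1 : LV B.c (s', e', t')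
      swap
      · rw [bv_of_not h1, map_zero, inner_zero_left]
      by_cases h2 : LV B.c (s, e, up γ t₀)
      swap
      · rw [bv_of_not h2, map_zero, map_zero, inner_zero_right]
      have h3 := blk_step hy B s' s e' e γ t' t₀ h1 h2 fun u hu => by
        by_cases h4 : LV (comp B.c cX) (s', (e', ((sz u, B.c.src e') : ℕ × ℕ)), u)
        · refine ih (B.comp Tm.X) _ _ _ _ u t₀ hu ht₀ ?_
          have h5 := ((rop_LV _ _ _ _ _ _).1 h4).1.2.1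
          have h6 : sz t' = B.c.src e' := h1.2.2
          unfold Adj at h5
          omega
        · rw [bv_of_not h4]
          change ⟪JL (B.comp Tm.X) 0, _⟫_ℂ = 0
          rw [map_zero, inner_zero_left]
      have h5 : A t' t₀ γ = 0 := by
        by_cases h6 : sz t' = sz t₀ + 1
        · rw [fk_A_above h6, ind_of_not hne, zero_mul]
        · refine fk_A_eq_zero ?_ γ
          unfold Adj
          omega
      rw [h5, zero_div, Complex.ofReal_zero, zero_mul] at h3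
      exact (mul_eq_zero.1 h3).resolve_left (blk_ne γ t₀)
  intro B s' s e' e t' t hne
  rcases le_total (sz t) (sz t') with hle | hle
  · exact key _ B s' s e' e t' t hne rfl hle
  · have h1 := key _ B s s' e e' t t' hne.symm rfl hle
    rw [← hs, star_eq_adjoint, adjoint_inner_right, ← inner_conj_symm, h1, map_zero]

theorem Blk.lift {y : BH →L[ℂ] BH} (hy : y ∈ MM) (hb : Blk y) (B : Tm) (s' s : St)
    (e' e : B.c.E) (γ : Fin 2) (t₀ : St) (h' : LV B.c (s', e', up γ t₀))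
    (h : LV B.c (s, e, up γ t₀)) :
    ⟪JL B (bv B.c s' e' (up γ t₀)), y (JL B (bv B.c s e (up γ t₀)))⟫_ℂ =
      ⟪JL (B.comp Tm.X) (bv (comp B.c cX) s' (e', ((sz t₀, sz t₀ + 1) : ℕ × ℕ)) t₀),
        y (JL (B.comp Tm.X) (bv (comp B.c cX) s (e, ((sz t₀, sz t₀ + 1) : ℕ × ℕ)) t₀))⟫_ℂ := by
  have h3 := blk_step hy B s' s e' e γ (up γ t₀) t₀ h' h fun u hu =>
    hb (B.comp Tm.X) _ _ _ _ u t₀ hu
  have h4 : B.c.src e' = sz t₀ + 1 := h'.2.2.symm.trans (sz_up γ t₀)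
  rw [fk_A_above (sz_up γ t₀), ind_of rfl, one_mul, h4] at h3
  exact mul_left_cancel₀ (blk_ne γ t₀) h3

end Pool.Agent.Lib.MP_d81181_an
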