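import Pool.Agent.Lib.MP_d81181_an.Hilb

/-!
Weighted biunitary connections over the graph `A_∞` (vertices `ℕ`, edges `n ~ n+1`).
-/

open scoped Classical

noncomputable section

namespace Pool.Agent.Lib.MP_d81181_an

/-- Adjacency in the half line graph. -/
def Adj (a b : ℕ) : Prop := a + 1 = b ∨ b + 1 = a

lemma Adj.symm {a b : ℕ} (h : Adj a b) : Adj b a := Or.symm h
lemma adj_comm {a b : ℕ} : Adj a b ↔ Adj b a := ⟨Adj.symm, Adj.symm⟩

/-- The neighbours of a vertex. -/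
def nb (a : ℕ) : Finset ℕ := (Finset.range (a + 2)).filter (fun b => Adj a b)

lemma mem_nb {a b : ℕ} : b ∈ nb a ↔ Adj a b := by
  simp only [nb, Finset.mem_filter, Finset.mem_range, and_iff_right_iff_imp]
  rintro (h | h) <;> omega

lemma nb_zero : nb 0 = {1} := by
  ext b; simp only [mem_nb, Adj, Finset.mem_singleton]; omega

lemma nb_succ (a : ℕ) : nb (a + 1) = {a, a + 2} := by
  ext b; simp only [mem_nb, Adj, Finset.mem_insert, Finset.mem_singleton]; omega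

lemma sum_nb_zero {M : Type*} [AddCommMonoid M] (F : ℕ → M) : ∑ b ∈ nb 0, F b = F 1 := by
  rw [nb_zero, Finset.sum_singleton]

lemma sum_nb_succ {M : Type*} [AddCommMonoid M] (a : ℕ) (F : ℕ → M) :
    ∑ b ∈ nb (a + 1), F b = F a + F (a + 2) := by
  rw [nb_succ, Finset.sum_pair (by omega)]

/-- A finite type weighted biunitary connection over `A_∞`.  Raw edges `E`; the valid edges are
those with `e ∈ out (src e)`.  The number `x g e` is the value of the cell with vertical edges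
`e` and `g` (the horizontal edges being `src e ~ src g` and `tgt e ~ tgt g`). -/
structure Conn where
  E : Type
  src : E → ℕ
  tgt : E → ℕ
  out : ℕ → Finset E
  inn : ℕ → Finset E
  src_of_out : ∀ {a e}, e ∈ out a → src e = a
  tgt_of_inn : ∀ {c e}, e ∈ inn c → tgt e = c
  out_iff_inn : ∀ e, e ∈ out (src e) ↔ e ∈ inn (tgt e)
  w : E → ℝ
  w_pos : ∀ e, 0 < w e
  x : E → E → ℝ
  x_supp : ∀ {g e}, x g e ≠ 0 →
    g ∈ out (src g) ∧ e ∈ out (src e) ∧ Adj (src g) (src e) ∧ Adj (tgt g) (tgt e)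
  U1a : ∀ c e e', src e = src e' →
    ∑ g ∈ inn c, x g e * x g e' = ind (e = e' ∧ e ∈ out (src e) ∧ Adj c (tgt e))
  U1b : ∀ a g g', tgt g = tgt g' →
    ∑ e ∈ out a, x g e * x g' e = ind (g = g' ∧ g ∈ out (src g) ∧ Adj a (src g))
  U2a : ∀ a e e', tgt e = tgt e' →
    ∑ g ∈ out a, w g * (x g e * x g e') = w e * ind (e = e' ∧ e ∈ out (src e) ∧ Adj a (src e))
  U2b : ∀ c g g', src g = src g' →
    ∑ e ∈ inn c, (w e)⁻¹ * (x g e * x g' e) =
      (w g)⁻¹ * ind (g = g' ∧ g ∈ out (src g) ∧ Adj c (tgt g))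

namespace Conn

/-- Valid edges. -/
def valid (B : Conn) (e : B.E) : Prop := e ∈ B.out (B.src e)

lemma mem_out (B : Conn) {a : ℕ} {e : B.E} : e ∈ B.out a ↔ B.valid e ∧ B.src e = a :=
  ⟨fun h => ⟨by rw [valid, B.src_of_out h]; exact h, B.src_of_out h⟩,
    fun h => by rw [← h.2]; exact h.1⟩

lemma mem_inn (B : Conn) {c : ℕ} {e : B.E} : e ∈ B.inn c ↔ B.valid e ∧ B.tgt e = c :=
  ⟨fun h => ⟨(B.out_iff_inn e).mpr (by rw [B.tgt_of_inn h]; exact h), B.tgt_of_inn h⟩,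
    fun h => by rw [← h.2]; exact (B.out_iff_inn e).mp h.1⟩

lemma x_supp' (B : Conn) {g e : B.E} (h : B.x g e ≠ 0) :
    B.valid g ∧ B.valid e ∧ Adj (B.src g) (B.src e) ∧ Adj (B.tgt g) (B.tgt e) := B.x_supp h

lemma w_ne (B : Conn) (e : B.E) : B.w e ≠ 0 := (B.w_pos e).ne'

lemma wC_ne (B : Conn) (e : B.E) : (B.w e : ℂ) ≠ 0 := by exact_mod_cast B.w_ne e

/-- A sum over outgoing edges of a function supported on a fixed target is a sum over incoming
edges. -/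
lemma sum_out_eq_sum_inn {M : Type*} [AddCommMonoid M] (B : Conn) (a c : ℕ) (F : B.E → M)
    (h : ∀ e, F e ≠ 0 → B.valid e → (B.src e = a ↔ B.tgt e = c)) :
    ∑ e ∈ B.out a, F e = ∑ e ∈ B.inn c, F e := by
  rw [← Finset.sum_filter_ne_zero (B.out a), ← Finset.sum_filter_ne_zero (B.inn c)]
  refine Finset.sum_congr ?_ fun _ _ => rfl
  ext e
  simp only [Finset.mem_filter, mem_out, mem_inn]
  constructor
  · rintro ⟨⟨h1, h2⟩, h3⟩; exact ⟨⟨h1, (h e h3 h1).mp h2⟩, h3⟩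
  · rintro ⟨⟨h1, h2⟩, h3⟩; exact ⟨⟨h1, (h e h3 h1).mpr h2⟩, h3⟩

lemma U1aC (B : Conn) (c : ℕ) (e e' : B.E) (h : B.src e = B.src e') :
    ∑ g ∈ B.inn c, (B.x g e : ℂ) * B.x g e' = ind (e = e' ∧ B.valid e ∧ Adj c (B.tgt e)) := by
  exact_mod_cast B.U1a c e e' h

lemma U1bC (B : Conn) (a : ℕ) (g g' : B.E) (h : B.tgt g = B.tgt g') :
    ∑ e ∈ B.out a, (B.x g e : ℂ) * B.x g' e = ind (g = g' ∧ B.valid g ∧ Adj a (B.src g)) := by
  exact_mod_cast B.U1b a g g' h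

lemma U2aC (B : Conn) (a : ℕ) (e e' : B.E) (h : B.tgt e = B.tgt e') :
    ∑ g ∈ B.out a, (B.w g : ℂ) * ((B.x g e : ℂ) * B.x g e') =
      B.w e * ind (e = e' ∧ B.valid e ∧ Adj a (B.src e)) := by
  exact_mod_cast B.U2a a e e' h

lemma U2bC (B : Conn) (c : ℕ) (g g' : B.E) (h : B.src g = B.src g') :
    ∑ e ∈ B.inn c, (B.w e : ℂ)⁻¹ * ((B.x g e : ℂ) * B.x g' e) =
      (B.w g : ℂ)⁻¹ * ind (g = g' ∧ B.valid g ∧ Adj c (B.tgt g)) := by
  exact_mod_cast B.U2b c g g' h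

/-- The unit connection. -/
def one : Conn where
  E := ℕ
  src a := a
  tgt a := a
  out a := {a}
  inn a := {a}
  src_of_out h := Finset.mem_singleton.mp h
  tgt_of_inn h := Finset.mem_singleton.mp h
  out_iff_inn _ := Iff.rfl
  w _ := 1
  w_pos _ := one_pos
  x g e := ind (Adj g e)
  x_supp h := ⟨Finset.mem_singleton_self _, Finset.mem_singleton_self _, ind_ne_zero h,
    ind_ne_zero h⟩
  U1a c e e' h := by
    subst h; rw [Finset.sum_singleton, ← ind_and]; exact ind_congr (by simp)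
  U1b c e e' h := by
    subst h; rw [Finset.sum_singleton, ← ind_and]; exact ind_congr (by simp [adj_comm])
  U2a c e e' h := by
    subst h; rw [Finset.sum_singleton, ← ind_and]; congr 1; exact ind_congr (by simp)
  U2b c e e' h := by
    subst h; rw [Finset.sum_singleton, ← ind_and]; congr 1; exact ind_congr (by simp [adj_comm])

/-- Reversal of all edges and of the cells (rotation by a half turn, without signs). -/
def flip (B : Conn) : Conn where
  E := B.E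
  src := B.tgt
  tgt := B.src
  out := B.inn
  inn := B.out
  src_of_out := B.tgt_of_inn
  tgt_of_inn := B.src_of_out
  out_iff_inn e := (B.out_iff_inn e).symm
  w e := (B.w e)⁻¹
  w_pos e := inv_pos.mpr (B.w_pos e)
  x g e := B.x e g
  x_supp h := by
    obtain ⟨h1, h2, h3, h4⟩ := B.x_supp h
    exact ⟨(B.out_iff_inn _).mp h2, (B.out_iff_inn _).mp h1, h4.symm, h3.symm⟩
  U1a c e e' h := by rw [B.U1b c e e' h, B.out_iff_inn]
  U1b c e e' h := by rw [B.U1a c e e' h, B.out_iff_inn]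
  U2a c e e' h := by rw [B.U2b c e e' h, B.out_iff_inn]
  U2b c e e' h := by simp only [inv_inv]; rw [B.U2a c e e' h, B.out_iff_inn]

/-- The sign of a step. -/
def sg (a b : ℕ) : ℝ := if a < b then 1 else -1

lemma sg_mul_self (a b : ℕ) : sg a b * sg a b = 1 := by
  unfold sg; split_ifs <;> norm_num

lemma sg_ne (a b : ℕ) : sg a b ≠ 0 := by unfold sg; split_ifs <;> norm_num

lemma conn_sg_ind {α : Type} (f : α → ℝ) (hf : ∀ e, f e * f e = 1) (e e' : α) (P : Prop) :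
    f e * f e' * ind (e = e' ∧ P) = ind (e = e' ∧ P) := by
  by_cases h : e = e'
  · subst h; rw [hf, one_mul]
  · rw [ind_of_not (fun hh => h hh.1), mul_zero]

/-- Multiplication of the cells by the signs of the two horizontal steps. -/
def twist (B : Conn) : Conn where
  E := B.E
  src := B.src
  tgt := B.tgt
  out := B.out
  inn := B.inn
  src_of_out := B.src_of_out
  tgt_of_inn := B.tgt_of_inn
  out_iff_inn := B.out_iff_inn
  w := B.w
  w_pos := B.w_pos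
  x g e := sg (B.src g) (B.src e) * sg (B.tgt g) (B.tgt e) * B.x g e
  x_supp h := B.x_supp (right_ne_zero_of_mul h)
  U1a c e e' h := by
    rw [← conn_sg_ind (fun k => sg c (B.tgt k)) (fun _ => sg_mul_self _ _) e e', ← B.U1a c e e' h,
      Finset.mul_sum]
    refine Finset.sum_congr rfl fun g hg => ?_
    rw [B.tgt_of_inn hg, ← h]
    linear_combination (sg c (B.tgt e) * sg c (B.tgt e') * (B.x g e * B.x g e')) *
      sg_mul_self (B.src g) (B.src e)
  U1b a g g' h := by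
    rw [← conn_sg_ind (fun k => sg (B.src k) a) (fun _ => sg_mul_self _ _) g g', ← B.U1b a g g' h,
      Finset.mul_sum]
    refine Finset.sum_congr rfl fun e he => ?_
    rw [B.src_of_out he, ← h]
    linear_combination (sg (B.src g) a * sg (B.src g') a * (B.x g e * B.x g' e)) *
      sg_mul_self (B.tgt g) (B.tgt e)
  U2a a e e' h := by
    rw [← conn_sg_ind (fun k => sg a (B.src k)) (fun _ => sg_mul_self _ _) e e', mul_left_comm,
      ← B.U2a a e e' h, Finset.mul_sum]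
    refine Finset.sum_congr rfl fun g hg => ?_
    rw [B.src_of_out hg, ← h]
    linear_combination (sg a (B.src e) * sg a (B.src e') * (B.w g * (B.x g e * B.x g e'))) *
      sg_mul_self (B.tgt g) (B.tgt e)
  U2b c g g' h := by
    rw [← conn_sg_ind (fun k => sg (B.tgt k) c) (fun _ => sg_mul_self _ _) g g', mul_left_comm,
      ← B.U2b c g g' h, Finset.mul_sum]
    refine Finset.sum_congr rfl fun e he => ?_
    rw [B.tgt_of_inn he, ← h]
    linear_combination (sg (B.tgt g) c * sg (B.tgt g') c * ((B.w e)⁻¹ * (B.x g e * B.x g' e))) *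
      sg_mul_self (B.src g) (B.src e)

/-- The rotated connection. -/
def rot (B : Conn) : Conn := B.flip.twist

lemma conn_diag {α : Type} (f : α → ℝ) (e e' : α) (P : Prop) :
    f e * f e' * ind (e = e' ∧ P) = f e * f e * ind (e = e' ∧ P) := by
  by_cases h : e = e'
  · subst h; rfl
  · rw [ind_of_not (fun hh => h hh.1), mul_zero, mul_zero]

lemma conn_sqrt (B : Conn) (e : B.E) : Real.sqrt (B.w e) * Real.sqrt (B.w e) = B.w e :=
  Real.mul_self_sqrt (B.w_pos e).le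

lemma conn_sqrt_inv (B : Conn) (e : B.E) :
    (Real.sqrt (B.w e))⁻¹ * (Real.sqrt (B.w e))⁻¹ = (B.w e)⁻¹ := by
  rw [← mul_inv, conn_sqrt]

/-- The conjugate connection (vertical reflection). -/
def conj (B : Conn) : Conn where
  E := B.E
  src := B.tgt
  tgt := B.src
  out := B.inn
  inn := B.out
  src_of_out := B.tgt_of_inn
  tgt_of_inn := B.src_of_out
  out_iff_inn e := (B.out_iff_inn e).symm
  w e := (B.w e)⁻¹
  w_pos e := inv_pos.mpr (B.w_pos e)
  x g e := Real.sqrt (B.w g) * (Real.sqrt (B.w e))⁻¹ * B.x g e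
  x_supp h := by
    obtain ⟨h1, h2, h3, h4⟩ := B.x_supp (right_ne_zero_of_mul h)
    exact ⟨(B.out_iff_inn _).mp h1, (B.out_iff_inn _).mp h2, h4, h3⟩
  U1a c e e' h := by
    have h1 : ∑ g ∈ B.out c, Real.sqrt (B.w g) * (Real.sqrt (B.w e))⁻¹ * B.x g e *
        (Real.sqrt (B.w g) * (Real.sqrt (B.w e'))⁻¹ * B.x g e') =
        (Real.sqrt (B.w e))⁻¹ * (Real.sqrt (B.w e'))⁻¹ *
          ∑ g ∈ B.out c, B.w g * (B.x g e * B.x g e') := by
      rw [Finset.mul_sum]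
      refine Finset.sum_congr rfl fun g _ => ?_
      linear_combination ((Real.sqrt (B.w e))⁻¹ * (Real.sqrt (B.w e'))⁻¹ * (B.x g e * B.x g e')) *
        conn_sqrt B g
    rw [h1, B.U2a c e e' h, mul_left_comm, conn_diag (fun k => (Real.sqrt (B.w k))⁻¹),
      conn_sqrt_inv, ← mul_assoc, mul_inv_cancel₀ (B.w_ne e), one_mul, B.out_iff_inn]
  U1b a g g' h := by
    have h1 : ∑ e ∈ B.inn a, Real.sqrt (B.w g) * (Real.sqrt (B.w e))⁻¹ * B.x g e *
        (Real.sqrt (B.w g') * (Real.sqrt (B.w e))⁻¹ * B.x g' e) =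
        Real.sqrt (B.w g) * Real.sqrt (B.w g') *
          ∑ e ∈ B.inn a, (B.w e)⁻¹ * (B.x g e * B.x g' e) := by
      rw [Finset.mul_sum]
      refine Finset.sum_congr rfl fun e _ => ?_
      linear_combination (Real.sqrt (B.w g) * Real.sqrt (B.w g') * (B.x g e * B.x g' e)) *
        conn_sqrt_inv B e
    rw [h1, B.U2b a g g' h, mul_left_comm, conn_diag (fun k => Real.sqrt (B.w k)),
      conn_sqrt, ← mul_assoc, inv_mul_cancel₀ (B.w_ne g), one_mul, B.out_iff_inn]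
  U2a a e e' h := by
    have h1 : ∑ g ∈ B.inn a, (B.w g)⁻¹ * (Real.sqrt (B.w g) * (Real.sqrt (B.w e))⁻¹ * B.x g e *
        (Real.sqrt (B.w g) * (Real.sqrt (B.w e'))⁻¹ * B.x g e')) =
        (Real.sqrt (B.w e))⁻¹ * (Real.sqrt (B.w e'))⁻¹ *
          ∑ g ∈ B.inn a, B.x g e * B.x g e' := by
      rw [Finset.mul_sum]
      refine Finset.sum_congr rfl fun g _ => ?_
      linear_combination ((B.w g)⁻¹ * (Real.sqrt (B.w e))⁻¹ * (Real.sqrt (B.w e'))⁻¹ *
        (B.x g e * B.x g e')) * conn_sqrt B g + ((Real.sqrt (B.w e))⁻¹ * (Real.sqrt (B.w e'))⁻¹ *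
        (B.x g e * B.x g e')) * inv_mul_cancel₀ (B.w_ne g)
    rw [h1, B.U1a a e e' h, conn_diag (fun k => (Real.sqrt (B.w k))⁻¹), conn_sqrt_inv,
      B.out_iff_inn]
  U2b c g g' h := by
    have h1 : ∑ e ∈ B.out c, (B.w e)⁻¹⁻¹ * (Real.sqrt (B.w g) * (Real.sqrt (B.w e))⁻¹ * B.x g e *
        (Real.sqrt (B.w g') * (Real.sqrt (B.w e))⁻¹ * B.x g' e)) =
        Real.sqrt (B.w g) * Real.sqrt (B.w g') * ∑ e ∈ B.out c, B.x g e * B.x g' e := by
      rw [Finset.mul_sum]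
      refine Finset.sum_congr rfl fun e _ => ?_
      rw [inv_inv]
      linear_combination (B.w e * Real.sqrt (B.w g) * Real.sqrt (B.w g') *
        (B.x g e * B.x g' e)) * conn_sqrt_inv B e + (Real.sqrt (B.w g) * Real.sqrt (B.w g') *
        (B.x g e * B.x g' e)) * mul_inv_cancel₀ (B.w_ne e)
    rw [h1, B.U1b c g g' h, conn_diag (fun k => Real.sqrt (B.w k)), conn_sqrt, inv_inv,
      B.out_iff_inn]

/-- Outgoing edges of a composite. -/
def compOut (B C : Conn) (a : ℕ) : Finset (B.E × C.E) :=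
  (C.out a).biUnion fun e => (B.out (C.tgt e)).image fun g => (g, e)

/-- Incoming edges of a composite. -/
def compInn (B C : Conn) (c : ℕ) : Finset (B.E × C.E) :=
  (B.inn c).biUnion fun g => (C.inn (B.src g)).image fun e => (g, e)

lemma mem_compOut (B C : Conn) {a : ℕ} {p : B.E × C.E} :
    p ∈ compOut B C a ↔ B.valid p.1 ∧ C.valid p.2 ∧ B.src p.1 = C.tgt p.2 ∧ C.src p.2 = a := by
  obtain ⟨g, e⟩ := p
  simp only [compOut, Finset.mem_biUnion, Finset.mem_image, mem_out, Prod.mk.injEq]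
  constructor
  · rintro ⟨e', ⟨h1, h2⟩, g', ⟨h3, h4⟩, rfl, rfl⟩; exact ⟨h3, h1, h4, h2⟩
  · rintro ⟨h1, h2, h3, h4⟩; exact ⟨e, ⟨h2, h4⟩, g, ⟨h1, h3⟩, rfl, rfl⟩

lemma mem_compInn (B C : Conn) {c : ℕ} {p : B.E × C.E} :
    p ∈ compInn B C c ↔ B.valid p.1 ∧ C.valid p.2 ∧ B.src p.1 = C.tgt p.2 ∧ B.tgt p.1 = c := by
  obtain ⟨g, e⟩ := p
  simp only [compInn, Finset.mem_biUnion, Finset.mem_image, mem_inn, Prod.mk.injEq]
  constructor
  · rintro ⟨g', ⟨h1, h2⟩, e', ⟨h3, h4⟩, rfl, rfl⟩; exact ⟨h1, h3, h4.symm, h2⟩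
  · rintro ⟨h1, h2, h3, h4⟩; exact ⟨g, ⟨h1, h4⟩, e, ⟨h2, h3.symm⟩, rfl, rfl⟩

lemma sum_compOut {M : Type*} [AddCommMonoid M] (B C : Conn) (a : ℕ) (F : B.E × C.E → M) :
    ∑ p ∈ compOut B C a, F p = ∑ e ∈ C.out a, ∑ g ∈ B.out (C.tgt e), F (g, e) := by
  rw [compOut, Finset.sum_biUnion]
  · refine Finset.sum_congr rfl fun e _ => ?_
    rw [Finset.sum_image]; intro g _ g' _ h; exact (Prod.mk.inj h).1
  · intro e _ e' _ hne
    simp only [Function.onFun, Finset.disjoint_left, Finset.mem_image]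
    rintro _ ⟨g, _, rfl⟩ ⟨g', _, h⟩
    exact hne (Prod.mk.inj h).2.symm

lemma sum_compInn {M : Type*} [AddCommMonoid M] (B C : Conn) (c : ℕ) (F : B.E × C.E → M) :
    ∑ p ∈ compInn B C c, F p = ∑ g ∈ B.inn c, ∑ e ∈ C.inn (B.src g), F (g, e) := by
  rw [compInn, Finset.sum_biUnion]
  · refine Finset.sum_congr rfl fun g _ => ?_
    rw [Finset.sum_image]; intro e _ e' _ h; exact (Prod.mk.inj h).2
  · intro g _ g' _ hne
    simp only [Function.onFun, Finset.disjoint_left, Finset.mem_image]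
    rintro _ ⟨e, _, rfl⟩ ⟨e', _, h⟩
    exact hne (Prod.mk.inj h).1.symm

lemma conn_two {α β : Type} (s : Finset α) (t : α → Finset β) (F : α → β → ℝ) (u : α → ℝ)
    (v : α → β → ℝ) (k r : ℝ) (A : α → Prop) (P P' Q1 Q2 G : Prop)
    (hF : ∀ a ∈ s, ∀ b ∈ t a, F a b = ind Q1 * ind Q2 * (u a * v a b))
    (hin : ∀ a ∈ s, ∑ b ∈ t a, v a b = k * ind (P ∧ P' ∧ A a))
    (hA : Q1 → ∀ a ∈ s, u a ≠ 0 → A a)
    (hout : Q1 → Q2 → P → P' → ∑ a ∈ s, u a = r * ind G)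
    (hG : G → Q1 ∧ Q2 ∧ P ∧ P') :
    ∑ a ∈ s, ∑ b ∈ t a, F a b = k * r * ind G := by
  have h1 : ∀ a ∈ s, ∑ b ∈ t a, F a b = ind Q1 * ind Q2 * (u a * (k * ind (P ∧ P' ∧ A a))) := by
    intro a ha
    rw [Finset.sum_congr rfl (hF a ha), ← Finset.mul_sum, ← Finset.mul_sum, hin a ha]
  rw [Finset.sum_congr rfl h1]
  by_cases H : Q1 ∧ Q2 ∧ P ∧ P'
  · obtain ⟨q1, q2, p, p'⟩ := H
    rw [mul_assoc k, ← hout q1 q2 p p', Finset.mul_sum]
    refine Finset.sum_congr rfl fun a ha => ?_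
    by_cases hu : u a = 0
    · rw [hu]; ring
    · rw [ind_of q1, ind_of q2, ind_of ⟨p, p', hA q1 a ha hu⟩]; ring
  · rw [ind_of_not fun hg => H (hG hg), mul_zero]
    refine Finset.sum_eq_zero fun a _ => ?_
    by_cases q1 : Q1
    · by_cases q2 : Q2
      · rw [ind_of_not (P := P ∧ P' ∧ A a) fun hh => H ⟨q1, q2, hh.1, hh.2.1⟩]; ring
      · rw [ind_of_not q2]; ring
    · rw [ind_of_not q1]; ring

/-- The composite connection: an edge `(g, e)` is the path `e` (in `C`) followed by `g` (in `B`). -/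
def comp (B C : Conn) : Conn where
  E := B.E × C.E
  src p := C.src p.2
  tgt p := B.tgt p.1
  out := compOut B C
  inn := compInn B C
  src_of_out h := ((mem_compOut B C).mp h).2.2.2
  tgt_of_inn h := ((mem_compInn B C).mp h).2.2.2
  out_iff_inn p := by rw [mem_compOut, mem_compInn]; simp
  w p := B.w p.1 * C.w p.2
  w_pos p := mul_pos (B.w_pos _) (C.w_pos _)
  x q p := ind (B.src q.1 = C.tgt q.2) * ind (B.src p.1 = C.tgt p.2) * (B.x q.1 p.1 * C.x q.2 p.2)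
  x_supp {q p} h := by
    have h1 := ind_ne_zero (left_ne_zero_of_mul (left_ne_zero_of_mul h))
    have h2 := ind_ne_zero (right_ne_zero_of_mul (left_ne_zero_of_mul h))
    obtain ⟨b1, b2, -, b4⟩ := B.x_supp' (left_ne_zero_of_mul (right_ne_zero_of_mul h))
    obtain ⟨c1, c2, c3, -⟩ := C.x_supp' (right_ne_zero_of_mul (right_ne_zero_of_mul h))
    exact ⟨(mem_compOut B C).mpr ⟨b1, c1, h1, rfl⟩, (mem_compOut B C).mpr ⟨b2, c2, h2, rfl⟩, c3, b4⟩
  U1a c p p' h := by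
    obtain ⟨p1, p2⟩ := p
    obtain ⟨p1', p2'⟩ := p'
    rw [sum_compInn]
    refine (conn_two (B.inn c) (fun g => C.inn (B.src g)) _ (fun g => B.x g p1 * B.x g p1')
      (fun _ e => C.x e p2 * C.x e p2') 1 1 (fun g => Adj (B.src g) (C.tgt p2)) (p2 = p2')
      (p2 ∈ C.out (C.src p2)) (B.src p1 = C.tgt p2) (B.src p1' = C.tgt p2')
      ((p1, p2) = (p1', p2') ∧ (p1, p2) ∈ compOut B C (C.src p2) ∧ Adj c (B.tgt p1))
      (fun g _ e he => ?_) (fun g _ => ?_) (fun q1 g _ hu => ?_) (fun q1 q2 r1 r2 => ?_)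
      (fun hg => ?_)).trans (by rw [one_mul, one_mul])
    · rw [ind_of (C.tgt_of_inn he).symm]; ring
    · rw [one_mul]; exact C.U1a _ _ _ h
    · rw [← q1]; exact (B.x_supp' (left_ne_zero_of_mul hu)).2.2.1
    · subst r1
      rw [one_mul, B.U1a c p1 p1' (q1.trans q2.symm)]
      refine ind_congr ?_
      rw [mem_compOut, Prod.mk.injEq]
      exact ⟨fun hh => ⟨⟨hh.1, rfl⟩, ⟨hh.2.1, r2, q1, rfl⟩, hh.2.2⟩,
        fun hh => ⟨hh.1.1, hh.2.1.1, hh.2.2⟩⟩
    · obtain ⟨e1, e2, -⟩ := hg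
      obtain ⟨rfl, rfl⟩ := Prod.mk.inj e1
      obtain ⟨-, m2, m3, -⟩ := (mem_compOut B C).mp e2
      exact ⟨m3, m3, rfl, m2⟩
  U1b a q q' h := by
    obtain ⟨q1, q2⟩ := q
    obtain ⟨q1', q2'⟩ := q'
    rw [sum_compOut]
    refine (conn_two (C.out a) (fun e => B.out (C.tgt e)) _ (fun e => C.x q2 e * C.x q2' e)
      (fun _ g => B.x q1 g * B.x q1' g) 1 1 (fun e => Adj (C.tgt e) (B.src q1)) (q1 = q1')
      (q1 ∈ B.out (B.src q1)) (B.src q1 = C.tgt q2) (B.src q1' = C.tgt q2')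
      ((q1, q2) = (q1', q2') ∧ (q1, q2) ∈ compOut B C (C.src q2) ∧ Adj a (C.src q2))
      (fun e _ g hg => ?_) (fun e _ => ?_) (fun i1 e _ hu => ?_) (fun i1 i2 r1 r2 => ?_)
      (fun hg => ?_)).trans (by rw [one_mul, one_mul])
    · rw [ind_of (B.src_of_out hg)]; ring
    · rw [one_mul]; exact B.U1b _ _ _ h
    · rw [i1]; exact (C.x_supp' (left_ne_zero_of_mul hu)).2.2.2.symm
    · subst r1
      rw [one_mul, C.U1b a q2 q2' (i1.symm.trans i2)]
      refine ind_congr ?_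
      rw [mem_compOut, Prod.mk.injEq]
      exact ⟨fun hh => ⟨⟨rfl, hh.1⟩, ⟨r2, hh.2.1, i1, rfl⟩, hh.2.2⟩,
        fun hh => ⟨hh.1.2, hh.2.1.2.1, hh.2.2⟩⟩
    · obtain ⟨e1, e2, -⟩ := hg
      obtain ⟨rfl, rfl⟩ := Prod.mk.inj e1
      obtain ⟨m1, -, m3, -⟩ := (mem_compOut B C).mp e2
      exact ⟨m3, m3, rfl, m1⟩
  U2a a p p' h := by
    obtain ⟨p1, p2⟩ := p
    obtain ⟨p1', p2'⟩ := p'
    rw [sum_compOut]
    refine conn_two (C.out a) (fun e => B.out (C.tgt e)) _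
      (fun e => C.w e * (C.x e p2 * C.x e p2')) (fun _ g => B.w g * (B.x g p1 * B.x g p1'))
      (B.w p1) (C.w p2) (fun e => Adj (C.tgt e) (B.src p1)) (p1 = p1')
      (p1 ∈ B.out (B.src p1)) (B.src p1 = C.tgt p2) (B.src p1' = C.tgt p2')
      ((p1, p2) = (p1', p2') ∧ (p1, p2) ∈ compOut B C (C.src p2) ∧ Adj a (C.src p2))
      (fun e _ g hg => ?_) (fun e _ => ?_) (fun i1 e _ hu => ?_) (fun i1 i2 r1 r2 => ?_)
      (fun hg => ?_)
    · rw [ind_of (B.src_of_out hg)]; ring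
    · exact B.U2a _ _ _ h
    · rw [i1]; exact (C.x_supp' (left_ne_zero_of_mul (right_ne_zero_of_mul hu))).2.2.2
    · subst r1
      rw [C.U2a a p2 p2' (i1.symm.trans i2)]
      congr 1
      refine ind_congr ?_
      rw [mem_compOut, Prod.mk.injEq]
      exact ⟨fun hh => ⟨⟨rfl, hh.1⟩, ⟨r2, hh.2.1, i1, rfl⟩, hh.2.2⟩,
        fun hh => ⟨hh.1.2, hh.2.1.2.1, hh.2.2⟩⟩
    · obtain ⟨e1, e2, -⟩ := hg
      obtain ⟨rfl, rfl⟩ := Prod.mk.inj e1
      obtain ⟨m1, -, m3, -⟩ := (mem_compOut B C).mp e2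
      exact ⟨m3, m3, rfl, m1⟩
  U2b c q q' h := by
    obtain ⟨q1, q2⟩ := q
    obtain ⟨q1', q2'⟩ := q'
    rw [sum_compInn]
    refine (conn_two (B.inn c) (fun g => C.inn (B.src g)) _
      (fun g => (B.w g)⁻¹ * (B.x q1 g * B.x q1' g)) (fun _ e => (C.w e)⁻¹ * (C.x q2 e * C.x q2' e))
      (C.w q2)⁻¹ (B.w q1)⁻¹ (fun g => Adj (B.src g) (C.tgt q2)) (q2 = q2')
      (q2 ∈ C.out (C.src q2)) (B.src q1 = C.tgt q2) (B.src q1' = C.tgt q2')
      ((q1, q2) = (q1', q2') ∧ (q1, q2) ∈ compOut B C (C.src q2) ∧ Adj c (B.tgt q1))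
      (fun g _ e he => ?_) (fun g _ => ?_) (fun i1 g _ hu => ?_) (fun i1 i2 r1 r2 => ?_)
      (fun hg => ?_)).trans (by rw [mul_inv, mul_comm (C.w q2)⁻¹])
    · rw [ind_of (C.tgt_of_inn he).symm, mul_inv]; ring
    · exact C.U2b _ _ _ h
    · rw [← i1]; exact (B.x_supp' (left_ne_zero_of_mul (right_ne_zero_of_mul hu))).2.2.1.symm
    · subst r1
      rw [B.U2b c q1 q1' (i1.trans i2.symm)]
      congr 1
      refine ind_congr ?_
      rw [mem_compOut, Prod.mk.injEq]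
      exact ⟨fun hh => ⟨⟨hh.1, rfl⟩, ⟨hh.2.1, r2, i1, rfl⟩, hh.2.2⟩,
        fun hh => ⟨hh.1.1, hh.2.1.1, hh.2.2⟩⟩
    · obtain ⟨e1, e2, -⟩ := hg
      obtain ⟨rfl, rfl⟩ := Prod.mk.inj e1
      obtain ⟨-, m2, m3, -⟩ := (mem_compOut B C).mp e2
      exact ⟨m3, m3, rfl, m2⟩

lemma comp_valid (B C : Conn) (g : B.E) (e : C.E) :
    (comp B C).valid (g, e) ↔ B.valid g ∧ C.valid e ∧ B.src g = C.tgt e := by
  have := mem_compOut B C (a := C.src e) (p := (g, e))
  simp only [and_true] at this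
  exact this

lemma sum_comp_out {M : Type*} [AddCommMonoid M] (B C : Conn) (a : ℕ) (F : B.E × C.E → M) :
    ∑ p ∈ (comp B C).out a, F p = ∑ e ∈ C.out a, ∑ g ∈ B.out (C.tgt e), F (g, e) :=
  sum_compOut B C a F

lemma sum_comp_inn {M : Type*} [AddCommMonoid M] (B C : Conn) (c : ℕ) (F : B.E × C.E → M) :
    ∑ p ∈ (comp B C).inn c, F p = ∑ g ∈ B.inn c, ∑ e ∈ C.inn (B.src g), F (g, e) :=
  sum_compInn B C c F

lemma flip_valid (B : Conn) (e : B.E) : B.flip.valid e ↔ B.valid e := (B.out_iff_inn e).symm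
lemma conj_valid (B : Conn) (e : B.E) : B.conj.valid e ↔ B.valid e := (B.out_iff_inn e).symm
lemma twist_valid (B : Conn) (e : B.E) : B.twist.valid e ↔ B.valid e := Iff.rfl
lemma rot_valid (B : Conn) (e : B.E) : B.rot.valid e ↔ B.valid e := (B.out_iff_inn e).symm
lemma one_valid (a : ℕ) : one.valid a := Finset.mem_singleton_self _

end Conn

end Pool.Agent.Lib.MP_d81181_an
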