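import Mathlib

/-!
Working copies of the definitions of `Stmt.lean`, over a type synonym for the tensor product.
-/

open scoped TensorProduct InnerProductSpace ENNReal NNReal

noncomputable section

namespace Pool.Agent.Lib.MP_d81181_an

/-- The Hilbert space tensor product: the completion of the algebraic tensor product. -/
def HT (E F : Type) [NormedAddCommGroup E] [InnerProductSpace ℂ E]
    [NormedAddCommGroup F] [InnerProductSpace ℂ F] : Type :=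
  UniformSpace.Completion (E ⊗[ℂ] F)

section tensor

variable {E F E' F' : Type} [NormedAddCommGroup E] [InnerProductSpace ℂ E]
  [NormedAddCommGroup F] [InnerProductSpace ℂ F] [NormedAddCommGroup E'] [InnerProductSpace ℂ E']
  [NormedAddCommGroup F'] [InnerProductSpace ℂ F']

instance : NormedAddCommGroup (HT E F) :=
  inferInstanceAs (NormedAddCommGroup (UniformSpace.Completion (E ⊗[ℂ] F)))

instance : InnerProductSpace ℂ (HT E F) :=
  inferInstanceAs (InnerProductSpace ℂ (UniformSpace.Completion (E ⊗[ℂ] F)))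

instance : CompleteSpace (HT E F) :=
  inferInstanceAs (CompleteSpace (UniformSpace.Completion (E ⊗[ℂ] F)))

/-- The tensor product `x ⊗ y` of two bounded operators. -/
def tens (x : E →L[ℂ] E') (y : F →L[ℂ] F') : HT E F →L[ℂ] HT E' F' :=
  (TensorProduct.mapL x y).completion

/-- The bounded operator `η ↦ ξ ⊗ η`. -/
def tmL (ξ : E) : F →L[ℂ] HT E F :=
  (UniformSpace.Completion.toComplL : E ⊗[ℂ] F →L[ℂ] UniformSpace.Completion (E ⊗[ℂ] F)) ∘L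
    TensorProduct.mkL ℂ E F ξ

/-- The bounded operator `ξ ↦ ξ ⊗ η`. -/
def tmR (η : F) : E →L[ℂ] HT E F :=
  (UniformSpace.Completion.toComplL : E ⊗[ℂ] F →L[ℂ] UniformSpace.Completion (E ⊗[ℂ] F)) ∘L
    (TensorProduct.mkL ℂ E F).flip η

/-- The slice `(ω ⊗ id)(X)` for the vector functional `ω = ⟨ξ', · ξ⟩`. -/
def sliceL [CompleteSpace F] (ξ' ξ : E) (X : HT E F →L[ℂ] HT E F) : F →L[ℂ] F :=
  ContinuousLinearMap.adjoint (tmL ξ') ∘L X ∘L tmL ξ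

/-- The slice `(id ⊗ ω)(X)` for the vector functional `ω = ⟨η', · η⟩`. -/
def sliceR [CompleteSpace E] (η' η : F) (X : HT E F →L[ℂ] HT E F) : E →L[ℂ] E :=
  ContinuousLinearMap.adjoint (tmR η') ∘L X ∘L tmR η

end tensor

variable {H : Type} [NormedAddCommGroup H] [InnerProductSpace ℂ H] [CompleteSpace H]

/-- The von Neumann algebra tensor product `M ⊗ M`: the bicommutant of the elementary tensors. -/
def vnTens (M : VonNeumannAlgebra H) : Set (HT H H →L[ℂ] HT H H) :=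
  Set.centralizer (Set.centralizer {T | ∃ x ∈ M, ∃ y ∈ M, T = tens x y})

/-- `S` is a nonempty upward directed set of positive elements of `N`, and `x` is the least upper
bound of `S` in `N` (for the usual order of operators). -/
def IsSupIn (N S : Set (H →L[ℂ] H)) (x : H →L[ℂ] H) : Prop :=
  S.Nonempty ∧ DirectedOn (· ≤ ·) S ∧ (∀ y ∈ S, y ∈ N ∧ 0 ≤ y) ∧
    x ∈ N ∧ (∀ y ∈ S, y ≤ x) ∧ ∀ z ∈ N, (∀ y ∈ S, y ≤ z) → x ≤ z

/-- `φ`, restricted to the positive elements of `M`, is a normal semifinite faithful weight.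
Semifinite: every positive `x ∈ M` is a strong limit of positive elements of `M` of finite weight
and of norm at most `‖x‖`. -/
structure IsNSFWeight (M : VonNeumannAlgebra H) (φ : (H →L[ℂ] H) → ℝ≥0∞) : Prop where
  map_add : ∀ x ∈ M, ∀ y ∈ M, 0 ≤ x → 0 ≤ y → φ (x + y) = φ x + φ y
  map_smul : ∀ (c : ℝ≥0), ∀ x ∈ M, 0 ≤ x → φ ((c : ℂ) • x) = c * φ x
  normal : ∀ S x, IsSupIn (M : Set (H →L[ℂ] H)) S x → φ x = ⨆ y ∈ S, φ y
  semifinite : ∀ x ∈ M, 0 ≤ x → ∀ (F : Finset H) (ε : ℝ), 0 < ε →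
    ∃ y ∈ M, 0 ≤ y ∧ φ y < ⊤ ∧ ‖y‖ ≤ ‖x‖ ∧ ∀ ξ ∈ F, ‖x ξ - y ξ‖ < ε
  faithful : ∀ x ∈ M, 0 ≤ x → φ x = 0 → x = 0

/-- `(M, Δ)` is a locally compact quantum group in the von Neumann algebraic sense of
Kustermans and Vaes, with left Haar weight `φ` and right Haar weight `ψ`:
`Δ` is a normal unital *-homomorphism `M → M ⊗ M`, coassociative
(both sides are compared after slicing the first and the third leg), and `φ`, `ψ` are
normal semifinite faithful weights that are left, resp. right, invariant for every normal positive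
functional `ω = ∑ₙ ⟨ξₙ, · ξₙ⟩`. -/
structure IsLCQG (M : VonNeumannAlgebra H) (Δ : (H →L[ℂ] H) → (HT H H →L[ℂ] HT H H))
    (φ ψ : (H →L[ℂ] H) → ℝ≥0∞) : Prop where
  map_mem : ∀ x ∈ M, Δ x ∈ vnTens M
  map_add : ∀ x ∈ M, ∀ y ∈ M, Δ (x + y) = Δ x + Δ y
  map_smul : ∀ (c : ℂ), ∀ x ∈ M, Δ (c • x) = c • Δ x
  map_mul : ∀ x ∈ M, ∀ y ∈ M, Δ (x * y) = Δ x * Δ y
  map_star : ∀ x ∈ M, Δ (star x) = star (Δ x)
  map_one : Δ 1 = 1
  normal : ∀ S x, IsSupIn (M : Set (H →L[ℂ] H)) S x → IsSupIn (vnTens M) (Δ '' S) (Δ x)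
  coassoc : ∀ x ∈ M, ∀ ξ' ξ ζ' ζ : H,
    sliceL ξ' ξ (Δ (sliceR ζ' ζ (Δ x))) = sliceR ζ' ζ (Δ (sliceL ξ' ξ (Δ x)))
  left_weight : IsNSFWeight M φ
  right_weight : IsNSFWeight M ψ
  left_inv : ∀ ξ : ℕ → H, Summable (fun n => ‖ξ n‖ ^ 2) → ∀ x ∈ M, 0 ≤ x → φ x < ⊤ →
    φ (∑' n, sliceL (ξ n) (ξ n) (Δ x)) = ENNReal.ofReal (∑' n, ‖ξ n‖ ^ 2) * φ x
  right_inv : ∀ ξ : ℕ → H, Summable (fun n => ‖ξ n‖ ^ 2) → ∀ x ∈ M, 0 ≤ x → ψ x < ⊤ →
    ψ (∑' n, sliceR (ξ n) (ξ n) (Δ x)) = ENNReal.ofReal (∑' n, ‖ξ n‖ ^ 2) * ψ x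

/-- `z` lies in the definition algebra `𝔪_φ` of the weight `φ` and the linear extension of `φ`
takes the value `c` at `z`. -/
def HasVal (M : VonNeumannAlgebra H) (φ : (H →L[ℂ] H) → ℝ≥0∞) (z : H →L[ℂ] H) (c : ℂ) : Prop :=
  ∃ p : Fin 4 → (H →L[ℂ] H), (∀ k, p k ∈ M ∧ 0 ≤ p k ∧ φ (p k) < ⊤) ∧
    z = ∑ k : Fin 4, Complex.I ^ (k : ℕ) • p k ∧
    c = ∑ k : Fin 4, Complex.I ^ (k : ℕ) * ((φ (p k)).toReal : ℂ)

/-- The reduced C*-algebra `C₀(G)`: the norm closed linear span of the elements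
`(id ⊗ φ)(Δ(b*)(1 ⊗ a))`, `a, b ∈ 𝔫_φ`, which are the slices `(id ⊗ ω)(W)` of the multiplicative
unitary `W` by the vector functionals of the vectors `Λ(a), Λ(b)`. -/
def C0 (M : VonNeumannAlgebra H) (Δ : (H →L[ℂ] H) → (HT H H →L[ℂ] HT H H))
    (φ : (H →L[ℂ] H) → ℝ≥0∞) : Set (H →L[ℂ] H) :=
  closure (Submodule.span ℂ {c : H →L[ℂ] H | ∃ a ∈ M, ∃ b ∈ M,
    φ (star a * a) < ⊤ ∧ φ (star b * b) < ⊤ ∧
    ∀ ξ' ξ : H, HasVal M φ (sliceL ξ' ξ (Δ (star b) * tens 1 a)) ⟪ξ', c ξ⟫_ℂ} :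
      Set (H →L[ℂ] H))

/-- `u ∈ M` is a (two-sided) multiplier of `A`. -/
def IsMultiplier (M : VonNeumannAlgebra H) (A : Set (H →L[ℂ] H)) (u : H →L[ℂ] H) : Prop :=
  u ∈ M ∧ ∀ c ∈ A, u * c ∈ A ∧ c * u ∈ A

end Pool.Agent.Lib.MP_d81181_an
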