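import Pool.Agent.Lib.MP_d81181_an.Hilb

/-! General facts on von Neumann algebras, spatial homomorphisms and sums of vector functionals. -/

open scoped InnerProductSpace ComplexConjugate ENNReal NNReal
open ContinuousLinearMap Filter Topology

set_option linter.unusedSectionVars false

noncomputable section

namespace Pool.Agent.Lib.MP_d81181_an

variable {H H' : Type} [NormedAddCommGroup H] [InnerProductSpace ℂ H] [CompleteSpace H]
  [NormedAddCommGroup H'] [InnerProductSpace ℂ H'] [CompleteSpace H']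

lemma vn_union_star {S : Set (H →L[ℂ] H)} (hS : ∀ s ∈ S, star s ∈ S) :
    Set.centralizer S ∪ star (Set.centralizer S) = Set.centralizer S := by
  refine Set.union_eq_left.mpr fun T hT s hs => ?_
  have h := congrArg star (hT (star s) (hS s hs))
  simpa only [star_mul, star_star] using h.symm

/-- The von Neumann algebra generated by a self-adjoint set. -/
def genVN (S : Set (H →L[ℂ] H)) (hS : ∀ s ∈ S, star s ∈ S) : VonNeumannAlgebra H where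
  toStarSubalgebra := StarSubalgebra.centralizer ℂ (Set.centralizer S)
  centralizer_centralizer' := by
    change Set.centralizer (Set.centralizer
      (StarSubalgebra.centralizer ℂ (Set.centralizer S) : Set (H →L[ℂ] H))) =
      (StarSubalgebra.centralizer ℂ (Set.centralizer S) : Set (H →L[ℂ] H))
    rw [StarSubalgebra.coe_centralizer, Set.centralizer_centralizer_centralizer]

lemma mem_genVN {S : Set (H →L[ℂ] H)} (hS : ∀ s ∈ S, star s ∈ S) {x : H →L[ℂ] H} :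
    x ∈ genVN S hS ↔ ∀ T : H →L[ℂ] H, (∀ s ∈ S, s * T = T * s) → T * x = x * T := by
  change x ∈ (StarSubalgebra.centralizer ℂ (Set.centralizer S) : Set (H →L[ℂ] H)) ↔ _
  rw [StarSubalgebra.coe_centralizer, vn_union_star hS]
  rfl

lemma re_inner_nonneg_of_nonneg {x : H →L[ℂ] H} (hx : 0 ≤ x) (ξ : H) : 0 ≤ (⟪ξ, x ξ⟫_ℂ).re :=
  ((nonneg_iff_isPositive x).mp hx).re_inner_nonneg_right ξ

lemma re_inner_le_of_le {x y : H →L[ℂ] H} (h : x ≤ y) (ξ : H) :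
    (⟪ξ, x ξ⟫_ℂ).re ≤ (⟪ξ, y ξ⟫_ℂ).re := by
  have := re_inner_nonneg_of_nonneg (sub_nonneg.mpr h) ξ
  simp only [sub_apply, inner_sub_right, Complex.sub_re] at this
  linarith

lemma nonneg_of_re_inner {x : H →L[ℂ] H} (hx : star x = x) (h : ∀ ξ, 0 ≤ (⟪ξ, x ξ⟫_ℂ).re) :
    0 ≤ x := by
  rw [nonneg_iff_isPositive, isPositive_def']
  refine ⟨hx, fun ξ => ?_⟩
  have h1 := h ξ
  rw [← inner_conj_symm, Complex.conj_re] at h1
  exact h1

lemma vn_norm_sq_le {x : H →L[ℂ] H} (hx : 0 ≤ x) (ξ : H) :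
    ‖x ξ‖ ^ 2 ≤ ‖x‖ * (⟪ξ, x ξ⟫_ℂ).re := by
  obtain ⟨s, rfl⟩ := CStarAlgebra.nonneg_iff_eq_star_mul_self.mp hx
  have h1 : (⟪ξ, (star s * s) ξ⟫_ℂ).re = ‖s ξ‖ ^ 2 := by
    change (⟪ξ, adjoint s (s ξ)⟫_ℂ).re = _
    rw [adjoint_inner_right, inner_self_eq_norm_sq_to_K]
    norm_cast
  have h2 : ‖(star s * s) ξ‖ ≤ ‖s‖ * ‖s ξ‖ := by
    have := (star s).le_opNorm (s ξ)
    rwa [norm_star] at this
  rw [h1, CStarRing.norm_star_mul_self]
  calc ‖(star s * s) ξ‖ ^ 2 ≤ (‖s‖ * ‖s ξ‖) ^ 2 := by gcongr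
    _ = ‖s‖ * ‖s‖ * ‖s ξ‖ ^ 2 := by ring

lemma apply_eq_zero_of_re_inner {x : H →L[ℂ] H} (hx : 0 ≤ x) {ξ : H} (h : (⟪ξ, x ξ⟫_ℂ).re = 0) :
    x ξ = 0 := by
  have h1 := vn_norm_sq_le hx ξ
  rw [h, mul_zero] at h1
  exact norm_eq_zero.mp (pow_eq_zero_iff two_ne_zero |>.mp (le_antisymm h1 (sq_nonneg _)))

lemma adjoint_conj_nonneg {x : H →L[ℂ] H} (hx : 0 ≤ x) (N : H' →L[ℂ] H) :
    0 ≤ adjoint N ∘L x ∘L N :=
  (nonneg_iff_isPositive _).mpr (((nonneg_iff_isPositive x).mp hx).adjoint_conj N)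

lemma vn_cauchy (S : Set (H →L[ℂ] H)) [Nonempty S] [IsDirectedOrder S]
    (hpos : ∀ y ∈ S, 0 ≤ y) (z : H →L[ℂ] H) (hz : ∀ y ∈ S, y ≤ z) (ξ : H) :
    ∃ η : H, Tendsto (fun y : S => y.1 ξ) atTop (𝓝 η) := by
  refine cauchy_map_iff_exists_tendsto.mp (Metric.cauchy_iff.mpr ⟨inferInstance, fun ε hε => ?_⟩)
  have hbd : BddAbove (Set.range fun y : S => (⟪ξ, y.1 ξ⟫_ℂ).re) :=
    ⟨_, by rintro _ ⟨y, rfl⟩; exact re_inner_le_of_le (hz _ y.2) ξ⟩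
  have hδ : 0 < (ε / 2) ^ 2 / (‖z‖ + 1) := by positivity
  obtain ⟨y0, hy0⟩ := exists_lt_of_lt_ciSup
    (sub_lt_self (⨆ y : S, (⟪ξ, y.1 ξ⟫_ℂ).re) hδ)
  have key : ∀ y : S, y0 ≤ y → dist (y.1 ξ) (y0.1 ξ) < ε / 2 := by
    intro y hy
    have h0 : 0 ≤ y.1 - y0.1 := sub_nonneg.mpr hy
    have h1 := vn_norm_sq_le h0 ξ
    have h2 : ‖y.1 - y0.1‖ ≤ ‖z‖ := CStarAlgebra.norm_le_norm_of_nonneg_of_le h0
      ((sub_le_self _ (hpos _ y0.2)).trans (hz _ y.2))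
    have h3 := re_inner_nonneg_of_nonneg h0 ξ
    have h4 := le_ciSup hbd y
    simp only [sub_apply, inner_sub_right, Complex.sub_re] at h1 h3
    have h5 : (⟪ξ, y.1 ξ⟫_ℂ).re - (⟪ξ, y0.1 ξ⟫_ℂ).re < (ε / 2) ^ 2 / (‖z‖ + 1) := by linarith
    rw [lt_div_iff₀ (by positivity)] at h5
    rw [dist_eq_norm]
    refine lt_of_pow_lt_pow_left₀ 2 (by positivity) (h1.trans_lt (lt_of_le_of_lt ?_ h5))
    rw [mul_comm]
    exact mul_le_mul_of_nonneg_left (by linarith) h3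
  refine ⟨Metric.ball (y0.1 ξ) (ε / 2), ?_, fun a ha b hb => ?_⟩
  · exact mem_map.mpr ((eventually_ge_atTop y0).mono key)
  · have := dist_triangle_right a b (y0.1 ξ)
    rw [Metric.mem_ball] at ha hb
    linarith

/-- Vigier's theorem. -/
theorem exists_sup (S : Set (H →L[ℂ] H)) (hne : S.Nonempty) (hdir : DirectedOn (· ≤ ·) S)
    (hpos : ∀ y ∈ S, 0 ≤ y) (z : H →L[ℂ] H) (hz : ∀ y ∈ S, y ≤ z) :
    ∃ x : H →L[ℂ] H, (∀ y ∈ S, y ≤ x) ∧
      (∀ ξ : H, ∀ ε > 0, ∃ y ∈ S, (⟪ξ, x ξ⟫_ℂ).re < (⟪ξ, y ξ⟫_ℂ).re + ε) ∧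
      ∀ T : H →L[ℂ] H, (∀ y ∈ S, T * y = y * T) → T * x = x * T := by
  haveI : Nonempty S := hne.to_subtype
  haveI : IsDirectedOrder S := ⟨fun a b => by
    obtain ⟨c, hc, h1, h2⟩ := hdir a.1 a.2 b.1 b.2
    exact ⟨⟨c, hc⟩, h1, h2⟩⟩
  choose g hg using vn_cauchy S hpos z hz
  let L : H →ₗ[ℂ] H :=
    { toFun := g
      map_add' := fun a b => tendsto_nhds_unique (hg (a + b))
        (by simpa only [map_add] using (hg a).add (hg b))
      map_smul' := fun c a => tendsto_nhds_unique (hg (c • a))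
        (by simpa only [map_smul, RingHom.id_apply] using (hg a).const_smul c) }
  have hL : ∀ a, ‖L a‖ ≤ ‖z‖ * ‖a‖ := fun a =>
    le_of_tendsto' (hg a).norm fun y => (y.1.le_opNorm a).trans (mul_le_mul_of_nonneg_right
      (CStarAlgebra.norm_le_norm_of_nonneg_of_le (hpos _ y.2) (hz _ y.2)) (norm_nonneg _))
  let x : H →L[ℂ] H := L.mkContinuous _ hL
  have hx : ∀ a, Tendsto (fun y : S => y.1 a) atTop (𝓝 (x a)) := hg
  have hre : ∀ a, Tendsto (fun y : S => (⟪a, y.1 a⟫_ℂ).re) atTop (𝓝 (⟪a, x a⟫_ℂ).re) := fun a =>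
    (Complex.continuous_re.tendsto _).comp (tendsto_const_nhds.inner (hx a))
  have hsa : star x = x := by
    refine ((eq_adjoint_iff x x).mpr fun a b => ?_).symm
    refine tendsto_nhds_unique ((hx a).inner (tendsto_const_nhds (x := b))) ?_
    refine ((tendsto_const_nhds (x := a)).inner (hx b)).congr fun y => ?_
    exact (((nonneg_iff_isPositive _).mp (hpos _ y.2)).isSymmetric a b).symm
  refine ⟨x, fun y hy => sub_nonneg.mp (nonneg_of_re_inner ?_ fun a => ?_), fun a ε hε => ?_,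
    fun T hT => ?_⟩
  · rw [star_sub, hsa, (IsSelfAdjoint.of_nonneg (hpos y hy)).star_eq]
  · simp only [sub_apply, inner_sub_right, Complex.sub_re, sub_nonneg]
    exact ge_of_tendsto (hre a) ((eventually_ge_atTop (⟨y, hy⟩ : S)).mono fun y' hy' =>
      re_inner_le_of_le hy' a)
  · obtain ⟨y, hy⟩ := ((hre a).eventually (lt_mem_nhds (sub_lt_self _ hε))).exists
    exact ⟨y.1, y.2, by linarith⟩
  · ext a
    refine tendsto_nhds_unique ((T.continuous.tendsto _).comp (hx a)) ((hx (T a)).congr fun y => ?_)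
    exact (congrArg (fun A : H →L[ℂ] H => A a) (hT _ y.2)).symm

/-- A least upper bound in a commutant is a weak limit. -/
lemma IsSupIn.approx {C S : Set (H →L[ℂ] H)} {x : H →L[ℂ] H}
    (h : IsSupIn (Set.centralizer C) S x) (ξ : H) (ε : ℝ) (hε : 0 < ε) :
    ∃ y ∈ S, (⟪ξ, x ξ⟫_ℂ).re < (⟪ξ, y ξ⟫_ℂ).re + ε := by
  obtain ⟨hne, hdir, hm, -, hub, hl⟩ := h
  obtain ⟨x0, h1, h2, h3⟩ := exists_sup S hne hdir (fun y hy => (hm y hy).2) x hub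
  have h4 : x ≤ x0 := hl x0 (fun T hT => h3 T fun y hy => (hm y hy).1 T hT) h1
  obtain ⟨y, hy, h5⟩ := h2 ξ ε hε
  exact ⟨y, hy, (re_inner_le_of_le h4 ξ).trans_lt h5⟩

section spatial

variable {M : VonNeumannAlgebra H} {N : H' →L[ℂ] H}

lemma vn_conj_mono {x y : H →L[ℂ] H} (h : x ≤ y) (N : H' →L[ℂ] H) :
    adjoint N ∘L x ∘L N ≤ adjoint N ∘L y ∘L N := by
  have h1 := adjoint_conj_nonneg (sub_nonneg.mpr h) N
  rwa [sub_comp, comp_sub, sub_nonneg] at h1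

lemma vn_inner_conj (x : H →L[ℂ] H) (N : H' →L[ℂ] H) (ξ : H') :
    ⟪ξ, (adjoint N ∘L x ∘L N) ξ⟫_ℂ = ⟪N ξ, x (N ξ)⟫_ℂ :=
  adjoint_inner_right N ξ (x (N ξ))

/-- Compression by an isometry whose range projection commutes with `M` is normal. -/
lemma isSupIn_conj {C' : Set (H' →L[ℂ] H')}
    (hmem : ∀ x ∈ M, adjoint N ∘L x ∘L N ∈ C') {S : Set (H →L[ℂ] H)} {x : H →L[ℂ] H}
    (h : IsSupIn (M : Set (H →L[ℂ] H)) S x) :
    IsSupIn C' ((fun y => adjoint N ∘L y ∘L N) '' S) (adjoint N ∘L x ∘L N) := by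
  have h' : IsSupIn (Set.centralizer (Set.centralizer (M : Set (H →L[ℂ] H)))) S x := by
    rwa [VonNeumannAlgebra.centralizer_centralizer]
  obtain ⟨hne, hdir, hm, hxM, hub, -⟩ := h
  refine ⟨hne.image _, ?_, ?_, hmem x hxM, ?_, fun z _ hz => ?_⟩
  · rintro _ ⟨a, ha, rfl⟩ _ ⟨b, hb, rfl⟩
    obtain ⟨c, hc, h1, h2⟩ := hdir a ha b hb
    exact ⟨_, ⟨c, hc, rfl⟩, vn_conj_mono h1 N, vn_conj_mono h2 N⟩
  · rintro _ ⟨a, ha, rfl⟩
    exact ⟨hmem a (hm a ha).1, adjoint_conj_nonneg (hm a ha).2 N⟩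
  · rintro _ ⟨a, ha, rfl⟩
    exact vn_conj_mono (hub a ha) N
  · obtain ⟨a, ha⟩ := hne
    have h1 : 0 ≤ z := (adjoint_conj_nonneg (hm a ha).2 N).trans (hz _ ⟨a, ha, rfl⟩)
    have h2 := adjoint_conj_nonneg ((hm a ha).2.trans (hub a ha)) N
    refine sub_nonneg.mp (nonneg_of_re_inner ?_ fun ξ => ?_)
    · rw [star_sub, (IsSelfAdjoint.of_nonneg h1).star_eq, (IsSelfAdjoint.of_nonneg h2).star_eq]
    · rw [sub_apply, inner_sub_right, Complex.sub_re, sub_nonneg, vn_inner_conj]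
      refine le_of_forall_pos_le_add fun ε hε => ?_
      obtain ⟨y, hy, h3⟩ := h'.approx (N ξ) ε hε
      have h4 := re_inner_le_of_le (hz _ ⟨y, hy, rfl⟩) ξ
      rw [vn_inner_conj] at h4
      linarith

variable {S : Set (H →L[ℂ] H)} {hS : ∀ s ∈ S, star s ∈ S}

lemma vn_apply_conj (hN : adjoint N ∘L N = 1) {s : H →L[ℂ] H}
    (hI : ∃ s' : H' →L[ℂ] H', s ∘L N = N ∘L s') : s ∘L N = N ∘L (adjoint N ∘L s ∘L N) := by
  obtain ⟨s', hs⟩ := hI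
  rw [hs, ← comp_assoc (adjoint N), hN, one_def, id_comp]

lemma vn_adjoint_conj (hN : adjoint N ∘L N = 1) {s : H →L[ℂ] H}
    (hI : ∃ s' : H' →L[ℂ] H', star s ∘L N = N ∘L s') :
    adjoint N ∘L s = (adjoint N ∘L s ∘L N) ∘L adjoint N := by
  have h := congrArg adjoint (vn_apply_conj hN hI)
  simpa only [star_eq_adjoint, adjoint_comp, adjoint_adjoint, comp_assoc] using h

lemma vn_proj_comm (hN : adjoint N ∘L N = 1)
    (hI : ∀ s ∈ S, ∃ s' : H' →L[ℂ] H', s ∘L N = N ∘L s') {x : H →L[ℂ] H} (hx : x ∈ genVN S hS)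
    (T : H' →L[ℂ] H')
    (hT : ∀ s ∈ S, (adjoint N ∘L s ∘L N) * T = T * (adjoint N ∘L s ∘L N)) :
    (N ∘L T ∘L adjoint N) ∘L x = x ∘L (N ∘L T ∘L adjoint N) := by
  refine (mem_genVN hS).mp hx (N ∘L T ∘L adjoint N) fun s hs => ?_
  have h1 := vn_apply_conj hN (hI s hs)
  have h2 := vn_adjoint_conj hN (hI _ (hS s hs))
  have h3 := hT s hs
  set a := adjoint N ∘L s ∘L N
  calc s * (N ∘L T ∘L adjoint N) = (s ∘L N) ∘L T ∘L adjoint N := rfl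
    _ = N ∘L (a * T) ∘L adjoint N := by rw [h1]; rfl
    _ = N ∘L T ∘L (a ∘L adjoint N) := by rw [h3]; rfl
    _ = (N ∘L T ∘L adjoint N) * s := by rw [← h2]; rfl

lemma vn_apply_conj' (hN : adjoint N ∘L N = 1)
    (hI : ∀ s ∈ S, ∃ s' : H' →L[ℂ] H', s ∘L N = N ∘L s') {x : H →L[ℂ] H} (hx : x ∈ genVN S hS) :
    x ∘L N = N ∘L (adjoint N ∘L x ∘L N) ∧
      adjoint N ∘L x = (adjoint N ∘L x ∘L N) ∘L adjoint N := by
  have h := vn_proj_comm hN hI hx 1 fun s _ => by rw [mul_one, one_mul]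
  constructor
  · calc x ∘L N = x ∘L N ∘L (adjoint N ∘L N) := by rw [hN]; rfl
      _ = (x ∘L (N ∘L 1 ∘L adjoint N)) ∘L N := rfl
      _ = N ∘L (adjoint N ∘L x ∘L N) := by rw [← h]; rfl
  · calc adjoint N ∘L x = (adjoint N ∘L N) ∘L adjoint N ∘L x := by rw [hN]; rfl
      _ = adjoint N ∘L ((N ∘L 1 ∘L adjoint N) ∘L x) := rfl
      _ = (adjoint N ∘L x ∘L N) ∘L adjoint N := by rw [h]; rfl

lemma conj_mul (hN : adjoint N ∘L N = 1) (hI : ∀ s ∈ S, ∃ s' : H' →L[ℂ] H', s ∘L N = N ∘L s')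
    {x : H →L[ℂ] H} (hx : x ∈ genVN S hS) (y : H →L[ℂ] H) :
    adjoint N ∘L (x * y) ∘L N = (adjoint N ∘L x ∘L N) * (adjoint N ∘L y ∘L N) := by
  calc adjoint N ∘L (x * y) ∘L N = (adjoint N ∘L x) ∘L y ∘L N := rfl
    _ = ((adjoint N ∘L x ∘L N) ∘L adjoint N) ∘L y ∘L N := by rw [← (vn_apply_conj' hN hI hx).2]
    _ = _ := rfl

lemma apply_conj (hN : adjoint N ∘L N = 1) (hI : ∀ s ∈ S, ∃ s' : H' →L[ℂ] H', s ∘L N = N ∘L s')
    {x : H →L[ℂ] H} (hx : x ∈ genVN S hS) : x ∘L N = N ∘L (adjoint N ∘L x ∘L N) :=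
  (vn_apply_conj' hN hI hx).1

lemma conj_comm (hN : adjoint N ∘L N = 1) (hI : ∀ s ∈ S, ∃ s' : H' →L[ℂ] H', s ∘L N = N ∘L s')
    {x : H →L[ℂ] H} (hx : x ∈ genVN S hS) (T : H' →L[ℂ] H')
    (hT : ∀ s ∈ S, (adjoint N ∘L s ∘L N) * T = T * (adjoint N ∘L s ∘L N)) :
    T * (adjoint N ∘L x ∘L N) = (adjoint N ∘L x ∘L N) * T := by
  have h := vn_proj_comm hN hI hx T hT
  calc T * (adjoint N ∘L x ∘L N) = (adjoint N ∘L N) ∘L T ∘L (adjoint N ∘L x ∘L N) := by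
        rw [hN]; rfl
    _ = adjoint N ∘L ((N ∘L T ∘L adjoint N) ∘L x) ∘L N := rfl
    _ = (adjoint N ∘L x ∘L N) ∘L T ∘L (adjoint N ∘L N) := by rw [h]; rfl
    _ = (adjoint N ∘L x ∘L N) * T := by rw [hN]; rfl

end spatial

end Pool.Agent.Lib.MP_d81181_an
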