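import Pool.Agent.Lib.MP_d81181_an.Big
import Pool.Agent.Lib.MP_d81181_an.VN

/-! The von Neumann algebra, embeddings of representations, the comultiplication. -/

open scoped Classical InnerProductSpace ComplexConjugate
open ContinuousLinearMap

set_option linter.unusedSectionVars false

noncomputable section

namespace Pool.Agent.Lib.MP_d81181_an

variable {E F G E' F' : Type} [NormedAddCommGroup E] [InnerProductSpace ℂ E] [CompleteSpace E]
  [NormedAddCommGroup F] [InnerProductSpace ℂ F] [CompleteSpace F]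
  [NormedAddCommGroup G] [InnerProductSpace ℂ G] [CompleteSpace G]
  [NormedAddCommGroup E'] [InnerProductSpace ℂ E'] [CompleteSpace E']
  [NormedAddCommGroup F'] [InnerProductSpace ℂ F'] [CompleteSpace F']

/-- The generators. -/
def gens : Set (BH →L[ℂ] BH) := {x | ∃ α β, x = VV α β ∨ x = star (VV α β)}

lemma gens_star : ∀ s ∈ gens, star s ∈ gens := by
  rintro s ⟨α, β, rfl | rfl⟩
  · exact ⟨α, β, Or.inr rfl⟩
  · exact ⟨α, β, Or.inl (star_star _)⟩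

/-- The von Neumann algebra generated by the entries of the big matrix. -/
def MM : VonNeumannAlgebra BH := genVN gens gens_star

lemma mem_MM {x : BH →L[ℂ] BH} : x ∈ MM ↔ ∀ T, Intw VV VV T → T * x = x * T := by
  rw [MM, mem_genVN]
  refine forall_congr' fun T => imp_congr_left ⟨fun h α β => h _ ⟨α, β, Or.inl rfl⟩, ?_⟩
  rintro h s ⟨α, β, rfl | rfl⟩
  · exact h α β
  · exact h.star' VV_uni VV_uni α β

lemma VV_mem (α β : Fin 2) : VV α β ∈ MM := mem_MM.mpr fun _ h => (h α β).symm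

lemma MM_star {x : BH →L[ℂ] BH} (hx : x ∈ MM) : star x ∈ MM := star_mem hx

lemma MM_smul (c : ℂ) {x : BH →L[ℂ] BH} (hx : x ∈ MM) : c • x ∈ MM :=
  mem_MM.mpr fun T h => by rw [mul_smul_comm, smul_mul_assoc, mem_MM.mp hx T h]

/-- Compression. -/
def cp (J : E →L[ℂ] F) (x : F →L[ℂ] F) : E →L[ℂ] E := adjoint J ∘L x ∘L J

lemma inner_cp (J : E →L[ℂ] F) (x : F →L[ℂ] F) (v w : E) : ⟪v, cp J x w⟫_ℂ = ⟪J v, x (J w)⟫_ℂ := by
  simp [cp, adjoint_inner_right]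

lemma cp_comp (J : F →L[ℂ] G) (K : E →L[ℂ] F) (x : G →L[ℂ] G) :
    cp (J ∘L K) x = cp K (cp J x) := by
  simp only [cp, adjoint_comp, comp_assoc]

lemma cp_one (x : E →L[ℂ] E) : cp (1 : E →L[ℂ] E) x = x := by
  ext v; exact ext_inner_left ℂ fun w => by rw [inner_cp]; rfl

lemma cp_add (J : E →L[ℂ] F) (x y : F →L[ℂ] F) : cp J (x + y) = cp J x + cp J y := by
  simp only [cp, add_comp, comp_add]

lemma cp_smul (J : E →L[ℂ] F) (c : ℂ) (x : F →L[ℂ] F) : cp J (c • x) = c • cp J x := by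
  simp only [cp, smul_comp, comp_smul]

lemma cp_zero (J : E →L[ℂ] F) : cp J 0 = 0 := by simp [cp]

lemma cp_star (J : E →L[ℂ] F) (x : F →L[ℂ] F) : cp J (star x) = star (cp J x) := by
  simp only [cp, star_eq_adjoint, adjoint_comp, adjoint_adjoint, comp_assoc]

lemma cp_nonneg (J : E →L[ℂ] F) {x : F →L[ℂ] F} (hx : 0 ≤ x) : 0 ≤ cp J x :=
  adjoint_conj_nonneg hx J

lemma sliceL_eq_cp (a : E) (X : HT E F →L[ℂ] HT E F) : sliceL a a X = cp (tmL a) X := rfl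
lemma sliceR_eq_cp (b : F) (X : HT E F →L[ℂ] HT E F) : sliceR b b X = cp (tmR b) X := rfl

/-- `J` embeds the unitary matrix `W` in the big matrix. -/
structure IsEmb (W : Fin 2 → Fin 2 → E →L[ℂ] E) (J : E →L[ℂ] BH) : Prop where
  uni : IsUni W
  intw : Intw W VV J
  iso : adjoint J ∘L J = 1

variable {W : Fin 2 → Fin 2 → E →L[ℂ] E} {J : E →L[ℂ] BH}
  {W' : Fin 2 → Fin 2 → F →L[ℂ] F} {J' : F →L[ℂ] BH}

lemma emb_one : IsEmb VV (1 : BH →L[ℂ] BH) :=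
  ⟨VV_uni, Intw.id, by rw [← star_eq_adjoint, star_one]; rfl⟩

lemma emb_JL (B : Tm) : IsEmb (VL B.c) (JL B) := ⟨VL_uni _, JL_intw B, JL_iso B⟩

lemma emb_NN : IsEmb (node VV VV) NN := ⟨VV_uni.node VV_uni, NN_intw, NN_iso⟩

lemma IsEmb.inner (hJ : IsEmb W J) (v w : E) : ⟪J v, J w⟫_ℂ = ⟪v, w⟫_ℂ :=
  inner_of_isometry hJ.iso v w

lemma IsEmb.norm (hJ : IsEmb W J) (v : E) : ‖J v‖ = ‖v‖ := by
  have := hJ.inner v v
  rw [inner_self_eq_norm_sq_to_K, inner_self_eq_norm_sq_to_K] at this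
  have h2 : ‖J v‖ ^ 2 = ‖v‖ ^ 2 := by exact_mod_cast this
  exact (pow_left_inj₀ (norm_nonneg _) (norm_nonneg _) two_ne_zero).mp h2

lemma IsEmb.comp (hJ : IsEmb W' J') {K : E →L[ℂ] F} (hW : IsUni W) (hK : Intw W W' K)
    (hi : adjoint K ∘L K = 1) : IsEmb W (J' ∘L K) :=
  ⟨hW, hJ.intw.comp hK, by
    rw [adjoint_comp, comp_assoc, ← comp_assoc (adjoint J'), hJ.iso]; exact hi⟩

lemma IsEmb.node (hJ : IsEmb W J) (hJ' : IsEmb W' J') :
    IsEmb (node W W') (NN ∘L tens J J') :=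
  emb_NN.comp (hJ.uni.node hJ'.uni) (hJ.intw.tens hJ'.intw)
    (by rw [adjoint_tens, tens_comp, hJ.iso, hJ'.iso, tens_one])

/-- Naturality of the elements of the von Neumann algebra. -/
theorem IsEmb.nat' (hJ : IsEmb W J) (hJ' : IsEmb W' J') {T : E →L[ℂ] F} (hT : Intw W W' T)
    {x : BH →L[ℂ] BH} (hx : x ∈ MM) : x ∘L J' ∘L T = J' ∘L T ∘L cp J x := by
  have h1 : Intw VV VV (J' ∘L T ∘L adjoint J) :=
    hJ'.intw.comp (hT.comp (hJ.intw.adj hJ.uni VV_uni))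
  have h2 := congrArg (fun Y => Y ∘L J) (mem_MM.mp hx _ h1)
  simp only [mul_def, comp_assoc, hJ.iso] at h2
  rw [cp, h2]; rfl

theorem IsEmb.red (hJ : IsEmb W J) {x : BH →L[ℂ] BH} (hx : x ∈ MM) : x ∘L J = J ∘L cp J x :=
  hJ.nat' hJ Intw.id hx

theorem IsEmb.nat (hJ : IsEmb W J) (hJ' : IsEmb W' J') {T : E →L[ℂ] F} (hT : Intw W W' T)
    {x : BH →L[ℂ] BH} (hx : x ∈ MM) : cp J' x ∘L T = T ∘L cp J x := by
  have h := congrArg (fun Y => adjoint J' ∘L Y) (hJ.nat' hJ' hT hx)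
  simp only [← comp_assoc, hJ'.iso] at h
  rw [cp, ← comp_assoc, h]; rfl

theorem IsEmb.nat_inner (hJ : IsEmb W J) (hJ' : IsEmb W' J') {T : E →L[ℂ] F} (hT : Intw W W' T)
    {x : BH →L[ℂ] BH} (hx : x ∈ MM) (v' : F) (v : E) :
    ⟪J' v', x (J' (T v))⟫_ℂ = ⟪J (adjoint T v'), x (J v)⟫_ℂ := by
  rw [← inner_cp, ← inner_cp, adjoint_inner_left, ← comp_apply, hJ.nat hJ' hT hx, comp_apply]

theorem IsEmb.kill (hJ : IsEmb W J) (hJ' : IsEmb W' J') {T : E →L[ℂ] F} (hT : Intw W W' T)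
    {x : BH →L[ℂ] BH} (hx : x ∈ MM) {v : E} (h : x (J v) = 0) : x (J' (T v)) = 0 := by
  have h1 := congrArg (fun Y => Y v) (hJ.nat' hJ' hT hx)
  simp only [comp_apply, cp, h, map_zero] at h1
  exact h1

/-- A family of intertwiners that is jointly isometric computes the quadratic form. -/
theorem IsEmb.inner_split (hJ : IsEmb W J) (hJ' : IsEmb W' J') {l : Fin 2 → E →L[ℂ] F}
    (hl : ∀ γ, Intw W W' (l γ)) (h1 : ∑ γ, adjoint (l γ) ∘L l γ = 1)
    {x : BH →L[ℂ] BH} (hx : x ∈ MM) (v' v : E) :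
    ⟪J v', x (J v)⟫_ℂ = ∑ γ, ⟪J' (l γ v'), x (J' (l γ v))⟫_ℂ := by
  have h2 : v' = ∑ γ, adjoint (l γ) (l γ v') := by
    have := congrArg (fun Y => Y v') h1
    simp only [sum_apply, comp_apply, one_apply_eq_self] at this
    exact this.symm
  simp only [hJ.nat_inner hJ' (hl _) hx]
  rw [← sum_inner, ← map_sum, ← h2]

lemma IsEmb.cp_mul (hJ : IsEmb W J) (x : BH →L[ℂ] BH) {y : BH →L[ℂ] BH} (hy : y ∈ MM) :
    cp J (x * y) = cp J x * cp J y := by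
  rw [cp, mul_def, comp_assoc, hJ.red hy]; rfl

lemma IsEmb.cp_one (hJ : IsEmb W J) : cp J 1 = 1 := hJ.iso

lemma IsEmb.cp_VV (hJ : IsEmb W J) (α β : Fin 2) : cp J (VV α β) = W α β := by
  rw [cp, hJ.intw, ← comp_assoc, hJ.iso]; rfl

lemma IsEmb.cp_comm (hJ : IsEmb W J) {x : BH →L[ℂ] BH} (hx : x ∈ MM) {T : E →L[ℂ] E}
    (hT : Intw W W T) : T * cp J x = cp J x * T := (hJ.nat hJ hT hx).symm

/-- The comultiplication. -/
def Delta (x : BH →L[ℂ] BH) : HT BH BH →L[ℂ] HT BH BH := cp NN x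

lemma inner_Delta (x : BH →L[ℂ] BH) (v w : HT BH BH) :
    ⟪v, Delta x w⟫_ℂ = ⟪NN v, x (NN w)⟫_ℂ := inner_cp _ _ _ _

lemma Delta_VV (α β : Fin 2) : Delta (VV α β) = node VV VV α β := emb_NN.cp_VV α β

lemma Delta_mul (x : BH →L[ℂ] BH) {y : BH →L[ℂ] BH} (hy : y ∈ MM) :
    Delta (x * y) = Delta x * Delta y := emb_NN.cp_mul x hy

lemma Delta_star (x : BH →L[ℂ] BH) : Delta (star x) = star (Delta x) := cp_star _ _

lemma Delta_nonneg {x : BH →L[ℂ] BH} (hx : 0 ≤ x) : 0 ≤ Delta x := cp_nonneg _ hx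

lemma apply_NN {x : BH →L[ℂ] BH} (hx : x ∈ MM) (v : HT BH BH) : x (NN v) = NN (Delta x v) :=
  congrArg (fun Y => Y v) (emb_NN.red hx)

lemma Delta_mem {x : BH →L[ℂ] BH} (hx : x ∈ MM) : Delta x ∈ vnTens MM := by
  intro T hT
  refine emb_NN.cp_comm hx fun α β => ?_
  simp only [node, finsetSum_comp, comp_finsetSum]
  exact Finset.sum_congr rfl fun γ _ => hT _ ⟨_, VV_mem γ β, _, VV_mem α γ, rfl⟩

lemma sliceL_mem {x : BH →L[ℂ] BH} (hx : x ∈ MM) (a' a : BH) : sliceL a' a (Delta x) ∈ MM :=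
  mem_MM.mpr fun T hT => sliceL_comm a' a _ T (emb_NN.cp_comm hx (Intw.id.tens hT))

lemma sliceR_mem {x : BH →L[ℂ] BH} (hx : x ∈ MM) (b' b : BH) : sliceR b' b (Delta x) ∈ MM :=
  mem_MM.mpr fun T hT => sliceR_comm b' b _ T (emb_NN.cp_comm hx (hT.tens Intw.id))

lemma Delta_normal {S : Set (BH →L[ℂ] BH)} {x : BH →L[ℂ] BH}
    (h : IsSupIn (MM : Set (BH →L[ℂ] BH)) S x) : IsSupIn (vnTens MM) (Delta '' S) (Delta x) :=
  isSupIn_conj (N := NN) (fun _ hy => Delta_mem hy) h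

lemma HT3_ext {S T : HT (HT E F) G →L[ℂ] E'}
    (h : ∀ a b c, S (tm (tm a b) c) = T (tm (tm a b) c)) : S = T :=
  HT_ext fun v c => by
    have : S ∘L tmR c = T ∘L tmR c := HT_ext fun a b => h a b c
    exact congrArg (fun Y => Y v) this

lemma exists_assoc : ∃ A2 : HT (HT BH BH) BH →L[ℂ] BH,
    (∀ a b c, A2 (tm (tm a b) c) = NN (tm a (NN (tm b c)))) ∧ adjoint A2 ∘L A2 = 1 := by
  have hg : ∀ p q : (Idx × Idx) × Idx, ⟪eb Idx (Idx.node p.1.1 (Idx.node p.1.2 p.2)),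
      eb Idx (Idx.node q.1.1 (Idx.node q.1.2 q.2))⟫_ℂ = (ind (p = q) : ℂ) := fun p q => by
    rw [inner_basis]; congr 1; exact ind_congr (by simp [Prod.ext_iff, and_assoc])
  obtain ⟨A2, hA⟩ := exists_op_of_orthonormal (tensBasis (tensBasis (eb Idx) (eb Idx)) (eb Idx))
    _ hg
  refine ⟨A2, fun a b c => ?_, isometry_of_basis _ _ fun p q => by rw [hA, hA, hg]⟩
  have h1 : ∀ i j, A2 ∘L tmL (tm (eb Idx i) (eb Idx j)) =
      NN ∘L tmL (eb Idx i) ∘L NN ∘L tmL (eb Idx j) := fun i j =>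
    basis_ext (eb Idx) fun k => by
      have := hA ((i, j), k)
      simp only [tensBasis_apply] at this
      simp only [comp_apply, tmL_apply, this, NN_eb]
  have h2 : ∀ i, A2 ∘L tmR c ∘L tmL (eb Idx i) = NN ∘L tmL (eb Idx i) ∘L NN ∘L tmR c := fun i =>
    basis_ext (eb Idx) fun j => congrArg (fun Y => Y c) (h1 i j)
  have h3 : A2 ∘L tmR c ∘L tmR b = NN ∘L tmR (NN (tm b c)) :=
    basis_ext (eb Idx) fun i => congrArg (fun Y => Y b) (h2 i)
  exact congrArg (fun Y => Y a) h3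

theorem Delta_coassoc {x : BH →L[ℂ] BH} (hx : x ∈ MM) (ξ' ξ ζ' ζ : BH) :
    sliceL ξ' ξ (Delta (sliceR ζ' ζ (Delta x))) = sliceR ζ' ζ (Delta (sliceL ξ' ξ (Delta x))) := by
  obtain ⟨A2, hA, hi⟩ := exists_assoc
  have h1 : IsEmb (node (node VV VV) VV) (NN ∘L tens NN 1) := emb_NN.node emb_one
  have h2 : IsEmb (node (node VV VV) VV) A2 := ⟨h1.uni, fun α β => HT3_ext fun a b c => by
    have e1 : ∀ α β v, VV α β (NN v) = NN (node VV VV α β v) := fun α β v =>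
      congrArg (fun Y => Y v) (NN_intw α β)
    simp only [comp_apply, hA, e1, node_tm, map_sum, tm_sum_left, tm_sum_right]
    exact Finset.sum_comm, hi⟩
  refine ContinuousLinearMap.ext fun η => ext_inner_left ℂ fun η' => ?_
  have h3 := h1.nat_inner h2 Intw.id hx (tm (tm ξ' η') ζ') (tm (tm ξ η) ζ)
  rw [← star_eq_adjoint, star_one] at h3
  simp only [one_apply_eq_self, comp_apply, tens_tm, hA] at h3
  simp only [inner_sliceL, inner_sliceR, inner_Delta, h3]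

end Pool.Agent.Lib.MP_d81181_an
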