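import Pool.Agent.Lib.MP_d81181_an.Letter

/-! Morphisms between connections. -/

open scoped Classical ComplexConjugate

noncomputable section

namespace Pool.Agent.Lib.MP_d81181_an

open Conn

/-- A kernel that preserves end points and intertwines the connections. -/
structure IsMor (A B : Conn) (f : B.E → A.E → ℂ) : Prop where
  supp : ∀ {e' e}, f e' e ≠ 0 →
    B.valid e' ∧ A.valid e ∧ B.src e' = A.src e ∧ B.tgt e' = A.tgt e
  comm : ∀ e' e, ∑ g ∈ B.out (A.src e), (B.x e' g : ℂ) * f g e =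
    ∑ g ∈ A.out (B.src e'), f e' g * (A.x g e : ℂ)

lemma mor_single {α : Type*} (s : Finset α) (F : α → ℂ) (e : α) (P : α → Prop)
    (h : F e ≠ 0 → e ∈ s ∧ P e) : ∑ m ∈ s, F m * (ind (m = e ∧ P m) : ℂ) = F e := by
  rw [Finset.sum_eq_single e]
  · by_cases h0 : F e = 0
    · rw [h0, zero_mul]
    · rw [ind_of ⟨rfl, (h h0).2⟩]; simp
  · intro b _ hb
    rw [ind_of_not fun h => hb h.1]; simp
  · intro he
    by_cases h0 : F e = 0
    · rw [h0, zero_mul]
    · exact absurd (h h0).1 he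

lemma mor_xC {B : Conn} {g e : B.E} (h : (B.x g e : ℂ) ≠ 0) :
    B.valid g ∧ B.valid e ∧ Adj (B.src g) (B.src e) ∧ Adj (B.tgt g) (B.tgt e) :=
  B.x_supp' (by exact_mod_cast h)

lemma IsMor.mor_left {A B : Conn} {f : B.E → A.E → ℂ} (hf : IsMor A B f) (F : B.E → ℂ) (e : A.E) :
    ∑ g ∈ B.out (A.src e), F g * f g e = ∑ g ∈ B.inn (A.tgt e), F g * f g e :=
  B.sum_out_eq_sum_inn _ _ _ fun _ hg _ =>
    have := hf.supp (right_ne_zero_of_mul hg)
    ⟨fun _ => this.2.2.2, fun _ => this.2.2.1⟩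

lemma IsMor.mor_right {A B : Conn} {f : B.E → A.E → ℂ} (hf : IsMor A B f) (F : A.E → ℂ)
    (e' : B.E) :
    ∑ g ∈ A.out (B.src e'), f e' g * F g = ∑ g ∈ A.inn (B.tgt e'), f e' g * F g :=
  A.sum_out_eq_sum_inn _ _ _ fun _ hg _ =>
    have := hf.supp (left_ne_zero_of_mul hg)
    ⟨fun _ => this.2.2.2.symm, fun _ => this.2.2.1.symm⟩

/-- The transposed intertwining relation. -/
lemma IsMor.comm' {A B : Conn} {f : B.E → A.E → ℂ} (hf : IsMor A B f) (e' : B.E) (e : A.E) :
    ∑ g ∈ B.out (A.src e), (B.x g e' : ℂ) * f g e =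
      ∑ h ∈ A.out (B.src e'), f e' h * (A.x e h : ℂ) := by
  have h1 : ∑ k ∈ B.inn (A.tgt e), ∑ h ∈ A.out (B.src e'),
      (B.x k e' : ℂ) * (∑ m ∈ B.out (B.src e'), (B.x k m : ℂ) * f m h) * (A.x e h : ℂ) =
      ∑ h ∈ A.out (B.src e'), f e' h * (A.x e h : ℂ) := by
    rw [Finset.sum_comm]
    refine Finset.sum_congr rfl fun h _ => ?_
    simp only [Finset.mul_sum, Finset.sum_mul]
    rw [Finset.sum_comm, ← mor_single (B.out (B.src e')) (fun m => f m h * (A.x e h : ℂ)) e'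
      (fun m => B.valid m ∧ Adj (A.tgt e) (B.tgt m))]
    · refine Finset.sum_congr rfl fun m hm => ?_
      rw [← B.U1aC _ m e' (B.src_of_out hm), Finset.mul_sum]
      exact Finset.sum_congr rfl fun k _ => by ring
    · intro h0
      have s1 := hf.supp (left_ne_zero_of_mul h0)
      have s2 := mor_xC (right_ne_zero_of_mul h0)
      exact ⟨s1.1, s1.1, s1.2.2.2 ▸ s2.2.2.2⟩
  rw [← h1, hf.mor_left (fun g => (B.x g e' : ℂ)) e]
  refine Finset.sum_congr rfl fun k hk => ?_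
  have h2 : ∀ h ∈ A.out (B.src e'),
      (B.x k e' : ℂ) * (∑ m ∈ B.out (B.src e'), (B.x k m : ℂ) * f m h) * (A.x e h : ℂ) =
      ∑ m ∈ A.out (B.src k), (B.x k e' : ℂ) * f k m * ((A.x m h : ℂ) * (A.x e h : ℂ)) := by
    intro h hh
    have := hf.comm k h
    rw [A.src_of_out hh] at this
    rw [this, Finset.mul_sum, Finset.sum_mul]
    exact Finset.sum_congr rfl fun m _ => by ring
  rw [Finset.sum_congr rfl h2, Finset.sum_comm,
    ← mor_single (A.out (B.src k)) (fun m => (B.x k e' : ℂ) * f k m) e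
      (fun m => A.valid m ∧ Adj (B.src e') (A.src m))]
  · refine Finset.sum_congr rfl fun m _ => ?_
    rw [← Finset.mul_sum]
    by_cases h0 : f k m = 0
    · simp [h0]
    · rw [A.U1bC _ m e (by rw [← (hf.supp h0).2.2.2, B.tgt_of_inn hk])]
  · intro h0
    have s1 := hf.supp (right_ne_zero_of_mul h0)
    have s2 := mor_xC (left_ne_zero_of_mul h0)
    exact ⟨A.mem_out.2 ⟨s1.2.1, s1.2.2.1.symm⟩, s1.2.1, s1.2.2.1 ▸ s2.2.2.1.symm⟩

lemma IsMor.mor_flip {A B : Conn} {f : B.E → A.E → ℂ} (hf : IsMor A B f) :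
    IsMor A.flip B.flip f := by
  refine ⟨fun {e' e} h => ?_, fun e' e => ?_⟩
  · have := hf.supp h
    exact ⟨(B.flip_valid _).2 this.1, (A.flip_valid _).2 this.2.1, this.2.2.2, this.2.2.1⟩
  · change ∑ g ∈ B.inn (A.tgt e), (B.x g e' : ℂ) * f g e =
      ∑ g ∈ A.inn (B.tgt e'), f e' g * (A.x e g : ℂ)
    rw [← hf.mor_left (fun g => (B.x g e' : ℂ)) e, ← hf.mor_right (fun g => (A.x e g : ℂ)) e']
    exact hf.comm' e' e

lemma isMor_flip {A B : Conn} {f : B.E → A.E → ℂ} : IsMor A.flip B.flip f ↔ IsMor A B f := by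
  refine ⟨fun hf => ?_, fun hf => hf.mor_flip⟩
  have h2 := hf.mor_flip
  refine ⟨fun {e' e} h => ?_, fun e' e => h2.comm e' e⟩
  have := hf.supp h
  exact ⟨(B.flip_valid _).1 this.1, (A.flip_valid _).1 this.2.1, this.2.2.2, this.2.2.1⟩

lemma isMor_twist {A B : Conn} {f : B.E → A.E → ℂ} : IsMor A.twist B.twist f ↔ IsMor A B f := by
  have key : (∀ {e' e}, f e' e ≠ 0 →
      B.valid e' ∧ A.valid e ∧ B.src e' = A.src e ∧ B.tgt e' = A.tgt e) → ∀ e' e,
      (∑ g ∈ B.out (A.src e), (B.twist.x e' g : ℂ) * f g e =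
        ∑ g ∈ A.out (B.src e'), f e' g * (A.twist.x g e : ℂ)) ↔
      (∑ g ∈ B.out (A.src e), (B.x e' g : ℂ) * f g e =
        ∑ g ∈ A.out (B.src e'), f e' g * (A.x g e : ℂ)) := by
    intro hs e' e
    have hc : ((sg (B.src e') (A.src e) * sg (B.tgt e') (A.tgt e) : ℝ) : ℂ) ≠ 0 := by
      exact_mod_cast mul_ne_zero (sg_ne _ _) (sg_ne _ _)
    rw [← mul_right_inj' hc (b := ∑ g ∈ B.out (A.src e), (B.x e' g : ℂ) * f g e),
      Finset.mul_sum, Finset.mul_sum]
    refine Eq.congr (Finset.sum_congr rfl fun g _ => ?_) (Finset.sum_congr rfl fun g _ => ?_)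
    · by_cases h0 : f g e = 0
      · simp [h0]
      · rw [← (hs h0).2.2.1, ← (hs h0).2.2.2]
        change (((sg (B.src e') (B.src g) * sg (B.tgt e') (B.tgt g) * B.x e' g : ℝ) : ℂ)) * _ = _
        push_cast; ring
    · by_cases h0 : f e' g = 0
      · simp [h0]
      · rw [(hs h0).2.2.1, (hs h0).2.2.2]
        change _ * (((sg (A.src g) (A.src e) * sg (A.tgt g) (A.tgt e) * A.x g e : ℝ) : ℂ)) = _
        push_cast; ring
  exact ⟨fun hf => ⟨hf.supp, fun e' e => (key hf.supp e' e).1 (hf.comm e' e)⟩,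
    fun hf => ⟨hf.supp, fun e' e => (key hf.supp e' e).2 (hf.comm e' e)⟩⟩

lemma isMor_rot {A B : Conn} {f : B.E → A.E → ℂ} : IsMor A.rot B.rot f ↔ IsMor A B f :=
  isMor_twist.trans isMor_flip

lemma mor_sqrt_ne (B : Conn) (e : B.E) : (Real.sqrt (B.w e) : ℂ) ≠ 0 := by
  exact_mod_cast (Real.sqrt_pos.2 (B.w_pos e)).ne'

lemma mor_sqrt_sq (B : Conn) (e : B.E) :
    (B.w e : ℂ) = (Real.sqrt (B.w e) : ℂ) * (Real.sqrt (B.w e) : ℂ) := by
  exact_mod_cast (Real.mul_self_sqrt (B.w_pos e).le).symm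

lemma isMor_conj {A B : Conn} {f : B.E → A.E → ℂ} :
    IsMor A.conj B.conj
      (fun e' e => (Real.sqrt (B.w e') : ℂ) * (Real.sqrt (A.w e) : ℂ)⁻¹ * f e' e) ↔
    IsMor A B f := by
  have key : (∀ {e' e}, f e' e ≠ 0 →
      B.valid e' ∧ A.valid e ∧ B.src e' = A.src e ∧ B.tgt e' = A.tgt e) → ∀ e' e,
      (∑ g ∈ B.inn (A.tgt e), (B.conj.x e' g : ℂ) *
          ((Real.sqrt (B.w g) : ℂ) * (Real.sqrt (A.w e) : ℂ)⁻¹ * f g e) =
        ∑ g ∈ A.inn (B.tgt e'), ((Real.sqrt (B.w e') : ℂ) * (Real.sqrt (A.w g) : ℂ)⁻¹ * f e' g) *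
          (A.conj.x g e : ℂ)) ↔
      (∑ g ∈ B.out (A.src e), (B.x e' g : ℂ) * f g e =
        ∑ g ∈ A.out (B.src e'), f e' g * (A.x g e : ℂ)) := by
    intro hs e' e
    have hc : (Real.sqrt (B.w e') : ℂ) * (Real.sqrt (A.w e) : ℂ)⁻¹ ≠ 0 :=
      mul_ne_zero (mor_sqrt_ne _ _) (inv_ne_zero (mor_sqrt_ne _ _))
    rw [B.sum_out_eq_sum_inn (A.src e) (A.tgt e) _ fun g hg _ =>
        have := hs (right_ne_zero_of_mul hg)
        ⟨fun _ => this.2.2.2, fun _ => this.2.2.1⟩,
      A.sum_out_eq_sum_inn (B.src e') (B.tgt e') _ fun g hg _ =>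
        have := hs (left_ne_zero_of_mul hg)
        ⟨fun _ => this.2.2.2.symm, fun _ => this.2.2.1.symm⟩,
      ← mul_right_inj' hc (b := ∑ g ∈ B.inn (A.tgt e), (B.x e' g : ℂ) * f g e),
      Finset.mul_sum, Finset.mul_sum]
    refine Eq.congr (Finset.sum_congr rfl fun g _ => ?_) (Finset.sum_congr rfl fun g _ => ?_)
    · change (((Real.sqrt (B.w e') * (Real.sqrt (B.w g))⁻¹ * B.x e' g : ℝ) : ℂ)) * _ = _
      have := mor_sqrt_ne B g
      push_cast
      field_simp
    · change _ * (((Real.sqrt (A.w g) * (Real.sqrt (A.w e))⁻¹ * A.x g e : ℝ) : ℂ)) = _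
      have := mor_sqrt_ne A g
      push_cast
      field_simp
  constructor
  · intro hf
    have hs : ∀ {e' e}, f e' e ≠ 0 →
        B.valid e' ∧ A.valid e ∧ B.src e' = A.src e ∧ B.tgt e' = A.tgt e := by
      intro e' e h
      have := hf.supp (e' := e') (e := e) (mul_ne_zero
        (mul_ne_zero (mor_sqrt_ne _ _) (inv_ne_zero (mor_sqrt_ne _ _))) h)
      exact ⟨(B.conj_valid _).1 this.1, (A.conj_valid _).1 this.2.1, this.2.2.2, this.2.2.1⟩
    exact ⟨hs, fun e' e => (key hs e' e).1 (hf.comm e' e)⟩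
  · intro hf
    refine ⟨fun {e' e} h => ?_, fun e' e => (key hf.supp e' e).2 (hf.comm e' e)⟩
    have := hf.supp (right_ne_zero_of_mul h)
    exact ⟨(B.conj_valid _).2 this.1, (A.conj_valid _).2 this.2.1, this.2.2.2, this.2.2.1⟩

lemma IsMor.adj {A B : Conn} {f : B.E → A.E → ℂ} (hf : IsMor A B f) :
    IsMor B A (fun e e' => conj (f e' e)) := by
  refine ⟨fun {e e'} h => ?_, fun e e' => ?_⟩
  · have := hf.supp (e' := e') (e := e) (by simpa using h)
    exact ⟨this.2.1, this.1, this.2.2.1.symm, this.2.2.2.symm⟩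
  · have := congrArg conj (hf.comm' e' e)
    simp only [map_sum, map_mul, Complex.conj_ofReal] at this
    simp only [mul_comm] at this ⊢
    exact this.symm

/-- Conjugation by the weights preserves morphisms. -/
lemma IsMor.alpha {A B : Conn} {f : B.E → A.E → ℂ} (hf : IsMor A B f) :
    IsMor A B (fun e' e => (B.w e' : ℂ) * (A.w e : ℂ)⁻¹ * f e' e) := by
  rw [← isMor_flip]
  refine ⟨fun {e' e} h => hf.mor_flip.supp (right_ne_zero_of_mul h), fun e' e => ?_⟩
  have h1 : ∑ g ∈ B.inn (A.tgt e),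
      (((Real.sqrt (B.w g) * (Real.sqrt (B.w e'))⁻¹ * B.x g e' : ℝ) : ℂ)) *
        ((Real.sqrt (B.w g) : ℂ) * (Real.sqrt (A.w e) : ℂ)⁻¹ * f g e) =
      ∑ g ∈ A.inn (B.tgt e'), ((Real.sqrt (B.w e') : ℂ) * (Real.sqrt (A.w g) : ℂ)⁻¹ * f e' g) *
        (((Real.sqrt (A.w e) * (Real.sqrt (A.w g))⁻¹ * A.x e g : ℝ) : ℂ)) :=
    (isMor_conj.mpr hf).comm' e' e
  have h2 := congrArg (fun z => (Real.sqrt (B.w e') : ℂ) * (Real.sqrt (A.w e) : ℂ)⁻¹ * z) h1
  simp only [Finset.mul_sum] at h2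
  change ∑ g ∈ B.inn (A.tgt e), (B.x g e' : ℂ) * ((B.w g : ℂ) * (A.w e : ℂ)⁻¹ * f g e) =
      ∑ g ∈ A.inn (B.tgt e'), ((B.w e' : ℂ) * (A.w g : ℂ)⁻¹ * f e' g) * (A.x e g : ℂ)
  refine Eq.trans (Finset.sum_congr rfl fun g _ => ?_)
    (h2.trans (Finset.sum_congr rfl fun g _ => ?_))
  · rw [mor_sqrt_sq B g, mor_sqrt_sq A e]
    have := mor_sqrt_ne B e'
    have := mor_sqrt_ne A e
    push_cast
    field_simp
  · rw [mor_sqrt_sq A g, mor_sqrt_sq B e']
    have := mor_sqrt_ne A g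
    have := mor_sqrt_ne A e
    push_cast
    field_simp

lemma IsMor.alpha_inv {A B : Conn} {f : B.E → A.E → ℂ} (hf : IsMor A B f) :
    IsMor A B (fun e' e => (B.w e' : ℂ)⁻¹ * (A.w e : ℂ) * f e' e) := by
  have := hf.adj.alpha.adj
  convert this using 3 with e' e
  simp only [map_mul, map_inv₀, Complex.conj_ofReal, Complex.conj_conj]
  ring

lemma IsMor.mul {A B C : Conn} {f : C.E → B.E → ℂ} {g : B.E → A.E → ℂ} (hf : IsMor B C f)
    (hg : IsMor A B g) :
    IsMor A C (fun e'' e => ∑ e' ∈ B.out (A.src e), f e'' e' * g e' e) := by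
  refine ⟨fun {e'' e} h => ?_, fun e'' e => ?_⟩
  · obtain ⟨e', -, h0⟩ := Finset.exists_ne_zero_of_sum_ne_zero h
    have s1 := hf.supp (left_ne_zero_of_mul h0)
    have s2 := hg.supp (right_ne_zero_of_mul h0)
    exact ⟨s1.1, s2.2.1, s1.2.2.1.trans s2.2.2.1, s1.2.2.2.trans s2.2.2.2⟩
  · have h1 : ∑ k ∈ C.out (A.src e), (C.x e'' k : ℂ) * ∑ e' ∈ B.out (A.src e), f k e' * g e' e =
        ∑ e' ∈ B.out (A.src e), ∑ m ∈ B.out (C.src e''), f e'' m * ((B.x m e' : ℂ) * g e' e) := by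
      simp only [Finset.mul_sum]
      rw [Finset.sum_comm]
      refine Finset.sum_congr rfl fun e' he' => ?_
      have := congrArg (· * g e' e) (hf.comm e'' e')
      simp only [Finset.sum_mul, B.src_of_out he', _root_.mul_assoc] at this
      exact this
    have h2 : ∑ k ∈ A.out (C.src e''), (∑ e' ∈ B.out (A.src k), f e'' e' * g e' k) * (A.x k e : ℂ) =
        ∑ k ∈ A.out (C.src e''), ∑ m ∈ B.out (C.src e''), f e'' m * (g m k * (A.x k e : ℂ)) := by
      refine Finset.sum_congr rfl fun k hk => ?_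
      rw [A.src_of_out hk, Finset.sum_mul]
      simp only [_root_.mul_assoc]
    rw [h1, h2, Finset.sum_comm, Finset.sum_comm (s := A.out (C.src e''))]
    refine Finset.sum_congr rfl fun m hm => ?_
    rw [← Finset.mul_sum, ← Finset.mul_sum, hg.comm m e, B.src_of_out hm]

lemma isMor_one (A : Conn) : IsMor A A (fun e' e => (ind (e' = e ∧ A.valid e) : ℂ)) := by
  refine ⟨fun {e' e} h => ?_, fun e' e => ?_⟩
  · obtain ⟨rfl, h2⟩ := indC_ne_zero h
    exact ⟨h2, h2, rfl, rfl⟩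
  · rw [mor_single _ (fun g => (A.x e' g : ℂ)) e (fun _ => A.valid e)
      fun h => ⟨(mor_xC h).2.1, (mor_xC h).2.1⟩,
      ← mor_single (A.out (A.src e')) (fun g => (A.x g e : ℂ)) e' (fun g => A.valid g)
      fun h => ⟨(mor_xC h).1, (mor_xC h).1⟩]
    refine Finset.sum_congr rfl fun g _ => ?_
    rw [mul_comm, ind_congr (and_congr_left' eq_comm)]

/-- A morphism that vanishes on the edges starting at the root vanishes. -/
lemma IsMor.eq_zero_of_root {A B : Conn} {f : B.E → A.E → ℂ} (hf : IsMor A B f)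
    (h : ∀ e' ∈ B.out 0, ∀ e ∈ A.out 0, f e' e = 0) : f = 0 := by
  have key : ∀ a, ∀ e' e, B.src e' = a → f e' e = 0 := by
    intro a
    induction a with
    | zero =>
      intro e' e he
      by_contra h0
      have s := hf.supp h0
      exact h0 (h e' (B.mem_out.2 ⟨s.1, he⟩) e (A.mem_out.2 ⟨s.2.1, s.2.2.1 ▸ he⟩))
    | succ a ih =>
      intro e' e he
      have h1 : ∀ k ∈ A.out a,
          (∑ g ∈ A.out (B.src e'), f e' g * (A.x g k : ℂ)) * (A.x e k : ℂ) = 0 := by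
        intro k hk
        rw [← hf.comm e' k, Finset.sum_eq_zero, zero_mul]
        intro g hg
        rw [ih g k ((B.src_of_out hg).trans (A.src_of_out hk)), mul_zero]
      have h2 := Finset.sum_eq_zero h1
      simp only [Finset.sum_mul] at h2
      rw [Finset.sum_comm] at h2
      by_contra h0
      have s := hf.supp h0
      apply h0
      rw [← h2, ← mor_single (A.out (B.src e')) (f e') e (fun g => A.valid g ∧ Adj a (A.src g))
        fun _ => ⟨A.mem_out.2 ⟨s.2.1, s.2.2.1.symm⟩, s.2.1, Or.inl (he.symm.trans s.2.2.1)⟩]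
      refine Finset.sum_congr rfl fun g _ => ?_
      by_cases hg : f e' g = 0
      · simp [hg]
      · rw [← A.U1bC a g e ((hf.supp hg).2.2.2.symm.trans s.2.2.2), Finset.mul_sum]
        simp only [_root_.mul_assoc]
  funext e' e
  exact key _ e' e rfl

/-- The space of morphisms. -/
def Hom (A B : Conn) : Submodule ℂ (B.E → A.E → ℂ) where
  carrier := {f | IsMor A B f}
  add_mem' := by
    intro f g hf hg
    refine ⟨fun {e' e} h => ?_, fun e' e => ?_⟩
    · by_cases h0 : f e' e = 0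
      · exact hg.supp (by simpa [h0] using h)
      · exact hf.supp h0
    · simp only [Pi.add_apply, mul_add, add_mul, Finset.sum_add_distrib, hf.comm e' e,
        hg.comm e' e]
  zero_mem' := ⟨fun h => absurd rfl h, by simp⟩
  smul_mem' := by
    intro c f hf
    refine ⟨fun {e' e} h => hf.supp (right_ne_zero_of_mul h), fun e' e => ?_⟩
    have := congrArg (c * ·) (hf.comm e' e)
    simp only [Finset.mul_sum] at this
    simp only [Pi.smul_apply, smul_eq_mul, mul_left_comm _ c, mul_assoc]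
    exact this

/-- Bundled morphisms. -/
def Mor (A B : Conn) : Type := Hom A B

instance (A B : Conn) : AddCommGroup (Mor A B) := inferInstanceAs (AddCommGroup (Hom A B))
instance (A B : Conn) : Module ℂ (Mor A B) := inferInstanceAs (Module ℂ (Hom A B))

namespace Mor

variable {A B C D : Conn}

/-- The kernel of a morphism. -/
def k (f : Mor A B) : B.E → A.E → ℂ := f.1

/-- Bundling. -/
def mk' (f : B.E → A.E → ℂ) (hf : IsMor A B f) : Mor A B := ⟨f, hf⟩

@[simp] lemma mk'_k (f : B.E → A.E → ℂ) (hf : IsMor A B f) : (mk' f hf).k = f := rfl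

lemma isMor (f : Mor A B) : IsMor A B f.k := f.2

lemma supp (f : Mor A B) {e' : B.E} {e : A.E} (h : f.k e' e ≠ 0) :
    B.valid e' ∧ A.valid e ∧ B.src e' = A.src e ∧ B.tgt e' = A.tgt e := f.isMor.supp h

@[ext] lemma ext {f g : Mor A B} (h : ∀ e' e, f.k e' e = g.k e' e) : f = g :=
  Subtype.ext (funext fun e' => funext fun e => h e' e)

@[simp] lemma zero_k (e' : B.E) (e : A.E) : (0 : Mor A B).k e' e = 0 := rfl
@[simp] lemma add_k (f g : Mor A B) (e' : B.E) (e : A.E) :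
    (f + g).k e' e = f.k e' e + g.k e' e := rfl
@[simp] lemma sub_k (f g : Mor A B) (e' : B.E) (e : A.E) :
    (f - g).k e' e = f.k e' e - g.k e' e := rfl
@[simp] lemma smul_k (c : ℂ) (f : Mor A B) (e' : B.E) (e : A.E) :
    (c • f).k e' e = c * f.k e' e := rfl
lemma sum_k {α : Type*} (s : Finset α) (f : α → Mor A B) (e' : B.E) (e : A.E) :
    (∑ i ∈ s, f i).k e' e = ∑ i ∈ s, (f i).k e' e := by
  induction s using Finset.induction_on with
  | empty => simp
  | insert a s ha ih => rw [Finset.sum_insert ha, Finset.sum_insert ha, add_k, ih]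

lemma ext_root {f g : Mor A B} (h : ∀ e' ∈ B.out 0, ∀ e ∈ A.out 0, f.k e' e = g.k e' e) :
    f = g := by
  have := (f - g).isMor.eq_zero_of_root fun e' he' e he => by rw [sub_k, h e' he' e he, sub_self]
  ext e' e
  have h2 := congrFun (congrFun this e') e
  rw [sub_k] at h2
  exact sub_eq_zero.mp h2

/-- Composition. -/
def mul (f : Mor B C) (g : Mor A B) : Mor A C := mk' _ (f.isMor.mul g.isMor)

instance : HMul (Mor B C) (Mor A B) (Mor A C) := ⟨mul⟩

lemma mul_k (f : Mor B C) (g : Mor A B) (e'' : C.E) (e : A.E) :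
    (f * g).k e'' e = ∑ e' ∈ B.out (A.src e), f.k e'' e' * g.k e' e := rfl

lemma mul_k' (f : Mor B C) (g : Mor A B) (e'' : C.E) (e : A.E) :
    (f * g).k e'' e = ∑ e' ∈ B.out (C.src e''), f.k e'' e' * g.k e' e := by
  rw [mul_k]
  by_cases h : C.src e'' = A.src e
  · rw [h]
  · have h0 : ∀ e', f.k e'' e' * g.k e' e = 0 := by
      intro e'
      by_contra h0
      exact h ((f.supp (left_ne_zero_of_mul h0)).2.2.1.trans
        (g.supp (right_ne_zero_of_mul h0)).2.2.1)
    simp only [h0, Finset.sum_const_zero]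

lemma mul_k_inn (f : Mor B C) (g : Mor A B) (e'' : C.E) (e : A.E) :
    (f * g).k e'' e = ∑ e' ∈ B.inn (A.tgt e), f.k e'' e' * g.k e' e :=
  g.isMor.mor_left (f.k e'') e

/-- Adjoint. -/
def adj (f : Mor A B) : Mor B A := mk' _ f.isMor.adj

@[simp] lemma adj_k (f : Mor A B) (e : A.E) (e' : B.E) : f.adj.k e e' = conj (f.k e' e) := rfl

/-- Identity. -/
def one (A : Conn) : Mor A A := mk' _ (isMor_one A)

lemma one_k (e' e : A.E) : (one A).k e' e = ind (e' = e ∧ A.valid e) := rfl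

lemma mul_assoc (f : Mor C D) (g : Mor B C) (h : Mor A B) : f * g * h = f * (g * h) := by
  ext e' e
  rw [mul_k, mul_k]
  simp only [mul_k, Finset.mul_sum]
  rw [Finset.sum_comm]
  refine Finset.sum_congr rfl fun m hm => ?_
  rw [B.src_of_out hm, Finset.sum_mul]
  simp only [_root_.mul_assoc]
@[simp] lemma one_mul (f : Mor A B) : one B * f = f := by
  ext e' e
  rw [mul_k', ← mor_single (B.out (B.src e')) (fun g => f.k g e) e' (fun g => B.valid g)
    fun h => ⟨(f.supp h).1, (f.supp h).1⟩]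
  refine Finset.sum_congr rfl fun g _ => ?_
  rw [one_k, mul_comm, ind_congr (and_congr_left' eq_comm)]
@[simp] lemma mul_one (f : Mor A B) : f * one A = f := by
  ext e' e
  rw [mul_k]
  exact mor_single _ (f.k e') e (fun _ => A.valid e) fun h => ⟨(f.supp h).2.1, (f.supp h).2.1⟩
lemma add_mul (f f' : Mor B C) (g : Mor A B) : (f + f') * g = f * g + f' * g := by
  ext; simp [mul_k, _root_.add_mul, Finset.sum_add_distrib]
lemma mul_add (f : Mor B C) (g g' : Mor A B) : f * (g + g') = f * g + f * g' := by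
  ext; simp [mul_k, _root_.mul_add, Finset.sum_add_distrib]
lemma sub_mul (f f' : Mor B C) (g : Mor A B) : (f - f') * g = f * g - f' * g := by
  ext; simp [mul_k, _root_.sub_mul, Finset.sum_sub_distrib]
lemma mul_sub (f : Mor B C) (g g' : Mor A B) : f * (g - g') = f * g - f * g' := by
  ext; simp [mul_k, _root_.mul_sub, Finset.sum_sub_distrib]
lemma smul_mul (c : ℂ) (f : Mor B C) (g : Mor A B) : (c • f) * g = c • (f * g) := by
  ext; simp [mul_k, Finset.mul_sum, _root_.mul_assoc]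
lemma mul_smul (c : ℂ) (f : Mor B C) (g : Mor A B) : f * (c • g) = c • (f * g) := by
  ext; simp [mul_k, Finset.mul_sum, mul_left_comm]
@[simp] lemma zero_mul (g : Mor A B) : (0 : Mor B C) * g = 0 := by ext; simp [mul_k]
@[simp] lemma mul_zero (f : Mor B C) : f * (0 : Mor A B) = 0 := by ext; simp [mul_k]
lemma sum_mul {α : Type*} (s : Finset α) (f : α → Mor B C) (g : Mor A B) :
    (∑ i ∈ s, f i) * g = ∑ i ∈ s, f i * g := by
  induction s using Finset.induction_on with
  | empty => simp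
  | insert a s ha ih => rw [Finset.sum_insert ha, Finset.sum_insert ha, add_mul, ih]
lemma mul_sum {α : Type*} (s : Finset α) (f : Mor B C) (g : α → Mor A B) :
    f * (∑ i ∈ s, g i) = ∑ i ∈ s, f * g i := by
  induction s using Finset.induction_on with
  | empty => simp
  | insert a s ha ih => rw [Finset.sum_insert ha, Finset.sum_insert ha, mul_add, ih]

@[simp] lemma adj_adj (f : Mor A B) : f.adj.adj = f := by ext; simp
lemma adj_mul (f : Mor B C) (g : Mor A B) : (f * g).adj = g.adj * f.adj := by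
  ext e e''
  rw [adj_k, mul_k', mul_k, map_sum]
  simp [mul_comm]
lemma adj_add (f g : Mor A B) : (f + g).adj = f.adj + g.adj := by ext; simp
lemma adj_sub (f g : Mor A B) : (f - g).adj = f.adj - g.adj := by ext; simp
lemma adj_smul (c : ℂ) (f : Mor A B) : (c • f).adj = conj c • f.adj := by ext; simp
@[simp] lemma adj_zero : (0 : Mor A B).adj = 0 := by ext; simp
lemma adj_sum {α : Type*} (s : Finset α) (f : α → Mor A B) :
    (∑ i ∈ s, f i).adj = ∑ i ∈ s, (f i).adj := by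
  ext; simp [sum_k]
@[simp] lemma adj_one : (one A).adj = one A := by
  ext e e'
  rw [adj_k, one_k, one_k, Complex.conj_ofReal]
  congr 1
  exact ind_congr ⟨fun ⟨h1, h2⟩ => ⟨h1.symm, h1 ▸ h2⟩, fun ⟨h1, h2⟩ => ⟨h1.symm, h1 ▸ h2⟩⟩

instance : FiniteDimensional ℂ (Mor A B) := by
  let L : Mor A B →ₗ[ℂ] (B.out 0 → A.out 0 → ℂ) :=
    { toFun := fun f e' e => f.k e' e
      map_add' := fun _ _ => rfl
      map_smul' := fun _ _ => rfl }
  refine FiniteDimensional.of_injective L fun f g h => ext_root fun e' he' e he => ?_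
  exact congrFun (congrFun h ⟨e', he'⟩) ⟨e, he⟩

end Mor

end Pool.Agent.Lib.MP_d81181_an
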