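import Pool.Agent.Lib.MP_d81181_an.LeafV
import Pool.Agent.Lib.MP_d81181_an.Mor

/-! Averaging of intertwiners. -/

open scoped Classical InnerProductSpace ComplexConjugate
open ContinuousLinearMap

noncomputable section

namespace Pool.Agent.Lib.MP_d81181_an

open Conn

/-- The intertwining relation in coordinates. -/
lemma leafAvg_coord {P Q : Conn} {T : HL P →L[ℂ] HL Q} (hT : Intw (VL P) (VL Q) T)
    (α' α : Fin 2) {q : Raw Q} {p : Raw P} (hq : LV Q q) (hp : LV P p) :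
    ∑ r ∈ nearO Q (Q.src q.2.1), (Vk Q α' α q r : ℂ) * ⟪bvec (LV Q) r, T (bvec (LV P) p)⟫_ℂ =
      ∑ r ∈ nearO P (P.src p.2.1),
        (Vk P α' α r p : ℂ) * ⟪bvec (LV Q) q, T (bvec (LV P) r)⟫_ℂ := by
  have h1 : ⟪bvec (LV Q) q, VL Q α' α (T (bvec (LV P) p))⟫_ℂ =
      ⟪bvec (LV Q) q, T (VL P α' α (bvec (LV P) p))⟫_ℂ := by
    have := congrArg (fun Y => ⟪bvec (LV Q) q, Y (bvec (LV P) p)⟫_ℂ) (hT α' α)
    simpa using this
  have h2 : ⟪bvec (LV Q) q, T (VL P α' α (bvec (LV P) p))⟫_ℂ =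
      ∑ r ∈ nearO P (P.src p.2.1),
        (Vk P α' α r p : ℂ) * ⟪bvec (LV Q) q, T (bvec (LV P) r)⟫_ℂ := by
    rw [VL_bvecO P α' α hp, map_sum, inner_sum]
    refine Finset.sum_congr rfl fun r _ => ?_
    rw [map_smul, inner_smul_right]
  have hc : ∀ r, LV Q r →
      ⟪bvec (LV Q) r, adjoint (VL Q α' α) (bvec (LV Q) q)⟫_ℂ = (Vk Q α' α q r : ℂ) := by
    intro r hr
    rw [adjoint_inner_right, ← inner_conj_symm, inner_VL Q α' α hq hr, Complex.conj_ofReal]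
  have h3 : adjoint (VL Q α' α) (bvec (LV Q) q) =
      ∑ r ∈ nearO Q (Q.src q.2.1), (Vk Q α' α q r : ℂ) • bvec (LV Q) r := by
    rw [bvec_expand (adjoint (VL Q α' α) (bvec (LV Q) q)) (nearO Q (Q.src q.2.1))]
    · refine Finset.sum_congr rfl fun r hr => ?_
      rw [hc r (mem_nearO.mp hr).1]
    · intro r hr hn
      rw [hc r hr]
      by_contra h0
      have h0' : Vk Q α' α q r ≠ 0 := fun h => h0 (by rw [h]; simp)
      exact hn (mem_nearO.mpr ⟨hr, (Vk_supp h0').1⟩)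
  rw [← h2, ← h1, ← adjoint_inner_left, h3, sum_inner]
  refine Finset.sum_congr rfl fun r _ => ?_
  rw [inner_smul_left, Complex.conj_ofReal]

/-- Collapsing a sum over near indices with prescribed outer components. -/
lemma leafAvg_collapse (Q : Conn) {a' a : ℕ} (h : Adj a' a) (s t : St) (ht : sz t = a)
    (H : Raw Q → ℂ) :
    ∑ r ∈ nearO Q a', (ind (s = r.1) : ℂ) * (ind (t = r.2.2) : ℂ) * H r =
      ∑ g ∈ Q.out a, (ind (Q.tgt g = sz s) : ℂ) * H (s, g, t) := by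
  have e1 : ∑ r ∈ nearO Q a', (ind (s = r.1) : ℂ) * (ind (t = r.2.2) : ℂ) * H r =
      ∑ r ∈ (nearO Q a').filter (fun r => s = r.1 ∧ t = r.2.2), H r := by
    rw [Finset.sum_filter]
    refine Finset.sum_congr rfl fun r _ => ?_
    by_cases h1 : s = r.1 <;> by_cases h2 : t = r.2.2 <;> simp [ind, h1, h2]
  have e2 : ∑ g ∈ Q.out a, (ind (Q.tgt g = sz s) : ℂ) * H (s, g, t) =
      ∑ g ∈ (Q.out a).filter (fun g => Q.tgt g = sz s), H (s, g, t) := by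
    rw [Finset.sum_filter]
    refine Finset.sum_congr rfl fun g _ => ?_
    by_cases h1 : Q.tgt g = sz s <;> simp [ind, h1]
  rw [e1, e2]
  refine Finset.sum_nbij' (fun r => r.2.1) (fun g => (s, g, t)) ?_ ?_ ?_ ?_ ?_
  · rintro ⟨u, g, v⟩ hr
    simp only [Finset.mem_filter, mem_nearO, LV] at hr
    obtain ⟨⟨⟨h1, h2, h3⟩, _⟩, rfl, rfl⟩ := hr
    simp only [Finset.mem_filter, mem_out]
    exact ⟨⟨h1, h3.symm.trans ht⟩, h2.symm⟩
  · intro g hg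
    simp only [Finset.mem_filter, mem_out] at hg
    obtain ⟨⟨h1, h2⟩, h3⟩ := hg
    simp only [Finset.mem_filter, mem_nearO, LV, and_true]
    exact ⟨⟨h1, h3.symm, ht.trans h2.symm⟩, h2 ▸ h⟩
  · rintro ⟨u, g, v⟩ hr
    simp only [Finset.mem_filter] at hr
    obtain ⟨_, rfl, rfl⟩ := hr
    rfl
  · intro g _; rfl
  · rintro ⟨u, g, v⟩ hr
    simp only [Finset.mem_filter] at hr
    obtain ⟨_, rfl, rfl⟩ := hr
    rfl

lemma leafAvg_A2 (n : ℕ) (s' s'' : St) (h : Adj n (sz s')) :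
    ∑ α, ∑ s ∈ lev n, (A s' s α : ℂ) * (A s'' s α : ℂ) = ((n : ℂ) + 1) * (ind (s' = s'') : ℂ) := by
  have := A2 n s' s''
  rw [ind_congr (and_iff_left h)] at this
  exact_mod_cast this

lemma leafAvg_A3 (n : ℕ) (s s₁ : St) (h : Adj n (sz s)) :
    ∑ α, ∑ s' ∈ lev n, (A s' s α : ℂ) * (A s' s₁ α : ℂ) = ((n : ℂ) + 1) * (ind (s = s₁) : ℂ) := by
  have := A3 n s s₁
  rw [ind_congr (and_iff_left h)] at this
  exact_mod_cast this

/-- Rearrangement of a product of two double sums with a further sum. -/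
lemma leafAvg_rearr {R : Type} (S : Finset R) (I J : Finset St) (X Y : Fin 2 → St → R → ℂ)
    (Z : R → ℂ) :
    ∑ α, ∑ u ∈ I, ∑ β, ∑ v ∈ J, ∑ r ∈ S, X α u r * Y β v r * Z r =
      ∑ r ∈ S, (∑ α, ∑ u ∈ I, X α u r) * (∑ β, ∑ v ∈ J, Y β v r) * Z r := by
  have e : ∀ r, (∑ α, ∑ u ∈ I, X α u r) * (∑ β, ∑ v ∈ J, Y β v r) * Z r =
      ∑ α, ∑ u ∈ I, ∑ β, ∑ v ∈ J, X α u r * Y β v r * Z r := by
    intro r
    rw [Finset.sum_mul, Finset.sum_mul]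
    refine Finset.sum_congr rfl fun α _ => ?_
    rw [Finset.sum_mul, Finset.sum_mul]
    refine Finset.sum_congr rfl fun u _ => ?_
    rw [Finset.mul_sum, Finset.sum_mul]
    refine Finset.sum_congr rfl fun β _ => ?_
    rw [Finset.mul_sum, Finset.sum_mul]
  simp only [e]
  symm
  rw [Finset.sum_comm]
  refine Finset.sum_congr rfl fun α _ => ?_
  rw [Finset.sum_comm]
  refine Finset.sum_congr rfl fun u _ => ?_
  rw [Finset.sum_comm]
  refine Finset.sum_congr rfl fun β _ => ?_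
  rw [Finset.sum_comm]

lemma leafAvg_left (Q : Conn) {a' a c' c : ℕ} (ha : Adj a' a) (hc : Adj c' c) (g' : Q.E)
    {s t : St} (hs : sz s = c) (ht : sz t = a) (G : Raw Q → ℂ) :
    ∑ α, ∑ s' ∈ lev c', ∑ α', ∑ t' ∈ lev a', (A s' s α : ℂ) * (A t' t α' : ℂ) *
        ∑ r ∈ nearO Q a', (Vk Q α' α (s', g', t') r : ℂ) * G r =
      ((c' : ℂ) + 1) * ((a' : ℂ) + 1) / (Real.sqrt ((c + 1) * (a' + 1)) : ℂ) *
        ∑ g ∈ Q.out a, (ind (Q.tgt g = c) : ℂ) * ((Q.x g' g : ℂ) * G (s, g, t)) := by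
  have e1 : ∑ α, ∑ s' ∈ lev c', ∑ α', ∑ t' ∈ lev a', (A s' s α : ℂ) * (A t' t α' : ℂ) *
        ∑ r ∈ nearO Q a', (Vk Q α' α (s', g', t') r : ℂ) * G r =
      ∑ α, ∑ s' ∈ lev c', ∑ α', ∑ t' ∈ lev a', ∑ r ∈ nearO Q a',
        ((A s' s α : ℂ) * (A s' r.1 α : ℂ)) * ((A t' t α' : ℂ) * (A t' r.2.2 α' : ℂ)) *
          ((Q.x g' r.2.1 : ℂ) / (Real.sqrt ((sz r.1 + 1) * (a' + 1)) : ℂ) * G r) := by
    refine Finset.sum_congr rfl fun α _ => Finset.sum_congr rfl fun s' _ =>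
      Finset.sum_congr rfl fun α' _ => Finset.sum_congr rfl fun t' ht' => ?_
    rw [Finset.mul_sum]
    refine Finset.sum_congr rfl fun r _ => ?_
    simp only [Vk, mem_lev.mp ht']
    push_cast
    ring
  rw [e1, leafAvg_rearr]
  have e2 : ∀ r : Raw Q, (∑ α, ∑ s' ∈ lev c', (A s' s α : ℂ) * (A s' r.1 α : ℂ)) *
      (∑ α', ∑ t' ∈ lev a', (A t' t α' : ℂ) * (A t' r.2.2 α' : ℂ)) *
        ((Q.x g' r.2.1 : ℂ) / (Real.sqrt ((sz r.1 + 1) * (a' + 1)) : ℂ) * G r) =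
      (ind (s = r.1) : ℂ) * (ind (t = r.2.2) : ℂ) * (((c' : ℂ) + 1) * ((a' : ℂ) + 1) *
        ((Q.x g' r.2.1 : ℂ) / (Real.sqrt ((sz r.1 + 1) * (a' + 1)) : ℂ) * G r)) := by
    intro r
    rw [leafAvg_A3 c' s r.1 (hs ▸ hc), leafAvg_A3 a' t r.2.2 (ht ▸ ha)]
    ring
  simp only [e2]
  rw [leafAvg_collapse Q ha s t ht, Finset.mul_sum]
  refine Finset.sum_congr rfl fun g _ => ?_
  simp only [hs]
  ring

lemma leafAvg_right (P : Conn) {a' a c' c : ℕ} (ha : Adj a' a) (hc : Adj c' c) (e : P.E)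
    {s' t' : St} (hs : sz s' = c') (ht : sz t' = a') (G : Raw P → ℂ) :
    ∑ α, ∑ s ∈ lev c, ∑ α', ∑ t ∈ lev a, (A s' s α : ℂ) * (A t' t α' : ℂ) *
        ∑ r ∈ nearO P a, (Vk P α' α r (s, e, t) : ℂ) * G r =
      ((c : ℂ) + 1) * ((a : ℂ) + 1) / (Real.sqrt ((c + 1) * (a' + 1)) : ℂ) *
        ∑ h ∈ P.out a', (ind (P.tgt h = c') : ℂ) * ((P.x h e : ℂ) * G (s', h, t')) := by
  have e1 : ∑ α, ∑ s ∈ lev c, ∑ α', ∑ t ∈ lev a, (A s' s α : ℂ) * (A t' t α' : ℂ) *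
        ∑ r ∈ nearO P a, (Vk P α' α r (s, e, t) : ℂ) * G r =
      ∑ α, ∑ s ∈ lev c, ∑ α', ∑ t ∈ lev a, ∑ r ∈ nearO P a,
        ((A s' s α : ℂ) * (A r.1 s α : ℂ)) * ((A t' t α' : ℂ) * (A r.2.2 t α' : ℂ)) *
          ((P.x r.2.1 e : ℂ) / (Real.sqrt ((c + 1) * (sz r.2.2 + 1)) : ℂ) * G r) := by
    refine Finset.sum_congr rfl fun α _ => Finset.sum_congr rfl fun s hs' =>
      Finset.sum_congr rfl fun α' _ => Finset.sum_congr rfl fun t _ => ?_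
    rw [Finset.mul_sum]
    refine Finset.sum_congr rfl fun r _ => ?_
    simp only [Vk, mem_lev.mp hs']
    push_cast
    ring
  rw [e1, leafAvg_rearr]
  have e2 : ∀ r : Raw P, (∑ α, ∑ s ∈ lev c, (A s' s α : ℂ) * (A r.1 s α : ℂ)) *
      (∑ α', ∑ t ∈ lev a, (A t' t α' : ℂ) * (A r.2.2 t α' : ℂ)) *
        ((P.x r.2.1 e : ℂ) / (Real.sqrt ((c + 1) * (sz r.2.2 + 1)) : ℂ) * G r) =
      (ind (s' = r.1) : ℂ) * (ind (t' = r.2.2) : ℂ) * (((c : ℂ) + 1) * ((a : ℂ) + 1) *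
        ((P.x r.2.1 e : ℂ) / (Real.sqrt ((c + 1) * (sz r.2.2 + 1)) : ℂ) * G r)) := by
    intro r
    rw [leafAvg_A2 c s' r.1 (hs ▸ hc.symm), leafAvg_A2 a t' r.2.2 (ht ▸ ha.symm)]
    ring
  simp only [e2]
  rw [leafAvg_collapse P ha.symm s' t' ht, Finset.mul_sum]
  refine Finset.sum_congr rfl fun g _ => ?_
  simp only [hs, ht]
  ring

/-- Exchange of the outer and inner state sums. -/
lemma leafAvg_swap (I J I' J' : Finset St) (F : Fin 2 → Fin 2 → St → St → St → St → ℂ) :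
    ∑ s ∈ I, ∑ t ∈ J, ∑ α, ∑ s' ∈ I', ∑ α', ∑ t' ∈ J', F α α' s t s' t' =
      ∑ s' ∈ I', ∑ t' ∈ J', ∑ α, ∑ s ∈ I, ∑ α', ∑ t ∈ J, F α α' s t s' t' := by
  simp only [← Finset.sum_product']
  refine Finset.sum_nbij' (fun x => (x.2.2.2.1, x.2.2.2.2.2, x.2.2.1, x.1, x.2.2.2.2.1, x.2.1))
    (fun x => (x.2.2.2.1, x.2.2.2.2.2, x.2.2.1, x.1, x.2.2.2.2.1, x.2.1)) ?_ ?_ ?_ ?_ ?_
  · intro x hx
    simp only [Finset.mem_product, Finset.mem_univ, true_and] at hx ⊢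
    tauto
  · intro x hx
    simp only [Finset.mem_product, Finset.mem_univ, true_and] at hx ⊢
    tauto
  · intro x _; rfl
  · intro x _; rfl
  · intro x _; rfl

/-- The averaged kernel. -/
def leafAvg_ker {P Q : Conn} (T : HL P →L[ℂ] HL Q) (e' : Q.E) (e : P.E) : ℂ :=
  (ind (Q.valid e' ∧ P.valid e ∧ Q.src e' = P.src e ∧ Q.tgt e' = P.tgt e) : ℂ) *
    ((((P.tgt e : ℂ) + 1) * ((P.src e : ℂ) + 1))⁻¹ *
      ∑ s ∈ lev (P.tgt e), ∑ t ∈ lev (P.src e), ⟪bv Q s e' t, T (bv P s e t)⟫_ℂ)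

lemma leafAvg_supp {P Q : Conn} {T : HL P →L[ℂ] HL Q} {e' : Q.E} {e : P.E}
    (h : leafAvg_ker T e' e ≠ 0) :
    Q.valid e' ∧ P.valid e ∧ Q.src e' = P.src e ∧ Q.tgt e' = P.tgt e :=
  indC_ne_zero (left_ne_zero_of_mul h)

lemma leafAvg_main {P Q : Conn} {T : HL P →L[ℂ] HL Q} (hT : Intw (VL P) (VL Q) T)
    {g' : Q.E} {e : P.E} (hg : Q.valid g') (he : P.valid e) (ha : Adj (Q.src g') (P.src e))
    (hc : Adj (Q.tgt g') (P.tgt e)) :
    ∑ g ∈ Q.out (P.src e), (Q.x g' g : ℂ) * leafAvg_ker T g e =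
      ∑ h ∈ P.out (Q.src g'), leafAvg_ker T g' h * (P.x h e : ℂ) := by
  set a := P.src e with ha0
  set c := P.tgt e with hc0
  set a' := Q.src g' with ha0'
  set c' := Q.tgt g' with hc0'
  have key := leafAvg_swap (lev c) (lev a) (lev c') (lev a') (fun α α' s t s' t' =>
    (A s' s α : ℂ) * (A t' t α' : ℂ) *
      ∑ r ∈ nearO Q a', (Vk Q α' α (s', g', t') r : ℂ) *
        ⟪bvec (LV Q) r, T (bvec (LV P) (s, e, t))⟫_ℂ)
  have hL : ∑ s ∈ lev c, ∑ t ∈ lev a, ∑ α, ∑ s' ∈ lev c', ∑ α', ∑ t' ∈ lev a',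
      (A s' s α : ℂ) * (A t' t α' : ℂ) *
        ∑ r ∈ nearO Q a', (Vk Q α' α (s', g', t') r : ℂ) *
          ⟪bvec (LV Q) r, T (bvec (LV P) (s, e, t))⟫_ℂ =
      ((c' : ℂ) + 1) * ((a' : ℂ) + 1) * (((c : ℂ) + 1) * ((a : ℂ) + 1)) /
        (Real.sqrt ((c + 1) * (a' + 1)) : ℂ) *
        ∑ g ∈ Q.out a, (Q.x g' g : ℂ) * leafAvg_ker T g e := by
    rw [Finset.sum_congr rfl fun s hs => Finset.sum_congr rfl fun t ht =>
      leafAvg_left Q ha hc g' (mem_lev.mp hs) (mem_lev.mp ht)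
        (fun r => ⟪bvec (LV Q) r, T (bvec (LV P) (s, e, t))⟫_ℂ)]
    simp only [Finset.mul_sum]
    rw [Finset.sum_congr rfl fun s _ => Finset.sum_comm, Finset.sum_comm]
    refine Finset.sum_congr rfl fun g hg' => ?_
    obtain ⟨hg1, hg2⟩ := Q.mem_out.mp hg'
    have hi : ind (Q.valid g ∧ P.valid e ∧ Q.src g = P.src e ∧ Q.tgt g = P.tgt e) =
        ind (Q.tgt g = c) := ind_congr ⟨fun h => h.2.2.2, fun h => ⟨hg1, he, hg2, h⟩⟩
    simp only [leafAvg_ker, hi]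
    simp only [← ha0, ← hc0, Finset.mul_sum, bv]
    refine Finset.sum_congr rfl fun s _ => Finset.sum_congr rfl fun t _ => ?_
    have h1 : ((c : ℂ) + 1) ≠ 0 := by exact_mod_cast Nat.succ_ne_zero c
    have h2 : ((a : ℂ) + 1) ≠ 0 := by exact_mod_cast Nat.succ_ne_zero a
    field_simp
  have hR : ∑ s' ∈ lev c', ∑ t' ∈ lev a', ∑ α, ∑ s ∈ lev c, ∑ α', ∑ t ∈ lev a,
      (A s' s α : ℂ) * (A t' t α' : ℂ) *
        ∑ r ∈ nearO Q a', (Vk Q α' α (s', g', t') r : ℂ) *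
          ⟪bvec (LV Q) r, T (bvec (LV P) (s, e, t))⟫_ℂ =
      ((c' : ℂ) + 1) * ((a' : ℂ) + 1) * (((c : ℂ) + 1) * ((a : ℂ) + 1)) /
        (Real.sqrt ((c + 1) * (a' + 1)) : ℂ) *
        ∑ h ∈ P.out a', leafAvg_ker T g' h * (P.x h e : ℂ) := by
    have e1 : ∀ s' ∈ lev c', ∀ t' ∈ lev a', ∑ α, ∑ s ∈ lev c, ∑ α', ∑ t ∈ lev a,
        (A s' s α : ℂ) * (A t' t α' : ℂ) *
          ∑ r ∈ nearO Q a', (Vk Q α' α (s', g', t') r : ℂ) *
            ⟪bvec (LV Q) r, T (bvec (LV P) (s, e, t))⟫_ℂ =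
        ((c : ℂ) + 1) * ((a : ℂ) + 1) / (Real.sqrt ((c + 1) * (a' + 1)) : ℂ) *
          ∑ h ∈ P.out a', (ind (P.tgt h = c') : ℂ) * ((P.x h e : ℂ) *
            ⟪bvec (LV Q) (s', g', t'), T (bvec (LV P) (s', h, t'))⟫_ℂ) := by
      intro s' hs' t' ht'
      rw [← leafAvg_right P ha hc e (mem_lev.mp hs') (mem_lev.mp ht')
        (fun r => ⟪bvec (LV Q) (s', g', t'), T (bvec (LV P) r)⟫_ℂ)]
      refine Finset.sum_congr rfl fun α _ => Finset.sum_congr rfl fun s hs =>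
        Finset.sum_congr rfl fun α' _ => Finset.sum_congr rfl fun t ht => ?_
      congr 1
      exact leafAvg_coord hT α' α (q := (s', g', t')) (p := (s, e, t))
        ⟨hg, mem_lev.mp hs', mem_lev.mp ht'⟩ ⟨he, mem_lev.mp hs, mem_lev.mp ht⟩
    rw [Finset.sum_congr rfl fun s' hs' => Finset.sum_congr rfl fun t' ht' => e1 s' hs' t' ht']
    simp only [Finset.mul_sum]
    rw [Finset.sum_congr rfl fun s _ => Finset.sum_comm, Finset.sum_comm]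
    refine Finset.sum_congr rfl fun h hh => ?_
    obtain ⟨hh1, hh2⟩ := P.mem_out.mp hh
    by_cases htg : P.tgt h = c'
    · have hi : ind (Q.valid g' ∧ P.valid h ∧ Q.src g' = P.src h ∧ Q.tgt g' = P.tgt h) = 1 :=
        ind_of ⟨hg, hh1, hh2.symm, htg.symm⟩
      simp only [leafAvg_ker, hi]
      simp only [hh2, htg, ind_true, Finset.mul_sum, Finset.sum_mul, bv]
      refine Finset.sum_congr rfl fun s _ => Finset.sum_congr rfl fun t _ => ?_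
      have h1 : ((c' : ℂ) + 1) ≠ 0 := by exact_mod_cast Nat.succ_ne_zero c'
      have h2 : ((a' : ℂ) + 1) ≠ 0 := by exact_mod_cast Nat.succ_ne_zero a'
      push_cast
      field_simp
    · have hi : ind (Q.valid g' ∧ P.valid h ∧ Q.src g' = P.src h ∧ Q.tgt g' = P.tgt h) = 0 :=
        ind_of_not fun hx => htg hx.2.2.2.symm
      simp [leafAvg_ker, hi, ind_of_not htg]
  rw [hL, hR] at key
  refine mul_left_cancel₀ ?_ key
  have h1 : ((c' : ℂ) + 1) ≠ 0 := by exact_mod_cast Nat.succ_ne_zero c'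
  have h2 : ((a' : ℂ) + 1) ≠ 0 := by exact_mod_cast Nat.succ_ne_zero a'
  have h3 : ((c : ℂ) + 1) ≠ 0 := by exact_mod_cast Nat.succ_ne_zero c
  have h4 : ((a : ℂ) + 1) ≠ 0 := by exact_mod_cast Nat.succ_ne_zero a
  have h5 : (Real.sqrt ((c + 1) * (a' + 1)) : ℂ) ≠ 0 := by
    have : 0 < Real.sqrt ((c + 1) * (a' + 1)) := Real.sqrt_pos.mpr (by positivity)
    exact_mod_cast this.ne'
  exact div_ne_zero (mul_ne_zero (mul_ne_zero h1 h2) (mul_ne_zero h3 h4)) h5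

lemma leafAvg_isMor {P Q : Conn} {T : HL P →L[ℂ] HL Q} (hT : Intw (VL P) (VL Q) T) :
    IsMor P Q (leafAvg_ker T) := by
  refine ⟨leafAvg_supp, fun g' e => ?_⟩
  by_cases hall : Q.valid g' ∧ P.valid e ∧ Adj (Q.src g') (P.src e) ∧ Adj (Q.tgt g') (P.tgt e)
  · exact leafAvg_main hT hall.1 hall.2.1 hall.2.2.1 hall.2.2.2
  · rw [Finset.sum_eq_zero, Finset.sum_eq_zero]
    · intro h _
      by_contra hne
      obtain ⟨h1, _, h3, h4⟩ := leafAvg_supp (left_ne_zero_of_mul hne)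
      have hx : P.x h e ≠ 0 := by exact_mod_cast right_ne_zero_of_mul hne
      obtain ⟨_, h6, h7, h8⟩ := P.x_supp' hx
      exact hall ⟨h1, h6, h3 ▸ h7, h4 ▸ h8⟩
    · intro g _
      by_contra hne
      obtain ⟨_, h2, h3, h4⟩ := leafAvg_supp (right_ne_zero_of_mul hne)
      have hx : Q.x g' g ≠ 0 := by exact_mod_cast left_ne_zero_of_mul hne
      obtain ⟨h5, _, h7, h8⟩ := Q.x_supp' hx
      exact hall ⟨h5, h2, h3 ▸ h7, h4 ▸ h8⟩

variable {A B : Conn}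

/-- Averaging an intertwiner gives a morphism with the same coefficients on loops at the root. -/
theorem exists_avg {T : HL A →L[ℂ] HL B} (hT : Intw (VL A) (VL B) T) :
    ∃ f : Mor A B, ∀ π' π, LV B ((0, 0), π', (0, 0)) → LV A ((0, 0), π, (0, 0)) →
      f.k π' π = ⟪bv B (0, 0) π' (0, 0), T (bv A (0, 0) π (0, 0))⟫_ℂ := by
  refine ⟨Mor.mk' _ (leafAvg_isMor hT), fun π' π h' h => ?_⟩
  obtain ⟨h1, h2, h3⟩ := h'
  obtain ⟨h4, h5, h6⟩ := h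
  have e2 : B.tgt π' = 0 := h2.symm
  have e3 : B.src π' = 0 := h3.symm
  have e5 : A.tgt π = 0 := h5.symm
  have e6 : A.src π = 0 := h6.symm
  have hi : ind (B.valid π' ∧ A.valid π ∧ B.src π' = A.src π ∧ B.tgt π' = A.tgt π) = 1 :=
    ind_of ⟨h1, h4, e3.trans e6.symm, e2.trans e5.symm⟩
  rw [Mor.mk'_k, leafAvg_ker, hi, e5, e6, lev_zero]
  simp

end Pool.Agent.Lib.MP_d81181_an
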