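import Pool.Agent.Lib.MP_d81181_an.Inv
import Pool.Agent.Lib.MP_d81181_an.LeafAvg

/-! Faithfulness and semifiniteness of the Haar weight. -/

open scoped Classical InnerProductSpace ComplexConjugate ENNReal
open ContinuousLinearMap Filter Topology

noncomputable section

namespace Pool.Agent.Lib.MP_d81181_an

open Conn

lemma faith_ev {x : BH →L[ℂ] BH} (hx : x ∈ MM) (h0 : 0 ≤ x) (h : phi x = 0) (ξ : BH) (Z : Irr)
    {π : Z.c.E} (hπ : π ∈ Z.c.ed 0) : x (NN (tm ξ (JL Z.t (ev Z π)))) = 0 := by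
  have h1 : phi (sliceL ξ ξ (Delta x)) = 0 := by
    rw [phi_sliceL hx h0 (by rw [h]; exact ENNReal.zero_lt_top), h, mul_zero]
  have h2 := vw_eq_zero (cp_nonneg (tmL ξ) (Delta_nonneg h0)) h1 ⟨Z, π, hπ⟩
  have h3 : x (NN (tm ξ (eta ⟨Z, π, hπ⟩))) = 0 := by
    refine apply_eq_zero_of_re_inner h0 ?_
    rw [← inner_Delta, ← inner_sliceL, sliceL_eq_cp, h2, inner_zero_right, Complex.zero_re]
  rw [eta, tm_smul_right, map_smul, map_smul, smul_eq_zero] at h3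
  refine h3.resolve_left (Complex.ofReal_ne_zero.2 (Real.sqrt_pos.2 ?_).ne')
  exact div_pos Z.d_pos (Z.c.w_pos π)

lemma faith_unit {x : BH →L[ℂ] BH} (hx : x ∈ MM) (h0 : 0 ≤ x) (h : phi x = 0) (ξ : BH) :
    x (NN (tm ξ (JL Tm.one (bv Conn.one (0, 0) (0 : ℕ) (0, 0))))) = 0 := by
  have hne : Mor.one Tm.one.c ≠ 0 := fun e => by
    have := congrArg (fun f : Mor Tm.one.c Tm.one.c => f.k (0 : ℕ) (0 : ℕ)) e
    simp only [Mor.one_k, Mor.zero_k] at this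
    rw [ind_of ⟨trivial, one_valid 0⟩] at this
    simp at this
  obtain ⟨Z, f, hf0, -, hf⟩ := exists_irr Tm.one _ (isProj_one _) hne
  obtain ⟨π, hπ, hk⟩ : ∃ π ∈ Z.c.out 0, f.k (0 : ℕ) π ≠ 0 := by
    by_contra hc
    refine hf0 (Mor.ext_root fun e' he' e he => ?_)
    obtain rfl : e' = (0 : ℕ) := Finset.mem_singleton.1 he'
    by_contra hn
    exact hc ⟨e, he, hn⟩
  have hed : π ∈ Z.c.ed 0 := Finset.mem_filter.2 ⟨hπ, (f.supp hk).2.2.2.symm⟩
  obtain ⟨T, hT⟩ := exists_isOp Z.t Tm.one f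
  have hv : T (ev Z π) = f.k (0 : ℕ) π • bv Conn.one (0, 0) (0 : ℕ) (0, 0) := by
    rw [ev, hT.vec, ← act_mul, hf, vec_apply]
    change ∑ e ∈ ({0} : Finset ℕ), ∑ s ∈ lev e, act f (sing π vac) e s • bv Conn.one s e (0, 0) = _
    rw [Finset.sum_singleton, lev_zero, Finset.sum_singleton, act, Finset.sum_eq_single π]
    · simp [sing, vac]
    · intro b _ hb
      rw [sing, ind_of_not hb, Complex.ofReal_zero, zero_smul, smul_zero]
    · exact fun hn => absurd hπ hn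
  have h1 := (emb_one.node (emb_JL Z.t)).kill (emb_one.node (emb_JL Tm.one))
    (Intw.id.tens hT.intw) hx (v := tm ξ (ev Z π))
    (by simpa only [comp_apply, tens_tm, one_apply_eq_self] using faith_ev hx h0 h ξ Z hed)
  simp only [comp_apply, tens_tm, one_apply_eq_self, hv] at h1
  have e : JL Tm.one (f.k (0 : ℕ) π • bv Conn.one (0, 0) (0 : ℕ) (0, 0)) =
      f.k (0 : ℕ) π • JL Tm.one (bv Conn.one (0, 0) (0 : ℕ) (0, 0)) := map_smul _ _ _
  rw [e, tm_smul_right, map_smul, map_smul, smul_eq_zero] at h1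
  exact h1.resolve_left hk

theorem phi_faithful {x : BH →L[ℂ] BH} (hx : x ∈ MM) (h0 : 0 ≤ x) (h : phi x = 0) : x = 0 := by
  refine sep hx (kill_of_root hx fun B s e hv => ?_)
  have hs : B.c.src e = 0 := hv.2.2.symm
  have hv' : LV (comp B.c Conn.one) (s, (e, (0 : ℕ)), (0, 0)) :=
    ⟨(comp_valid _ _ _ _).2 ⟨hv.1, one_valid 0, hs⟩, hv.2.1, rfl⟩
  obtain ⟨I, hI1, hI2, hI3⟩ := exists_iota B.c Conn.one
  have e1 := hI3 s e (0 : ℕ) (0, 0) hv'
  rw [hs, lev_zero, Finset.sum_singleton, Nat.cast_zero, zero_add, Real.sqrt_one,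
    Complex.ofReal_one, inv_one, one_smul] at e1
  have h1 := ((emb_JL B).node (emb_JL Tm.one)).kill (emb_JL (B.comp Tm.one))
    (hI2.adj (VL_uni _) ((VL_uni _).node (VL_uni _))) hx
    (v := I (bv (comp B.c Conn.one) s (e, (0 : ℕ)) (0, 0)))
    (by
      rw [e1]
      exact (congrArg (fun v => x (NN v)) (tens_tm _ _ _ _)).trans (faith_unit hx h0 h _))
  have e2 : adjoint I (I (bv (comp B.c Conn.one) s (e, (0 : ℕ)) (0, 0))) =
      bv (comp B.c Conn.one) s (e, (0 : ℕ)) (0, 0) := DFunLike.congr_fun hI1 _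
  replace h1 : x (JL (B.comp Tm.one) (bv (comp B.c Conn.one) s (e, (0 : ℕ)) (0, 0))) = 0 :=
    (congrArg (fun v => x (JL (B.comp Tm.one) v)) e2).symm.trans h1
  obtain ⟨R, hR⟩ := exists_isOp (B.comp Tm.one) B (Mor.runit B.c)
  have h2 := (emb_JL (B.comp Tm.one)).kill (emb_JL B) hR.intw hx h1
  have e3 : R (bv (comp B.c Conn.one) s (e, (0 : ℕ)) (0, 0)) = bv B.c s e (0, 0) := by
    refine (hR s (e, (0 : ℕ)) (0, 0) hv').trans ?_
    change ∑ e' ∈ B.c.out 0, (Mor.runit B.c).k e' (e, (0 : ℕ)) • bv B.c s e' (0, 0) = _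
    rw [Finset.sum_eq_single e]
    · rw [Mor.runit_k, ind_of ⟨rfl, hv.1, hs⟩, Complex.ofReal_one, one_smul]
    · intro b _ hb
      rw [Mor.runit_k, ind_of_not fun hh => hb hh.1, Complex.ofReal_zero, zero_smul]
    · exact fun hn => absurd (B.c.mem_out.2 ⟨hv.1, hs⟩) hn
  exact e3 ▸ h2

lemma faith_lv {Z : Conn} {π : Z.E} (h : π ∈ Z.ed 0) : LV Z ((0, 0), π, (0, 0)) := by
  obtain ⟨h1, h2, h3⟩ := Conn.mem_ed.1 h
  exact ⟨h1, h3.symm, h2.symm⟩

/-- A sum over the edges at the root of a function supported on loops at the root. -/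
lemma faith_sum {Z : Conn} (p : Mor Z Z) {π : Z.E} (hπ : π ∈ Z.ed 0) (F : Z.E → ℂ) :
    ∑ σ ∈ Z.ed 0, F σ * p.k σ π = ∑ σ ∈ Z.out 0, F σ * p.k σ π := by
  refine Finset.sum_filter_of_ne fun σ _ hσ => ?_
  exact (p.supp (right_ne_zero_of_mul hσ)).2.2.2.trans (Conn.mem_ed.1 hπ).2.2

theorem eta_orth {T : BH →L[ℂ] BH} (hT : T ∈ MM.commutant) (j j' : HI) (h : j.1 ≠ j'.1) :
    ⟪eta j', T (eta j)⟫_ℂ = 0 := by
  obtain ⟨Z, π, hπ⟩ := j
  obtain ⟨Z', π', hπ'⟩ := j'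
  have h1 : Intw VV VV T := fun α β =>
    VonNeumannAlgebra.mem_commutant_iff.1 hT _ (VV_mem α β)
  have h2 : Intw (VL Z.c) (VL Z'.c) (adjoint (JL Z'.t) ∘L T ∘L JL Z.t) :=
    ((JL_intw Z'.t).adj (VL_uni _) VV_uni).comp (h1.comp (JL_intw Z.t))
  obtain ⟨f, hf⟩ := exists_avg h2
  have h3 : ⟪JL Z'.t (ev Z' π'), T (JL Z.t (ev Z π))⟫_ℂ = (Z.p * f.adj * Z'.p).adj.k π' π := by
    rw [← adjoint_inner_right]
    change ⟪ev Z' π', (adjoint (JL Z'.t) ∘L T ∘L JL Z.t) (ev Z π)⟫_ℂ = _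
    generalize adjoint (JL Z'.t) ∘L T ∘L JL Z.t = S at hf
    rw [ev_eq Z hπ, ev_eq Z' hπ', map_sum, sum_inner, Mor.adj_k, Mor.mul_k,
      (Conn.mem_ed.1 hπ').2.1, ← faith_sum Z'.p hπ', map_sum]
    refine Finset.sum_congr rfl fun σ' hσ' => ?_
    rw [inner_smul_left, map_mul, mul_comm]
    congr 1
    rw [← Mor.adj_k, Mor.adj_mul, Mor.adj_adj, Z.isProj.2, Mor.mul_k, (Conn.mem_ed.1 hπ).2.1,
      ← faith_sum Z.p hπ, inner_sum]
    refine Finset.sum_congr rfl fun σ hσ => ?_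
    rw [map_smul, inner_smul_right, hf σ' σ (faith_lv hσ') (faith_lv hσ), mul_comm]
  rw [Irr.schur2 (Ne.symm h), Mor.adj_zero, Mor.zero_k] at h3
  simp only [eta, map_smul, inner_smul_left, inner_smul_right, h3, mul_zero]

theorem exists_phi_net : ∃ p : Finset Irr → BH →L[ℂ] BH, (∀ F, p F ∈ MM) ∧
    (∀ F, star (p F) = p F) ∧ (∀ F, p F * p F = p F) ∧ (∀ F, phi (p F) < ⊤) ∧
    ∀ ξ, Tendsto (fun F => p F ξ) atTop (𝓝 ξ) := by
  refine exists_proj_net (η := eta) (M := MM) Sigma.fst (fun Z => ?_)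
    (fun T hT j j' h => eta_orth hT j j' h) fun x hx h0 h => phi_faithful hx h0 h
  refine (Set.finite_range fun π : {π // π ∈ Z.c.ed 0} => (⟨Z, π⟩ : HI)).subset ?_
  rintro ⟨Z', π⟩ rfl
  exact ⟨π, rfl⟩

end Pool.Agent.Lib.MP_d81181_an
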