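import Pool.Agent.Lib.MP_d81181_an.Letter

/-! Clebsch-Gordan coefficients of `SU(2)` in the two oscillator model. -/

open scoped Classical

noncomputable section

namespace Pool.Agent.Lib.MP_d81181_an

/-- States: monomials `x^i y^j`. -/
abbrev St : Type := ℕ × ℕ

/-- Total degree. -/
def sz (s : St) : ℕ := s.1 + s.2

/-- States of total degree `n`. -/
def lev (n : ℕ) : Finset St := Finset.HasAntidiagonal.antidiagonal n

lemma mem_lev {n : ℕ} {s : St} : s ∈ lev n ↔ sz s = n := Finset.HasAntidiagonal.mem_antidiagonal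

lemma card_lev (n : ℕ) : (lev n).card = n + 1 := Finset.Nat.card_antidiagonal n

lemma lev_zero : lev 0 = {(0, 0)} := by
  ext ⟨i, j⟩; simp [mem_lev, sz]

lemma sz_eq_zero {s : St} (h : sz s = 0) : s = (0, 0) := by
  obtain ⟨i, j⟩ := s
  simp only [sz] at h
  simp only [Prod.mk.injEq]; omega

/-- Raising the `α`-th exponent. -/
def up (α : Fin 2) (s : St) : St := if α = 0 then (s.1 + 1, s.2) else (s.1, s.2 + 1)

/-- The `α`-th exponent. -/
def co (s : St) (α : Fin 2) : ℕ := if α = 0 then s.1 else s.2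

/-- The other index. -/
def bar (α : Fin 2) : Fin 2 := if α = 0 then 1 else 0

/-- The sign `(-1)^α`. -/
def sgn (α : Fin 2) : ℝ := if α = 0 then 1 else -1

@[simp] lemma bar_bar (α : Fin 2) : bar (bar α) = α := by fin_cases α <;> rfl
lemma sgn_mul_self (α : Fin 2) : sgn α * sgn α = 1 := by fin_cases α <;> simp [sgn]
lemma sgn_bar (α : Fin 2) : sgn (bar α) = -sgn α := by fin_cases α <;> simp [sgn, bar]
lemma sum_bar {M : Type*} [AddCommMonoid M] (F : Fin 2 → M) : ∑ α, F (bar α) = ∑ α, F α := by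
  simp [Fin.sum_univ_two, bar, add_comm]
lemma sz_up (α : Fin 2) (s : St) : sz (up α s) = sz s + 1 := by
  unfold up sz; split_ifs <;> simp <;> omega

lemma exists_up {n : ℕ} {s : St} (h : sz s = n + 1) : ∃ γ t, sz t = n ∧ s = up γ t := by
  obtain ⟨i, j⟩ := s
  simp only [sz] at h
  rcases i with _ | i
  · exact ⟨1, (0, n), by simp [sz], by simp [up]; omega⟩
  · exact ⟨0, (i, j), by simp only [sz]; omega, by simp [up]⟩

/-- Creation and annihilation amplitudes. -/
def A (s' s : St) (α : Fin 2) : ℝ :=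
  ind (s' = up α s) * Real.sqrt (co s' α) +
    ind (s = up (bar α) s') * (sgn α * Real.sqrt (co s (bar α)))

lemma A_supp {s' s : St} {α : Fin 2} (h : A s' s α ≠ 0) : Adj (sz s') (sz s) := by
  by_cases h1 : s' = up α s
  · right; rw [h1, sz_up]
  · by_cases h2 : s = up (bar α) s'
    · left; rw [h2, sz_up]
    · exact absurd (by rw [A, ind_of_not h1, ind_of_not h2]; ring) h

lemma fk_co_up (α : Fin 2) (s : St) : co (up α s) α = co s α + 1 := by
  unfold co up; split_ifs <;> rfl

lemma fk_up_inj {α : Fin 2} {s t : St} : up α s = up α t ↔ s = t := by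
  obtain ⟨i, j⟩ := s
  obtain ⟨k, l⟩ := t
  unfold up; split_ifs <;> simp

/-- Lowering the `α`-th exponent (truncated). -/
def fockDn (α : Fin 2) (s : St) : St := if α = 0 then (s.1 - 1, s.2) else (s.1, s.2 - 1)

lemma fockDn_up (α : Fin 2) (s : St) : fockDn α (up α s) = s := by
  unfold fockDn up; split_ifs <;> simp

lemma fk_up_fockDn {α : Fin 2} {s : St} (h : co s α ≠ 0) : up α (fockDn α s) = s := by
  obtain ⟨i, j⟩ := s
  unfold co at h
  unfold fockDn up
  split_ifs at h ⊢ <;> simp only [Prod.mk.injEq, and_true, true_and] <;> omega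

/-- The value of `A` when the first state lies one level above the second. -/
lemma fk_A_above {s' s : St} (h : sz s' = sz s + 1) (α : Fin 2) :
    A s' s α = ind (s' = up α s) * Real.sqrt (co s α + 1) := by
  have h2 : ¬ s = up (bar α) s' := by
    intro h2
    have := congrArg sz h2
    rw [sz_up] at this
    omega
  rw [A, ind_of_not h2, zero_mul, add_zero]
  by_cases h1 : s' = up α s
  · rw [h1, fk_co_up]; push_cast; rfl
  · rw [ind_of_not h1, zero_mul, zero_mul]

/-- The value of `A` when the first state lies one level below the second. -/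
lemma fk_A_below {s' s : St} (h : sz s = sz s' + 1) (α : Fin 2) :
    A s' s α = ind (s = up (bar α) s') * (sgn α * Real.sqrt (co s' (bar α) + 1)) := by
  have h1 : ¬ s' = up α s := by
    intro h1
    have := congrArg sz h1
    rw [sz_up] at this
    omega
  rw [A, ind_of_not h1, zero_mul, zero_add]
  by_cases h2 : s = up (bar α) s'
  · rw [h2, fk_co_up]; push_cast; rfl
  · rw [ind_of_not h2, zero_mul, zero_mul]

lemma fk_A_eq_zero {s' s : St} (h : ¬ Adj (sz s') (sz s)) (α : Fin 2) : A s' s α = 0 := by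
  by_contra h0
  exact h (A_supp h0)

/-- Sum over the level above, in the first argument. -/
lemma sum_A_up {M : Type*} [AddCommMonoid M] [Module ℝ M] {n : ℕ} {t : St} (ht : sz t = n)
    (γ : Fin 2) (F : St → M) :
    ∑ u ∈ lev (n + 1), A u t γ • F u = Real.sqrt (co t γ + 1) • F (up γ t) := by
  rw [Finset.sum_eq_single (up γ t)]
  · rw [fk_A_above (sz_up γ t), ind_of rfl, one_mul]
  · intro u hu hne
    rw [fk_A_above (by rw [mem_lev.1 hu, ht]), ind_of_not hne, zero_mul, zero_smul]
  · intro h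
    exact absurd (mem_lev.2 (by rw [sz_up, ht])) h

/-- Sum over the level above, in the second argument. -/
lemma sum_A_down {M : Type*} [AddCommMonoid M] [Module ℝ M] {n : ℕ} {s' : St} (hs : sz s' = n)
    (γ : Fin 2) (F : St → M) :
    ∑ s ∈ lev (n + 1), A s' s γ • F s =
      (sgn γ * Real.sqrt (co s' (bar γ) + 1)) • F (up (bar γ) s') := by
  rw [Finset.sum_eq_single (up (bar γ) s')]
  · rw [fk_A_below (sz_up _ s'), ind_of rfl, one_mul]
  · intro u hu hne
    rw [fk_A_below (by rw [mem_lev.1 hu, hs]), ind_of_not hne, zero_mul, zero_smul]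
  · intro h
    exact absurd (mem_lev.2 (by rw [sz_up, hs])) h

/-- Sum over the level below, in the first argument. -/
lemma fk_sum_A_low {M : Type*} [AddCommMonoid M] [Module ℝ M] {n : ℕ} {t : St} (ht : sz t = n + 1)
    (γ : Fin 2) (F : St → M) :
    ∑ u ∈ lev n, A u t γ • F u =
      (sgn γ * Real.sqrt (co t (bar γ))) • F (fockDn (bar γ) t) := by
  by_cases h0 : co t (bar γ) = 0
  · rw [h0, Nat.cast_zero, Real.sqrt_zero, mul_zero, zero_smul]
    refine Finset.sum_eq_zero fun u hu => ?_
    rw [fk_A_below (by rw [mem_lev.1 hu, ht]), ind_of_not, zero_mul, zero_smul]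
    intro h
    rw [h, fk_co_up] at h0
    omega
  · obtain ⟨w, rfl⟩ : ∃ w, t = up (bar γ) w := ⟨_, (fk_up_fockDn h0).symm⟩
    have hw : sz w = n := by rw [sz_up] at ht; omega
    rw [fockDn_up, Finset.sum_eq_single w]
    · rw [fk_A_below (sz_up _ w), ind_of rfl, one_mul, fk_co_up]; push_cast; rfl
    · intro u hu hne
      rw [fk_A_below (by rw [mem_lev.1 hu, ht]), ind_of_not, zero_mul, zero_smul]
      exact fun h => hne (fk_up_inj.1 h).symm
    · intro h
      exact absurd (mem_lev.2 hw) h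

/-- Sum over both neighbouring levels, in the first argument. -/
lemma fk_sum_A_nb {n : ℕ} {t : St} (ht : sz t = n) (γ : Fin 2) (F : St → ℝ) :
    ∑ n' ∈ nb n, ∑ u ∈ lev n', A u t γ * F u =
      Real.sqrt (co t γ + 1) * F (up γ t) +
        sgn γ * Real.sqrt (co t (bar γ)) * F (fockDn (bar γ) t) := by
  rcases n with _ | n
  · have h1 := sum_A_up ht γ F
    simp only [smul_eq_mul] at h1
    have h0 : co t (bar γ) = 0 := by
      rw [sz_eq_zero ht]; unfold co; split_ifs <;> rfl
    rw [sum_nb_zero, h0, Nat.cast_zero, Real.sqrt_zero, mul_zero, zero_mul, add_zero]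
    exact h1
  · have h1 := sum_A_up ht γ F
    have h2 := fk_sum_A_low ht γ F
    simp only [smul_eq_mul] at h1 h2
    rw [sum_nb_succ, h1, h2, add_comm]

lemma fk_co_add_co_bar (s : St) (α : Fin 2) : co s α + co s (bar α) = sz s := by
  fin_cases α <;> simp [co, bar, sz, add_comm]

lemma fk_co_up_bar (α : Fin 2) (s : St) : co (up (bar α) s) α = co s α := by
  fin_cases α <;> simp [co, bar, up]

lemma fk_co_bar_up (α : Fin 2) (s : St) : co (up α s) (bar α) = co s (bar α) := by
  fin_cases α <;> simp [co, bar, up]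

lemma fk_up_comm (α β : Fin 2) (s : St) : up α (up β s) = up β (up α s) := by
  fin_cases α <;> fin_cases β <;> simp [up]

lemma fk_eq_or_eq_bar (α β : Fin 2) : β = α ∨ β = bar α := by
  fin_cases α <;> fin_cases β <;> simp [bar]

lemma fk_bar_ne (α : Fin 2) : α ≠ bar α := by fin_cases α <;> simp [bar]

lemma fk_bar_inj {α β : Fin 2} : bar α = bar β ↔ α = β :=
  ⟨fun h => by rw [← bar_bar α, h, bar_bar], fun h => by rw [h]⟩

lemma fk_sqrt_nat_mul_self (k : ℕ) : Real.sqrt (k : ℝ) * Real.sqrt (k : ℝ) = k :=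
  Real.mul_self_sqrt (Nat.cast_nonneg k)

lemma fk_sqrt_succ_mul_self (k : ℕ) :
    Real.sqrt ((k : ℝ) + 1) * Real.sqrt ((k : ℝ) + 1) = k + 1 :=
  Real.mul_self_sqrt (by positivity)

lemma A1 {n : ℕ} {s s₁ : St} (hs : sz s = n) (hs₁ : sz s₁ = n) (α α₁ : Fin 2) :
    ∑ n' ∈ nb n, ∑ s' ∈ lev n', A s' s α * A s' s₁ α₁ = (n + 1) * ind (s = s₁ ∧ α = α₁) := by
  rw [fk_sum_A_nb hs α (fun s' => A s' s₁ α₁), fk_A_above (by rw [sz_up, hs, hs₁])]
  have hn : ((co s α : ℝ) + co s (bar α)) = n := by
    rw [← hs, ← fk_co_add_co_bar s α]; push_cast; rfl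
  by_cases h0 : co s (bar α) = 0
  · rw [h0, Nat.cast_zero, Real.sqrt_zero, mul_zero, zero_mul, add_zero]
    rw [h0, Nat.cast_zero, add_zero] at hn
    rcases fk_eq_or_eq_bar α α₁ with rfl | rfl
    · by_cases h : s = s₁
      · subst h
        rw [ind_of rfl, ind_of ⟨rfl, rfl⟩, one_mul, fk_sqrt_succ_mul_self, hn, mul_one]
      · rw [ind_of_not (fun h' => h (fk_up_inj.1 h')), ind_of_not (fun h' => h h'.1)]; ring
    · rw [ind_of_not, ind_of_not (fun h' => fk_bar_ne α h'.2)]
      · ring
      · intro h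
        have := congrArg (fun u => co u (bar α)) h
        simp only [fk_co_bar_up, fk_co_up] at this
        omega
  · obtain ⟨w, rfl⟩ : ∃ w, s = up (bar α) w := ⟨_, (fk_up_fockDn h0).symm⟩
    have hw : sz s₁ = sz w + 1 := by rw [sz_up] at hs; omega
    rw [fockDn_up, fk_A_below hw]
    rw [fk_co_up, fk_co_up_bar] at hn ⊢
    push_cast at hn ⊢
    rcases fk_eq_or_eq_bar α α₁ with rfl | rfl
    · by_cases h : up (bar α₁) w = s₁
      · subst h
        rw [ind_of rfl, ind_of rfl, ind_of ⟨rfl, rfl⟩, fk_co_up_bar]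
        have e1 := fk_sqrt_succ_mul_self (co w α₁)
        have e2 := fk_sqrt_succ_mul_self (co w (bar α₁))
        have e3 := sgn_mul_self α₁
        linear_combination e1 + (sgn α₁ * sgn α₁) * e2 + ((co w (bar α₁) : ℝ) + 1) * e3 + hn
      · rw [ind_of_not (fun h' => h (fk_up_inj.1 h')), ind_of_not (fun h' => h h'.symm),
          ind_of_not (fun h' => h h'.1)]
        ring
    · rw [ind_of_not (P := _ ∧ _) (fun h' => fk_bar_ne α h'.2), bar_bar, sgn_bar]
      by_cases h : s₁ = up α w
      · subst h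
        rw [ind_of rfl, ind_of (fk_up_comm _ _ _), fk_co_bar_up]
        have e3 := sgn_mul_self α
        linear_combination
          (-(Real.sqrt ((co w α : ℝ) + 1) * Real.sqrt ((co w (bar α) : ℝ) + 1))) * e3
      · rw [ind_of_not h, ind_of_not]
        · ring
        · intro h'
          rw [fk_up_comm] at h'
          exact h (fk_up_inj.1 h').symm

lemma A5 (s' s : St) (α : Fin 2) :
    A s' s α = sgn α * Conn.sg (sz s') (sz s) * A s s' (bar α) := by
  have e3 := sgn_mul_self α
  by_cases h : Adj (sz s') (sz s)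
  · rcases h with h | h
    · have hsg : Conn.sg (sz s') (sz s) = 1 := by unfold Conn.sg; rw [if_pos (by omega)]
      rw [fk_A_below h.symm, fk_A_above h.symm, hsg]; ring
    · have hsg : Conn.sg (sz s') (sz s) = -1 := by unfold Conn.sg; rw [if_neg (by omega)]
      rw [fk_A_above h.symm, fk_A_below h.symm, hsg, bar_bar, sgn_bar]
      linear_combination (-(ind (s' = up α s) * Real.sqrt ((co s α : ℝ) + 1))) * e3
  · rw [fk_A_eq_zero h, fk_A_eq_zero (fun h' => h h'.symm), mul_zero]

lemma fk_A3_up (s s₁ : St) :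
    ∑ α, Real.sqrt (co s α + 1) * A (up α s) s₁ α = (sz s + 2) * ind (s = s₁) := by
  by_cases h1 : sz s₁ = sz s
  · have e : ∀ α, A (up α s) s₁ α = ind (s = s₁) * Real.sqrt (co s₁ α + 1) := fun α => by
      rw [fk_A_above (by rw [sz_up, h1]), ind_congr fk_up_inj]
    simp only [e]
    by_cases h : s = s₁
    · subst h
      have hn : ((co s 0 : ℝ) + co s 1) = sz s := by
        rw [← fk_co_add_co_bar s 0]; push_cast; rfl
      rw [ind_of rfl, Fin.sum_univ_two]
      linear_combination fk_sqrt_succ_mul_self (co s 0) + fk_sqrt_succ_mul_self (co s 1) + hn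
    · simp [ind_of_not h]
  · rw [ind_of_not (fun h => h1 (by rw [h])), mul_zero]
    by_cases h2 : sz s₁ = sz s + 2
    · have e : ∀ α, A (up α s) s₁ α =
          ind (s₁ = up 0 (up 1 s)) * (sgn α * Real.sqrt (co s (bar α) + 1)) := fun α => by
        rw [fk_A_below (by rw [sz_up, h2]), fk_co_bar_up]
        congr 2
        fin_cases α <;> simp [up, bar]
      simp only [e, Fin.sum_univ_two]
      simp [sgn, bar]
      ring
    · refine Finset.sum_eq_zero fun α _ => ?_
      rw [fk_A_eq_zero, mul_zero]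
      rw [sz_up]; unfold Adj; omega

lemma fk_A3_low {n : ℕ} {s : St} (hs : sz s = n + 1) (s₁ : St) :
    ∑ α, sgn α * Real.sqrt (co s (bar α)) * A (fockDn (bar α) s) s₁ α =
      (n + 1) * ind (s = s₁) := by
  have hdn : ∀ α, co s (bar α) ≠ 0 → sz (fockDn (bar α) s) = n := fun α h0 => by
    have := congrArg sz (fk_up_fockDn h0)
    rw [sz_up] at this
    omega
  by_cases h1 : sz s₁ = n + 1
  · have e : ∀ α, sgn α * Real.sqrt (co s (bar α)) * A (fockDn (bar α) s) s₁ α =
        co s (bar α) * ind (s = s₁) := fun α => by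
      by_cases h0 : co s (bar α) = 0
      · simp [h0]
      · have hc : (co (fockDn (bar α) s) (bar α) : ℝ) + 1 = co s (bar α) := by
          have := fk_co_up (bar α) (fockDn (bar α) s)
          rw [fk_up_fockDn h0] at this
          rw [this]; push_cast; rfl
        rw [fk_A_below (by rw [hdn α h0, h1]), fk_up_fockDn h0, hc, ind_congr (eq_comm (a := s₁))]
        linear_combination (ind (s = s₁) * (sgn α * sgn α)) * fk_sqrt_nat_mul_self (co s (bar α)) +
          (ind (s = s₁) * (co s (bar α) : ℝ)) * sgn_mul_self α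
    have hn : ((co s (bar 0) : ℝ) + co s (bar 1)) = n + 1 := by
      have := fk_co_add_co_bar s (bar 0)
      rw [hs] at this
      exact_mod_cast this
    simp only [e, Fin.sum_univ_two]
    rw [← add_mul, hn]
  · rw [ind_of_not (fun h => h1 (by rw [← h, hs])), mul_zero]
    by_cases h2 : n = sz s₁ + 1
    · have e : ∀ α, sgn α * Real.sqrt (co s (bar α)) * A (fockDn (bar α) s) s₁ α =
          ind (s = up 0 (up 1 s₁)) *
            (sgn α * (Real.sqrt (co s₁ (bar α) + 1) * Real.sqrt (co s₁ α + 1))) := fun α => by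
        have hu : up (bar α) (up α s₁) = up 0 (up 1 s₁) := by
          fin_cases α <;> simp [up, bar]
        by_cases h : s = up 0 (up 1 s₁)
        · rw [ind_of h, h, ← hu, fockDn_up, fk_co_up, fk_co_bar_up, fk_A_above (sz_up _ _), ind_of rfl]
          push_cast; ring
        · rw [ind_of_not h, zero_mul]
          by_cases h0 : co s (bar α) = 0
          · simp [h0]
          · rw [fk_A_above (by rw [hdn α h0, h2]), ind_of_not, zero_mul, mul_zero]
            intro h'
            exact h (by rw [← hu, ← h', fk_up_fockDn h0])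
      simp only [e, Fin.sum_univ_two]
      simp [sgn, bar]
      ring
    · refine Finset.sum_eq_zero fun α _ => ?_
      by_cases h0 : co s (bar α) = 0
      · simp [h0]
      · rw [fk_A_eq_zero, mul_zero]
        rw [hdn α h0]; unfold Adj; omega

lemma A3 (n' : ℕ) (s s₁ : St) :
    ∑ α, ∑ s' ∈ lev n', A s' s α * A s' s₁ α = (n' + 1) * ind (s = s₁ ∧ Adj n' (sz s)) := by
  by_cases h : Adj n' (sz s)
  · rw [ind_congr (and_iff_left h)]
    rcases h with h | h
    · rw [← fk_A3_low h.symm s₁]
      refine Finset.sum_congr rfl fun α _ => ?_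
      simpa only [smul_eq_mul] using fk_sum_A_low h.symm α (fun s' => A s' s₁ α)
    · subst h
      have := fk_A3_up s s₁
      push_cast
      rw [add_assoc, one_add_one_eq_two, ← this]
      refine Finset.sum_congr rfl fun α _ => ?_
      simpa only [smul_eq_mul] using sum_A_up rfl α (fun s' => A s' s₁ α)
  · rw [ind_of_not (fun h' => h h'.2), mul_zero]
    refine Finset.sum_eq_zero fun α _ => Finset.sum_eq_zero fun s' hs' => ?_
    rw [fk_A_eq_zero (by rwa [mem_lev.1 hs']), zero_mul]

lemma A2 (n : ℕ) (s' s'' : St) :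
    ∑ α, ∑ s ∈ lev n, A s' s α * A s'' s α = (n + 1) * ind (s' = s'' ∧ Adj n (sz s')) := by
  have e : ∀ α, ∑ s ∈ lev n, A s' s α * A s'' s α =
      Conn.sg (sz s') n * Conn.sg (sz s'') n *
        ∑ s ∈ lev n, A s s' (bar α) * A s s'' (bar α) := fun α => by
    rw [Finset.mul_sum]
    refine Finset.sum_congr rfl fun s hs => ?_
    rw [A5 s' s, A5 s'' s, mem_lev.1 hs]
    linear_combination (Conn.sg (sz s') n * Conn.sg (sz s'') n *
      (A s s' (bar α) * A s s'' (bar α))) * sgn_mul_self α
  simp only [e]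
  rw [← Finset.mul_sum, sum_bar (fun α => ∑ s ∈ lev n, A s s' α * A s s'' α), A3]
  by_cases h : s' = s''
  · subst h
    rw [Conn.sg_mul_self, one_mul]
  · rw [ind_of_not (fun h' => h h'.1), mul_zero, mul_zero]

lemma A4 {n' : ℕ} {s' s'' : St} (hs : sz s' = n') (hs' : sz s'' = n') (α α₁ : Fin 2) :
    ∑ n ∈ nb n', ∑ s ∈ lev n, A s' s α * A s'' s α₁ = (n' + 1) * ind (s' = s'' ∧ α = α₁) := by
  have e : ∀ n, ∑ s ∈ lev n, A s' s α * A s'' s α₁ =
      sgn α * sgn α₁ * ∑ s ∈ lev n, A s s' (bar α) * A s s'' (bar α₁) := fun n => by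
    rw [Finset.mul_sum]
    refine Finset.sum_congr rfl fun s _ => ?_
    rw [A5 s' s, A5 s'' s, hs, hs']
    linear_combination (sgn α * sgn α₁ * (A s s' (bar α) * A s s'' (bar α₁))) *
      Conn.sg_mul_self n' (sz s)
  simp only [e]
  rw [← Finset.mul_sum, A1 hs hs', ind_congr (and_congr_right fun _ => fk_bar_inj)]
  by_cases h : α = α₁
  · subst h
    rw [sgn_mul_self, one_mul]
  · rw [ind_of_not (fun h' => h h'.2), mul_zero, mul_zero]

end Pool.Agent.Lib.MP_d81181_an
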