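import Pool.Agent.Lib.MP_d81181_an.Res

/-! Frobenius reciprocity for natural positive forms. -/

open scoped Classical ComplexConjugate InnerProductSpace ENNReal

noncomputable section

namespace Pool.Agent.Lib.MP_d81181_an

open Conn

variable {K : Type} [AddCommGroup K] [Module ℂ K]

/-- Action of a morphism on `K`-valued functions on the edges starting at the root. -/
def act {A B : Conn} (f : Mor A B) (ζ : A.E → K) : B.E → K :=
  fun e' => ∑ e ∈ A.out 0, f.k e' e • ζ e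

lemma act_mul {A B C : Conn} (f : Mor B C) (g : Mor A B) (ζ : A.E → K) :
    act (f * g) ζ = act f (act g ζ) := by
  funext e''
  simp only [act, Finset.smul_sum, smul_smul]
  rw [Finset.sum_comm]
  refine Finset.sum_congr rfl fun e he => ?_
  rw [Mor.mul_k, A.src_of_out he, Finset.sum_smul]

lemma act_add {A B : Conn} (f g : Mor A B) (ζ : A.E → K) :
    act (f + g) ζ = act f ζ + act g ζ := by
  funext e'
  simp [act, add_smul, Finset.sum_add_distrib]

lemma act_smul {A B : Conn} (c : ℂ) (f : Mor A B) (ζ : A.E → K) :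
    act (c • f) ζ = c • act f ζ := by
  funext e'
  simp [act, Finset.smul_sum, smul_smul]

lemma act_zero {A B : Conn} (ζ : A.E → K) : act (0 : Mor A B) ζ = 0 := by
  funext e'
  simp [act]

lemma act_sum {A B : Conn} {α : Type*} (s : Finset α) (f : α → Mor A B) (ζ : A.E → K) :
    act (∑ i ∈ s, f i) ζ = ∑ i ∈ s, act (f i) ζ := by
  induction s using Finset.induction_on with
  | empty => simp [act_zero]
  | insert a s ha ih => rw [Finset.sum_insert ha, Finset.sum_insert ha, act_add, ih]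

/-- The function with the single value `χ` at the edge `π`. -/
def sing {A : Conn} (π : A.E) (χ : K) : A.E → K := fun e => (ind (e = π) : ℂ) • χ

/-- The function `∑ g ∈ B.out c, ζ g ⊗ (g, π)`. -/
def lft (B : Conn) {Z : Conn} (c : ℕ) (ζ : B.E → K) (π : Z.E) : (comp B Z).E → K :=
  fun q => (ind (q.2 = π ∧ q.1 ∈ B.out c) : ℂ) • ζ q.1

/-- The function `∑ π', x π' π • χ ⊗ (π', (0,1))`. -/
def rgt {Z : Conn} (π : Z.E) (χ : K) : (comp Z cX).E → K :=
  fun q => ((ind (q.2 = ((0, 1) : ℕ × ℕ)) * Z.x q.1 π : ℝ) : ℂ) • χ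

/-- A family of positive sesquilinear forms that is natural for all morphisms. -/
structure NatForm (K : Type) [AddCommGroup K] [Module ℂ K] where
  G : ∀ B : Tm, (B.c.E → K) →ₗ⋆[ℂ] (B.c.E → K) →ₗ[ℂ] ℂ
  pos : ∀ B ζ, 0 ≤ (G B ζ ζ).re
  nat : ∀ (B C : Tm) (f : Mor B.c C.c) ζ' ζ, G C ζ' (act f ζ) = G B (act f.adj ζ') ζ

/-- Edges from the root to `c`. -/
def Conn.ed (Z : Conn) (c : ℕ) : Finset Z.E := (Z.out 0).filter fun π => Z.tgt π = c

/-- The quantity `∑_Z d(Z) Tr(E_Z w⁻¹ 1_c G)`. -/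
def NatForm.Psi (N : NatForm K) (c : ℕ) (χ : K) : ℝ≥0∞ :=
  ∑' Z : Irr, ∑ π ∈ Z.c.ed c, ENNReal.ofReal (Z.d / Z.c.w π *
    (N.G Z.t (act Z.p (sing π χ)) (act Z.p (sing π χ))).re)

lemma NatForm.Psi_zero (N : NatForm K) (c : ℕ) : N.Psi c 0 = 0 := by
  have h : ∀ (Z : Irr) (π : Z.c.E), act Z.p (sing π (0 : K)) = 0 := fun Z π => by
    funext e; simp [act, sing]
  simp [NatForm.Psi, h]

/-- For a projection `p` the form of `p ξ` is `G(ξ, p ξ)`. -/
lemma NatForm.G_proj (N : NatForm K) (B : Tm) {p : Mor B.c B.c} (hp : IsProj p) (ξ : B.c.E → K) :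
    N.G B (act p ξ) (act p ξ) = N.G B ξ (act p ξ) := by
  rw [N.nat B B p (act p ξ), N.nat B B p ξ, hp.2, ← act_mul, hp.1]

lemma Conn.mem_ed {Z : Conn} {c : ℕ} {π : Z.E} :
    π ∈ Z.ed c ↔ Z.valid π ∧ Z.src π = 0 ∧ Z.tgt π = c := by
  simp [Conn.ed, Conn.mem_out, and_assoc]

end Pool.Agent.Lib.MP_d81181_an
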