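import Pool.Agent.Lib.MP_d81181_an.Irr

/-! Resolution of projections along simple objects. -/

open scoped Classical ComplexConjugate InnerProductSpace

noncomputable section

namespace Pool.Agent.Lib.MP_d81181_an

open Conn

lemma res_tau_zero {A : Conn} : tau (0 : Mor A A) = 0 := by
  simpa using tau_smul 0 (0 : Mor A A)

lemma res_eq_zero {A B : Conn} {f : Mor A B} (h : f.adj * f = 0) : f = 0 := by
  refine (inner_self_eq_zero (𝕜 := ℂ)).1 ?_
  rw [mor_inner, h, res_tau_zero]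

lemma res_inner_right {A : Conn} (hA : Sph A) (x y a : Mor A A) :
    ⟪x, y * a⟫_ℂ = ⟪x * a.adj, y⟫_ℂ := by
  rw [mor_inner, mor_inner, Mor.adj_mul, Mor.adj_adj, ← Mor.mul_assoc, tau_comm hA hA,
    Mor.mul_assoc]

/-- The right ideal generated by an idempotent. -/
def resL {A : Conn} (E : Mor A A) : Submodule ℂ (Mor A A) where
  carrier := {y | E * y = y}
  add_mem' := fun {a b} (ha : E * a = a) (hb : E * b = b) => by
    change E * (a + b) = a + b
    rw [Mor.mul_add, ha, hb]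
  zero_mem' := Mor.mul_zero E
  smul_mem' := fun c a (ha : E * a = a) => by
    change E * (c • a) = c • a
    rw [Mor.mul_smul, ha]

/-- A right ideal is generated by a projection. -/
lemma res_ideal {A : Conn} (hA : Sph A) {E : Mor A A} (hE : IsProj E) (R : Submodule ℂ (Mor A A))
    (h1 : ∀ y ∈ R, E * y = y) (h2 : ∀ y ∈ R, ∀ z, y * z ∈ R) :
    ∃ q ∈ R, IsProj q ∧ ∀ y ∈ R, q * y = y := by
  obtain ⟨q, hq, r, hr, e⟩ := R.exists_add_mem_mem_orthogonal E
  have hr' : r = E - q := by rw [e]; abel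
  subst hr'
  have ho := (Submodule.mem_orthogonal _ _).1 hr
  have hb : q.adj * (E - q) = 0 := by
    refine (inner_self_eq_zero (𝕜 := ℂ)).1 ?_
    have := ho _ (h2 q hq (q.adj * (E - q)))
    rw [mor_inner, Mor.adj_mul, Mor.mul_assoc] at this
    rw [mor_inner]
    exact this
  have hqq : q.adj * q = q := by
    rw [Mor.mul_sub, sub_eq_zero] at hb
    have := congrArg Mor.adj hb
    rw [Mor.adj_mul, Mor.adj_mul, Mor.adj_adj, hE.2, h1 q hq] at this
    exact this.symm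
  have hsa : q.adj = q := by
    have := congrArg Mor.adj hqq
    rw [Mor.adj_mul, Mor.adj_adj, hqq] at this
    exact this.symm
  refine ⟨q, hq, ⟨by rwa [hsa] at hqq, hsa⟩, fun y hy => ?_⟩
  have hm : y - q * y ∈ R := R.sub_mem hy (h2 q hq y)
  have h0 : y - q * y = 0 := by
    refine (inner_self_eq_zero (𝕜 := ℂ)).1 ?_
    have e1 : (E - q) * y = y - q * y := by rw [Mor.sub_mul, h1 y hy]
    have := ho _ (h2 _ hm y.adj)
    rw [← res_inner_right hA, e1] at this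
    exact this
  exact (sub_eq_zero.1 h0).symm

lemma res_exists_min {A : Conn} (hA : Sph A) (p : Mor A A) (hp : IsProj p) (h0 : p ≠ 0) :
    ∃ E : Mor A A, IsMin E ∧ p * E = E := by
  have hex : ∃ n, ∃ E : Mor A A, IsProj E ∧ E ≠ 0 ∧ p * E = E ∧
      Module.finrank ℂ (resL E) = n := ⟨_, p, hp, h0, hp.1, rfl⟩
  obtain ⟨E, hE, hE0, hpE, hn⟩ := Nat.find_spec hex
  refine ⟨E, ⟨hE, hE0, fun f => ?_⟩, hpE⟩
  have hmap : ∀ y : Mor A A, E * (E * f * E * y) = E * f * E * y := fun y => by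
    rw [← Mor.mul_assoc, ← Mor.mul_assoc, ← Mor.mul_assoc, hE.1]
  let φ : Module.End ℂ (resL E) :=
    { toFun := fun y => ⟨E * f * E * y.1, hmap y.1⟩
      map_add' := fun y y' => Subtype.ext (Mor.mul_add _ _ _)
      map_smul' := fun c y => Subtype.ext (Mor.mul_smul _ _ _) }
  have : Nontrivial (resL E) := ⟨⟨⟨E, hE.1⟩, 0, fun h => hE0 (congrArg Subtype.val h)⟩⟩
  obtain ⟨c, hc⟩ := Module.End.exists_eigenvalue φ
  obtain ⟨y0, hy0⟩ := hc.exists_hasEigenvector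
  let R : Submodule ℂ (Mor A A) :=
    { carrier := {y | E * y = y ∧ E * f * E * y = c • y}
      add_mem' := fun {a b} ha hb => ⟨by rw [Mor.mul_add, ha.1, hb.1],
        by rw [Mor.mul_add, ha.2, hb.2, smul_add]⟩
      zero_mem' := ⟨Mor.mul_zero E, by rw [Mor.mul_zero, smul_zero]⟩
      smul_mem' := fun d a ha => ⟨by rw [Mor.mul_smul, ha.1],
        by rw [Mor.mul_smul, ha.2, smul_comm]⟩ }
  obtain ⟨q, hq, hqp, hqy⟩ := res_ideal hA hE R (fun y hy => hy.1) fun y hy z =>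
    ⟨by rw [← Mor.mul_assoc, hy.1], by rw [← Mor.mul_assoc, hy.2, Mor.smul_mul]⟩
  have hq0 : q ≠ 0 := by
    rintro rfl
    have := hqy y0.1 ⟨y0.2, congrArg Subtype.val hy0.apply_eq_smul⟩
    rw [Mor.zero_mul] at this
    exact hy0.2 (Subtype.ext this.symm)
  have hle : resL q ≤ resL E := fun y (hy : q * y = y) => by
    change E * y = y
    rw [← hy, ← Mor.mul_assoc, hq.1]
  have hge : Module.finrank ℂ (resL E) ≤ Module.finrank ℂ (resL q) := by
    rw [hn]
    exact Nat.find_min' hex ⟨q, hqp, hq0, by rw [← hq.1, ← Mor.mul_assoc, hpE], rfl⟩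
  have heq := Submodule.eq_of_le_of_finrank_le hle hge
  have hEq : q * E = E := by
    have : E ∈ resL q := by rw [heq]; exact hE.1
    exact this
  have hqE : q = E := by
    have := congrArg Mor.adj hEq
    rw [Mor.adj_mul, hE.2, hqp.2, hq.1] at this
    exact this
  have := hq.2
  rw [hqE, Mor.mul_assoc, hE.1] at this
  exact ⟨c, this⟩

/-- Every nonzero projection on a term receives a nonzero morphism from a simple object. -/
lemma exists_irr (C : Tm) (p : Mor C.c C.c) (hp : IsProj p) (h0 : p ≠ 0) :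
    ∃ (Z : Irr) (f : Mor Z.c C.c), f ≠ 0 ∧ p * f = f ∧ f * Z.p = f := by
  obtain ⟨E, hE, hpE⟩ := res_exists_min C.sph p hp h0
  obtain ⟨Z, v, h1', h2'⟩ : ∃ (Z : Irr) (v : Mor Z.c C.c), v.adj * v = Z.p ∧ v * v.adj = E :=
    ⟨Quotient.mk _ (⟨C, E, hE⟩ : Ob), Quotient.exact (Quotient.out_eq
      (Quotient.mk (inferInstance : Setoid Ob) (⟨C, E, hE⟩ : Ob)))⟩
  have h3 : v * Z.p = v := by
    have : v - v * Z.p = 0 := by
      refine res_eq_zero ?_
      rw [Mor.adj_sub, Mor.sub_mul, Mor.mul_sub, Mor.mul_sub, Mor.adj_mul, Z.isProj.2,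
        Mor.mul_assoc, Mor.mul_assoc, ← Mor.mul_assoc v.adj, h1', Z.isProj.1, Z.isProj.1, sub_self]
    exact (sub_eq_zero.1 this).symm
  have h4 : E * v = v := by rw [← h2', Mor.mul_assoc, h1', h3]
  refine ⟨Z, v, fun h => hE.2.1 ?_, ?_, h3⟩
  · rw [← h2', h, Mor.zero_mul]
  · rw [← h4, ← Mor.mul_assoc, hpE]

section
variable {C : Tm} {p : Mor C.c C.c} {n : Irr → ℕ} {S : ∀ Z : Irr, Fin (n Z) → Mor Z.c C.c}

/-- The isotypic projection. -/
def resP (S : ∀ Z : Irr, Fin (n Z) → Mor Z.c C.c) (Z : Irr) : Mor C.c C.c :=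
  (Z.d : ℂ) • ∑ i, S Z i * (S Z i).adj

lemma resP_fix (hS : ∀ Z, IsONB Z.p p (S Z)) (Z : Irr) {f : Mor Z.c C.c} (h1 : p * f = f)
    (h2 : f * Z.p = f) : resP S Z * f = f := by
  have hd : (Z.d : ℂ) ≠ 0 := by exact_mod_cast Z.d_pos.ne'
  rw [resP, Mor.smul_mul, Mor.sum_mul, Finset.smul_sum]
  refine Eq.trans (Finset.sum_congr rfl fun i _ => ?_) ((hS Z).span f h1 h2).symm
  rw [Mor.mul_assoc, Z.schur1 f (S Z i) h2 ((hS Z).right i), Mor.mul_smul, (hS Z).right i,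
    smul_smul, mul_div_cancel₀ _ hd]

lemma resP_kill (hS : ∀ Z, IsONB Z.p p (S Z)) {Z Z' : Irr} (h : Z' ≠ Z) {f : Mor Z'.c C.c}
    (h2 : f * Z'.p = f) : resP S Z * f = 0 := by
  rw [resP, Mor.smul_mul, Mor.sum_mul, Finset.sum_eq_zero, smul_zero]
  intro i _
  have e := Irr.schur2 h ((S Z i).adj * f)
  have e1 : Z.p * (S Z i).adj = (S Z i).adj := by
    have := congrArg Mor.adj ((hS Z).right i)
    rwa [Mor.adj_mul, Z.isProj.2] at this
  rw [← Mor.mul_assoc, e1, Mor.mul_assoc, h2] at e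
  rw [Mor.mul_assoc, e, Mor.mul_zero]

lemma resP_mul (a : Mor C.c C.c) (Z : Irr) :
    a * resP S Z = (Z.d : ℂ) • ∑ i, a * S Z i * (S Z i).adj := by
  rw [resP, Mor.mul_smul, Mor.mul_sum]
  simp only [Mor.mul_assoc]

lemma resP_self (hS : ∀ Z, IsONB Z.p p (S Z)) (Z : Irr) : resP S Z * resP S Z = resP S Z := by
  rw [resP_mul]
  simp only [fun i => resP_fix hS Z ((hS Z).left i) ((hS Z).right i)]
  rfl

lemma resP_orth (hS : ∀ Z, IsONB Z.p p (S Z)) {Z Z' : Irr} (h : Z' ≠ Z) :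
    resP S Z * resP S Z' = 0 := by
  rw [resP_mul]
  simp [fun i => resP_kill hS h ((hS Z').right i)]

lemma resP_left (hS : ∀ Z, IsONB Z.p p (S Z)) (Z : Irr) : p * resP S Z = resP S Z := by
  rw [resP_mul]
  simp only [(hS Z).left]
  rfl

lemma resP_adj (Z : Irr) : (resP S Z).adj = resP S Z := by
  rw [resP, Mor.adj_smul, Mor.adj_sum, Complex.conj_ofReal]
  simp only [Mor.adj_mul, Mor.adj_adj]

lemma resP_ne (hS : ∀ Z, IsONB Z.p p (S Z)) {Z : Irr} (h : n Z ≠ 0) : resP S Z ≠ 0 := by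
  intro h0
  let j : Fin (n Z) := ⟨0, Nat.pos_of_ne_zero h⟩
  have e := resP_fix hS Z ((hS Z).left j) ((hS Z).right j)
  have e1 := (hS Z).orth j j
  rw [h0, Mor.zero_mul] at e
  rw [← e, inner_zero_left, ind_of rfl] at e1
  simp at e1

lemma resP_sum_mul (hS : ∀ Z, IsONB Z.p p (S Z)) {F : Finset Irr} {Z : Irr} (h : Z ∈ F) :
    (∑ Z' ∈ F, resP S Z') * resP S Z = resP S Z := by
  rw [Mor.sum_mul, Finset.sum_eq_single_of_mem Z h fun Z' _ h' => resP_orth hS h'.symm,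
    resP_self hS]

lemma res_finite (hS : ∀ Z, IsONB Z.p p (S Z)) : {Z | n Z ≠ 0}.Finite := by
  have : LinearIndependent ℂ fun Z : {Z | n Z ≠ 0} => resP S Z.1 := by
    refine linearIndependent_iff'.2 fun s g hg i hi => ?_
    have e := congrArg (fun a => resP S i.1 * a) hg
    simp only [Mor.mul_sum, Mor.mul_smul, Mor.mul_zero] at e
    rw [Finset.sum_eq_single_of_mem i hi fun j _ hj => by
      rw [resP_orth hS fun h => hj (Subtype.ext h), smul_zero], resP_self hS] at e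
    exact (smul_eq_zero.1 e).resolve_right (resP_ne hS i.2)
  exact this.finite

end

/-- Resolution of a projection along the simple objects. -/
theorem res (C : Tm) (p : Mor C.c C.c) (hp : IsProj p) (n : Irr → ℕ)
    (S : ∀ Z : Irr, Fin (n Z) → Mor Z.c C.c) (hS : ∀ Z, IsONB Z.p p (S Z)) :
    ∃ F : Finset Irr, (∀ Z ∉ F, n Z = 0) ∧
      ∑ Z ∈ F, (Z.d : ℂ) • ∑ i, S Z i * (S Z i).adj = p := by
  obtain ⟨F, hF⟩ : ∃ F : Finset Irr, ∀ Z ∉ F, n Z = 0 :=
    ⟨(res_finite hS).toFinset, fun Z h => by simpa using h⟩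
  refine ⟨F, hF, ?_⟩
  change ∑ Z ∈ F, resP S Z = p
  obtain ⟨Q, hQ⟩ : ∃ Q, Q = ∑ Z ∈ F, resP S Z := ⟨_, rfl⟩
  have h1 : p * Q = Q := by
    rw [hQ, Mor.mul_sum]
    exact Finset.sum_congr rfl fun Z _ => resP_left hS Z
  have h2 : Q.adj = Q := by
    rw [hQ, Mor.adj_sum]
    exact Finset.sum_congr rfl fun Z _ => resP_adj Z
  have h3 : Q * p = Q := by
    have := congrArg Mor.adj h1
    rwa [Mor.adj_mul, h2, hp.2] at this
  have h4 : Q * Q = Q := by
    nth_rewrite 2 [hQ]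
    rw [Mor.mul_sum, hQ]
    exact Finset.sum_congr rfl fun Z hZ => resP_sum_mul hS hZ
  have hq : IsProj (p - Q) :=
    ⟨by rw [Mor.sub_mul, Mor.mul_sub, Mor.mul_sub, hp.1, h1, h3, h4, sub_self, sub_zero],
      by rw [Mor.adj_sub, hp.2, h2]⟩
  rw [← hQ]
  by_contra hne
  obtain ⟨Z, f, f0, f1, f2⟩ := exists_irr C (p - Q) hq fun h => hne (sub_eq_zero.1 h).symm
  have f3 : p * f = f := by
    rw [← f1, ← Mor.mul_assoc, Mor.mul_sub, hp.1, h1]
  have f4 := resP_fix hS Z f3 f2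
  by_cases hZ : Z ∈ F
  · have f5 : Q * f = f := by
      rw [← f4, ← Mor.mul_assoc, hQ, resP_sum_mul hS hZ]
    rw [Mor.sub_mul, f3, f5, sub_self] at f1
    exact f0 f1.symm
  · have : IsEmpty (Fin (n Z)) := by rw [hF Z hZ]; infer_instance
    rw [resP, Finset.univ_eq_empty, Finset.sum_empty, smul_zero, Mor.zero_mul] at f4
    exact f0 f4.symm

end Pool.Agent.Lib.MP_d81181_an
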