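import Pool.Agent.Lib.MP_d81181_an.LeafV
import Pool.Agent.Lib.MP_d81181_an.Res

/-! Intertwiners between the leaf representations. -/

open scoped Classical InnerProductSpace ComplexConjugate
open ContinuousLinearMap

noncomputable section

namespace Pool.Agent.Lib.MP_d81181_an

open Conn

variable {A B C : Conn}

/-- `T` is the operator `1 ⊗ f ⊗ 1`. -/
def IsOp (f : Mor A B) (T : HL A →L[ℂ] HL B) : Prop :=
  ∀ s e t, LV A (s, e, t) → T (bv A s e t) = ∑ e' ∈ B.out (A.src e), f.k e' e • bv B s e' t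

/-- The column of a morphism at an index. -/
def lm_col (f : Mor A B) (s : St) (e : A.E) (t : St) : HL B :=
  ∑ e' ∈ B.out (A.src e), f.k e' e • bv B s e' t

lemma lm_valid {f : Mor A B} {s t : St} {e : A.E} {g : B.E} (hp : LV A (s, e, t))
    (h : f.k g e ≠ 0) : LV B (s, g, t) := by
  obtain ⟨h1, _, h3, h4⟩ := f.supp h
  exact ⟨h1, hp.2.1.trans h4.symm, hp.2.2.trans h3.symm⟩

lemma lm_valid' {f : Mor A B} {s t : St} {e : A.E} {g : B.E} (hp : LV B (s, g, t))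
    (h : f.k g e ≠ 0) : LV A (s, e, t) := by
  obtain ⟨_, h2, h3, h4⟩ := f.supp h
  exact ⟨h2, hp.2.1.trans h4, hp.2.2.trans h3⟩

lemma lm_inner_col (f : Mor A B) (s t s' t' : St) (e : A.E) {e' : B.E}
    (hq : LV B (s', e', t')) :
    ⟪bv B s' e' t', lm_col f s e t⟫_ℂ = (ind (s' = s ∧ t' = t) : ℂ) * f.k e' e := by
  unfold lm_col
  rw [inner_sum]
  have h1 : ∀ g ∈ B.out (A.src e), ⟪bv B s' e' t', f.k g e • bv B s g t⟫_ℂ =
      f.k g e * (ind (g = e' ∧ (s' = s ∧ t' = t)) : ℂ) := fun g _ => by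
    rw [inner_smul_right, inner_bv]
    congr 2
    refine ind_congr ⟨?_, ?_⟩
    · rintro ⟨⟨a, b, c⟩, _⟩
      exact ⟨b.symm, a, c⟩
    · rintro ⟨rfl, rfl, rfl⟩
      exact ⟨⟨rfl, rfl, rfl⟩, hq⟩
  rw [Finset.sum_congr rfl h1, sum_mul_indC]
  by_cases h0 : f.k e' e = 0
  · rw [h0, zero_mul, mul_zero]
  · obtain ⟨a, _, c, _⟩ := f.supp h0
    rw [mul_comm]
    congr 2
    exact ind_congr ⟨fun h => h.2, fun h => ⟨B.mem_out.mpr ⟨a, c⟩, h⟩⟩

lemma lm_inner {f : Mor A B} {T : HL A →L[ℂ] HL B} (h : IsOp f T) {s t s' t' : St} {e : A.E}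
    {e' : B.E} (hq : LV B (s', e', t')) (hp : LV A (s, e, t)) :
    ⟪bv B s' e' t', T (bv A s e t)⟫_ℂ = (ind (s' = s ∧ t' = t) : ℂ) * f.k e' e := by
  rw [h s e t hp]
  exact lm_inner_col f s t s' t' e hq

lemma lm_adj {f : Mor A B} {T : HL A →L[ℂ] HL B} (h : IsOp f T) : IsOp f.adj (adjoint T) := by
  intro s e t hp
  refine bv_vec_ext fun s' e' t' hq => ?_
  rw [adjoint_inner_right, ← inner_conj_symm, lm_inner h hp hq]
  refine Eq.trans ?_ (lm_inner_col f.adj s t s' t' e hq).symm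
  rw [map_mul, Complex.conj_ofReal, Mor.adj_k]
  congr 2
  exact ind_congr ⟨fun h => ⟨h.1.symm, h.2.symm⟩, fun h => ⟨h.1.symm, h.2.symm⟩⟩

/-- The Clebsch-Gordan factor common to all cells. -/
def lm_cg (α β : Fin 2) (s' t' s t : St) : ℝ :=
  MP_d81181_an.A s' s β * MP_d81181_an.A t' t α / Real.sqrt ((sz s + 1) * (sz t' + 1))

lemma lm_inner_VL (B : Conn) (α β : Fin 2) {s t s' t' : St} {e e' : B.E}
    (hq : LV B (s', e', t')) (hp : LV B (s, e, t)) :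
    ⟪bv B s' e' t', VL B α β (bv B s e t)⟫_ℂ = (lm_cg α β s' t' s t : ℂ) * (B.x e' e : ℂ) := by
  rw [bv, bv, inner_VL B α β hq hp, ← Complex.ofReal_mul]
  congr 1
  simp only [Vk, lm_cg]
  ring

lemma lm_gram (f g : Mor A B) {s t s' t' : St} {e e' : A.E} (hq : LV A (s', e', t')) :
    ⟪lm_col f s' e' t', lm_col g s e t⟫_ℂ =
      (ind (s' = s ∧ t' = t) : ℂ) * (f.adj * g).k e' e := by
  rw [Mor.mul_k', Finset.mul_sum]
  conv_lhs => rw [lm_col, sum_inner]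
  refine Finset.sum_congr rfl fun h _ => ?_
  rw [inner_smul_left, Mor.adj_k]
  by_cases h0 : f.k h e' = 0
  · simp [h0]
  · rw [lm_inner_col g s t s' t' e (lm_valid hq h0)]
    ring

lemma IsOp.intw {f : Mor A B} {T : HL A →L[ℂ] HL B} (h : IsOp f T) : Intw (VL A) (VL B) T := by
  intro α β
  refine bv_ext fun s e t hp => bv_vec_ext fun s' e' t' hq => ?_
  have h1 : ⟪bv B s' e' t', (VL B α β ∘L T) (bv A s e t)⟫_ℂ =
      (lm_cg α β s' t' s t : ℂ) * ∑ g ∈ B.out (A.src e), (B.x e' g : ℂ) * f.k g e := by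
    rw [comp_apply, h s e t hp, map_sum, inner_sum, Finset.mul_sum]
    refine Finset.sum_congr rfl fun g _ => ?_
    rw [map_smul, inner_smul_right]
    by_cases h0 : f.k g e = 0
    · simp [h0]
    · rw [lm_inner_VL B α β hq (lm_valid hp h0)]
      ring
  have h2 : ⟪bv B s' e' t', (T ∘L VL A α β) (bv A s e t)⟫_ℂ =
      (lm_cg α β s' t' s t : ℂ) * ∑ g ∈ A.out (B.src e'), f.k e' g * (A.x g e : ℂ) := by
    rw [comp_apply, ← adjoint_inner_left, lm_adj h s' e' t' hq, sum_inner, Finset.mul_sum]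
    refine Finset.sum_congr rfl fun g _ => ?_
    rw [inner_smul_left, Mor.adj_k, Complex.conj_conj]
    by_cases h0 : f.k e' g = 0
    · simp [h0]
    · rw [lm_inner_VL A α β (lm_valid' hq h0) hp]
      ring
  rw [h1, h2, f.isMor.comm]

lemma IsOp.adj {f : Mor A B} {T : HL A →L[ℂ] HL B} (h : IsOp f T) : IsOp f.adj (adjoint T) :=
  lm_adj h

lemma IsOp.mul {f : Mor B C} {g : Mor A B} {S : HL B →L[ℂ] HL C} {T : HL A →L[ℂ] HL B}
    (hS : IsOp f S) (hT : IsOp g T) : IsOp (f * g) (S ∘L T) := by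
  intro s e t hp
  refine bv_vec_ext fun s' e' t' hq => ?_
  refine Eq.trans ?_ (lm_inner_col (f * g) s t s' t' e hq).symm
  rw [comp_apply, hT s e t hp, map_sum, inner_sum, Mor.mul_k, Finset.mul_sum]
  refine Finset.sum_congr rfl fun h _ => ?_
  rw [map_smul, inner_smul_right]
  by_cases h0 : g.k h e = 0
  · simp [h0]
  · rw [lm_inner hS hq (lm_valid hp h0)]
    ring

lemma IsOp.unique {f : Mor A B} {S T : HL A →L[ℂ] HL B} (hS : IsOp f S) (hT : IsOp f T) :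
    S = T := bv_ext fun s e t h => by rw [hS s e t h, hT s e t h]

lemma isOp_one (A : Conn) : IsOp (Mor.one A) 1 := by
  intro s e t hp
  refine bv_vec_ext fun s' e' t' hq => ?_
  refine Eq.trans ?_ (lm_inner_col (Mor.one A) s t s' t' e hq).symm
  rw [one_apply_eq_self, inner_bv, Mor.one_k, ← Complex.ofReal_mul, ← ind_and]
  congr 1
  exact ind_congr ⟨fun h => ⟨⟨h.1.1, h.1.2.2⟩, h.1.2.1, hp.1⟩,
    fun h => ⟨⟨h.1.1, h.2.1, h.1.2⟩, hp⟩⟩

lemma lm_zero : IsOp (0 : Mor A B) 0 := by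
  intro s e t _
  simp

lemma lm_add {f g : Mor A B} {S T : HL A →L[ℂ] HL B} (hS : IsOp f S) (hT : IsOp g T) :
    IsOp (f + g) (S + T) := by
  intro s e t hp
  rw [_root_.add_apply, hS s e t hp, hT s e t hp, ← Finset.sum_add_distrib]
  exact Finset.sum_congr rfl fun h _ => by rw [Mor.add_k, add_smul]

lemma lm_smul {f : Mor A B} {T : HL A →L[ℂ] HL B} (c : ℂ) (hT : IsOp f T) :
    IsOp (c • f) (c • T) := by
  intro s e t hp
  rw [_root_.smul_apply, hT s e t hp, Finset.smul_sum]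
  exact Finset.sum_congr rfl fun h _ => by rw [Mor.smul_k, mul_smul]

lemma lm_sum {ι : Type*} (F : Finset ι) (f : ι → Mor A B) (h : ∀ i ∈ F, ∃ T, IsOp (f i) T) :
    ∃ T, IsOp (∑ i ∈ F, f i) T :=
  Finset.sum_induction f (fun g => ∃ T, IsOp g T)
    (fun _ _ ⟨_, hS⟩ ⟨_, hT⟩ => ⟨_, lm_add hS hT⟩) ⟨0, lm_zero⟩ h

/-- The case `c = 1` of the next lemma. -/
lemma lm_pi (f : Mor A B) (E : Mor A A) (hE : IsProj E) (h : f.adj * f = E) :
    ∃ T, IsOp f T := by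
  have h1 : (Mor.one A - E).adj * (Mor.one A - E) = Mor.one A - E := by
    rw [Mor.adj_sub, Mor.adj_one, hE.2, Mor.sub_mul, Mor.mul_sub, Mor.mul_sub, Mor.one_mul,
      Mor.one_mul, Mor.mul_one, hE.1, sub_self, sub_zero]
  obtain ⟨T, hT⟩ := exists_op_bvec (LV A) (fun r => lm_col f r.1 r.2.1 r.2.2)
    (fun r => lm_col (Mor.one A - E) r.1 r.2.1 r.2.2) (by
      rintro ⟨s', e', t'⟩ ⟨s, e, t⟩ hq hp
      rw [lm_gram f f hq, lm_gram _ _ hq, h, h1, ← mul_add, Mor.sub_k, add_sub_cancel,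
        Mor.one_k, ← Complex.ofReal_mul, ← ind_and]
      congr 1
      refine ind_congr ⟨?_, ?_⟩
      · rintro ⟨⟨a, b⟩, c, _⟩
        exact Prod.ext a (Prod.ext c b)
      · intro h
        obtain ⟨a, b⟩ := Prod.mk.inj h
        obtain ⟨c, d⟩ := Prod.mk.inj b
        exact ⟨⟨a, d⟩, c, hp.1⟩)
  exact ⟨T, fun s e t hp => hT (s, e, t) hp⟩

/-- Scaled partial isometries define bounded operators. -/
lemma exists_isOp_of_pi (f : Mor A B) (E : Mor A A) (hE : IsProj E) (c : ℂ)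
    (h : f.adj * f = c • E) : ∃ T, IsOp f T := by
  by_cases h0 : f = 0
  · exact ⟨0, h0 ▸ lm_zero⟩
  have h1 : c * ((‖E‖ ^ 2 : ℝ) : ℂ) = ((‖f‖ ^ 2 : ℝ) : ℂ) := by
    have a1 : ⟪f, f⟫_ℂ = ((‖f‖ ^ 2 : ℝ) : ℂ) := by
      rw [inner_self_eq_norm_sq_to_K]; push_cast; rfl
    have a2 : ⟪E, E⟫_ℂ = ((‖E‖ ^ 2 : ℝ) : ℂ) := by
      rw [inner_self_eq_norm_sq_to_K]; push_cast; rfl
    rw [← a1, ← a2, mor_inner, mor_inner, h, tau_smul, hE.2, hE.1]
  have hf : 0 < ‖f‖ := norm_pos_iff.mpr h0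
  have hE0 : ‖E‖ ≠ 0 := by
    intro h2
    rw [h2] at h1
    have h3 : (‖f‖ ^ 2 : ℝ) = 0 := by
      have : ((‖f‖ ^ 2 : ℝ) : ℂ) = 0 := by rw [← h1]; simp
      exact_mod_cast this
    exact hf.ne' (pow_eq_zero_iff two_ne_zero |>.mp h3)
  have hfC : ((‖f‖ : ℝ) : ℂ) ≠ 0 := by exact_mod_cast hf.ne'
  have hEC : ((‖E‖ : ℝ) : ℂ) ≠ 0 := by exact_mod_cast hE0
  set r : ℂ := ((‖E‖ / ‖f‖ : ℝ) : ℂ) with hr
  have hr0 : r ≠ 0 := by
    rw [hr]; push_cast; exact div_ne_zero hEC hfC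
  have hrc : r * (r * c) = 1 := by
    rw [hr]
    push_cast at h1 ⊢
    field_simp
    linear_combination h1
  obtain ⟨T, hT⟩ := lm_pi (r • f) E hE (by
    rw [Mor.adj_smul, Mor.smul_mul, Mor.mul_smul, h, hr, Complex.conj_ofReal, ← hr, smul_smul,
      smul_smul, mul_assoc, hrc, one_smul])
  refine ⟨r⁻¹ • T, ?_⟩
  have h4 := lm_smul r⁻¹ hT
  rwa [smul_smul, inv_mul_cancel₀ hr0, one_smul] at h4

/-- Every morphism between terms defines a bounded operator. -/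
theorem exists_isOp (A B : Tm) (f : Mor A.c B.c) : ∃ T, IsOp f T := by
  choose n S hS using fun Z : Irr => exists_onb Z.p (Mor.one A.c)
  obtain ⟨F, -, hF⟩ := res A (Mor.one A.c) (isProj_one _) n S hS
  have h1 : f = ∑ Z ∈ F, (Z.d : ℂ) • ∑ i, (f * S Z i) * (S Z i).adj := by
    conv_lhs => rw [← Mor.mul_one f, ← hF, Mor.mul_sum]
    refine Finset.sum_congr rfl fun Z _ => ?_
    rw [Mor.mul_smul, Mor.mul_sum]
    simp only [Mor.mul_assoc]
  rw [h1]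
  refine lm_sum F _ fun Z _ => ?_
  obtain ⟨T, hT⟩ := lm_sum Finset.univ (fun i => (f * S Z i) * (S Z i).adj) fun i _ => by
    have h2 : f * S Z i * Z.p = f * S Z i := by rw [Mor.mul_assoc, (hS Z).right]
    obtain ⟨T1, h3⟩ := exists_isOp_of_pi (f * S Z i) Z.p Z.isProj _ (Z.schur1 _ _ h2 h2)
    obtain ⟨T2, h4⟩ := exists_isOp_of_pi (S Z i) Z.p Z.isProj _
      (Z.schur1 _ _ ((hS Z).right i) ((hS Z).right i))
    exact ⟨_, h3.mul h4.adj⟩
  exact ⟨_, lm_smul _ hT⟩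

end Pool.Agent.Lib.MP_d81181_an
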