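import Pool.Agent.Lib.MP_d81181_an.VN

/-! Sums of vector functionals. -/

open scoped InnerProductSpace ComplexConjugate ENNReal NNReal
open ContinuousLinearMap Filter Topology

set_option linter.unusedSectionVars false

noncomputable section

namespace Pool.Agent.Lib.MP_d81181_an

variable {H H' : Type} [NormedAddCommGroup H] [InnerProductSpace ℂ H] [CompleteSpace H]
  [NormedAddCommGroup H'] [InnerProductSpace ℂ H'] [CompleteSpace H']

/-- The sum of the vector functionals of a family of vectors. -/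
def vw {J : Type} (η : J → H) (x : H →L[ℂ] H) : ℝ≥0∞ :=
  ∑' j, ENNReal.ofReal (⟪η j, x (η j)⟫_ℂ).re

section weight

variable {J : Type} {η : J → H} {M : VonNeumannAlgebra H}

lemma vw_add {x y : H →L[ℂ] H} (hx : 0 ≤ x) (hy : 0 ≤ y) : vw η (x + y) = vw η x + vw η y := by
  unfold vw
  rw [← ENNReal.tsum_add]
  refine tsum_congr fun j => ?_
  rw [← ENNReal.ofReal_add (re_inner_nonneg_of_nonneg hx _) (re_inner_nonneg_of_nonneg hy _)]
  simp only [add_apply, inner_add_right, Complex.add_re]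

lemma vw_smul (c : ℝ≥0) {x : H →L[ℂ] H} (hx : 0 ≤ x) : vw η ((c : ℂ) • x) = c * vw η x := by
  have _h := hx
  unfold vw
  rw [← ENNReal.tsum_mul_left]
  refine tsum_congr fun j => ?_
  rw [smul_apply, inner_smul_right, Complex.re_ofReal_mul, ENNReal.ofReal_mul c.coe_nonneg,
    ENNReal.ofReal_coe_nnreal]

lemma vw_mono {x y : H →L[ℂ] H} (h : x ≤ y) : vw η x ≤ vw η y :=
  ENNReal.tsum_le_tsum fun j => ENNReal.ofReal_le_ofReal (re_inner_le_of_le h (η j))

lemma vw_aux_finite {S : Set (H →L[ℂ] H)} {x : H →L[ℂ] H}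
    (h : IsSupIn (M : Set (H →L[ℂ] H)) S x) (ε : ℝ) (hε : 0 < ε) (F : Finset J) :
    ∃ y ∈ S, ∀ j ∈ F, (⟪η j, x (η j)⟫_ℂ).re ≤ (⟪η j, y (η j)⟫_ℂ).re + ε := by
  classical
  have h' : IsSupIn (Set.centralizer (Set.centralizer (M : Set (H →L[ℂ] H)))) S x := by
    rw [VonNeumannAlgebra.centralizer_centralizer]; exact h
  induction F using Finset.induction_on with
  | empty =>
    obtain ⟨y, hy⟩ := h.1
    exact ⟨y, hy, by simp⟩
  | insert a F _ ih =>
    obtain ⟨y1, hy1, h1⟩ := ih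
    obtain ⟨y2, hy2, h2⟩ := h'.approx (η a) ε hε
    obtain ⟨y, hy, h3, h4⟩ := h.2.1 y1 hy1 y2 hy2
    refine ⟨y, hy, fun j hj => ?_⟩
    rcases Finset.mem_insert.mp hj with rfl | hj
    · have := re_inner_le_of_le h4 (η j)
      linarith
    · have := re_inner_le_of_le h3 (η j)
      have := h1 j hj
      linarith

lemma vw_normal {S : Set (H →L[ℂ] H)} {x : H →L[ℂ] H}
    (h : IsSupIn (M : Set (H →L[ℂ] H)) S x) : vw η x = ⨆ y ∈ S, vw η y := by
  refine le_antisymm ?_ (iSup₂_le fun y hy => vw_mono (h.2.2.2.2.1 y hy))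
  conv_lhs => unfold vw
  rw [ENNReal.tsum_eq_iSup_sum]
  refine iSup_le fun F => ENNReal.le_of_forall_pos_le_add fun ε hε _ => ?_
  have hc : (0 : ℝ) < (F.card : ℝ) + 1 := by positivity
  have hε' : (0 : ℝ) < (ε : ℝ) / ((F.card : ℝ) + 1) := div_pos (by exact_mod_cast hε) hc
  obtain ⟨y, hy, h1⟩ := vw_aux_finite (η := η) h _ hε' F
  have hy0 : 0 ≤ y := (h.2.2.1 y hy).2
  calc ∑ j ∈ F, ENNReal.ofReal (⟪η j, x (η j)⟫_ℂ).re
      ≤ ∑ j ∈ F, (ENNReal.ofReal (⟪η j, y (η j)⟫_ℂ).re +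
          ENNReal.ofReal ((ε : ℝ) / ((F.card : ℝ) + 1))) := by
        refine Finset.sum_le_sum fun j hj => ?_
        rw [← ENNReal.ofReal_add (re_inner_nonneg_of_nonneg hy0 _) hε'.le]
        exact ENNReal.ofReal_le_ofReal (h1 j hj)
    _ = ∑ j ∈ F, ENNReal.ofReal (⟪η j, y (η j)⟫_ℂ).re +
          ENNReal.ofReal (F.card * ((ε : ℝ) / ((F.card : ℝ) + 1))) := by
        rw [Finset.sum_add_distrib, Finset.sum_const, nsmul_eq_mul,
          ENNReal.ofReal_mul (Nat.cast_nonneg _), ENNReal.ofReal_natCast]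
    _ ≤ vw η y + ε := by
        refine add_le_add (ENNReal.sum_le_tsum F) ?_
        rw [← ENNReal.ofReal_coe_nnreal]
        refine ENNReal.ofReal_le_ofReal ?_
        rw [← mul_div_assoc, div_le_iff₀ hc]
        have := ε.2
        nlinarith
    _ ≤ (⨆ y ∈ S, vw η y) + ε := by
        gcongr
        exact le_iSup₂_of_le (f := fun y (_ : y ∈ S) => vw η y) y hy le_rfl

lemma vw_eq_zero {x : H →L[ℂ] H} (hx : 0 ≤ x) (h : vw η x = 0) (j : J) : x (η j) = 0 := by
  unfold vw at h
  have h1 := ENNReal.tsum_eq_zero.mp h j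
  rw [ENNReal.ofReal_eq_zero] at h1
  exact apply_eq_zero_of_re_inner hx (le_antisymm h1 (re_inner_nonneg_of_nonneg hx _))

lemma vw_aux_inner {p : H →L[ℂ] H} (hs : star p = p) (ξ ζ : H) : ⟪ξ, p ζ⟫_ℂ = ⟪p ξ, ζ⟫_ℂ := by
  rw [← adjoint_inner_left, ← star_eq_adjoint, hs]

lemma vw_aux_compress {p a : H →L[ℂ] H} (hs : star p = p) (hi : p * p = p) (hf : vw η p < ⊤) :
    vw η (p * a * p) < ⊤ := by
  have h1 : vw η (p * a * p) ≤ ENNReal.ofReal ‖a‖ * vw η p := by
    unfold vw
    rw [← ENNReal.tsum_mul_left]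
    refine ENNReal.tsum_le_tsum fun j => ?_
    rw [← ENNReal.ofReal_mul (norm_nonneg _)]
    refine ENNReal.ofReal_le_ofReal ?_
    have h2 : ⟪η j, p (η j)⟫_ℂ = ⟪p (η j), p (η j)⟫_ℂ := by
      rw [← vw_aux_inner hs, ← mul_apply_eq_comp, hi]
    have h3 : ⟪η j, (p * a * p) (η j)⟫_ℂ = ⟪p (η j), a (p (η j))⟫_ℂ := by
      rw [mul_apply_eq_comp, mul_apply_eq_comp, vw_aux_inner hs]
    have h4 : (⟪p (η j), p (η j)⟫_ℂ).re = ‖p (η j)‖ ^ 2 := inner_self_eq_norm_sq (𝕜 := ℂ) _
    rw [h2, h3, h4]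
    calc (⟪p (η j), a (p (η j))⟫_ℂ).re ≤ ‖⟪p (η j), a (p (η j))⟫_ℂ‖ := Complex.re_le_norm _
      _ ≤ ‖p (η j)‖ * ‖a (p (η j))‖ := norm_inner_le_norm _ _
      _ ≤ ‖p (η j)‖ * (‖a‖ * ‖p (η j)‖) := by
          gcongr
          exact a.le_opNorm _
      _ = ‖a‖ * ‖p (η j)‖ ^ 2 := by ring
  exact lt_of_le_of_lt h1 (ENNReal.mul_lt_top ENNReal.ofReal_lt_top hf)

/-- A net of projections of finite weight that tends strongly to `1` gives semifiniteness. -/
lemma vw_semifinite {ι : Type} (l : Filter ι) [l.NeBot] (p : ι → H →L[ℂ] H)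
    (hM : ∀ i, p i ∈ M) (hs : ∀ i, star (p i) = p i) (hi : ∀ i, p i * p i = p i)
    (hf : ∀ i, vw η (p i) < ⊤) (hl : ∀ ξ, Tendsto (fun i => p i ξ) l (𝓝 ξ)) :
    ∀ x ∈ M, 0 ≤ x → ∀ (F : Finset H) (ε : ℝ), 0 < ε →
      ∃ y ∈ M, 0 ≤ y ∧ vw η y < ⊤ ∧ ‖y‖ ≤ ‖x‖ ∧ ∀ ξ ∈ F, ‖x ξ - y ξ‖ < ε := by
  intro x hx h0 F ε hε
  have hn : ∀ i, ‖p i‖ ≤ 1 := fun i => IsStarProjection.norm_le (p i) ⟨hi i, hs i⟩
  have hlim : ∀ ξ : H, Tendsto (fun i => ‖x ξ - (p i * x * p i) ξ‖) l (𝓝 0) := by
    intro ξ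
    have h1 : Tendsto (fun i => ‖x ξ - p i (x ξ)‖ + ‖x ξ - x (p i ξ)‖) l (𝓝 0) := by
      have a1 := tendsto_iff_norm_sub_tendsto_zero.mp (hl (x ξ))
      have a2 := tendsto_iff_norm_sub_tendsto_zero.mp ((x.continuous.tendsto ξ).comp (hl ξ))
      have a3 := a1.add a2
      rw [add_zero] at a3
      refine a3.congr fun i => ?_
      rw [norm_sub_rev (x ξ), norm_sub_rev (x ξ)]; rfl
    refine squeeze_zero (fun i => norm_nonneg _) (fun i => ?_) h1
    have e : x ξ - (p i * x * p i) ξ = (x ξ - p i (x ξ)) + p i (x ξ - x (p i ξ)) := by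
      rw [mul_apply_eq_comp, mul_apply_eq_comp, map_sub]; abel
    rw [e]
    refine (norm_add_le _ _).trans (add_le_add le_rfl (((p i).le_opNorm _).trans ?_))
    exact mul_le_of_le_one_left (norm_nonneg _) (hn i)
  have hev : ∀ᶠ i in l, ∀ ξ ∈ F, ‖x ξ - (p i * x * p i) ξ‖ < ε :=
    (Filter.eventually_all_finset F).mpr fun ξ _ => (hlim ξ).eventually (gt_mem_nhds hε)
  obtain ⟨i, hi'⟩ := hev.exists
  refine ⟨p i * x * p i, mul_mem (mul_mem (hM i) hx) (hM i), ?_,
    vw_aux_compress (hs i) (hi i) (hf i), ?_, hi'⟩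
  · have := star_left_conjugate_nonneg h0 (p i)
    rwa [hs i] at this
  · calc ‖p i * x * p i‖ ≤ ‖p i‖ * ‖x‖ * ‖p i‖ :=
          (norm_mul_le _ _).trans (mul_le_mul_of_nonneg_right (norm_mul_le _ _) (norm_nonneg _))
      _ ≤ 1 * ‖x‖ * 1 := by gcongr <;> exact hn i
      _ = ‖x‖ := by ring

lemma vw_aux_proj_mem (K : Submodule ℂ H) (hK : ∀ T ∈ M.commutant, ∀ v ∈ K, T v ∈ K) :
    K.topologicalClosure.starProjection ∈ M := by
  rw [VonNeumannAlgebra.IsStarProjection.mem_iff isStarProjection_starProjection,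
    Submodule.range_starProjection]
  intro T hT
  refine Submodule.topologicalClosure_mem_invtSubmodule ?_
  rw [Module.End.mem_invtSubmodule_iff_forall_mem_of_mem]
  exact hK T hT

/-- If the vectors split into finite classes that are mutually orthogonal under the commutant, and
the weight is faithful, there is a net of projections of finite weight that tends to `1`. -/
lemma exists_proj_net {I : Type} (cl : J → I) (hfin : ∀ i, {j | cl j = i}.Finite)
    (horth : ∀ T ∈ M.commutant, ∀ j j', cl j ≠ cl j' → ⟪η j', T (η j)⟫_ℂ = 0)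
    (hfaith : ∀ x ∈ M, 0 ≤ x → vw η x = 0 → x = 0) :
    ∃ p : Finset I → H →L[ℂ] H, (∀ F, p F ∈ M) ∧ (∀ F, star (p F) = p F) ∧
      (∀ F, p F * p F = p F) ∧ (∀ F, vw η (p F) < ⊤) ∧
      ∀ ξ, Tendsto (fun F => p F ξ) atTop (𝓝 ξ) := by
  classical
  let K : Finset I → Submodule ℂ H := fun F =>
    Submodule.span ℂ {v | ∃ T ∈ M.commutant, ∃ j, cl j ∈ F ∧ v = T (η j)}
  have hKinv : ∀ F, ∀ T ∈ M.commutant, ∀ v ∈ K F, T v ∈ K F := by
    intro F T hT v hv
    induction hv using Submodule.span_induction with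
    | mem v hv =>
      obtain ⟨T', hT', j, hj, rfl⟩ := hv
      exact Submodule.subset_span ⟨T * T', mul_mem hT hT', j, hj, rfl⟩
    | zero => simp
    | add u v _ _ hu hv => rw [map_add]; exact add_mem hu hv
    | smul c v _ hv => rw [map_smul]; exact Submodule.smul_mem _ _ hv
  let U : Finset I → Submodule ℂ H := fun F => (K F).topologicalClosure
  have hUmono : Monotone U := by
    intro F G hFG
    refine Submodule.topologicalClosure_mono (Submodule.span_mono ?_)
    rintro v ⟨T, hT, j, hj, rfl⟩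
    exact ⟨T, hT, j, hFG hj, rfl⟩
  have hη : ∀ j, η j ∈ K {cl j} := fun j =>
    Submodule.subset_span ⟨1, one_mem _, j, Finset.mem_singleton_self _, rfl⟩
  refine ⟨fun F => (U F).starProjection, fun F => vw_aux_proj_mem (K F) (hKinv F),
    fun F => (isSelfAdjoint_starProjection (U F)).star_eq,
    fun F => (U F).isIdempotentElem_starProjection, fun F => ?_, fun ξ => ?_⟩
  · have hF : {j | cl j ∈ F}.Finite := by
      have : {j | cl j ∈ F} = ⋃ i ∈ (F : Set I), {j | cl j = i} := by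
        ext j; simp
      rw [this]
      exact F.finite_toSet.biUnion fun i _ => hfin i
    unfold vw
    rw [tsum_eq_sum (s := hF.toFinset)]
    · exact ENNReal.sum_lt_top.mpr fun j _ => ENNReal.ofReal_lt_top
    · intro j hj
      have hj' : cl j ∉ F := by simpa using hj
      have h0 : (U F).starProjection (η j) = 0 := by
        rw [Submodule.starProjection_apply_eq_zero_iff, Submodule.orthogonal_closure,
          Submodule.mem_orthogonal']
        intro v hv
        induction hv using Submodule.span_induction with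
        | mem v hv =>
          obtain ⟨T, hT, j', hj'', rfl⟩ := hv
          exact horth T hT j' j fun h => hj' (h ▸ hj'')
        | zero => simp
        | add u v _ _ hu hv => rw [inner_add_right, hu, hv, add_zero]
        | smul c v _ hv => rw [inner_smul_right, hv, mul_zero]
      simp [h0]
  · refine Submodule.starProjection_tendsto_self U hUmono ξ ?_
    have hinv : ∀ T ∈ M.commutant, ∀ v ∈ ⨆ F, U F, T v ∈ ⨆ F, U F := by
      intro T hT v hv
      obtain ⟨F, hF⟩ := (Submodule.mem_iSup_of_directed _ hUmono.directed_le).mp hv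
      refine Submodule.mem_iSup_of_mem F ?_
      have h1 : (K F).topologicalClosure ∈ Module.End.invtSubmodule (T : H →ₗ[ℂ] H) := by
        refine Submodule.topologicalClosure_mem_invtSubmodule ?_
        rw [Module.End.mem_invtSubmodule_iff_forall_mem_of_mem]
        exact hKinv F T hT
      rw [Module.End.mem_invtSubmodule_iff_forall_mem_of_mem] at h1
      exact h1 v hF
    have hq := vw_aux_proj_mem (M := M) (⨆ F, U F) hinv
    set W := (⨆ F, U F).topologicalClosure with hW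
    have hpos : 0 ≤ 1 - W.starProjection :=
      (isStarProjection_starProjection (U := W)).one_sub.nonneg
    have hz : vw η (1 - W.starProjection) = 0 := by
      unfold vw
      refine ENNReal.tsum_eq_zero.mpr fun j => ?_
      have h1 : η j ∈ W :=
        Submodule.le_topologicalClosure _ (Submodule.mem_iSup_of_mem {cl j}
          (Submodule.le_topologicalClosure _ (hη j)))
      have h2 : W.starProjection (η j) = η j := Submodule.starProjection_eq_self_iff.mpr h1
      simp [h2]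
    have h0 := hfaith _ (sub_mem (one_mem M) hq) hpos hz
    intro v _
    have h3 : W.starProjection v = v := by
      have := congrArg (fun x : H →L[ℂ] H => x v) h0
      simp only [sub_apply, one_apply_eq_self, zero_apply] at this
      exact (sub_eq_zero.mp this).symm
    exact Submodule.starProjection_eq_self_iff.mp h3

/-- The weight of a norm convergent sum of positive operators. -/
lemma vw_tsum (y : ℕ → H →L[ℂ] H) (hy : ∀ n, 0 ≤ y n) (hs : Summable y) :
    vw η (∑' n, y n) = ∑' n, vw η (y n) := by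
  unfold vw
  rw [ENNReal.tsum_comm]
  refine tsum_congr fun j => ?_
  let L : (H →L[ℂ] H) →L[ℝ] ℝ :=
    Complex.reCLM ∘L (((innerSL ℂ (η j)) ∘L (ContinuousLinearMap.apply ℂ H (η j))).restrictScalars ℝ)
  have hL : ∀ x : H →L[ℂ] H, L x = (⟪η j, x (η j)⟫_ℂ).re := fun x => rfl
  have h1 := hs.hasSum.mapL L
  simp only [hL] at h1
  rw [← h1.tsum_eq, ENNReal.ofReal_tsum_of_nonneg
    (fun n => re_inner_nonneg_of_nonneg (hy n) _) h1.summable]

end weight

end Pool.Agent.Lib.MP_d81181_an
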