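import Pool.Agent.Lib.MP_d81181_an.Emb
import Pool.Agent.Lib.MP_d81181_an.LeafMor
import Pool.Agent.Lib.MP_d81181_an.Frob
import Pool.Agent.Lib.MP_d81181_an.VW

/-! The natural form of a positive element and the left Haar weight. -/

open scoped Classical InnerProductSpace ComplexConjugate ENNReal
open ContinuousLinearMap

noncomputable section

namespace Pool.Agent.Lib.MP_d81181_an

open Conn

/-- The vector of right degree zero with coefficients `ζ`. -/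
def vec (B : Conn) : (B.E → St → ℂ) →ₗ[ℂ] HL B where
  toFun ζ := ∑ e ∈ B.out 0, ∑ s ∈ lev (B.tgt e), ζ e s • bv B s e (0, 0)
  map_add' ζ ζ' := by simp [add_smul, Finset.sum_add_distrib]
  map_smul' c ζ := by simp [Finset.smul_sum, smul_smul]

lemma vec_apply (B : Conn) (ζ : B.E → St → ℂ) :
    vec B ζ = ∑ e ∈ B.out 0, ∑ s ∈ lev (B.tgt e), ζ e s • bv B s e (0, 0) := rfl

lemma IsOp.vec {A B : Conn} {f : Mor A B} {T : HL A →L[ℂ] HL B} (h : IsOp f T)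
    (ζ : A.E → St → ℂ) : T (vec A ζ) = vec B (act f ζ) := by
  rw [vec_apply, vec_apply, map_sum]
  have h1 : ∀ e ∈ A.out 0, T (∑ s ∈ lev (A.tgt e), ζ e s • bv A s e (0, 0)) =
      ∑ e' ∈ B.out 0, ∑ s ∈ lev (B.tgt e'), (f.k e' e * ζ e s) • bv B s e' (0, 0) := by
    intro e he
    obtain ⟨hv, hs⟩ := A.mem_out.mp he
    rw [map_sum]
    have h2 : ∀ s ∈ lev (A.tgt e), T (ζ e s • bv A s e (0, 0)) =
        ∑ e' ∈ B.out 0, (f.k e' e * ζ e s) • bv B s e' (0, 0) := by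
      intro s hs'
      rw [map_smul, h s e (0, 0) ⟨hv, mem_lev.mp hs', by simp [sz, hs]⟩, hs, Finset.smul_sum]
      refine Finset.sum_congr rfl fun e' _ => ?_
      rw [smul_smul, mul_comm]
    rw [Finset.sum_congr rfl h2, Finset.sum_comm]
    refine Finset.sum_congr rfl fun e' _ => ?_
    by_cases h0 : f.k e' e = 0
    · simp [h0]
    · rw [(f.supp h0).2.2.2]
  rw [Finset.sum_congr rfl h1, Finset.sum_comm]
  refine Finset.sum_congr rfl fun e' _ => ?_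
  rw [Finset.sum_comm]
  refine Finset.sum_congr rfl fun s _ => ?_
  rw [← Finset.sum_smul]
  congr 1
  simp only [act, Finset.sum_apply, Pi.smul_apply, smul_eq_mul]

lemma form_inner_vec (B : Conn) (ζ : B.E → St → ℂ) {e : B.E} (he : e ∈ B.out 0) {s : St}
    (hs : s ∈ lev (B.tgt e)) : ⟪bv B s e (0, 0), vec B ζ⟫_ℂ = ζ e s := by
  obtain ⟨hv, hsrc⟩ := B.mem_out.mp he
  have hL : LV B (s, e, (0, 0)) := ⟨hv, mem_lev.mp hs, by simp [sz, hsrc]⟩
  rw [vec_apply, inner_sum, Finset.sum_eq_single e, inner_sum, Finset.sum_eq_single s,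
    inner_smul_right, inner_bv, ind_of ⟨⟨rfl, rfl, rfl⟩, hL⟩]
  · simp
  · intro s' _ hne
    rw [inner_smul_right, inner_bv, ind_of_not fun h => hne h.1.1.symm]
    simp
  · intro h; exact absurd hs h
  · intro e' _ hne
    rw [inner_sum]
    refine Finset.sum_eq_zero fun s' _ => ?_
    rw [inner_smul_right, inner_bv, ind_of_not fun h => hne h.1.2.1.symm]
    simp
  · intro h; exact absurd he h

lemma norm_vec (B : Conn) (ζ : B.E → St → ℂ) :
    ‖vec B ζ‖ ^ 2 = ∑ e ∈ B.out 0, ∑ s ∈ lev (B.tgt e), ‖ζ e s‖ ^ 2 := by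
  have h1 : ⟪vec B ζ, vec B ζ⟫_ℂ =
      ∑ e ∈ B.out 0, ∑ s ∈ lev (B.tgt e), ((‖ζ e s‖ ^ 2 : ℝ) : ℂ) := by
    nth_rewrite 1 [vec_apply]
    rw [sum_inner]
    refine Finset.sum_congr rfl fun e he => ?_
    rw [sum_inner]
    refine Finset.sum_congr rfl fun s hs => ?_
    rw [inner_smul_left, form_inner_vec B ζ he hs, Complex.conj_mul']
    push_cast
    rfl
  have h2 : (⟪vec B ζ, vec B ζ⟫_ℂ).re = ‖vec B ζ‖ ^ 2 := inner_self_eq_norm_sq (𝕜 := ℂ) _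
  rw [← h2, h1]
  simp only [Complex.re_sum, Complex.ofReal_re]

/-- The natural form of a positive element of the von Neumann algebra. -/
def nform (x : BH →L[ℂ] BH) (hx : x ∈ MM) (h0 : 0 ≤ x) : NatForm (St → ℂ) where
  G B := ((innerₛₗ ℂ).comp ((JL B : HL B.c →ₗ[ℂ] BH) ∘ₗ vec B.c)).compl₂
    ((x : BH →ₗ[ℂ] BH) ∘ₗ (JL B : HL B.c →ₗ[ℂ] BH) ∘ₗ vec B.c)
  pos B ζ := re_inner_nonneg_of_nonneg h0 (JL B (vec B.c ζ))
  nat B C f ζ' ζ := by
    obtain ⟨T, hT⟩ := exists_isOp B C f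
    change ⟪JL C (vec C.c ζ'), x (JL C (vec C.c (act f ζ)))⟫_ℂ =
      ⟪JL B (vec B.c (act f.adj ζ')), x (JL B (vec B.c ζ))⟫_ℂ
    rw [← hT.vec, ← hT.adj.vec]
    exact (emb_JL B).nat_inner (emb_JL C) hT.intw hx _ _

lemma nform_G {x : BH →L[ℂ] BH} (hx : x ∈ MM) (h0 : 0 ≤ x) (B : Tm) (ζ' ζ : B.c.E → St → ℂ) :
    (nform x hx h0).G B ζ' ζ = ⟪JL B (vec B.c ζ'), x (JL B (vec B.c ζ))⟫_ℂ := rfl

/-- The function with the single value `1` at the vacuum. -/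
def vac : St → ℂ := fun s => ind (s = (0, 0))

/-- The index set of the vectors that define the Haar weight. -/
abbrev HI : Type := Σ Z : Irr, {π // π ∈ Z.c.ed 0}

/-- The vector `E_Z |π⟩` in the leaf of `Z`. -/
def ev (Z : Irr) (π : Z.c.E) : HL Z.c := vec Z.c (act Z.p (sing π vac))

lemma ev_eq (Z : Irr) {π : Z.c.E} (hπ : π ∈ Z.c.ed 0) :
    ev Z π = ∑ π' ∈ Z.c.ed 0, Z.p.k π' π • bv Z.c (0, 0) π' (0, 0) := by
  obtain ⟨hv, hs, ht⟩ := Conn.mem_ed.mp hπ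
  have hπ' : π ∈ Z.c.out 0 := Z.c.mem_out.mpr ⟨hv, hs⟩
  have h1 : ∀ π' s, act Z.p (sing π vac) π' s = Z.p.k π' π * vac s := by
    intro π' s
    simp only [act, sing, Finset.sum_apply, Pi.smul_apply, smul_eq_mul]
    rw [Finset.sum_eq_single π, ind_of rfl]
    · simp
    · intro b _ hb
      rw [ind_of_not hb]; simp
    · intro h; exact absurd hπ' h
  rw [ev, vec_apply, Conn.ed, Finset.sum_filter]
  refine Finset.sum_congr rfl fun π' _ => ?_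
  simp only [h1]
  by_cases h0 : Z.p.k π' π = 0
  · simp [h0]
  · have h2 : Z.c.tgt π' = 0 := by rw [(Z.p.supp h0).2.2.2, ht]
    rw [if_pos h2, h2, lev_zero, Finset.sum_singleton, vac, ind_of rfl]
    simp

/-- The vectors that define the Haar weight. -/
def eta (j : HI) : BH := ((Real.sqrt (j.1.d / j.1.c.w j.2.1) : ℝ) : ℂ) • JL j.1.t (ev j.1 j.2.1)

/-- The left Haar weight. -/
def phi : (BH →L[ℂ] BH) → ℝ≥0∞ := vw eta

/-- Sums over the index set of the Haar weight. -/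
lemma tsum_HI (F : ∀ Z : Irr, Z.c.E → ℝ≥0∞) :
    ∑' j : HI, F j.1 j.2.1 = ∑' Z : Irr, ∑ π ∈ Z.c.ed 0, F Z π := by
  rw [ENNReal.tsum_sigma']
  refine tsum_congr fun Z => ?_
  rw [tsum_fintype]
  exact Finset.sum_coe_sort (Z.c.ed 0) (F Z)

lemma coef_nonneg (Z : Irr) (π : Z.c.E) : 0 ≤ Z.d / Z.c.w π :=
  div_nonneg Z.d_pos.le (Z.c.w_pos π).le

lemma inner_eta (y : BH →L[ℂ] BH) (j : HI) : ⟪eta j, y (eta j)⟫_ℂ =
    ((j.1.d / j.1.c.w j.2.1 : ℝ) : ℂ) * ⟪JL j.1.t (ev j.1 j.2.1), y (JL j.1.t (ev j.1 j.2.1))⟫_ℂ := by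
  rw [eta, map_smul, inner_smul_left, inner_smul_right, Complex.conj_ofReal, ← mul_assoc,
    ← Complex.ofReal_mul, Real.mul_self_sqrt (coef_nonneg _ _)]

lemma phi_eq (y : BH →L[ℂ] BH) : phi y = ∑' Z : Irr, ∑ π ∈ Z.c.ed 0,
    ENNReal.ofReal (Z.d / Z.c.w π * (⟪JL Z.t (ev Z π), y (JL Z.t (ev Z π))⟫_ℂ).re) := by
  rw [← tsum_HI]
  refine tsum_congr fun j => ?_
  rw [inner_eta, Complex.re_ofReal_mul]

end Pool.Agent.Lib.MP_d81181_an
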