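import Pool.Agent.Lib.MP_d81181_an.Frob

/-! Left Frobenius reciprocity for natural forms. -/

open scoped Classical ComplexConjugate InnerProductSpace ENNReal

noncomputable section

namespace Pool.Agent.Lib.MP_d81181_an

open Conn

variable {K : Type} [AddCommGroup K] [Module ℂ K]

/-- The form of `p ξ` along a resolution of `p`. -/
lemma frobL_res (N : NatForm K) (C : Tm) (p : Mor C.c C.c) (hp : IsProj p) (n : Irr → ℕ)
    (S : ∀ Z : Irr, Fin (n Z) → Mor Z.c C.c) (F : Finset Irr)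
    (hF : ∑ Z ∈ F, (Z.d : ℂ) • ∑ i, S Z i * (S Z i).adj = p) (ξ : C.c.E → K) :
    N.G C (act p ξ) (act p ξ) =
      ∑ Z ∈ F, (Z.d : ℂ) * ∑ i, N.G Z.t (act (S Z i).adj ξ) (act (S Z i).adj ξ) := by
  rw [N.G_proj C hp]
  conv_lhs => rw [← hF]
  rw [act_sum, map_sum]
  refine Finset.sum_congr rfl fun Z _ => ?_
  rw [act_smul, map_smul, act_sum, map_sum, smul_eq_mul]
  congr 1
  refine Finset.sum_congr rfl fun i _ => ?_
  rw [act_mul, N.nat Z.t C]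

lemma frobL_tsum (N : NatForm K) (C : Tm) (p : Mor C.c C.c) (hp : IsProj p) (n : Irr → ℕ)
    (S : ∀ Z : Irr, Fin (n Z) → Mor Z.c C.c) (hS : ∀ Z, IsONB Z.p p (S Z)) (ξ : C.c.E → K)
    {r : ℝ} (hr : 0 ≤ r) :
    ENNReal.ofReal (r * (N.G C (act p ξ) (act p ξ)).re) =
      ∑' Z : Irr, ENNReal.ofReal (r * (Z.d *
        ∑ i, (N.G Z.t (act (S Z i).adj ξ) (act (S Z i).adj ξ)).re)) := by
  obtain ⟨F, hF0, hF⟩ := res C p hp n S hS
  rw [tsum_eq_sum (s := F), frobL_res N C p hp n S F hF ξ, ← ENNReal.ofReal_sum_of_nonneg]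
  · congr 1
    rw [Complex.re_sum, Finset.mul_sum]
    refine Finset.sum_congr rfl fun Z _ => ?_
    rw [Complex.re_ofReal_mul, Complex.re_sum]
  · intro Z _
    exact mul_nonneg hr (mul_nonneg Z.d_pos.le (Finset.sum_nonneg fun i _ => N.pos _ _))
  · intro Z hZ
    have : IsEmpty (Fin (n Z)) := by rw [hF0 Z hZ]; infer_instance
    simp

lemma frobL_sing_sum {A : Conn} (s : Finset A.E) (a : A.E → K) (ρ : A.E)
    (h : ρ ∉ s → a ρ = 0) : (∑ π ∈ s, sing π (a π)) ρ = a ρ := by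
  rw [Finset.sum_apply]
  by_cases hρ : ρ ∈ s
  · rw [Finset.sum_eq_single ρ]
    · simp [sing]
    · intro b _ hb
      simp [sing, ind_of_not (Ne.symm hb)]
    · intro h'; exact absurd hρ h'
  · rw [h hρ]
    refine Finset.sum_eq_zero fun b hb => ?_
    have : ρ ≠ b := fun h' => hρ (h' ▸ hb)
    simp [sing, ind_of_not this]

lemma frobL_sing_smul {A : Conn} (π : A.E) (a : ℂ) (χ : K) :
    sing π (a • χ) = a • sing π χ := by
  funext e
  simp only [sing, Pi.smul_apply]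
  rw [smul_comm]

lemma frobL_sing_add {A : Conn} {α : Type*} (π : A.E) (s : Finset α) (χ : α → K) :
    sing π (∑ i ∈ s, χ i) = ∑ i ∈ s, sing π (χ i) := by
  funext e
  simp only [sing, Finset.sum_apply, Finset.smul_sum]

/-- The action on a single vector. -/
lemma frobL_act_sing {A B : Conn} (f : Mor A B) {π : A.E} (hπ : π ∈ A.out 0) (χ : K) :
    act f (sing π χ) = ∑ ρ ∈ B.out 0, f.k ρ π • sing ρ χ := by
  funext ρ
  simp only [← frobL_sing_smul]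
  rw [frobL_sing_sum (B.out 0) (fun ρ => f.k ρ π • χ) ρ]
  · unfold act
    rw [Finset.sum_eq_single π]
    · simp [sing]
    · intro b _ hb
      simp [sing, ind_of_not hb]
    · intro h'; exact absurd hπ h'
  · intro hρ
    by_cases h : f.k ρ π = 0
    · rw [h, zero_smul]
    · obtain ⟨h1, -, h3, -⟩ := f.supp h
      exact absurd (B.mem_out.mpr ⟨h1, h3.trans (A.src_of_out hπ)⟩) hρ

/-- The adjoint action on `lft`. -/
lemma frobL_act_lft {B Z Z' : Conn} (T : Mor Z' (comp B Z)) {c : ℕ} (ζ : B.E → K) {π : Z.E}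
    (hπ : π ∈ Z.ed c) :
    act T.adj (lft B c ζ π) =
      ∑ q ∈ Z'.out 0 ×ˢ B.out c, conj (T.k (q.2, π) q.1) • sing q.1 (ζ q.2) := by
  obtain ⟨hv, hs, ht⟩ := Conn.mem_ed.mp hπ
  funext ρ
  rw [Finset.sum_product]
  simp only [← frobL_sing_smul, ← frobL_sing_add]
  rw [frobL_sing_sum (Z'.out 0) (fun ρ => ∑ g ∈ B.out c, conj (T.k (g, π) ρ) • ζ g) ρ]
  · unfold act
    rw [sum_comp_out, Finset.sum_eq_single π, ht]
    · refine Finset.sum_congr rfl fun g hg => ?_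
      simp [lft, ind_of hg]
    · intro b _ hb
      refine Finset.sum_eq_zero fun g _ => ?_
      have : ¬ (b = π ∧ g ∈ B.out c) := fun h => hb h.1
      simp [lft, ind_of_not this]
    · intro h'; exact absurd (Z.mem_out.mpr ⟨hv, hs⟩) h'
  · intro hρ
    refine Finset.sum_eq_zero fun g _ => ?_
    by_cases h : T.k (g, π) ρ = 0
    · simp [h]
    · obtain ⟨-, h2, h3, -⟩ := T.supp h
      exact absurd (Z'.mem_out.mpr ⟨h2, h3.symm.trans hs⟩) hρ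

lemma frobL_sesq (N : NatForm K) (C : Tm) {α : Type*} (s : Finset α) (a : α → ℂ)
    (u : α → C.c.E → K) :
    N.G C (∑ j ∈ s, a j • u j) (∑ j ∈ s, a j • u j) =
      ∑ j ∈ s, ∑ k ∈ s, conj (a j) * a k * N.G C (u j) (u k) := by
  rw [map_sum (N.G C), LinearMap.sum_apply]
  refine Finset.sum_congr rfl fun j _ => ?_
  rw [map_sum]
  refine Finset.sum_congr rfl fun k _ => ?_
  rw [map_smul, LinearMap.map_smulₛₗ (N.G C), LinearMap.smul_apply]
  simp only [smul_eq_mul]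
  ring

/-- The coefficient identity. -/
lemma frobL_coef (B : Tm) (c : ℕ) (Z' : Irr) (n : Irr → ℕ)
    (T : ∀ Z : Irr, Fin (n Z) → Mor Z'.c (comp B.c Z.c)) (F : Finset Irr)
    (hF : ∑ Z ∈ F, (Z.d : ℂ) • ∑ i, (T Z i).flat.adj * (T Z i).flat.adj.adj =
      Mor.wl B.c.conj Z'.p)
    {π1 π2 : Z'.c.E} (h1 : π1 ∈ Z'.c.out 0) {g1 g2 : B.c.E} (hg : g1 ∈ B.c.out c) :
    ∑ Z ∈ F, ∑ π ∈ Z.c.ed c, (Z.d : ℂ) / Z.c.w π *
        ∑ i, (T Z i).k (g1, π) π1 * conj ((T Z i).k (g2, π) π2) =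
      (Z'.c.w π1 : ℂ)⁻¹ * ((ind (g2 = g1 ∧ B.c.tgt g1 = Z'.c.tgt π1) : ℂ) * Z'.p.k π2 π1) := by
  have hk := congrArg (fun f => Mor.k f (g2, π2) (g1, π1)) hF
  simp only [Mor.sum_k, Mor.smul_k, Mor.adj_adj] at hk
  have hwl : (Mor.wl B.c.conj Z'.p).k (g2, π2) (g1, π1) =
      (ind (g2 = g1 ∧ B.c.conj.valid g1 ∧ B.c.conj.src g1 = Z'.c.tgt π1) : ℂ) *
        Z'.p.k π2 π1 := rfl
  have hmul : ∀ (Z : Irr) (i : Fin (n Z)),
      ((T Z i).flat.adj * (T Z i).flat).k (g2, π2) (g1, π1) =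
        ∑ π ∈ Z.c.out 0, conj ((Real.sqrt (B.c.w g2) : ℂ) * (T Z i).k (g2, π) π2) *
          ((Real.sqrt (B.c.w g1) : ℂ) * (T Z i).k (g1, π) π1) := fun Z i => by
    rw [← Z'.c.src_of_out h1]; rfl
  replace hk : ∑ Z ∈ F, (Z.d : ℂ) * ∑ i, ∑ π ∈ Z.c.out 0,
      conj ((Real.sqrt (B.c.w g2) : ℂ) * (T Z i).k (g2, π) π2) *
        ((Real.sqrt (B.c.w g1) : ℂ) * (T Z i).k (g1, π) π1) =
      (ind (g2 = g1 ∧ B.c.conj.valid g1 ∧ B.c.conj.src g1 = Z'.c.tgt π1) : ℂ) *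
        Z'.p.k π2 π1 := by
    refine Eq.trans ?_ (hk.trans hwl)
    refine Finset.sum_congr rfl fun Z _ => ?_
    congr 1
    exact Finset.sum_congr rfl fun i _ => (hmul Z i).symm
  have hw1 : (Real.sqrt (B.c.w g1) : ℂ) ≠ 0 := by
    exact_mod_cast (Real.sqrt_pos.mpr (B.c.w_pos g1)).ne'
  have hw2 : (Real.sqrt (B.c.w g2) : ℂ) ≠ 0 := by
    exact_mod_cast (Real.sqrt_pos.mpr (B.c.w_pos g2)).ne'
  have hsq : (Real.sqrt (B.c.w g1) : ℂ) * Real.sqrt (B.c.w g1) = B.c.w g1 := by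
    exact_mod_cast Real.mul_self_sqrt (B.c.w_pos g1).le
  have hv : B.c.valid g1 := (B.c.mem_out.mp hg).1
  have hs : B.c.src g1 = c := B.c.src_of_out hg
  have hind : (ind (g2 = g1 ∧ B.c.conj.valid g1 ∧ B.c.conj.src g1 = Z'.c.tgt π1) : ℂ) =
      (ind (g2 = g1 ∧ B.c.tgt g1 = Z'.c.tgt π1) : ℂ) := by
    congr 1
    exact ind_congr ⟨fun h => ⟨h.1, h.2.2⟩, fun h => ⟨h.1, (conj_valid _ _).mpr hv, h.2⟩⟩
  rw [hind] at hk
  have hfac : (Z'.c.w π1 : ℂ)⁻¹ *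
      ((ind (g2 = g1 ∧ B.c.tgt g1 = Z'.c.tgt π1) : ℂ) * Z'.p.k π2 π1) =
      ((Real.sqrt (B.c.w g1) : ℂ) / Real.sqrt (B.c.w g2) * (Z'.c.w π1 : ℂ)⁻¹) *
        ((ind (g2 = g1 ∧ B.c.tgt g1 = Z'.c.tgt π1) : ℂ) * Z'.p.k π2 π1) := by
    by_cases h : g2 = g1
    · rw [h, div_self hw1, one_mul]
    · rw [ind_of_not (fun h' => h h'.1)]; simp
  rw [hfac, ← hk, Finset.mul_sum]
  refine Finset.sum_congr rfl fun Z _ => ?_
  simp only [Finset.mul_sum]
  rw [Finset.sum_comm, Conn.ed]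
  refine Finset.sum_congr rfl fun i _ => ?_
  rw [Finset.sum_filter]
  refine Finset.sum_congr rfl fun π _ => ?_
  by_cases h : (T Z i).k (g1, π) π1 = 0
  · simp [h]
  · obtain ⟨hq, -, -, -⟩ := (T Z i).supp h
    have ht : Z.c.tgt π = c := ((comp_valid _ _ _ _).mp hq).2.2.symm.trans hs
    have hw : B.c.w g1 * Z.c.w π = Z'.c.w π1 :=
      w_eq_of_sph Z'.t.sph (B.comp Z.t).sph (T Z i) h
    have hwC : (Z'.c.w π1 : ℂ) = Real.sqrt (B.c.w g1) * Real.sqrt (B.c.w g1) * Z.c.w π := by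
      rw [hsq]; exact_mod_cast hw.symm
    have hπ := Z.c.wC_ne π
    rw [if_pos ht, hwC, map_mul, Complex.conj_ofReal]
    field_simp

/-- The identity for a fixed simple object. -/
lemma frobL_fix (N : NatForm K) (B : Tm) (c : ℕ) (ζ : B.c.E → K) (Z' : Irr) (n : Irr → ℕ)
    (T : ∀ Z : Irr, Fin (n Z) → Mor Z'.c (comp B.c Z.c)) (F : Finset Irr)
    (hF : ∑ Z ∈ F, (Z.d : ℂ) • ∑ i, (T Z i).flat.adj * (T Z i).flat.adj.adj =
      Mor.wl B.c.conj Z'.p) :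
    ∑ Z ∈ F, ∑ π ∈ Z.c.ed c, (Z.d : ℂ) / Z.c.w π * ((Z'.d : ℂ) *
        ∑ i, N.G Z'.t (act (T Z i).adj (lft B.c c ζ π)) (act (T Z i).adj (lft B.c c ζ π))) =
      ∑ e ∈ B.c.out c, ∑ π ∈ Z'.c.ed (B.c.tgt e), (Z'.d : ℂ) / Z'.c.w π *
        N.G Z'.t (act Z'.p (sing π (ζ e))) (act Z'.p (sing π (ζ e))) := by
  have hL : ∑ Z ∈ F, ∑ π ∈ Z.c.ed c, (Z.d : ℂ) / Z.c.w π * ((Z'.d : ℂ) *
        ∑ i, N.G Z'.t (act (T Z i).adj (lft B.c c ζ π)) (act (T Z i).adj (lft B.c c ζ π))) =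
      ∑ q ∈ Z'.c.out 0 ×ˢ B.c.out c, ∑ q' ∈ Z'.c.out 0 ×ˢ B.c.out c,
        (∑ Z ∈ F, ∑ π ∈ Z.c.ed c, (Z.d : ℂ) / Z.c.w π *
          ∑ i, (T Z i).k (q.2, π) q.1 * conj ((T Z i).k (q'.2, π) q'.1)) *
        ((Z'.d : ℂ) * N.G Z'.t (sing q.1 (ζ q.2)) (sing q'.1 (ζ q'.2))) := by
    simp only [Finset.sum_mul]
    symm
    rw [Finset.sum_congr rfl fun q _ => Finset.sum_comm, Finset.sum_comm]
    refine Finset.sum_congr rfl fun Z _ => ?_
    rw [Finset.sum_congr rfl fun q _ => Finset.sum_comm, Finset.sum_comm]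
    refine Finset.sum_congr rfl fun π hπ => ?_
    simp only [frobL_act_lft _ ζ hπ, frobL_sesq, Finset.mul_sum, Finset.sum_mul]
    symm
    rw [Finset.sum_comm]
    refine Finset.sum_congr rfl fun q _ => ?_
    rw [Finset.sum_comm]
    refine Finset.sum_congr rfl fun q' _ => ?_
    refine Finset.sum_congr rfl fun i _ => ?_
    rw [Complex.conj_conj]
    ring
  rw [hL, Finset.sum_product, Finset.sum_comm]
  refine Finset.sum_congr rfl fun g1 hg1 => ?_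
  rw [Conn.ed, Finset.sum_filter]
  refine Finset.sum_congr rfl fun π1 h1 => ?_
  simp only [frobL_coef B c Z' n T F hF h1 hg1]
  rw [Finset.sum_product]
  by_cases ht : Z'.c.tgt π1 = B.c.tgt g1
  · rw [if_pos ht, N.G_proj Z'.t Z'.isProj, frobL_act_sing _ h1, map_sum, Finset.mul_sum]
    refine Finset.sum_congr rfl fun π2 _ => ?_
    rw [Finset.sum_eq_single g1]
    · rw [ind_of ⟨rfl, ht.symm⟩, map_smul, smul_eq_mul]
      simp only [Complex.ofReal_one]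
      ring
    · intro b _ hb
      rw [ind_of_not (fun h => hb h.1)]
      simp
    · intro h; exact absurd hg1 h
  · rw [if_neg ht]
    refine Finset.sum_eq_zero fun π2 _ => Finset.sum_eq_zero fun g2 _ => ?_
    rw [ind_of_not (fun h => ht h.2.symm)]
    simp

/-- Left Frobenius reciprocity. -/
theorem NatForm.left (N : NatForm K) (B : Tm) (c : ℕ) (ζ : B.c.E → K) :
    ∑' Z : Irr, ∑ π ∈ Z.c.ed c, ENNReal.ofReal (Z.d / Z.c.w π *
      (N.G (B.comp Z.t) (act (Mor.wl B.c Z.p) (lft B.c c ζ π))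
        (act (Mor.wl B.c Z.p) (lft B.c c ζ π))).re) =
    ∑ e ∈ B.c.out c, N.Psi (B.c.tgt e) (ζ e) := by
  have hex := fun Z Z' : Irr => exists_onb Z'.p (Mor.wl B.c Z.p)
  choose n T hT using hex
  have hpos : ∀ (Z : Irr) (π : Z.c.E), 0 ≤ Z.d / Z.c.w π := fun Z π =>
    div_nonneg Z.d_pos.le (Z.c.w_pos π).le
  have h1 : ∀ (Z : Irr) (π : Z.c.E), ENNReal.ofReal (Z.d / Z.c.w π *
      (N.G (B.comp Z.t) (act (Mor.wl B.c Z.p) (lft B.c c ζ π))
        (act (Mor.wl B.c Z.p) (lft B.c c ζ π))).re) =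
      ∑' Z' : Irr, ENNReal.ofReal (Z.d / Z.c.w π * (Z'.d *
        ∑ i, (N.G Z'.t (act (T Z Z' i).adj (lft B.c c ζ π))
          (act (T Z Z' i).adj (lft B.c c ζ π))).re)) := fun Z π =>
    frobL_tsum N (B.comp Z.t) (Mor.wl B.c Z.p) (Z.isProj.wl B.c) (n Z) (T Z) (hT Z) _ (hpos Z π)
  simp only [h1, NatForm.Psi]
  simp only [← Summable.tsum_finsetSum (fun _ _ => ENNReal.summable)]
  rw [ENNReal.tsum_comm]
  refine tsum_congr fun Z' => ?_
  obtain ⟨F, hF0, hF⟩ := res (B.conj.comp Z'.t) (Mor.wl B.c.conj Z'.p) (Z'.isProj.wl B.c.conj)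
    (fun Z => n Z Z') (fun Z i => (T Z Z' i).flat.adj)
    (fun Z => IsONB.flat Z'.t.sph (B.comp Z.t).sph Z.isProj Z'.isProj (hT Z Z'))
  have hfix := congrArg Complex.re (frobL_fix N B c ζ Z' (fun Z => n Z Z') (fun Z => T Z Z') F hF)
  rw [tsum_eq_sum (s := F)]
  · have hn1 : ∀ (Z : Irr) (π : Z.c.E), 0 ≤ Z.d / Z.c.w π * (Z'.d *
        ∑ i, (N.G Z'.t (act (T Z Z' i).adj (lft B.c c ζ π))
          (act (T Z Z' i).adj (lft B.c c ζ π))).re) := fun Z π =>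
      mul_nonneg (hpos Z π) (mul_nonneg Z'.d_pos.le (Finset.sum_nonneg fun i _ => N.pos _ _))
    have hn2 : ∀ (e : B.c.E) (π : Z'.c.E), 0 ≤ Z'.d / Z'.c.w π *
        (N.G Z'.t (act Z'.p (sing π (ζ e))) (act Z'.p (sing π (ζ e)))).re := fun e π =>
      mul_nonneg (hpos Z' π) (N.pos _ _)
    simp only [← ENNReal.ofReal_sum_of_nonneg (fun π _ => hn1 _ π),
      ← ENNReal.ofReal_sum_of_nonneg (fun π _ => hn2 _ π)]
    rw [← ENNReal.ofReal_sum_of_nonneg (fun Z _ => Finset.sum_nonneg fun π _ => hn1 Z π),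
      ← ENNReal.ofReal_sum_of_nonneg (fun e _ => Finset.sum_nonneg fun π _ => hn2 e π)]
    congr 1
    simp only [Complex.re_sum, ← Complex.ofReal_div, Complex.re_ofReal_mul] at hfix
    exact hfix
  · intro Z hZ
    have : IsEmpty (Fin (n Z Z')) := by rw [hF0 Z hZ]; infer_instance
    simp

end Pool.Agent.Lib.MP_d81181_an
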