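import Pool.Agent.Lib.MP_d81181_an.Frob

/-! Right Frobenius reciprocity for natural forms. -/

open scoped Classical ComplexConjugate InnerProductSpace ENNReal

noncomputable section

namespace Pool.Agent.Lib.MP_d81181_an

open Conn

variable {K : Type} [AddCommGroup K] [Module ℂ K]

lemma frobR_expand {A : Conn} (a : A.E → ℂ) (ha : ∀ ρ, a ρ ≠ 0 → ρ ∈ A.out 0) (χ : K) :
    (fun ρ => a ρ • χ) = ∑ ρ ∈ A.out 0, a ρ • sing ρ χ := by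
  funext e
  rw [Finset.sum_apply]
  simp only [Pi.smul_apply, sing, smul_smul]
  rw [← Finset.sum_smul]
  congr 1
  have h1 : ∑ ρ ∈ A.out 0, a ρ * (ind (e = ρ) : ℂ) =
      ∑ ρ ∈ A.out 0, a ρ * (ind (ρ = e ∧ True) : ℂ) :=
    Finset.sum_congr rfl fun ρ _ => by rw [ind_congr (show e = ρ ↔ ρ = e ∧ True by simp [eq_comm])]
  rw [h1, sum_mul_indC]
  by_cases h : a e = 0
  · rw [h, zero_mul]
  · rw [ind_of ⟨ha e h, trivial⟩, Complex.ofReal_one, mul_one]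

lemma frobR_out_zero {M : Type} [AddCommMonoid M] (F : ℕ × ℕ → M) :
    ∑ e ∈ cX.out 0, F e = F (0, 1) :=
  (sum_letter_out le_rfl 0 F).trans (sum_nb_zero fun c => F (0, c))

lemma frobR_inn_zero {M : Type} [AddCommMonoid M] (F : ℕ × ℕ → M) :
    ∑ e ∈ cX.conj.out 0, F e = F (1, 0) :=
  (sum_letter_inn le_rfl 0 F).trans (sum_nb_zero fun a => F (a, 0))

lemma frobR_w01 : cX.w ((0, 1) : ℕ × ℕ) = 2 := by
  change mu 2 1 / mu 2 0 = 2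
  simp

lemma frobR_w10 : cX.w ((1, 0) : ℕ × ℕ) = 2⁻¹ := by
  change mu 2 0 / mu 2 1 = 2⁻¹
  simp

lemma frobR_cx : cX.conj.x ((0, 1) : ℕ × ℕ) ((1, 0) : ℕ × ℕ) = 1 := by
  have h1 : cX.conj.x ((0, 1) : ℕ × ℕ) ((1, 0) : ℕ × ℕ) =
      Real.sqrt (cX.w ((0, 1) : ℕ × ℕ)) * (Real.sqrt (cX.w ((1, 0) : ℕ × ℕ)))⁻¹ *
        lx 2 (0, 0 + 1) (0 + 1, 0) := rfl
  rw [h1, frobR_w01, frobR_w10, lx_od, Real.sqrt_inv, inv_inv,
    Real.mul_self_sqrt (by norm_num)]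
  simp

/-- The coefficient of `act T.adj (rgt π χ)`. -/
def frobR_b {Z Z' : Conn} (T : Mor Z' (comp Z cX)) (π : Z.E) (ρ : Z'.E) : ℂ :=
  ∑ π' ∈ Z.out 1, (Z.x π' π : ℂ) * T.k (π', ((0, 1) : ℕ × ℕ)) ρ

lemma frobR_act {Z Z' : Conn} (T : Mor Z' (comp Z cX)) (π : Z.E) (χ : K) :
    act T.adj (rgt π χ) = ∑ ρ ∈ Z'.out 0, conj (frobR_b T π ρ) • sing ρ χ := by
  rw [← frobR_expand]
  · funext ρ
    have h1 : act T.adj (rgt π χ) ρ = ∑ e ∈ cX.out 0, ∑ g ∈ Z.out (cX.tgt e),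
        T.adj.k ρ (g, e) • rgt π χ (g, e) :=
      sum_comp_out Z cX 0 fun q => T.adj.k ρ q • rgt π χ q
    rw [h1]
    refine (frobR_out_zero fun e => ∑ g ∈ Z.out (cX.tgt e),
      T.adj.k ρ (g, e) • rgt π χ (g, e)).trans ?_
    rw [frobR_b, map_sum, Finset.sum_smul]
    refine Finset.sum_congr rfl fun g _ => ?_
    have h2 : rgt π χ (g, ((0, 1) : ℕ × ℕ)) = ((Z.x g π : ℝ) : ℂ) • χ := by
      have h3 : rgt π χ (g, ((0, 1) : ℕ × ℕ)) =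
          ((ind (((0, 1) : ℕ × ℕ) = (0, 1)) * Z.x g π : ℝ) : ℂ) • χ := rfl
      rw [h3, ind_of rfl, one_mul]
    have h4 : T.adj.k ρ (g, ((0, 1) : ℕ × ℕ)) = conj (T.k (g, ((0, 1) : ℕ × ℕ)) ρ) := rfl
    rw [h2, h4, smul_smul, map_mul, Complex.conj_ofReal, mul_comm]
  · intro ρ h
    have h1 : frobR_b T π ρ ≠ 0 := fun h0 => h (by rw [h0, map_zero])
    obtain ⟨g, -, hg⟩ := Finset.exists_ne_zero_of_sum_ne_zero h1
    obtain ⟨-, h2, h3, -⟩ := T.supp (right_ne_zero_of_mul hg)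
    exact Z'.mem_out.mpr ⟨h2, h3.symm⟩

lemma frobR_b_eq {Z Z' : Conn} (T : Mor Z' (comp Z cX)) {π : Z.E} {ρ : Z'.E} (hπ : Z.src π = 0)
    (hρ : Z'.src ρ = 0) : frobR_b T π ρ = (Real.sqrt 2 : ℂ) *
      ∑ σ ∈ Z'.out 1, T.sharp.k π (σ, ((1, 0) : ℕ × ℕ)) * (Z'.x ρ σ : ℂ) := by
  have h := T.sharp.isMor.comm' π (ρ, ((0, 1) : ℕ × ℕ))
  rw [hπ] at h
  have h2 : (Real.sqrt 2 : ℂ) ≠ 0 := by
    exact_mod_cast (Real.sqrt_pos.mpr (by norm_num : (0 : ℝ) < 2)).ne'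
  have h3 : ∑ g ∈ Z.out 1, (Z.x g π : ℂ) * T.sharp.k g (ρ, ((0, 1) : ℕ × ℕ)) =
      (Real.sqrt 2 : ℂ)⁻¹ * frobR_b T π ρ := by
    rw [frobR_b, Finset.mul_sum]
    refine Finset.sum_congr rfl fun g _ => ?_
    have h4 : T.sharp.k g (ρ, ((0, 1) : ℕ × ℕ)) =
        (Real.sqrt (cX.w ((0, 1) : ℕ × ℕ)) : ℂ)⁻¹ * T.k (g, ((0, 1) : ℕ × ℕ)) ρ := rfl
    rw [h4, frobR_w01]
    ring
  have h5 : ∑ q ∈ (comp Z' cX.conj).out 0, T.sharp.k π q *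
        ((comp Z' cX.conj).x (ρ, ((0, 1) : ℕ × ℕ)) q : ℂ) =
      ∑ σ ∈ Z'.out 1, T.sharp.k π (σ, ((1, 0) : ℕ × ℕ)) * (Z'.x ρ σ : ℂ) := by
    refine (sum_comp_out Z' cX.conj 0 fun q => T.sharp.k π q *
      ((comp Z' cX.conj).x (ρ, ((0, 1) : ℕ × ℕ)) q : ℂ)).trans ?_
    refine (frobR_inn_zero fun e => ∑ g ∈ Z'.out (cX.conj.tgt e), T.sharp.k π (g, e) *
      ((comp Z' cX.conj).x (ρ, ((0, 1) : ℕ × ℕ)) (g, e) : ℂ)).trans ?_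
    refine Finset.sum_congr rfl fun σ hσ => ?_
    have h6 : (comp Z' cX.conj).x (ρ, ((0, 1) : ℕ × ℕ)) (σ, ((1, 0) : ℕ × ℕ)) =
        ind (Z'.src ρ = 0) * ind (Z'.src σ = 1) *
          (Z'.x ρ σ * cX.conj.x ((0, 1) : ℕ × ℕ) ((1, 0) : ℕ × ℕ)) := rfl
    have h7 : Z'.src σ = 1 := Z'.src_of_out hσ
    rw [h6, ind_of hρ, ind_of h7, frobR_cx, one_mul, one_mul, mul_one]
  have h8 : (Real.sqrt 2 : ℂ)⁻¹ * frobR_b T π ρ =
      ∑ σ ∈ Z'.out 1, T.sharp.k π (σ, ((1, 0) : ℕ × ℕ)) * (Z'.x ρ σ : ℂ) :=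
    h3.symm.trans (h.trans h5)
  rw [← h8, ← mul_assoc, mul_inv_cancel₀ h2, one_mul]

/-- The weight of a pair of edges. -/
def frobR_c (Z' : Conn) (ρ1 ρ2 σ1 σ2 : Z'.E) : ℂ :=
  (Z'.w σ1 : ℂ)⁻¹ * (ind (Z'.tgt σ1 = 0) : ℂ) * ((Z'.x ρ1 σ1 : ℂ) * Z'.x ρ2 σ2)

lemma frobR_pair {Z Z' : Conn} (hZ : Sph Z) (hZ' : Sph (comp Z' cX.conj))
    (T : Mor Z' (comp Z cX)) {ρ1 ρ2 : Z'.E} (h1 : Z'.src ρ1 = 0) (h2 : Z'.src ρ2 = 0) :
    ∑ π ∈ Z.ed 0, (Z.w π : ℂ)⁻¹ * (frobR_b T π ρ1 * conj (frobR_b T π ρ2)) =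
      ∑ σ1 ∈ Z'.out 1, ∑ σ2 ∈ Z'.out 1, frobR_c Z' ρ1 ρ2 σ1 σ2 *
        (T.sharp.adj * T.sharp.adj.adj).k (σ2, ((1, 0) : ℕ × ℕ)) (σ1, ((1, 0) : ℕ × ℕ)) := by
  have h3 : ∀ σ1 σ2 : Z'.E,
      (T.sharp.adj * T.sharp.adj.adj).k (σ2, ((1, 0) : ℕ × ℕ)) (σ1, ((1, 0) : ℕ × ℕ)) =
        ∑ π ∈ Z.out 0, conj (T.sharp.k π (σ2, ((1, 0) : ℕ × ℕ))) *
          T.sharp.k π (σ1, ((1, 0) : ℕ × ℕ)) := fun σ1 σ2 => by
    rw [Mor.adj_adj]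
    rfl
  have h22 : (Real.sqrt 2 : ℂ) * (Real.sqrt 2 : ℂ) = 2 := by
    exact_mod_cast Real.mul_self_sqrt (by norm_num : (0 : ℝ) ≤ 2)
  simp only [h3, Finset.mul_sum]
  rw [Conn.ed, Finset.sum_filter]
  refine Eq.trans ?_ (Finset.sum_congr rfl fun σ1 _ => Finset.sum_comm)
  refine Eq.trans ?_ Finset.sum_comm
  refine Finset.sum_congr rfl fun π hπ => ?_
  have h4 : Z.src π = 0 := Z.src_of_out hπ
  rw [frobR_b_eq T h4 h1, frobR_b_eq T h4 h2, map_mul, Complex.conj_ofReal, map_sum,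
    mul_mul_mul_comm, h22, Finset.sum_mul_sum]
  have h5 : ∀ σ1 σ2 : Z'.E, frobR_c Z' ρ1 ρ2 σ1 σ2 *
      (conj (T.sharp.k π (σ2, ((1, 0) : ℕ × ℕ))) * T.sharp.k π (σ1, ((1, 0) : ℕ × ℕ))) =
      (ind (Z.tgt π = 0) : ℂ) * ((Z.w π : ℂ)⁻¹ * (2 *
        (T.sharp.k π (σ1, ((1, 0) : ℕ × ℕ)) * (Z'.x ρ1 σ1 : ℂ) *
          conj (T.sharp.k π (σ2, ((1, 0) : ℕ × ℕ)) * (Z'.x ρ2 σ2 : ℂ))))) := fun σ1 σ2 => by
    by_cases h : T.sharp.k π (σ1, ((1, 0) : ℕ × ℕ)) = 0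
    · rw [h]
      simp
    · have h6 : Z.w π = Z'.w σ1 * (cX.w ((1, 0) : ℕ × ℕ))⁻¹ := w_eq_of_sph hZ' hZ T.sharp h
      have h7 : Z.tgt π = Z'.tgt σ1 := (T.sharp.supp h).2.2.2
      rw [frobR_w10, inv_inv] at h6
      rw [frobR_c, h6, h7, map_mul, Complex.conj_ofReal]
      have h8 := Z'.wC_ne σ1
      push_cast
      field_simp
  simp only [h5, ← Finset.mul_sum]
  split_ifs with h
  · rw [ind_of h, Complex.ofReal_one, one_mul]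
  · rw [ind_of_not h, Complex.ofReal_zero, zero_mul]

lemma frobR_final {Z' : Conn} (E : Mor Z' Z') {ρ1 ρ2 : Z'.E} (h1 : ρ1 ∈ Z'.out 0)
    (h2 : Z'.src ρ2 = 0) :
    ∑ σ1 ∈ Z'.out 1, ∑ σ2 ∈ Z'.out 1, frobR_c Z' ρ1 ρ2 σ1 σ2 *
        (Mor.wr E cX.conj).k (σ2, ((1, 0) : ℕ × ℕ)) (σ1, ((1, 0) : ℕ × ℕ)) =
      (ind (Z'.tgt ρ1 = 1) : ℂ) * ((Z'.w ρ1 : ℂ)⁻¹ * E.k ρ2 ρ1) := by
  obtain ⟨hv, hs⟩ := Z'.mem_out.mp h1
  have hval : cX.conj.valid ((1, 0) : ℕ × ℕ) :=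
    (conj_valid cX _).mpr ((letter_valid le_rfl 1 0).mpr (Or.inr rfl))
  have h3 : ∀ σ1 ∈ Z'.out 1, ∑ σ2 ∈ Z'.out 1, frobR_c Z' ρ1 ρ2 σ1 σ2 *
      (Mor.wr E cX.conj).k (σ2, ((1, 0) : ℕ × ℕ)) (σ1, ((1, 0) : ℕ × ℕ)) =
      ∑ τ ∈ Z'.out 0, E.k ρ2 τ * ((ind (Z'.tgt σ1 = 0) : ℂ) *
        ((Z'.w σ1 : ℂ)⁻¹ * ((Z'.x ρ1 σ1 : ℂ) * Z'.x τ σ1))) := fun σ1 hσ => by
    have h4 : Z'.src σ1 = 1 := Z'.src_of_out hσ
    have h5 := E.isMor.comm ρ2 σ1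
    rw [h4, h2] at h5
    have h6 : ∀ σ2 : Z'.E,
        (Mor.wr E cX.conj).k (σ2, ((1, 0) : ℕ × ℕ)) (σ1, ((1, 0) : ℕ × ℕ)) = E.k σ2 σ1 :=
      fun σ2 => by
        refine (Mor.wr_k E cX.conj _ _ σ2 σ1).trans ?_
        rw [ind_of ⟨rfl, hval, h4⟩, Complex.ofReal_one, one_mul]
    calc _ = (Z'.w σ1 : ℂ)⁻¹ * (ind (Z'.tgt σ1 = 0) : ℂ) * (Z'.x ρ1 σ1 : ℂ) *
          ∑ σ2 ∈ Z'.out 1, (Z'.x ρ2 σ2 : ℂ) * E.k σ2 σ1 := by
          rw [Finset.mul_sum]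
          refine Finset.sum_congr rfl fun σ2 _ => ?_
          rw [h6, frobR_c]
          ring
      _ = _ := by
          rw [h5, Finset.mul_sum]
          refine Finset.sum_congr rfl fun τ _ => ?_
          ring
  rw [Finset.sum_congr rfl h3, Finset.sum_comm]
  have h7 : ∀ τ ∈ Z'.out 0, ∑ σ1 ∈ Z'.out 1, E.k ρ2 τ * ((ind (Z'.tgt σ1 = 0) : ℂ) *
      ((Z'.w σ1 : ℂ)⁻¹ * ((Z'.x ρ1 σ1 : ℂ) * Z'.x τ σ1))) =
      (Z'.w ρ1 : ℂ)⁻¹ * E.k ρ2 τ * (ind (τ = ρ1 ∧ Z'.tgt ρ1 = 1) : ℂ) := fun τ hτ => by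
    rw [← Finset.mul_sum, Z'.sum_out_eq_sum_inn 1 0]
    · have h8 : ∑ σ1 ∈ Z'.inn 0, (ind (Z'.tgt σ1 = 0) : ℂ) *
          ((Z'.w σ1 : ℂ)⁻¹ * ((Z'.x ρ1 σ1 : ℂ) * Z'.x τ σ1)) =
          ∑ σ1 ∈ Z'.inn 0, (Z'.w σ1 : ℂ)⁻¹ * ((Z'.x ρ1 σ1 : ℂ) * Z'.x τ σ1) :=
        Finset.sum_congr rfl fun σ1 hσ => by
          rw [ind_of (Z'.tgt_of_inn hσ), Complex.ofReal_one, one_mul]
      have h9 : (ρ1 = τ ∧ Z'.valid ρ1 ∧ Adj 0 (Z'.tgt ρ1)) ↔ (τ = ρ1 ∧ Z'.tgt ρ1 = 1) := by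
        constructor
        · rintro ⟨h10, -, h11⟩
          refine ⟨h10.symm, ?_⟩
          unfold Adj at h11
          omega
        · rintro ⟨h10, h11⟩
          exact ⟨h10.symm, hv, Or.inl (by omega)⟩
      rw [h8, Z'.U2bC 0 ρ1 τ (hs.trans (Z'.src_of_out hτ).symm), ind_congr h9]
      ring
    · intro e he _
      have h10 : Z'.tgt e = 0 := indC_ne_zero (left_ne_zero_of_mul he)
      have h11 : Z'.x ρ1 e ≠ 0 := by
        exact_mod_cast left_ne_zero_of_mul (right_ne_zero_of_mul (right_ne_zero_of_mul he))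
      have h12 := (Z'.x_supp' h11).2.2.1
      rw [hs] at h12
      unfold Adj at h12
      constructor
      · intro _
        exact h10
      · intro _
        omega
  rw [Finset.sum_congr rfl h7, sum_mul_indC (Z'.out 0) (fun τ => (Z'.w ρ1 : ℂ)⁻¹ * E.k ρ2 τ),
    ind_congr (show (ρ1 ∈ Z'.out 0 ∧ Z'.tgt ρ1 = 1) ↔ Z'.tgt ρ1 = 1 from
      ⟨fun h => h.2, fun h => ⟨h1, h⟩⟩), mul_comm]

lemma frobR_G (N : NatForm K) (B : Tm) (a b : B.c.E → ℂ) (χ : K) :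
    N.G B (∑ ρ ∈ B.c.out 0, a ρ • sing ρ χ) (∑ ρ ∈ B.c.out 0, b ρ • sing ρ χ) =
      ∑ ρ1 ∈ B.c.out 0, ∑ ρ2 ∈ B.c.out 0,
        conj (a ρ1) * b ρ2 * N.G B (sing ρ1 χ) (sing ρ2 χ) := by
  rw [map_sum, map_sum]
  simp only [LinearMap.sum_apply, map_smul, LinearMap.map_smulₛₗ, LinearMap.smul_apply,
    smul_eq_mul, Finset.mul_sum]
  rw [Finset.sum_comm]
  refine Finset.sum_congr rfl fun ρ1 _ => Finset.sum_congr rfl fun ρ2 _ => ?_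
  ring

lemma frobR_act_sing {A : Conn} (E : Mor A A) {ρ : A.E} (h : ρ ∈ A.out 0) (χ : K) :
    act E (sing ρ χ) = ∑ τ ∈ A.out 0, E.k τ ρ • sing τ χ := by
  rw [← frobR_expand]
  · funext τ
    simp only [act, sing, smul_smul]
    rw [← Finset.sum_smul]
    congr 1
    have h1 : ∑ e ∈ A.out 0, E.k τ e * (ind (e = ρ) : ℂ) =
        ∑ e ∈ A.out 0, E.k τ e * (ind (e = ρ ∧ True) : ℂ) := by simp
    rw [h1, sum_mul_indC, ind_of ⟨h, trivial⟩, Complex.ofReal_one, mul_one]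
  · intro τ hτ
    obtain ⟨h2, -, h3, -⟩ := E.supp hτ
    exact A.mem_out.mpr ⟨h2, h3.trans (A.src_of_out h)⟩

lemma frobR_res (N : NatForm K) (C : Tm) (p : Mor C.c C.c) (hp : IsProj p) (n : Irr → ℕ)
    (S : ∀ Z : Irr, Fin (n Z) → Mor Z.c C.c) (hS : ∀ Z, IsONB Z.p p (S Z)) (ξ : C.c.E → K)
    {r : ℝ} (hr : 0 ≤ r) :
    ENNReal.ofReal (r * (N.G C (act p ξ) (act p ξ)).re) = ∑' Z : Irr, ∑ i, ENNReal.ofReal
      (r * Z.d * (N.G Z.t (act (S Z i).adj ξ) (act (S Z i).adj ξ)).re) := by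
  obtain ⟨F, hF, hsum⟩ := res C p hp n S hS
  have h1 : N.G C (act p ξ) (act p ξ) = ∑ Z ∈ F, ∑ i,
      (Z.d : ℂ) * N.G Z.t (act (S Z i).adj ξ) (act (S Z i).adj ξ) := by
    rw [N.G_proj C hp]
    calc N.G C ξ (act p ξ) = N.G C ξ (act (∑ Z ∈ F, (Z.d : ℂ) • ∑ i, S Z i * (S Z i).adj) ξ) := by
          rw [hsum]
      _ = _ := by
          rw [act_sum, map_sum]
          refine Finset.sum_congr rfl fun Z _ => ?_
          rw [act_smul, act_sum, map_smul, map_sum, smul_eq_mul, Finset.mul_sum]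
          refine Finset.sum_congr rfl fun i _ => ?_
          rw [act_mul, N.nat Z.t C (S Z i)]
  have h2 : ∀ (Z : Irr) (i : Fin (n Z)),
      0 ≤ r * Z.d * (N.G Z.t (act (S Z i).adj ξ) (act (S Z i).adj ξ)).re := fun Z i =>
    mul_nonneg (mul_nonneg hr Z.d_pos.le) (N.pos _ _)
  rw [tsum_eq_sum (s := F)]
  · rw [h1, Complex.re_sum, Finset.mul_sum, ENNReal.ofReal_sum_of_nonneg]
    · refine Finset.sum_congr rfl fun Z _ => ?_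
      rw [← ENNReal.ofReal_sum_of_nonneg fun i _ => h2 Z i, Complex.re_sum, Finset.mul_sum]
      congr 1
      refine Finset.sum_congr rfl fun i _ => ?_
      rw [Complex.re_ofReal_mul, mul_assoc]
    · intro Z _
      rw [Complex.re_sum, Finset.mul_sum]
      refine Finset.sum_nonneg fun i _ => ?_
      rw [Complex.re_ofReal_mul, ← mul_assoc]
      exact h2 Z i
  · intro Z hZ
    refine Finset.sum_eq_zero fun i _ => ?_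
    exact absurd (i.2.trans_eq (hF Z hZ)) (Nat.not_lt_zero _)

lemma frobR_fix (N : NatForm K) (χ : K) (Z' : Irr) (n : Irr → ℕ)
    (T : ∀ Z : Irr, Fin (n Z) → Mor Z'.c (comp Z.c cX))
    (hT : ∀ Z, IsONB Z'.p (Mor.wr Z.p cX) (T Z)) :
    ∑' Z : Irr, ∑ π ∈ Z.c.ed 0, ∑ i, ENNReal.ofReal (Z.d / Z.c.w π * Z'.d *
      (N.G Z'.t (act (T Z i).adj (rgt π χ)) (act (T Z i).adj (rgt π χ))).re) =
    ∑ ρ ∈ Z'.c.ed 1, ENNReal.ofReal (Z'.d / Z'.c.w ρ *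
      (N.G Z'.t (act Z'.p (sing ρ χ)) (act Z'.p (sing ρ χ))).re) := by
  obtain ⟨F, hF, hsum⟩ := res (Z'.t.comp Tm.X.conj) (Mor.wr Z'.p cX.conj)
    (Z'.isProj.wr cX.conj) n (fun Z i => (T Z i).sharp.adj) fun Z =>
      IsONB.sharp Z.t.sph Z'.t.sph (Z.t.comp Tm.X).sph Z.isProj Z'.isProj (hT Z)
  have hcoef : ∀ ρ1 ∈ Z'.c.out 0, ∀ ρ2 ∈ Z'.c.out 0,
      ∑ Z ∈ F, ∑ π ∈ Z.c.ed 0, ∑ i, (Z.d : ℂ) * ((Z.c.w π : ℂ)⁻¹ *
        (frobR_b (T Z i) π ρ1 * conj (frobR_b (T Z i) π ρ2))) =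
      (ind (Z'.c.tgt ρ1 = 1) : ℂ) * ((Z'.c.w ρ1 : ℂ)⁻¹ * Z'.p.k ρ2 ρ1) := by
    intro ρ1 h1 ρ2 h2
    rw [← frobR_final Z'.p h1 (Z'.c.src_of_out h2)]
    have h3 : ∀ σ1 σ2 : Z'.c.E,
        (Mor.wr Z'.p cX.conj).k (σ2, ((1, 0) : ℕ × ℕ)) (σ1, ((1, 0) : ℕ × ℕ)) =
          ∑ Z ∈ F, ∑ i, (Z.d : ℂ) * ((T Z i).sharp.adj * (T Z i).sharp.adj.adj).k
            (σ2, ((1, 0) : ℕ × ℕ)) (σ1, ((1, 0) : ℕ × ℕ)) := fun σ1 σ2 => by
      have h4 := congrArg (fun f : Mor (comp Z'.c cX.conj) (comp Z'.c cX.conj) =>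
        f.k (σ2, ((1, 0) : ℕ × ℕ)) (σ1, ((1, 0) : ℕ × ℕ))) hsum
      refine h4.symm.trans ?_
      refine (Mor.sum_k _ _ _ _).trans (Finset.sum_congr rfl fun Z _ => ?_)
      refine (Mor.smul_k _ _ _ _).trans ?_
      rw [← Finset.mul_sum]
      exact congrArg _ (Mor.sum_k _ _ _ _)
    calc _ = ∑ Z ∈ F, ∑ i, ∑ σ1 ∈ Z'.c.out 1, ∑ σ2 ∈ Z'.c.out 1, frobR_c Z'.c ρ1 ρ2 σ1 σ2 *
          ((Z.d : ℂ) * ((T Z i).sharp.adj * (T Z i).sharp.adj.adj).k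
            (σ2, ((1, 0) : ℕ × ℕ)) (σ1, ((1, 0) : ℕ × ℕ))) := by
          refine Finset.sum_congr rfl fun Z _ => ?_
          rw [Finset.sum_comm]
          refine Finset.sum_congr rfl fun i _ => ?_
          rw [← Finset.mul_sum, frobR_pair Z.t.sph (Z'.t.comp Tm.X.conj).sph (T Z i)
            (Z'.c.src_of_out h1) (Z'.c.src_of_out h2), Finset.mul_sum]
          refine Finset.sum_congr rfl fun σ1 _ => ?_
          rw [Finset.mul_sum]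
          refine Finset.sum_congr rfl fun σ2 _ => ?_
          ring
      _ = _ := by
          simp only [h3, Finset.mul_sum]
          refine Eq.trans (Finset.sum_congr rfl fun Z _ => Finset.sum_comm) ?_
          refine Eq.trans Finset.sum_comm (Finset.sum_congr rfl fun σ1 _ => ?_)
          refine Eq.trans (Finset.sum_congr rfl fun Z _ => Finset.sum_comm) ?_
          exact Finset.sum_comm
  have hC : ∑ Z ∈ F, ∑ π ∈ Z.c.ed 0, ∑ i, ((Z.d / Z.c.w π * Z'.d : ℝ) : ℂ) *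
      N.G Z'.t (act (T Z i).adj (rgt π χ)) (act (T Z i).adj (rgt π χ)) =
      ∑ ρ ∈ Z'.c.ed 1, ((Z'.d / Z'.c.w ρ : ℝ) : ℂ) *
        N.G Z'.t (act Z'.p (sing ρ χ)) (act Z'.p (sing ρ χ)) := by
    calc _ = ∑ Z ∈ F, ∑ π ∈ Z.c.ed 0, ∑ i, ∑ ρ1 ∈ Z'.c.out 0, ∑ ρ2 ∈ Z'.c.out 0,
          (Z.d : ℂ) * ((Z.c.w π : ℂ)⁻¹ * (frobR_b (T Z i) π ρ1 * conj (frobR_b (T Z i) π ρ2))) *
            ((Z'.d : ℂ) * N.G Z'.t (sing ρ1 χ) (sing ρ2 χ)) := by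
          refine Finset.sum_congr rfl fun Z _ => Finset.sum_congr rfl fun π _ =>
            Finset.sum_congr rfl fun i _ => ?_
          rw [frobR_act, frobR_G, Finset.mul_sum]
          refine Finset.sum_congr rfl fun ρ1 _ => ?_
          rw [Finset.mul_sum]
          refine Finset.sum_congr rfl fun ρ2 _ => ?_
          rw [Complex.conj_conj]
          push_cast
          ring
      _ = ∑ ρ1 ∈ Z'.c.out 0, ∑ ρ2 ∈ Z'.c.out 0, (∑ Z ∈ F, ∑ π ∈ Z.c.ed 0, ∑ i,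
          (Z.d : ℂ) * ((Z.c.w π : ℂ)⁻¹ * (frobR_b (T Z i) π ρ1 * conj (frobR_b (T Z i) π ρ2)))) *
            ((Z'.d : ℂ) * N.G Z'.t (sing ρ1 χ) (sing ρ2 χ)) := by
          simp only [Finset.sum_mul]
          refine Eq.trans (Finset.sum_congr rfl fun Z _ => Finset.sum_congr rfl fun π _ =>
            Finset.sum_comm) ?_
          refine Eq.trans (Finset.sum_congr rfl fun Z _ => Finset.sum_comm) ?_
          refine Eq.trans Finset.sum_comm (Finset.sum_congr rfl fun ρ1 _ => ?_)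
          refine Eq.trans (Finset.sum_congr rfl fun Z _ => Finset.sum_congr rfl fun π _ =>
            Finset.sum_comm) ?_
          refine Eq.trans (Finset.sum_congr rfl fun Z _ => Finset.sum_comm) ?_
          exact Finset.sum_comm
      _ = _ := by
          rw [Conn.ed, Finset.sum_filter]
          refine Finset.sum_congr rfl fun ρ1 h1 => ?_
          rw [Finset.sum_congr rfl fun ρ2 h2 => by rw [hcoef ρ1 h1 ρ2 h2]]
          split_ifs with h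
          · rw [N.G_proj Z'.t Z'.isProj, frobR_act_sing Z'.p h1, map_sum, Finset.mul_sum]
            refine Finset.sum_congr rfl fun ρ2 _ => ?_
            rw [ind_of h, map_smul, smul_eq_mul]
            push_cast
            ring
          · refine Finset.sum_eq_zero fun ρ2 _ => ?_
            rw [ind_of_not h, Complex.ofReal_zero, zero_mul, zero_mul]
  have hre := congrArg Complex.re hC
  simp only [Complex.re_sum, Complex.re_ofReal_mul] at hre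
  have h5 : ∀ (Z : Irr) (π : Z.c.E) (i : Fin (n Z)), 0 ≤ Z.d / Z.c.w π * Z'.d *
      (N.G Z'.t (act (T Z i).adj (rgt π χ)) (act (T Z i).adj (rgt π χ))).re := fun Z π i =>
    mul_nonneg (mul_nonneg (div_nonneg Z.d_pos.le (Z.c.w_pos π).le) Z'.d_pos.le) (N.pos _ _)
  rw [tsum_eq_sum (s := F)]
  · rw [← ENNReal.ofReal_sum_of_nonneg fun ρ _ =>
      mul_nonneg (div_nonneg Z'.d_pos.le (Z'.c.w_pos ρ).le) (N.pos _ _), ← hre,
      ENNReal.ofReal_sum_of_nonneg fun Z _ => Finset.sum_nonneg fun π _ =>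
        Finset.sum_nonneg fun i _ => h5 Z π i]
    refine Finset.sum_congr rfl fun Z _ => ?_
    rw [ENNReal.ofReal_sum_of_nonneg fun π _ => Finset.sum_nonneg fun i _ => h5 Z π i]
    refine Finset.sum_congr rfl fun π _ => ?_
    rw [ENNReal.ofReal_sum_of_nonneg fun i _ => h5 Z π i]
  · intro Z hZ
    refine Finset.sum_eq_zero fun π _ => Finset.sum_eq_zero fun i _ => ?_
    exact absurd (i.2.trans_eq (hF Z hZ)) (Nat.not_lt_zero _)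

/-- Right Frobenius reciprocity for the spin one half connection. -/
theorem NatForm.right (N : NatForm K) (χ : K) :
    ∑' Z : Irr, ∑ π ∈ Z.c.ed 0, ENNReal.ofReal (Z.d / Z.c.w π *
      (N.G (Z.t.comp Tm.X) (act (Mor.wr Z.p cX) (rgt π χ))
        (act (Mor.wr Z.p cX) (rgt π χ))).re) = N.Psi 1 χ := by
  choose n T hT using fun Z Z' : Irr => exists_onb Z'.p (Mor.wr Z.p cX)
  calc _ = ∑' Z : Irr, ∑' Z' : Irr, ∑ π ∈ Z.c.ed 0, ∑ i, ENNReal.ofReal (Z.d / Z.c.w π * Z'.d *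
        (N.G Z'.t (act (T Z Z' i).adj (rgt π χ)) (act (T Z Z' i).adj (rgt π χ))).re) := by
        refine tsum_congr fun Z => ?_
        rw [Summable.tsum_finsetSum fun _ _ => ENNReal.summable]
        exact Finset.sum_congr rfl fun π _ => frobR_res N (Z.t.comp Tm.X) (Mor.wr Z.p cX)
          (Z.isProj.wr cX) (n Z) (T Z) (hT Z) (rgt π χ) (div_nonneg Z.d_pos.le (Z.c.w_pos π).le)
    _ = _ := by
        rw [ENNReal.tsum_comm]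
        exact tsum_congr fun Z' => frobR_fix N χ Z' (fun Z => n Z Z') (fun Z => T Z Z')
          fun Z => hT Z Z'

end Pool.Agent.Lib.MP_d81181_an
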