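import Pool.Agent.Lib.MP_d81181_an.VW

/-! The linear extension of a sum of vector functionals. -/

open scoped InnerProductSpace ComplexConjugate ENNReal NNReal
open ContinuousLinearMap Filter Topology

set_option linter.unusedSectionVars false

noncomputable section

namespace Pool.Agent.Lib.MP_d81181_an

variable {H K : Type} [NormedAddCommGroup H] [InnerProductSpace ℂ H] [CompleteSpace H]
  [NormedAddCommGroup K] [InnerProductSpace ℂ K] [CompleteSpace K]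
  {J : Type} {η : J → H} {M : VonNeumannAlgebra H}

/-- The quadratic form of a positive operator is real. -/
lemma inner_eq_re_of_nonneg {x : H →L[ℂ] H} (h0 : 0 ≤ x) (ξ : H) :
    ⟪ξ, x ξ⟫_ℂ = ((⟪ξ, x ξ⟫_ℂ).re : ℂ) := by
  have h := ((nonneg_iff_isPositive x).mp h0).inner_nonneg_right ξ
  have h2 := (Complex.nonneg_iff.mp h).2
  exact Complex.ext (by simp) (by simp [← h2])

lemma val_hasSum_real {f : J → ℝ} (hf : ∀ j, 0 ≤ f j) {c : ℝ≥0∞} (hc : c < ⊤)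
    (h : ∑' j, ENNReal.ofReal (f j) = c) : HasSum f c.toReal := by
  have h1 := ENNReal.hasSum_toReal (f := fun j => ENNReal.ofReal (f j)) (h ▸ hc.ne)
  rw [← ENNReal.tsum_toReal_eq (fun j => ENNReal.ofReal_ne_top), h] at h1
  simpa only [ENNReal.toReal_ofReal (hf _)] using h1

/-- A finite sum in `ℝ≥0∞` of nonnegative reals is a sum in `ℂ`. -/
lemma hasSum_of_tsum_ofReal {f : J → ℝ} (hf : ∀ j, 0 ≤ f j) {c : ℝ≥0∞} (hc : c < ⊤)
    (h : ∑' j, ENNReal.ofReal (f j) = c) : HasSum (fun j => (f j : ℂ)) (c.toReal : ℂ) :=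
  Complex.hasSum_ofReal.mpr (val_hasSum_real hf hc h)

lemma tsum_ofReal_of_hasSum {f : J → ℝ} (hf : ∀ j, 0 ≤ f j) {c : ℝ}
    (h : HasSum (fun j => (f j : ℂ)) (c : ℂ)) :
    ∑' j, ENNReal.ofReal (f j) = ENNReal.ofReal c := by
  have h1 : HasSum f c := Complex.hasSum_ofReal.mp h
  rw [← ENNReal.ofReal_tsum_of_nonneg hf h1.summable, h1.tsum_eq]

lemma hasSum_vw {x : H →L[ℂ] H} (h0 : 0 ≤ x) (hf : vw η x < ⊤) :
    HasSum (fun j => ⟪η j, x (η j)⟫_ℂ) ((vw η x).toReal : ℂ) := by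
  have h := hasSum_of_tsum_ofReal (f := fun j => (⟪η j, x (η j)⟫_ℂ).re)
    (fun j => re_inner_nonneg_of_nonneg h0 _) hf rfl
  have e : (fun j => ⟪η j, x (η j)⟫_ℂ) = fun j => (((⟪η j, x (η j)⟫_ℂ).re : ℝ) : ℂ) :=
    funext fun j => inner_eq_re_of_nonneg h0 _
  rw [e]
  exact h

lemma vw_adjoint_comp (u : H →L[ℂ] K) :
    vw η (adjoint u ∘L u) = ∑' j, ENNReal.ofReal (‖u (η j)‖ ^ 2) := by
  unfold vw
  refine tsum_congr fun j => ?_
  rw [comp_apply, adjoint_inner_right, inner_self_eq_norm_sq_to_K]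
  congr 1
  rw [← RCLike.ofReal_pow]
  exact Complex.ofReal_re _

lemma HasVal.hasSum {z : H →L[ℂ] H} {c : ℂ} (h : HasVal M (vw η) z c) :
    HasSum (fun j => ⟪η j, z (η j)⟫_ℂ) c := by
  obtain ⟨p, hp, rfl, rfl⟩ := h
  have h1 := hasSum_sum (s := Finset.univ) fun (k : Fin 4) _ =>
    (hasSum_vw (hp k).2.1 (hp k).2.2).mul_left (Complex.I ^ (k : ℕ))
  have e : (fun j => ⟪η j, (∑ k : Fin 4, Complex.I ^ (k : ℕ) • p k) (η j)⟫_ℂ) =
      fun j => ∑ k : Fin 4, Complex.I ^ (k : ℕ) * ⟪η j, p k (η j)⟫_ℂ := by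
    funext j
    simp only [_root_.sum_apply, smul_apply, inner_sum, inner_smul_right]
  rw [e]
  exact h1

lemma val_expand (u w : H →L[ℂ] K) (c : ℂ) :
    adjoint (u + c • w) ∘L (u + c • w) = adjoint u ∘L u + c • star (adjoint w ∘L u) +
      conj c • (adjoint w ∘L u) + (conj c * c) • (adjoint w ∘L w) := by
  rw [star_eq_adjoint, adjoint_comp, adjoint_adjoint]
  refine ContinuousLinearMap.ext fun ξ => ext_inner_left ℂ fun ζ => ?_
  simp only [comp_apply, add_apply, smul_apply, adjoint_inner_right, inner_add_left,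
    inner_add_right, inner_smul_left, inner_smul_right]
  ring

lemma val_fin (u w : H →L[ℂ] K) (hu : vw η (adjoint u ∘L u) < ⊤)
    (hw : vw η (adjoint w ∘L w) < ⊤) {c : ℂ} (hc : ‖c‖ = 1) :
    vw η (adjoint (u + c • w) ∘L (u + c • w)) < ⊤ := by
  rw [vw_adjoint_comp] at hu hw ⊢
  have h : ∑' j, ENNReal.ofReal (‖(u + c • w) (η j)‖ ^ 2) ≤
      2 * ∑' j, ENNReal.ofReal (‖u (η j)‖ ^ 2) + 2 * ∑' j, ENNReal.ofReal (‖w (η j)‖ ^ 2) := by
    rw [← ENNReal.tsum_mul_left, ← ENNReal.tsum_mul_left, ← ENNReal.tsum_add]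
    refine ENNReal.tsum_le_tsum fun j => ?_
    have h1 : ‖(u + c • w) (η j)‖ ≤ ‖u (η j)‖ + ‖w (η j)‖ := by
      rw [add_apply, smul_apply]
      refine (norm_add_le _ _).trans ?_
      rw [norm_smul, hc, one_mul]
    have h2 : ‖(u + c • w) (η j)‖ ^ 2 ≤ 2 * ‖u (η j)‖ ^ 2 + 2 * ‖w (η j)‖ ^ 2 := by
      have h3 := pow_le_pow_left₀ (norm_nonneg _) h1 2
      nlinarith [sq_nonneg (‖u (η j)‖ - ‖w (η j)‖)]
    refine (ENNReal.ofReal_le_ofReal h2).trans ?_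
    rw [ENNReal.ofReal_add (by positivity) (by positivity), ENNReal.ofReal_mul (by norm_num),
      ENNReal.ofReal_mul (by norm_num), ENNReal.ofReal_ofNat]
  exact h.trans_lt (ENNReal.add_lt_top.mpr ⟨ENNReal.mul_lt_top (by simp) hu,
    ENNReal.mul_lt_top (by simp) hw⟩)

lemma exists_hasVal (u w : H →L[ℂ] K) (huu : adjoint u ∘L u ∈ M) (hww : adjoint w ∘L w ∈ M)
    (hwu : adjoint w ∘L u ∈ M) (hu : vw η (adjoint u ∘L u) < ⊤) (hw : vw η (adjoint w ∘L w) < ⊤) :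
    ∃ c, HasVal M (vw η) (adjoint w ∘L u) c := by
  have hsm : ∀ (c : ℂ) (x : H →L[ℂ] H), x ∈ M → c • x ∈ M := fun c x hx =>
    M.toStarSubalgebra.smul_mem hx c
  refine ⟨_, fun k => (((1 / 4 : ℝ≥0) : ℝ) : ℂ) • (adjoint (u + Complex.I ^ (k : ℕ) • w) ∘L
    (u + Complex.I ^ (k : ℕ) • w)), fun k => ⟨hsm _ _ ?_, ?_, ?_⟩, ?_, rfl⟩
  · rw [val_expand]
    exact add_mem (add_mem (add_mem huu (hsm _ _ (star_mem hwu))) (hsm _ _ hwu)) (hsm _ _ hww)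
  · refine (nonneg_iff_isPositive _).mpr ((isPositive_adjoint_comp_self _).smul_of_nonneg ?_)
    exact Complex.zero_le_real.mpr (NNReal.coe_nonneg _)
  · rw [vw_smul _ ((nonneg_iff_isPositive _).mpr (isPositive_adjoint_comp_self _))]
    exact ENNReal.mul_lt_top ENNReal.coe_lt_top (val_fin u w hu hw (by simp))
  · simp only [val_expand, Fin.sum_univ_four, Fin.val_zero, Fin.val_one, Fin.val_two]
    have h3 : ((3 : Fin 4) : ℕ) = 3 := rfl
    have e2 : Complex.I ^ 2 = -1 := Complex.I_sq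
    have e3 : Complex.I ^ 3 = -Complex.I := Complex.I_pow_three
    simp only [h3, e2, e3, pow_zero, pow_one, map_one, map_neg, Complex.conj_I, NNReal.coe_div,
      NNReal.coe_one, NNReal.coe_ofNat, Complex.ofReal_div, Complex.ofReal_one,
      Complex.ofReal_ofNat]
    match_scalars
    · linear_combination (1 / 2 : ℂ) * e2
    · ring
    · linear_combination (-1 / 2 : ℂ) * e2
    · ring

lemma val_lp_op (a : J → H →L[ℂ] K) {Ca : ℝ≥0∞} (hCa : Ca < ⊤)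
    (ha : ∀ ξ, ∑' j, ENNReal.ofReal (‖a j ξ‖ ^ 2) ≤ ENNReal.ofReal (‖ξ‖ ^ 2) * Ca) :
    ∃ A : H →L[ℂ] lp (fun _ : J => K) 2, ∀ ξ j, A ξ j = a j ξ := by
  have hlt : ∀ ξ : H, ENNReal.ofReal (‖ξ‖ ^ 2) * Ca < ⊤ := fun ξ =>
    ENNReal.mul_lt_top ENNReal.ofReal_lt_top hCa
  have hs : ∀ ξ, HasSum (fun j => ‖a j ξ‖ ^ 2) (∑' j, ENNReal.ofReal (‖a j ξ‖ ^ 2)).toReal :=
    fun ξ => val_hasSum_real (fun j => by positivity) ((ha ξ).trans_lt (hlt ξ)) rfl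
  have h2 : (2 : ℝ≥0∞).toReal = ((2 : ℕ) : ℝ) := by norm_num
  have hm : ∀ ξ, Memℓp (fun j => a j ξ) 2 := fun ξ => memℓp_gen (by
    simp only [h2, Real.rpow_natCast]
    exact (hs ξ).summable)
  let A0 : H →ₗ[ℂ] lp (fun _ : J => K) 2 :=
    { toFun := fun ξ => ⟨fun j => a j ξ, hm ξ⟩
      map_add' := fun ξ ζ => lp.ext (funext fun j => map_add (a j) ξ ζ)
      map_smul' := fun c ξ => lp.ext (funext fun j => map_smul (a j) c ξ) }
  refine ⟨A0.mkContinuous (Real.sqrt Ca.toReal) fun ξ => ?_, fun ξ j => rfl⟩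
  refine lp.norm_le_of_tsum_le (by norm_num) (by positivity) ?_
  simp only [h2, Real.rpow_natCast]
  change ∑' j, ‖a j ξ‖ ^ 2 ≤ _
  rw [(hs ξ).tsum_eq, mul_pow, Real.sq_sqrt ENNReal.toReal_nonneg]
  refine (ENNReal.toReal_mono (hlt ξ).ne (ha ξ)).trans ?_
  rw [ENNReal.toReal_mul, ENNReal.toReal_ofReal (by positivity), mul_comm]

/-- The operator `∑ⱼ bⱼ* aⱼ` for two square summable families. -/
lemma exists_sum_op (a b : J → H →L[ℂ] K) {Ca Cb : ℝ≥0∞} (hCa : Ca < ⊤) (hCb : Cb < ⊤)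
    (ha : ∀ ξ, ∑' j, ENNReal.ofReal (‖a j ξ‖ ^ 2) ≤ ENNReal.ofReal (‖ξ‖ ^ 2) * Ca)
    (hb : ∀ ξ, ∑' j, ENNReal.ofReal (‖b j ξ‖ ^ 2) ≤ ENNReal.ofReal (‖ξ‖ ^ 2) * Cb) :
    ∃ c : H →L[ℂ] H, ∀ ξ' ξ, HasSum (fun j => ⟪b j ξ', a j ξ⟫_ℂ) ⟪ξ', c ξ⟫_ℂ := by
  obtain ⟨A, hA⟩ := val_lp_op a hCa ha
  obtain ⟨B, hB⟩ := val_lp_op b hCb hb
  refine ⟨adjoint B ∘L A, fun ξ' ξ => ?_⟩
  have h := lp.hasSum_inner (𝕜 := ℂ) (B ξ') (A ξ)
  simp only [hA, hB] at h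
  rw [comp_apply, adjoint_inner_right]
  exact h

end Pool.Agent.Lib.MP_d81181_an
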