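import Pool.Agent.Lib.MP_d81181_an.Inv
import Pool.Agent.Lib.MP_d81181_an.Val

/-! The generators of the reduced C*-algebra. -/

open scoped Classical InnerProductSpace ComplexConjugate ENNReal
open ContinuousLinearMap

noncomputable section

namespace Pool.Agent.Lib.MP_d81181_an

/-- The left ideal of square integrable elements. -/
def Nphi (a : BH →L[ℂ] BH) : Prop := a ∈ MM ∧ phi (star a * a) < ⊤

/-- `c = (id ⊗ φ)(Δ(b*)(1 ⊗ a))`. -/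
def Gen (a b c : BH →L[ℂ] BH) : Prop :=
  ∀ ξ' ξ, HasSum (fun j => ⟪Delta b (tm ξ' (eta j)), tm ξ (a (eta j))⟫_ℂ) ⟪ξ', c ξ⟫_ℂ

lemma Gen_phi_eq (a : BH →L[ℂ] BH) :
    phi (star a * a) = ∑' j, ENNReal.ofReal (‖a (eta j)‖ ^ 2) :=
  vw_adjoint_comp (η := eta) a

lemma Nphi.left {a u : BH →L[ℂ] BH} (ha : Nphi a) (hu : u ∈ MM) : Nphi (u * a) := by
  refine ⟨mul_mem hu ha.1, lt_of_le_of_lt ?_
    (ENNReal.mul_lt_top (ENNReal.ofReal_lt_top (r := ‖u‖ ^ 2)) ha.2)⟩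
  rw [Gen_phi_eq, Gen_phi_eq, ← ENNReal.tsum_mul_left]
  refine ENNReal.tsum_le_tsum fun j => ?_
  rw [← ENNReal.ofReal_mul (sq_nonneg _), ← mul_pow]
  refine ENNReal.ofReal_le_ofReal (pow_le_pow_left₀ (norm_nonneg _) ?_ 2)
  exact u.le_opNorm (a (eta j))

lemma Gen_ww {b : BH →L[ℂ] BH} (hb : b ∈ MM) (ξ : BH) :
    adjoint (Delta b ∘L tmL ξ) ∘L (Delta b ∘L tmL ξ) = sliceL ξ ξ (Delta (star b * b)) := by
  rw [Delta_mul _ hb, Delta_star, adjoint_comp, star_eq_adjoint]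
  rfl

lemma Gen_wu (a b : BH →L[ℂ] BH) (ξ' ξ : BH) :
    adjoint (Delta b ∘L tmL ξ') ∘L (tens 1 a ∘L tmL ξ) =
      sliceL ξ' ξ (Delta (star b) * tens 1 a) := by
  rw [Delta_star, adjoint_comp, star_eq_adjoint]
  rfl

lemma Gen_slice_mul (a : BH →L[ℂ] BH) (X : HT BH BH →L[ℂ] HT BH BH) (ξ' ξ : BH) :
    sliceL ξ' ξ (X * tens 1 a) = sliceL ξ' ξ X * a := by
  refine ContinuousLinearMap.ext fun η => ext_inner_left ℂ fun η' => ?_
  rw [mul_apply_eq_comp, inner_sliceL, inner_sliceL, mul_apply_eq_comp, tens_tm,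
    one_apply_eq_self]

lemma Gen_uu (a : BH →L[ℂ] BH) (ξ : BH) :
    adjoint (tens (1 : BH →L[ℂ] BH) a ∘L tmL ξ) ∘L (tens (1 : BH →L[ℂ] BH) a ∘L tmL ξ) =
      ⟪ξ, ξ⟫_ℂ • (star a * a) := by
  refine ContinuousLinearMap.ext fun η => ext_inner_left ℂ fun η' => ?_
  rw [comp_apply, adjoint_inner_right, comp_apply, comp_apply, tmL_apply, tmL_apply, tens_tm,
    tens_tm, inner_tm, one_apply_eq_self, smul_apply, inner_smul_right, mul_apply_eq_comp,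
    star_eq_adjoint, adjoint_inner_right]

lemma Gen_sum_u (a : BH →L[ℂ] BH) (ξ : BH) :
    ∑' j, ENNReal.ofReal (‖tm ξ (a (eta j))‖ ^ 2) =
      ENNReal.ofReal (‖ξ‖ ^ 2) * phi (star a * a) := by
  rw [Gen_phi_eq, ← ENNReal.tsum_mul_left]
  refine tsum_congr fun j => ?_
  rw [norm_tm, mul_pow, ENNReal.ofReal_mul (sq_nonneg _)]

lemma Gen_sum_w {b : BH →L[ℂ] BH} (hb : Nphi b) (ξ : BH) :
    ∑' j, ENNReal.ofReal (‖Delta b (tm ξ (eta j))‖ ^ 2) =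
      ENNReal.ofReal (‖ξ‖ ^ 2) * phi (star b * b) := by
  rw [← phi_sliceL (mul_mem (MM_star hb.1) hb.1) (star_mul_self_nonneg b) hb.2 ξ,
    ← Gen_ww hb.1]
  exact (vw_adjoint_comp (η := eta) (Delta b ∘L tmL ξ)).symm

lemma Gen_inner (a b : BH →L[ℂ] BH) (ξ' ξ η : BH) :
    ⟪η, sliceL ξ' ξ (Delta (star b) * tens 1 a) η⟫_ℂ = ⟪Delta b (tm ξ' η), tm ξ (a η)⟫_ℂ := by
  rw [inner_sliceL, mul_apply_eq_comp, tens_tm, one_apply_eq_self, Delta_star, star_eq_adjoint,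
    adjoint_inner_right]

lemma exists_val {a b : BH →L[ℂ] BH} (ha : Nphi a) (hb : Nphi b) (ξ' ξ : BH) :
    ∃ v, HasVal MM phi (sliceL ξ' ξ (Delta (star b) * tens 1 a)) v := by
  rw [← Gen_wu]
  refine exists_hasVal (η := eta) (tens 1 a ∘L tmL ξ) (Delta b ∘L tmL ξ') ?_ ?_ ?_ ?_ ?_
  · rw [Gen_uu]
    exact MM_smul _ (mul_mem (MM_star ha.1) ha.1)
  · rw [Gen_ww hb.1]
    exact sliceL_mem (mul_mem (MM_star hb.1) hb.1) _ _
  · rw [Gen_wu, Gen_slice_mul]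
    exact mul_mem (sliceL_mem (MM_star hb.1) _ _) ha.1
  · rw [vw_adjoint_comp]
    simp only [comp_apply, tmL_apply, tens_tm, one_apply_eq_self]
    rw [Gen_sum_u]
    exact ENNReal.mul_lt_top ENNReal.ofReal_lt_top ha.2
  · rw [vw_adjoint_comp]
    simp only [comp_apply, tmL_apply]
    rw [Gen_sum_w hb]
    exact ENNReal.mul_lt_top ENNReal.ofReal_lt_top hb.2

lemma gen_iff {a b : BH →L[ℂ] BH} (ha : Nphi a) (hb : Nphi b) (c : BH →L[ℂ] BH) :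
    (∀ ξ' ξ, HasVal MM phi (sliceL ξ' ξ (Delta (star b) * tens 1 a)) ⟪ξ', c ξ⟫_ℂ) ↔ Gen a b c := by
  constructor
  · intro h ξ' ξ
    have h1 := HasVal.hasSum (η := eta) (h ξ' ξ)
    simp only [Gen_inner] at h1
    exact h1
  · intro h ξ' ξ
    obtain ⟨v, hv⟩ := exists_val ha hb ξ' ξ
    have h1 := HasVal.hasSum (η := eta) hv
    simp only [Gen_inner] at h1
    rw [← h1.unique (h ξ' ξ)]
    exact hv

lemma exists_gen {a b : BH →L[ℂ] BH} (ha : Nphi a) (hb : Nphi b) : ∃ c, Gen a b c :=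
  exists_sum_op (fun j => (tmR (a (eta j)) : BH →L[ℂ] HT BH BH))
    (fun j => Delta b ∘L tmR (eta j)) ha.2 hb.2 (fun ξ => (Gen_sum_u a ξ).le)
    (fun ξ => (Gen_sum_w hb ξ).le)

end Pool.Agent.Lib.MP_d81181_an
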