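import Pool.Agent.Lib.MP_d81181_an.Faith
import Pool.Agent.Lib.MP_d81181_an.Anti

/-! The locally compact quantum group. -/

open scoped Classical InnerProductSpace ComplexConjugate ENNReal
open ContinuousLinearMap Filter Topology

noncomputable section

namespace Pool.Agent.Lib.MP_d81181_an

/-- The right Haar weight. -/
def psi : (BH →L[ℂ] BH) → ℝ≥0∞ := vw fun j => JJ (eta j)

lemma psi_eq (x : BH →L[ℂ] BH) : psi x = phi (cp JJ x) :=
  tsum_congr fun j => by rw [inner_cp]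

theorem phi_nsf : IsNSFWeight MM phi where
  map_add _ _ _ _ hx hy := vw_add hx hy
  map_smul c _ _ hx := vw_smul c hx
  normal _ _ h := vw_normal h
  semifinite := by
    obtain ⟨p, h1, h2, h3, h4, h5⟩ := exists_phi_net
    exact vw_semifinite atTop p h1 h2 h3 h4 h5
  faithful _ hx h0 h := phi_faithful hx h0 h

theorem psi_nsf : IsNSFWeight MM psi where
  map_add _ _ _ _ hx hy := vw_add hx hy
  map_smul c _ _ hx := vw_smul c hx
  normal _ _ h := vw_normal h
  semifinite := by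
    obtain ⟨p, h1, h2, h3, h4, h5⟩ := exists_phi_net
    refine vw_semifinite atTop (fun F => cp JJ (p F)) (fun F => gam_mem (h1 F))
      (fun F => by rw [← cp_star, h2]) (fun F => by rw [← emb_JJ.cp_mul _ (h1 F), h3])
      (fun F => ?_) fun ξ => ?_
    · change psi (cp JJ (p F)) < ⊤
      rw [psi_eq, gam_gam (h1 F)]
      exact h4 F
    · have h6 : adjoint JJ (JJ ξ) = ξ := congrArg (fun Y : BH →L[ℂ] BH => Y ξ) emb_JJ.iso
      have h7 := ((adjoint JJ).continuous.tendsto (JJ ξ)).comp (h5 (JJ ξ))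
      rw [h6] at h7
      exact h7
  faithful x hx h0 h := by
    rw [psi_eq] at h
    have h1 := phi_faithful (gam_mem hx) (cp_nonneg JJ h0) h
    rw [← gam_gam hx, h1, cp_zero]

lemma haar_summable {ξ : ℕ → BH} (hξ : Summable fun n => ‖ξ n‖ ^ 2) (C : ℝ)
    (y : ℕ → BH →L[ℂ] BH) (hy : ∀ n, ‖y n‖ ≤ ‖ξ n‖ * (C * ‖ξ n‖)) : Summable y :=
  Summable.of_norm_bounded (hξ.mul_left C) fun n => (hy n).trans_eq (by ring)

lemma haar_tsum {ξ : ℕ → BH} (hξ : Summable fun n => ‖ξ n‖ ^ 2) (c : ℝ≥0∞) :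
    ∑' n, ENNReal.ofReal (‖ξ n‖ ^ 2) * c = ENNReal.ofReal (∑' n, ‖ξ n‖ ^ 2) * c := by
  rw [ENNReal.tsum_mul_right, ENNReal.ofReal_tsum_of_nonneg (fun n => sq_nonneg _) hξ]

lemma haar_psi_sliceR {x : BH →L[ℂ] BH} (hx : x ∈ MM) (h0 : 0 ≤ x) (hf : psi x < ⊤) (ξ : BH) :
    psi (sliceR ξ ξ (Delta x)) = ENNReal.ofReal (‖ξ‖ ^ 2) * psi x := by
  rw [psi_eq] at hf
  rw [psi_eq, psi_eq, gam_sliceR hx, phi_sliceL (gam_mem hx) (cp_nonneg JJ h0) hf, emb_JJ.norm]

theorem isLCQG : IsLCQG MM Delta phi psi where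
  map_mem _ hx := Delta_mem hx
  map_add x _ y _ := cp_add NN x y
  map_smul c x _ := cp_smul NN c x
  map_mul x _ _ hy := Delta_mul x hy
  map_star x _ := Delta_star x
  map_one := emb_NN.cp_one
  normal _ _ h := Delta_normal h
  coassoc _ hx := Delta_coassoc hx
  left_weight := phi_nsf
  right_weight := psi_nsf
  left_inv ξ hξ x hx h0 hf := by
    have h1 := vw_tsum (η := eta) (fun n => sliceL (ξ n) (ξ n) (Delta x))
      (fun n => cp_nonneg (tmL (ξ n)) (Delta_nonneg h0))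
      (haar_summable hξ ‖Delta x‖ _ fun n => norm_sliceL_le _ _ _)
    refine h1.trans (Eq.trans (tsum_congr fun n => ?_) (haar_tsum hξ _))
    exact phi_sliceL hx h0 hf (ξ n)
  right_inv ξ hξ x hx h0 hf := by
    have h1 := vw_tsum (η := fun j => JJ (eta j)) (fun n => sliceR (ξ n) (ξ n) (Delta x))
      (fun n => cp_nonneg (tmR (ξ n)) (Delta_nonneg h0))
      (haar_summable hξ ‖Delta x‖ _ fun n => norm_sliceR_le _ _ _)
    refine h1.trans (Eq.trans (tsum_congr fun n => ?_) (haar_tsum hξ _))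
    exact haar_psi_sliceR hx h0 hf (ξ n)

end Pool.Agent.Lib.MP_d81181_an
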