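import Pool.Agent.Lib.MP_d81181_an.Defs

/-! Hilbert space tools: tensor products, bases, operators from Gram data. -/

open scoped TensorProduct InnerProductSpace ComplexConjugate
open ContinuousLinearMap

noncomputable section

namespace Pool.Agent.Lib.MP_d81181_an

/-- Classical indicator of a proposition. -/
def ind (P : Prop) : ℝ := by classical exact if P then 1 else 0

lemma ind_of {P : Prop} (h : P) : ind P = 1 := by simp [ind, h]
lemma ind_of_not {P : Prop} (h : ¬ P) : ind P = 0 := by simp [ind, h]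
lemma ind_congr {P Q : Prop} (h : P ↔ Q) : ind P = ind Q := by rw [propext h]
lemma ind_and (P Q : Prop) : ind (P ∧ Q) = ind P * ind Q := by
  by_cases hP : P <;> by_cases hQ : Q <;> simp [ind, hP, hQ]
lemma ind_nonneg (P : Prop) : 0 ≤ ind P := by by_cases h : P <;> simp [ind, h]
lemma ind_ne_zero {P : Prop} (h : ind P ≠ 0) : P := by
  by_contra hP; exact h (ind_of_not hP)
lemma indC_ne_zero {P : Prop} (h : ((ind P : ℝ) : ℂ) ≠ 0) : P :=
  ind_ne_zero (by exact_mod_cast h)
@[simp] lemma ind_true : ind True = 1 := ind_of trivial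
@[simp] lemma ind_false : ind False = 0 := ind_of_not not_false

lemma sum_mul_ind {α : Type*} (s : Finset α) (F : α → ℝ) (e : α) (P : Prop) :
    ∑ k ∈ s, F k * ind (k = e ∧ P) = F e * ind (e ∈ s ∧ P) := by
  classical
  by_cases hP : P
  · by_cases he : e ∈ s
    · rw [Finset.sum_eq_single e]
      · simp [ind, hP, he]
      · intro b _ hb; simp [ind, hb]
      · intro h; exact absurd he h
    · rw [ind_of_not (by tauto), mul_zero]
      refine Finset.sum_eq_zero fun k hk => ?_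
      rw [ind_of_not, mul_zero]; rintro ⟨rfl, _⟩; exact he hk
  · simp [ind, hP]

lemma sum_mul_indC {α : Type*} (s : Finset α) (F : α → ℂ) (e : α) (P : Prop) :
    ∑ k ∈ s, F k * (ind (k = e ∧ P) : ℂ) = F e * (ind (e ∈ s ∧ P) : ℂ) := by
  classical
  by_cases hP : P
  · by_cases he : e ∈ s
    · rw [Finset.sum_eq_single e]
      · simp [ind, hP, he]
      · intro b _ hb; simp [ind, hb]
      · intro h; exact absurd he h
    · rw [ind_of_not (by tauto)]
      simp only [Complex.ofReal_zero, mul_zero]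
      refine Finset.sum_eq_zero fun k hk => ?_
      rw [ind_of_not]
      · simp
      · rintro ⟨rfl, _⟩; exact he hk
  · simp [ind, hP]

section tensor

variable {E F E' F' E'' F'' G : Type} [NormedAddCommGroup E] [InnerProductSpace ℂ E]
  [NormedAddCommGroup F] [InnerProductSpace ℂ F] [NormedAddCommGroup E'] [InnerProductSpace ℂ E']
  [NormedAddCommGroup F'] [InnerProductSpace ℂ F'] [NormedAddCommGroup E'']
  [InnerProductSpace ℂ E''] [NormedAddCommGroup F''] [InnerProductSpace ℂ F'']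
  [NormedAddCommGroup G] [InnerProductSpace ℂ G]

/-- The elementary tensor `ξ ⊗ η`. -/
def tm (ξ : E) (η : F) : HT E F :=
  ((ξ ⊗ₜ[ℂ] η : E ⊗[ℂ] F) : UniformSpace.Completion (E ⊗[ℂ] F))

@[simp] lemma tmL_apply (ξ : E) (η : F) : tmL ξ η = tm ξ η := rfl
@[simp] lemma tmR_apply (ξ : E) (η : F) : tmR η ξ = tm ξ η := rfl

lemma inner_tm (a c : E) (b d : F) : ⟪tm a b, tm c d⟫_ℂ = ⟪a, c⟫_ℂ * ⟪b, d⟫_ℂ :=
  (UniformSpace.Completion.inner_coe (𝕜 := ℂ) (a ⊗ₜ[ℂ] b) (c ⊗ₜ[ℂ] d)).trans
    (TensorProduct.inner_tmul ℂ a c b d)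

lemma norm_tm (a : E) (b : F) : ‖tm a b‖ = ‖a‖ * ‖b‖ :=
  (UniformSpace.Completion.norm_coe (a ⊗ₜ[ℂ] b)).trans (TensorProduct.norm_tmul a b)

lemma tm_add_left (a a' : E) (b : F) : tm (a + a') b = tm a b + tm a' b :=
  (tmR b).map_add a a'
lemma tm_add_right (a : E) (b b' : F) : tm a (b + b') = tm a b + tm a b' :=
  (tmL a).map_add b b'
lemma tm_smul_left (c : ℂ) (a : E) (b : F) : tm (c • a) b = c • tm a b := (tmR b).map_smul c a
lemma tm_smul_right (c : ℂ) (a : E) (b : F) : tm a (c • b) = c • tm a b := (tmL a).map_smul c b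
@[simp] lemma tm_zero_left (b : F) : tm (0 : E) b = 0 := (tmR b).map_zero
@[simp] lemma tm_zero_right (a : E) : tm a (0 : F) = 0 := (tmL a).map_zero
lemma tm_sum_left {α : Type*} (s : Finset α) (a : α → E) (b : F) :
    tm (∑ i ∈ s, a i) b = ∑ i ∈ s, tm (a i) b := map_sum (tmR b) a s
lemma tm_sum_right {α : Type*} (s : Finset α) (a : E) (b : α → F) :
    tm a (∑ i ∈ s, b i) = ∑ i ∈ s, tm a (b i) := map_sum (tmL a) b s

@[simp] lemma tens_tm (x : E →L[ℂ] E') (y : F →L[ℂ] F') (a : E) (b : F) :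
    tens x y (tm a b) = tm (x a) (y b) :=
  ContinuousLinearMap.completion_apply_coe (TensorProduct.mapL x y) (a ⊗ₜ[ℂ] b)

lemma HT_ext {S T : HT E F →L[ℂ] G} (h : ∀ a b, S (tm a b) = T (tm a b)) : S = T := by
  ext v
  refine UniformSpace.Completion.induction_on v
    (isClosed_eq S.continuous T.continuous) fun u => ?_
  induction u using TensorProduct.induction_on with
  | zero =>
    rw [UniformSpace.Completion.coe_zero]
    exact S.map_zero.trans T.map_zero.symm
  | tmul a b => exact h a b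
  | add u v hu hv =>
    rw [UniformSpace.Completion.coe_add]
    exact (S.map_add _ _).trans ((congrArg₂ (· + ·) hu hv).trans (T.map_add _ _).symm)

lemma HT_vec_ext {v w : HT E F} (h : ∀ a b, ⟪tm a b, v⟫_ℂ = ⟪tm a b, w⟫_ℂ) : v = w := by
  have h1 : innerSL ℂ v = innerSL ℂ w := HT_ext fun a b => by
    simp only [innerSL_apply_apply]
    rw [← inner_conj_symm, h a b, inner_conj_symm]
  refine ext_inner_right ℂ fun u => ?_
  simpa using congrArg (fun f => f u) h1

lemma tens_comp (x : E' →L[ℂ] E'') (y : F' →L[ℂ] F'') (x' : E →L[ℂ] E') (y' : F →L[ℂ] F') :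
    tens x y ∘L tens x' y' = tens (x ∘L x') (y ∘L y') := HT_ext fun a b => by simp

lemma tens_mul (x x' : E →L[ℂ] E) (y y' : F →L[ℂ] F) :
    tens x y * tens x' y' = tens (x * x') (y * y') := tens_comp _ _ _ _

lemma tens_one : tens (1 : E →L[ℂ] E) (1 : F →L[ℂ] F) = 1 := HT_ext fun a b => by simp

lemma tens_add_left (x x' : E →L[ℂ] E') (y : F →L[ℂ] F') :
    tens (x + x') y = tens x y + tens x' y := HT_ext fun a b => by simp [tm_add_left]
lemma tens_add_right (x : E →L[ℂ] E') (y y' : F →L[ℂ] F') :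
    tens x (y + y') = tens x y + tens x y' := HT_ext fun a b => by simp [tm_add_right]
lemma tens_smul_left (c : ℂ) (x : E →L[ℂ] E') (y : F →L[ℂ] F') :
    tens (c • x) y = c • tens x y := HT_ext fun a b => by simp [tm_smul_left]
lemma tens_smul_right (c : ℂ) (x : E →L[ℂ] E') (y : F →L[ℂ] F') :
    tens x (c • y) = c • tens x y := HT_ext fun a b => by simp [tm_smul_right]
@[simp] lemma tens_zero_left (y : F →L[ℂ] F') : tens (0 : E →L[ℂ] E') y = 0 :=
  HT_ext fun a b => by simp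
@[simp] lemma tens_zero_right (x : E →L[ℂ] E') : tens x (0 : F →L[ℂ] F') = 0 :=
  HT_ext fun a b => by simp
lemma tens_sum_left {α : Type*} (s : Finset α) (x : α → E →L[ℂ] E') (y : F →L[ℂ] F') :
    tens (∑ i ∈ s, x i) y = ∑ i ∈ s, tens (x i) y :=
  HT_ext fun a b => by simp [tm_sum_left]
lemma tens_sum_right {α : Type*} (s : Finset α) (x : E →L[ℂ] E') (y : α → F →L[ℂ] F') :
    tens x (∑ i ∈ s, y i) = ∑ i ∈ s, tens x (y i) :=
  HT_ext fun a b => by simp [tm_sum_right]

lemma adjoint_tens [CompleteSpace E] [CompleteSpace F] [CompleteSpace E'] [CompleteSpace F']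
    (x : E →L[ℂ] E') (y : F →L[ℂ] F') :
    adjoint (tens x y) = tens (adjoint x) (adjoint y) :=
  HT_ext fun a b => HT_vec_ext fun c d => by
    rw [adjoint_inner_right, tens_tm, tens_tm, inner_tm, inner_tm, adjoint_inner_right,
      adjoint_inner_right]

lemma star_tens [CompleteSpace E] [CompleteSpace F] (x : E →L[ℂ] E) (y : F →L[ℂ] F) :
    star (tens x y) = tens (star x) (star y) := adjoint_tens x y

lemma adjoint_tmL_tm [CompleteSpace F] (a' a : E) (b : F) :
    adjoint (tmL a' : F →L[ℂ] HT E F) (tm a b) = ⟪a', a⟫_ℂ • b :=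
  ext_inner_left ℂ fun c => by
    rw [adjoint_inner_right, tmL_apply, inner_tm, inner_smul_right]

lemma adjoint_tmR_tm [CompleteSpace E] (a : E) (b' b : F) :
    adjoint (tmR b' : E →L[ℂ] HT E F) (tm a b) = ⟪b', b⟫_ℂ • a :=
  ext_inner_left ℂ fun c => by
    rw [adjoint_inner_right, tmR_apply, inner_tm, inner_smul_right, mul_comm]

lemma inner_sliceL [CompleteSpace F] (a' a : E) (X : HT E F →L[ℂ] HT E F) (b' b : F) :
    ⟪b', sliceL a' a X b⟫_ℂ = ⟪tm a' b', X (tm a b)⟫_ℂ := by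
  simp [sliceL, adjoint_inner_right]

lemma inner_sliceR [CompleteSpace E] (b' b : F) (X : HT E F →L[ℂ] HT E F) (a' a : E) :
    ⟪a', sliceR b' b X a⟫_ℂ = ⟪tm a' b', X (tm a b)⟫_ℂ := by
  simp [sliceR, adjoint_inner_right]

lemma norm_tmL_le (a : E) : ‖(tmL a : F →L[ℂ] HT E F)‖ ≤ ‖a‖ :=
  opNorm_le_bound _ (norm_nonneg _) fun b => by simp [norm_tm]

lemma norm_tmR_le (b : F) : ‖(tmR b : E →L[ℂ] HT E F)‖ ≤ ‖b‖ :=
  opNorm_le_bound _ (norm_nonneg _) fun a => by simp [norm_tm, mul_comm]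

lemma norm_sliceL_le [CompleteSpace F] (a' a : E) (X : HT E F →L[ℂ] HT E F) :
    ‖sliceL a' a X‖ ≤ ‖a'‖ * (‖X‖ * ‖a‖) := by
  refine (opNorm_comp_le _ _).trans (mul_le_mul ?_ ?_ (norm_nonneg _) (norm_nonneg _))
  · rw [LinearIsometryEquiv.norm_map]; exact norm_tmL_le _
  · exact (opNorm_comp_le _ _).trans (mul_le_mul_of_nonneg_left (norm_tmL_le _) (norm_nonneg _))

lemma norm_sliceR_le [CompleteSpace E] (b' b : F) (X : HT E F →L[ℂ] HT E F) :
    ‖sliceR b' b X‖ ≤ ‖b'‖ * (‖X‖ * ‖b‖) := by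
  refine (opNorm_comp_le _ _).trans (mul_le_mul ?_ ?_ (norm_nonneg _) (norm_nonneg _))
  · rw [LinearIsometryEquiv.norm_map]; exact norm_tmR_le _
  · exact (opNorm_comp_le _ _).trans (mul_le_mul_of_nonneg_left (norm_tmR_le _) (norm_nonneg _))

/-- A slice of an operator commuting with `1 ⊗ T` commutes with `T`. -/
lemma sliceL_comm [CompleteSpace E] [CompleteSpace F] (a' a : E) (X : HT E F →L[ℂ] HT E F)
    (T : F →L[ℂ] F) (h : tens 1 T * X = X * tens 1 T) :
    T * sliceL a' a X = sliceL a' a X * T := by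
  ext b
  refine ext_inner_left ℂ fun b' => ?_
  have h1 := congrArg (fun Y => ⟪tm a' b', Y (tm a b)⟫_ℂ) h
  simp only [mul_apply_eq_comp, tens_tm, one_apply_eq_self] at h1
  rw [mul_apply_eq_comp, mul_apply_eq_comp, ← adjoint_inner_left,
    inner_sliceL, inner_sliceL, ← h1, ← adjoint_inner_left (tens 1 T), adjoint_tens, tens_tm]
  simp

lemma sliceR_comm [CompleteSpace E] [CompleteSpace F] (b' b : F) (X : HT E F →L[ℂ] HT E F)
    (T : E →L[ℂ] E) (h : tens T 1 * X = X * tens T 1) :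
    T * sliceR b' b X = sliceR b' b X * T := by
  ext a
  refine ext_inner_left ℂ fun a' => ?_
  have h1 := congrArg (fun Y => ⟪tm a' b', Y (tm a b)⟫_ℂ) h
  simp only [mul_apply_eq_comp, tens_tm, one_apply_eq_self] at h1
  rw [mul_apply_eq_comp, mul_apply_eq_comp, ← adjoint_inner_left,
    inner_sliceR, inner_sliceR, ← h1, ← adjoint_inner_left (tens T 1), adjoint_tens, tens_tm]
  simp

/-- The flip `ξ ⊗ η ↦ η ⊗ ξ`. -/
def flipHT : HT E F →L[ℂ] HT F E :=
  ((TensorProduct.commIsometry ℂ E F).toContinuousLinearEquiv :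
    E ⊗[ℂ] F →L[ℂ] F ⊗[ℂ] E).completion

@[simp] lemma flipHT_tm (a : E) (b : F) : flipHT (tm a b) = tm b a :=
  ContinuousLinearMap.completion_apply_coe _ (a ⊗ₜ[ℂ] b)

end tensor

section basis

variable {E F F' : Type} [NormedAddCommGroup E] [InnerProductSpace ℂ E]
  [NormedAddCommGroup F] [InnerProductSpace ℂ F] [NormedAddCommGroup F'] [InnerProductSpace ℂ F']
  {ι κ : Type}

lemma basis_ext (b : HilbertBasis ι ℂ E) {S T : E →L[ℂ] F} (h : ∀ i, S (b i) = T (b i)) :
    S = T := by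
  refine ContinuousLinearMap.ext_on (s := Set.range b) ?_ ?_
  · rw [Submodule.dense_iff_topologicalClosure_eq_top]; exact b.dense_span
  · rintro _ ⟨i, rfl⟩; exact h i

lemma basis_vec_ext (b : HilbertBasis ι ℂ E) {v w : E} (h : ∀ i, ⟪b i, v⟫_ℂ = ⟪b i, w⟫_ℂ) :
    v = w := by
  apply b.repr.injective
  ext i
  rw [b.repr_apply_apply, b.repr_apply_apply, h]

lemma inner_basis (b : HilbertBasis ι ℂ E) (i j : ι) : ⟪b i, b j⟫_ℂ = (ind (i = j) : ℂ) := by
  classical
  rw [orthonormal_iff_ite.mp b.orthonormal]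
  by_cases h : i = j <;> simp [ind, h]

lemma exists_op_of_orthonormal [CompleteSpace F] (b : HilbertBasis ι ℂ E) (v : ι → F)
    (h : ∀ i j, ⟪v i, v j⟫_ℂ = (ind (i = j) : ℂ)) : ∃ T : E →L[ℂ] F, ∀ i, T (b i) = v i := by
  classical
  have hv : Orthonormal ℂ v := orthonormal_iff_ite.mpr fun i j => by
    rw [h]; by_cases hij : i = j <;> simp [ind, hij]
  refine ⟨hv.orthogonalFamily.linearIsometry.toContinuousLinearMap ∘L
    (b.repr.toContinuousLinearEquiv : E →L[ℂ] _), fun i => ?_⟩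
  simp [b.repr_self, OrthogonalFamily.linearIsometry_apply_single]

/-- A family whose Gram kernel is dominated (through a complementary family) by the identity
defines a bounded operator. -/
lemma exists_op [CompleteSpace F] [CompleteSpace F'] (b : HilbertBasis ι ℂ E) (v : ι → F)
    (v' : ι → F') (h : ∀ i j, ⟪v i, v j⟫_ℂ + ⟪v' i, v' j⟫_ℂ = (ind (i = j) : ℂ)) :
    ∃ T : E →L[ℂ] F, ∀ i, T (b i) = v i := by
  obtain ⟨T, hT⟩ := exists_op_of_orthonormal (F := WithLp 2 (F × F')) b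
    (fun i => WithLp.toLp 2 (v i, v' i)) (fun i j => by simpa using h i j)
  refine ⟨(ContinuousLinearMap.fst ℂ F F' ∘L
    (WithLp.prodContinuousLinearEquiv 2 ℂ F F' : WithLp 2 (F × F') →L[ℂ] F × F')) ∘L T,
    fun i => ?_⟩
  simp [hT]

/-- The tensor product of two Hilbert bases. -/
def tensBasis [CompleteSpace E] [CompleteSpace F] (b : HilbertBasis ι ℂ E)
    (b' : HilbertBasis κ ℂ F) : HilbertBasis (ι × κ) ℂ (HT E F) :=
  HilbertBasis.mkOfOrthogonalEqBot (v := fun p => tm (b p.1) (b' p.2))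
    (by
      classical
      refine orthonormal_iff_ite.mpr fun p q => ?_
      rw [inner_tm, inner_basis, inner_basis]
      by_cases h1 : p.1 = q.1 <;> by_cases h2 : p.2 = q.2 <;> simp [ind, h1, h2, Prod.ext_iff])
    (by
      rw [Submodule.eq_bot_iff]
      intro v hv
      have h0 : ∀ i j, ⟪tm (b i) (b' j), v⟫_ℂ = 0 := fun i j =>
        (Submodule.mem_orthogonal _ _).mp hv _ (Submodule.subset_span ⟨(i, j), rfl⟩)
      refine HT_vec_ext fun a c => ?_
      rw [inner_zero_right]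
      have h1 : ∀ i, adjoint (tmL (b i) : F →L[ℂ] HT E F) v = 0 := fun i =>
        basis_vec_ext b' fun j => by rw [adjoint_inner_right, tmL_apply, h0, inner_zero_right]
      have h2 : adjoint (tmR c : E →L[ℂ] HT E F) v = 0 :=
        basis_vec_ext b fun i => by
          rw [adjoint_inner_right, tmR_apply, ← tmL_apply, ← adjoint_inner_right, h1,
            inner_zero_right, inner_zero_right]
      rw [← tmR_apply, ← adjoint_inner_right, h2, inner_zero_right])

@[simp] lemma tensBasis_apply [CompleteSpace E] [CompleteSpace F] (b : HilbertBasis ι ℂ E)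
    (b' : HilbertBasis κ ℂ F) (p : ι × κ) : tensBasis b b' p = tm (b p.1) (b' p.2) := by
  simp [tensBasis]

/-- `ℓ²(ι)`. -/
abbrev L2 (ι : Type) : Type := lp (fun _ : ι => ℂ) 2

/-- The standard Hilbert basis of `ℓ²(ι)`. -/
def eb (ι : Type) : HilbertBasis ι ℂ (L2 ι) := default

/-- Basis vector of `ℓ²` of a subtype, indexed by the ambient type (zero off the subtype). -/
def bvec {R : Type} (P : R → Prop) (r : R) : L2 {r // P r} := by
  classical exact if h : P r then eb _ ⟨r, h⟩ else 0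

lemma bvec_of {R : Type} {P : R → Prop} {r : R} (h : P r) : bvec P r = eb _ ⟨r, h⟩ := by
  simp [bvec, h]

lemma bvec_of_not {R : Type} {P : R → Prop} {r : R} (h : ¬ P r) : bvec P r = 0 := by
  simp [bvec, h]

lemma inner_bvec {R : Type} (P : R → Prop) (r' r : R) :
    ⟪bvec P r', bvec P r⟫_ℂ = (ind (r' = r ∧ P r) : ℂ) := by
  by_cases h : P r
  · by_cases h' : P r'
    · rw [bvec_of h, bvec_of h', inner_basis]
      congr 1
      exact ind_congr (by simp [h])
    · rw [bvec_of_not h', inner_zero_left, ind_of_not]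
      · simp
      · rintro ⟨rfl, _⟩; exact h' h
  · rw [bvec_of_not h, inner_zero_right, ind_of_not (by tauto)]; simp

lemma bvec_ext {R : Type} {P : R → Prop} {S T : L2 {r // P r} →L[ℂ] F}
    (h : ∀ r, P r → S (bvec P r) = T (bvec P r)) : S = T :=
  basis_ext (eb _) fun i => by simpa [bvec_of i.2] using h i.1 i.2

lemma bvec_vec_ext {R : Type} {P : R → Prop} {v w : L2 {r // P r}}
    (h : ∀ r, P r → ⟪bvec P r, v⟫_ℂ = ⟪bvec P r, w⟫_ℂ) : v = w :=
  basis_vec_ext (eb _) fun i => by simpa [bvec_of i.2] using h i.1 i.2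

/-- The coefficient of a finite combination of basis vectors. -/
lemma inner_bvec_sum {R : Type} (P : R → Prop) (S : Finset R) (c : R → ℂ) (r : R) :
    ⟪bvec P r, ∑ q ∈ S, c q • bvec P q⟫_ℂ = c r * (ind (r ∈ S ∧ P r) : ℂ) := by
  rw [inner_sum, ← sum_mul_indC]
  refine Finset.sum_congr rfl fun q _ => ?_
  rw [inner_smul_right, inner_bvec]
  congr 2
  exact ind_congr ⟨fun ⟨h1, h2⟩ => ⟨h1.symm, h1 ▸ h2⟩, fun ⟨h1, h2⟩ => ⟨h1.symm, h1 ▸ h2⟩⟩

/-- A vector with finitely many nonzero coefficients is the corresponding finite sum. -/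
lemma bvec_expand {R : Type} {P : R → Prop} (v : L2 {r // P r}) (S : Finset R)
    (h : ∀ r, P r → r ∉ S → ⟪bvec P r, v⟫_ℂ = 0) :
    v = ∑ q ∈ S, ⟪bvec P q, v⟫_ℂ • bvec P q := by
  refine bvec_vec_ext fun r hr => ?_
  rw [inner_bvec_sum]
  by_cases hS : r ∈ S
  · rw [ind_of ⟨hS, hr⟩]; simp
  · rw [h r hr hS]; simp

lemma exists_op_bvec [CompleteSpace F] [CompleteSpace F'] {R : Type} (P : R → Prop) (v : R → F)
    (v' : R → F')
    (h : ∀ r q, P r → P q → ⟪v r, v q⟫_ℂ + ⟪v' r, v' q⟫_ℂ = (ind (r = q) : ℂ)) :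
    ∃ T : L2 {r // P r} →L[ℂ] F, ∀ r, P r → T (bvec P r) = v r := by
  obtain ⟨T, hT⟩ := exists_op (eb {r // P r}) (fun i => v i.1) (fun i => v' i.1) fun i j => by
    rw [h _ _ i.2 j.2]; congr 1; exact ind_congr Subtype.ext_iff.symm
  exact ⟨T, fun r hr => by rw [bvec_of hr, hT]⟩

end basis

end Pool.Agent.Lib.MP_d81181_an
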