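import Pool.Agent.Lib.MP_d81181_an.LeafV

/-! The embedding of the leaf of a composite. -/

open scoped Classical InnerProductSpace ComplexConjugate
open ContinuousLinearMap

noncomputable section

namespace Pool.Agent.Lib.MP_d81181_an

open Conn

lemma iota_LV {B C : Conn} {s t : St} {g : B.E} {e : C.E} :
    LV (comp B C) (s, (g, e), t) ↔
      (B.valid g ∧ C.valid e ∧ B.src g = C.tgt e) ∧ sz s = B.tgt g ∧ sz t = C.src e := by
  rw [← comp_valid]; rfl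

/-- The image of a basis vector. -/
def iota_v (B C : Conn) (s : St) (g : B.E) (e : C.E) (t : St) : HT (HL B) (HL C) :=
  ((Real.sqrt (B.src g + 1) : ℂ))⁻¹ • ∑ u ∈ lev (B.src g), tm (bv B s g u) (bv C u e t)

lemma iota_vec_ext {B C : Conn} {v w : HT (HL B) (HL C)}
    (h : ∀ s g u u' e t, LV B (s, g, u) → LV C (u', e, t) →
      ⟪tm (bv B s g u) (bv C u' e t), v⟫_ℂ = ⟪tm (bv B s g u) (bv C u' e t), w⟫_ℂ) : v = w := by
  refine basis_vec_ext (tensBasis (eb _) (eb _)) fun p => ?_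
  rw [tensBasis_apply]
  have := h p.1.1.1 p.1.1.2.1 p.1.1.2.2 p.2.1.1 p.2.1.2.1 p.2.1.2.2 p.1.2 p.2.2
  simpa only [bv, Prod.mk.eta, bvec_of p.1.2, bvec_of p.2.2, Subtype.coe_eta] using this

lemma iota_inner {B C : Conn} {s t : St} {g : B.E} {e : C.E}
    (hp : LV (comp B C) (s, (g, e), t)) (s' u' u'' t' : St) (g' : B.E) (e' : C.E) :
    ⟪tm (bv B s' g' u') (bv C u'' e' t'), iota_v B C s g e t⟫_ℂ =
      ((Real.sqrt (B.src g + 1) : ℂ))⁻¹ *
        (ind ((s' = s ∧ g' = g ∧ e' = e ∧ t' = t) ∧ u' = u'' ∧ sz u' = B.src g) : ℂ) := by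
  obtain ⟨⟨hg, he, hge⟩, hs, ht⟩ := iota_LV.mp hp
  rw [iota_v, inner_smul_right, inner_sum]
  congr 1
  have : ∀ u ∈ lev (B.src g), ⟪tm (bv B s' g' u') (bv C u'' e' t'), tm (bv B s g u) (bv C u e t)⟫_ℂ
      = 1 * (ind (u = u' ∧ (s' = s ∧ g' = g ∧ e' = e ∧ t' = t) ∧ u' = u'') : ℂ) := fun u hu => by
    have hu' := mem_lev.mp hu
    rw [inner_tm, inner_bv, inner_bv, one_mul, ← Complex.ofReal_mul, ← ind_and]
    congr 1
    refine ind_congr ⟨?_, ?_⟩
    · rintro ⟨⟨⟨h1, h2, h3⟩, -⟩, ⟨h4, h5, h6⟩, -⟩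
      exact ⟨h3.symm, ⟨h1, h2, h5, h6⟩, h3.trans h4.symm⟩
    · rintro ⟨h1, ⟨h2, h3, h4, h5⟩, h6⟩
      exact ⟨⟨⟨h2, h3, h1.symm⟩, hg, hs, hu'⟩, ⟨h6.symm.trans h1.symm, h4, h5⟩, he,
        hu'.trans hge, ht⟩
  rw [Finset.sum_congr rfl this, sum_mul_indC _ (fun _ => (1 : ℂ)), one_mul]
  congr 1
  refine ind_congr ?_
  rw [mem_lev]
  tauto

lemma iota_sqrt_sq (n : ℕ) :
    ((Real.sqrt (n + 1) : ℂ))⁻¹ * (((n + 1 : ℕ) : ℂ) * ((Real.sqrt (n + 1) : ℂ))⁻¹) = 1 := by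
  have h0 : (0 : ℝ) < n + 1 := by positivity
  have h1 : Real.sqrt (n + 1) ≠ 0 := (Real.sqrt_pos.mpr h0).ne'
  have h2 : ((n + 1 : ℕ) : ℝ) = Real.sqrt (n + 1) * Real.sqrt (n + 1) := by
    rw [Real.mul_self_sqrt h0.le]; push_cast; ring
  have h3 : (Real.sqrt (n + 1))⁻¹ * (((n + 1 : ℕ) : ℝ) * (Real.sqrt (n + 1))⁻¹) = 1 := by
    rw [h2]; field_simp
  exact_mod_cast h3

lemma iota_gram {B C : Conn} {s t s' t' : St} {g g' : B.E} {e e' : C.E}
    (hp : LV (comp B C) (s, (g, e), t)) :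
    ⟪iota_v B C s' g' e' t', iota_v B C s g e t⟫_ℂ =
      (ind (s' = s ∧ g' = g ∧ e' = e ∧ t' = t) : ℂ) := by
  rw [iota_v, inner_smul_left, sum_inner]
  simp only [iota_inner hp]
  by_cases h : s' = s ∧ g' = g ∧ e' = e ∧ t' = t
  · obtain ⟨rfl, rfl, rfl, rfl⟩ := h
    have : ∀ u ∈ lev (B.src g'), ((Real.sqrt (B.src g' + 1) : ℂ))⁻¹ *
        (ind ((s' = s' ∧ g' = g' ∧ e' = e' ∧ t' = t') ∧ True ∧ sz u = B.src g') : ℂ) =
        ((Real.sqrt (B.src g' + 1) : ℂ))⁻¹ := fun u hu => by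
      rw [ind_of ⟨⟨rfl, rfl, rfl, rfl⟩, trivial, mem_lev.mp hu⟩]; simp
    rw [Finset.sum_congr rfl this, Finset.sum_const, card_lev, ind_of ⟨rfl, rfl, rfl, rfl⟩,
      map_inv₀, Complex.conj_ofReal, nsmul_eq_mul, iota_sqrt_sq]
    simp
  · rw [ind_of_not h, Finset.sum_eq_zero]
    · simp
    · intro u _
      rw [ind_of_not (fun h' => h h'.1)]; simp

lemma iota_adjoint {B C : Conn} {I : HL (comp B C) →L[ℂ] HT (HL B) (HL C)}
    (hI : ∀ s g e t, LV (comp B C) (s, (g, e), t) →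
      I (bv (comp B C) s (g, e) t) = iota_v B C s g e t)
    {s u u' t : St} {g : B.E} {e : C.E} (h1 : LV B (s, g, u)) :
    adjoint I (tm (bv B s g u) (bv C u' e t)) =
      (((Real.sqrt (B.src g + 1) : ℂ))⁻¹ * (ind (u = u') : ℂ)) • bv (comp B C) s (g, e) t := by
  refine bv_vec_ext fun s₁ p t₁ hp => ?_
  obtain ⟨g₁, e₁⟩ := p
  rw [adjoint_inner_right, hI _ _ _ _ hp, ← inner_conj_symm, iota_inner hp, inner_smul_right,
    inner_bv, map_mul, map_inv₀, Complex.conj_ofReal, Complex.conj_ofReal]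
  by_cases h : s = s₁ ∧ g = g₁ ∧ e = e₁ ∧ t = t₁
  · obtain ⟨rfl, rfl, rfl, rfl⟩ := h
    rw [mul_assoc, ← Complex.ofReal_mul, ← ind_and]
    congr 2
    refine ind_congr ⟨?_, ?_⟩
    · rintro ⟨-, h, -⟩; exact ⟨h, ⟨rfl, rfl, rfl⟩, hp⟩
    · rintro ⟨h, -⟩; exact ⟨⟨rfl, rfl, rfl, rfl⟩, h, h1.2.2⟩
  · rw [ind_of_not (fun h' => h h'.1), ind_of_not (P := (s₁ = s ∧ _ ∧ t₁ = t) ∧ _)]
    · simp
    · rintro ⟨⟨h2, h3, h4⟩, -⟩
      exact h ⟨h2.symm, (Prod.mk.inj h3).1.symm, (Prod.mk.inj h3).2.symm, h4.symm⟩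

/-- The real identity behind the intertwining relation. -/
lemma iota_key {B C : Conn} (α β : Fin 2) {s t s' u' u'' t' : St} {g g' : B.E} {e e' : C.E}
    (hp : LV (comp B C) (s, (g, e), t)) (h1 : LV B (s', g', u')) (h2 : LV C (u'', e', t')) :
    (Real.sqrt (B.src g + 1))⁻¹ * ∑ u ∈ lev (B.src g), ∑ γ,
      Vk B γ β (s', g', u') (s, g, u) * Vk C α γ (u'', e', t') (u, e, t) =
    (Real.sqrt (B.src g' + 1))⁻¹ * ind (u' = u'') *
      Vk (comp B C) α β (s', (g', e'), t') (s, (g, e), t) := by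
  obtain ⟨⟨hg, he, hge⟩, hs, ht⟩ := iota_LV.mp hp
  have hu' : sz u' = B.src g' := h1.2.2
  have hsum : ∑ u ∈ lev (B.src g), ∑ γ,
      Vk B γ β (s', g', u') (s, g, u) * Vk C α γ (u'', e', t') (u, e, t) =
      (∑ γ, ∑ u ∈ lev (B.src g), A u' u γ * A u'' u γ) *
        (A s' s β * A t' t α * (B.x g' g * C.x e' e) /
          (Real.sqrt ((sz s + 1) * (sz u' + 1)) * Real.sqrt ((B.src g + 1) * (sz t' + 1)))) := by
    rw [Finset.sum_comm, Finset.sum_mul]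
    refine Finset.sum_congr rfl fun γ _ => ?_
    rw [Finset.sum_mul]
    refine Finset.sum_congr rfl fun u hu => ?_
    simp only [Vk]
    rw [mem_lev.mp hu]
    ring
  rw [hsum, A2]
  by_cases huu : u' = u''
  · subst huu
    have hge' : B.src g' = C.tgt e' := hu'.symm.trans h2.2.1
    have hx : (comp B C).x (g', e') (g, e) = B.x g' g * C.x e' e := by
      change ind (B.src g' = C.tgt e') * ind (B.src g = C.tgt e) * (B.x g' g * C.x e' e) = _
      rw [ind_of hge', ind_of hge]; ring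
    simp only [Vk]
    rw [hx]
    by_cases hB : B.x g' g = 0
    · simp [hB]
    · have hadj : Adj (B.src g) (sz u') := by rw [hu']; exact (B.x_supp' hB).2.2.1.symm
      rw [ind_of ⟨trivial, hadj⟩, ind_true, ← hu']
      have ha : (0 : ℝ) < sz s + 1 := by positivity
      have hb : (0 : ℝ) < B.src g + 1 := by positivity
      have hc : (0 : ℝ) < sz u' + 1 := by positivity
      have hd : (0 : ℝ) < sz t' + 1 := by positivity
      rw [Real.sqrt_mul ha.le, Real.sqrt_mul hb.le, Real.sqrt_mul ha.le]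
      have ha' := (Real.sqrt_pos.mpr ha).ne'
      have hb' := (Real.sqrt_pos.mpr hb).ne'
      have hc' := (Real.sqrt_pos.mpr hc).ne'
      have hd' := (Real.sqrt_pos.mpr hd).ne'
      have hbb := Real.mul_self_sqrt hb.le
      generalize Real.sqrt (sz s + 1) = a at *
      generalize Real.sqrt (B.src g + 1) = b at *
      generalize Real.sqrt (sz u' + 1) = c at *
      generalize Real.sqrt (sz t' + 1) = d at *
      rw [← hbb]
      field_simp
  · rw [ind_of_not huu, ind_of_not (fun h => huu h.1)]; simp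

/-- The leaf of a composite embeds in the tensor product of the leaves. -/
theorem exists_iota (B C : Conn) : ∃ I : HL (comp B C) →L[ℂ] HT (HL B) (HL C),
    adjoint I ∘L I = 1 ∧ Intw (VL (comp B C)) (node (VL B) (VL C)) I ∧
    ∀ s g e t, LV (comp B C) (s, (g, e), t) → I (bv (comp B C) s (g, e) t) =
      ((Real.sqrt (B.src g + 1) : ℂ))⁻¹ • ∑ u ∈ lev (B.src g), tm (bv B s g u) (bv C u e t) := by
  obtain ⟨I, hI0⟩ := exists_op_bvec (F' := ℂ) (LV (comp B C))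
    (fun p => iota_v B C p.1 p.2.1.1 p.2.1.2 p.2.2) (fun _ => 0) (fun r q _ hq => by
      obtain ⟨s', ⟨g', e'⟩, t'⟩ := r
      obtain ⟨s, ⟨g, e⟩, t⟩ := q
      rw [iota_gram hq, inner_zero_left, add_zero]
      congr 1
      refine ind_congr ⟨?_, ?_⟩
      · rintro ⟨rfl, rfl, rfl, rfl⟩; rfl
      · intro h
        obtain ⟨h1, h2⟩ := Prod.mk.inj h
        obtain ⟨h3, h4⟩ := Prod.mk.inj h2
        exact ⟨h1, (Prod.mk.inj h3).1, (Prod.mk.inj h3).2, h4⟩)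
  have hI : ∀ s g e t, LV (comp B C) (s, (g, e), t) →
      I (bv (comp B C) s (g, e) t) = iota_v B C s g e t := fun s g e t h => hI0 _ h
  refine ⟨I, ?_, ?_, hI⟩
  · refine bv_ext fun s p t hp => bv_vec_ext fun s' p' t' hp' => ?_
    obtain ⟨g, e⟩ := p
    obtain ⟨g', e'⟩ := p'
    rw [comp_apply, adjoint_inner_right, hI _ _ _ _ hp, hI _ _ _ _ hp', iota_gram hp,
      one_apply_eq_self, inner_bv]
    congr 1
    refine ind_congr ⟨?_, ?_⟩
    · rintro ⟨rfl, rfl, rfl, rfl⟩; exact ⟨⟨rfl, rfl, rfl⟩, hp⟩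
    · rintro ⟨⟨h1, h2, h3⟩, -⟩
      exact ⟨h1, (Prod.mk.inj h2).1, (Prod.mk.inj h2).2, h3⟩
  · intro α β
    refine bv_ext fun s p t hp => iota_vec_ext fun s' g' u' u'' e' t' h1 h2 => ?_
    obtain ⟨g, e⟩ := p
    obtain ⟨⟨hg, he, hge⟩, hs, ht⟩ := iota_LV.mp hp
    have hL : ⟪tm (bv B s' g' u') (bv C u'' e' t'),
        (node (VL B) (VL C) α β ∘L I) (bv (comp B C) s (g, e) t)⟫_ℂ =
        (((Real.sqrt (B.src g + 1))⁻¹ * ∑ u ∈ lev (B.src g), ∑ γ,
          Vk B γ β (s', g', u') (s, g, u) * Vk C α γ (u'', e', t') (u, e, t) : ℝ) : ℂ) := by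
      rw [comp_apply, hI _ _ _ _ hp, iota_v, map_smul, map_sum, inner_smul_right, inner_sum]
      push_cast
      congr 1
      refine Finset.sum_congr rfl fun u hu => ?_
      have hu' := mem_lev.mp hu
      rw [node_tm, inner_sum]
      refine Finset.sum_congr rfl fun γ _ => ?_
      rw [inner_tm, bv, bv, bv, bv, inner_VL B γ β h1 (p := (s, g, u)) ⟨hg, hs, hu'⟩,
        inner_VL C α γ h2 (p := (u, e, t)) ⟨he, hu'.trans hge, ht⟩]
    rw [hL, iota_key α β hp h1 h2, comp_apply, ← adjoint_inner_left, iota_adjoint hI h1,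
      inner_smul_left, map_mul, map_inv₀, Complex.conj_ofReal, Complex.conj_ofReal]
    by_cases huu : u' = u''
    · subst huu
      have hq : LV (comp B C) (s', (g', e'), t') :=
        iota_LV.mpr ⟨⟨h1.1, h2.1, h1.2.2.symm.trans h2.2.1⟩, h1.2.1, h2.2.2⟩
      rw [bv, bv, inner_VL (comp B C) α β hq hp]
      push_cast
      ring
    · rw [ind_of_not huu]; simp

end Pool.Agent.Lib.MP_d81181_an
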