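import Pool.Agent.Lib.MP_d81181_an.LeafV
import Pool.Agent.Lib.MP_d81181_an.Hex

/-! The leaf of `X ∘ Z`. -/

open scoped Classical InnerProductSpace ComplexConjugate
open ContinuousLinearMap

noncomputable section

namespace Pool.Agent.Lib.MP_d81181_an

open Conn

lemma lop_LV (Z : Conn) (s : St) (m c : ℕ) (e : Z.E) (t : St) :
    LV (comp cX Z) (s, (((m, c) : ℕ × ℕ), e), t) ↔
      Adj m c ∧ Z.valid e ∧ m = Z.tgt e ∧ sz s = c ∧ sz t = Z.src e := by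
  have h1 := comp_valid cX Z ((m, c) : ℕ × ℕ) e
  have h2 : cX.valid ((m, c) : ℕ × ℕ) ↔ Adj m c := letter_valid le_rfl m c
  rw [h2] at h1
  change (comp cX Z).valid (((m, c) : ℕ × ℕ), e) ∧ sz s = c ∧ sz t = Z.src e ↔ _
  rw [h1]
  change (Adj m c ∧ Z.valid e ∧ m = Z.tgt e) ∧ _ ↔ _
  tauto

/-- The columns of the Clebsch-Gordan maps. -/
def lopV (Z : Conn) (γ : Fin 2) (s : St) (m : ℕ) (e : Z.E) (t : St) : HL Z :=
  ∑ s₀ ∈ lev m, ((A s s₀ γ / Real.sqrt (m + 1) : ℝ) : ℂ) • bv Z s₀ e t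

lemma lop_coef (Z : Conn) (γ : Fin 2) (s : St) (e : Z.E) (t : St) {s' : St} {e' : Z.E} {t' : St}
    (h : LV Z (s', e', t')) :
    ⟪bv Z s' e' t', lopV Z γ s (Z.tgt e) e t⟫_ℂ =
      ((A s s' γ / Real.sqrt (Z.tgt e + 1) * ind (e' = e ∧ t' = t) : ℝ) : ℂ) := by
  rw [lopV, inner_sum]
  by_cases hc : e' = e ∧ t' = t
  · obtain ⟨rfl, rfl⟩ := hc
    rw [Finset.sum_eq_single s']
    · rw [inner_smul_right, inner_bv, ind_of ⟨⟨rfl, rfl, rfl⟩, h⟩, ind_of ⟨rfl, rfl⟩]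
      simp
    · intro b _ hb
      rw [inner_smul_right, inner_bv, ind_of_not fun h' => hb h'.1.1.symm]
      simp
    · intro h'
      exact absurd (mem_lev.mpr h.2.1) h'
  · rw [ind_of_not hc, mul_zero, Complex.ofReal_zero]
    refine Finset.sum_eq_zero fun b _ => ?_
    rw [inner_smul_right, inner_bv, ind_of_not fun h' => hc h'.1.2]
    simp

lemma lop_gram (Z : Conn) (p q : Raw (comp cX Z)) (hp : LV _ p) (hq : LV _ q) :
    ∑ γ, ⟪lopV Z γ p.1 p.2.1.1.1 p.2.1.2 p.2.2, lopV Z γ q.1 q.2.1.1.1 q.2.1.2 q.2.2⟫_ℂ =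
      (ind (p = q) : ℂ) := by
  obtain ⟨s, ⟨⟨m, c⟩, e⟩, t⟩ := p
  obtain ⟨s', ⟨⟨m', c'⟩, e'⟩, t'⟩ := q
  obtain ⟨h1, h2, rfl, h4, h5⟩ := (lop_LV Z s m c e t).mp hp
  obtain ⟨k1, k2, rfl, k4, k5⟩ := (lop_LV Z s' m' c' e' t').mp hq
  have key : ∀ γ, ⟪lopV Z γ s (Z.tgt e) e t, lopV Z γ s' (Z.tgt e') e' t'⟫_ℂ =
      ((∑ s₀ ∈ lev (Z.tgt e), A s s₀ γ / Real.sqrt (Z.tgt e + 1) *
        (A s' s₀ γ / Real.sqrt (Z.tgt e' + 1) * ind (e = e' ∧ t = t')) : ℝ) : ℂ) := by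
    intro γ
    rw [lopV, sum_inner, Complex.ofReal_sum]
    refine Finset.sum_congr rfl fun s₀ hs₀ => ?_
    rw [inner_smul_left, Complex.conj_ofReal, lop_coef Z γ s' e' t' ⟨h2, mem_lev.mp hs₀, h5⟩,
      ← Complex.ofReal_mul]
  change ∑ γ, ⟪lopV Z γ s (Z.tgt e) e t, lopV Z γ s' (Z.tgt e') e' t'⟫_ℂ = _
  simp only [key]
  rw [← Complex.ofReal_sum]
  congr 1
  by_cases hc : e = e' ∧ t = t'
  · obtain ⟨rfl, rfl⟩ := hc
    have h6 : (0 : ℝ) < Z.tgt e + 1 := by positivity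
    have h7 := Real.mul_self_sqrt h6.le
    have h9 : ∀ γ s₀, A s s₀ γ / Real.sqrt (Z.tgt e + 1) *
        (A s' s₀ γ / Real.sqrt (Z.tgt e + 1) * ind (e = e ∧ t = t)) =
        ((Z.tgt e : ℝ) + 1)⁻¹ * (A s s₀ γ * A s' s₀ γ) := by
      intro γ s₀
      rw [ind_of ⟨rfl, rfl⟩, mul_one, div_mul_div_comm, h7, div_eq_inv_mul]
    rw [Finset.sum_congr rfl fun γ _ => Finset.sum_congr rfl fun s₀ _ => h9 γ s₀]
    simp only [← Finset.mul_sum]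
    rw [A2, ← mul_assoc, inv_mul_cancel₀ h6.ne', one_mul]
    refine ind_congr ⟨?_, ?_⟩
    · rintro ⟨rfl, -⟩
      obtain rfl : c = c' := h4.symm.trans k4
      rfl
    · intro h
      exact ⟨congrArg Prod.fst h, h4 ▸ h1⟩
  · rw [ind_of_not hc, ind_of_not]
    · simp
    · intro h
      exact hc ⟨congrArg (fun r : Raw (comp cX Z) => r.2.1.2) h,
        congrArg (fun r : Raw (comp cX Z) => r.2.2) h⟩

lemma lop_adj (Z : Conn) (γ : Fin 2) (T : HL (comp cX Z) →L[ℂ] HL Z)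
    (hT : ∀ s (m c : ℕ) e t, LV (comp cX Z) (s, (((m, c) : ℕ × ℕ), e), t) →
      T (bv (comp cX Z) s (((m, c) : ℕ × ℕ), e) t) = lopV Z γ s m e t)
    {s' : St} {e' : Z.E} {t' : St} (h : LV Z (s', e', t')) :
    adjoint T (bv Z s' e' t') = ∑ c' ∈ nb (Z.tgt e'), ∑ u ∈ lev c',
      ((A u s' γ / Real.sqrt (Z.tgt e' + 1) : ℝ) : ℂ) •
        bv (comp cX Z) u (((Z.tgt e', c') : ℕ × ℕ), e') t' := by
  refine bv_vec_ext ?_
  rintro s ⟨⟨m, c⟩, e⟩ t hp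
  obtain ⟨h1, h2, rfl, h4, h5⟩ := (lop_LV Z s m c e t).mp hp
  rw [adjoint_inner_right, hT s _ c e t hp, ← inner_conj_symm, lop_coef Z γ s e t h,
    Complex.conj_ofReal, inner_sum]
  by_cases hc : e' = e ∧ t' = t
  · obtain ⟨rfl, rfl⟩ := hc
    rw [Finset.sum_eq_single c, inner_sum, Finset.sum_eq_single s]
    · rw [inner_smul_right, inner_bv, ind_of ⟨rfl, rfl⟩, ind_of ⟨⟨rfl, rfl, rfl⟩, hp⟩]
      simp
    · intro b _ hb
      rw [inner_smul_right, inner_bv, ind_of_not fun h' => hb h'.1.1.symm]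
      simp
    · intro h'
      exact absurd (mem_lev.mpr h4) h'
    · intro b _ hb
      rw [inner_sum]
      refine Finset.sum_eq_zero fun u _ => ?_
      rw [inner_smul_right, inner_bv, ind_of_not fun h' =>
        hb (congrArg (fun r : (ℕ × ℕ) × Z.E => r.1.2) h'.1.2.1).symm]
      simp
    · intro h'
      exact absurd (mem_nb.mpr h1) h'
  · rw [ind_of_not hc, mul_zero, Complex.ofReal_zero]
    refine (Finset.sum_eq_zero fun b _ => ?_).symm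
    rw [inner_sum]
    refine Finset.sum_eq_zero fun u _ => ?_
    rw [inner_smul_right, inner_bv, ind_of_not fun h' =>
      hc ⟨(congrArg (fun r : (ℕ × ℕ) × Z.E => r.2) h'.1.2.1).symm, h'.1.2.2.symm⟩]
    simp

lemma lop_real (Z : Conn) (γ α' α : Fin 2) {s s' t t' : St} {c : ℕ} {e e' : Z.E}
    (h1 : Adj (Z.tgt e) c) (h4 : sz s = c) (k2 : sz s' = Z.tgt e') :
    ∑ s₀ ∈ lev (Z.tgt e), A s s₀ γ / Real.sqrt (Z.tgt e + 1) *
        Vk Z α' α (s', e', t') (s₀, e, t) =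
      ∑ c' ∈ nb (Z.tgt e'), ∑ u ∈ lev c', A u s' γ / Real.sqrt (Z.tgt e' + 1) *
        Vk (comp cX Z) α' α (u, (((Z.tgt e', c') : ℕ × ℕ), e'), t')
          (s, (((Z.tgt e, c) : ℕ × ℕ), e), t) := by
  have e1 : ∀ s₀ ∈ lev (Z.tgt e), A s s₀ γ / Real.sqrt (Z.tgt e + 1) *
      Vk Z α' α (s', e', t') (s₀, e, t) =
      A t' t α' * Z.x e' e / Real.sqrt (sz t' + 1) *
        (A s' s₀ α * A s s₀ γ / (Z.tgt e + 1)) := by
    intro s₀ hs₀
    have h6 : (0 : ℝ) < Z.tgt e + 1 := by positivity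
    have h7 := Real.mul_self_sqrt h6.le
    change _ * (A s' s₀ α * A t' t α' * Z.x e' e /
      Real.sqrt (((sz s₀ : ℝ) + 1) * ((sz t' : ℝ) + 1))) = _
    rw [mem_lev.mp hs₀, Real.sqrt_mul h6.le, div_mul_div_comm, ← mul_assoc (Real.sqrt _), h7,
      div_mul_div_comm]
    ring
  have e2 : ∀ c' u, A u s' γ / Real.sqrt (Z.tgt e' + 1) *
      Vk (comp cX Z) α' α (u, (((Z.tgt e', c') : ℕ × ℕ), e'), t')
        (s, (((Z.tgt e, c) : ℕ × ℕ), e), t) =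
      A t' t α' * Z.x e' e / Real.sqrt (sz t' + 1) *
        (A u s' γ * A u s α * lx 2 (Z.tgt e', c') (Z.tgt e, c) /
          Real.sqrt ((Z.tgt e' + 1) * (c + 1))) := by
    intro c' u
    change _ * (A u s α * A t' t α' * (ind (Z.tgt e' = Z.tgt e') * ind (Z.tgt e = Z.tgt e) *
      (lx 2 (Z.tgt e', c') (Z.tgt e, c) * Z.x e' e)) /
      Real.sqrt (((sz s : ℝ) + 1) * ((sz t' : ℝ) + 1))) = _
    rw [h4, ind_of rfl, ind_of rfl, Real.sqrt_mul (by positivity), Real.sqrt_mul (by positivity)]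
    ring
  rw [Finset.sum_congr rfl e1]
  simp only [e2, ← Finset.mul_sum]
  by_cases hx : Z.x e' e = 0
  · simp [hx]
  · rw [hexL h1 (Z.x_supp' hx).2.2.2.symm h4 k2]

lemma lop_intw (Z : Conn) (γ : Fin 2) (T : HL (comp cX Z) →L[ℂ] HL Z)
    (hT : ∀ s (m c : ℕ) e t, LV (comp cX Z) (s, (((m, c) : ℕ × ℕ), e), t) →
      T (bv (comp cX Z) s (((m, c) : ℕ × ℕ), e) t) = lopV Z γ s m e t) :
    Intw (VL (comp cX Z)) (VL Z) T := by
  intro α' α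
  refine bv_ext ?_
  rintro s ⟨⟨m, c⟩, e⟩ t hp
  obtain ⟨h1, h2, rfl, h4, h5⟩ := (lop_LV Z s m c e t).mp hp
  refine bv_vec_ext fun s' e' t' hq => ?_
  rw [comp_apply, comp_apply, hT s _ c e t hp, ← adjoint_inner_left T, lop_adj Z γ T hT hq, lopV,
    map_sum, inner_sum, sum_inner]
  have e1 : ∀ s₀ ∈ lev (Z.tgt e), ⟪bv Z s' e' t', VL Z α' α
      (((A s s₀ γ / Real.sqrt (Z.tgt e + 1) : ℝ) : ℂ) • bv Z s₀ e t)⟫_ℂ =
      ((A s s₀ γ / Real.sqrt (Z.tgt e + 1) * Vk Z α' α (s', e', t') (s₀, e, t) : ℝ) : ℂ) := by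
    intro s₀ hs₀
    rw [map_smul, inner_smul_right, bv, bv, inner_VL Z α' α hq ⟨h2, mem_lev.mp hs₀, h5⟩,
      Complex.ofReal_mul]
  have e2 : ∀ c' ∈ nb (Z.tgt e'), ⟪∑ u ∈ lev c',
      ((A u s' γ / Real.sqrt (Z.tgt e' + 1) : ℝ) : ℂ) •
        bv (comp cX Z) u (((Z.tgt e', c') : ℕ × ℕ), e') t',
      VL (comp cX Z) α' α (bv (comp cX Z) s (((Z.tgt e, c) : ℕ × ℕ), e) t)⟫_ℂ =
      ((∑ u ∈ lev c', A u s' γ / Real.sqrt (Z.tgt e' + 1) *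
        Vk (comp cX Z) α' α (u, (((Z.tgt e', c') : ℕ × ℕ), e'), t')
          (s, (((Z.tgt e, c) : ℕ × ℕ), e), t) : ℝ) : ℂ) := by
    intro c' hc'
    rw [sum_inner, Complex.ofReal_sum]
    refine Finset.sum_congr rfl fun u hu => ?_
    rw [inner_smul_left, Complex.conj_ofReal, bv, bv, inner_VL _ α' α ((lop_LV Z u _ c' e' t').mpr
      ⟨mem_nb.mp hc', hq.1, rfl, mem_lev.mp hu, hq.2.2⟩) hp, Complex.ofReal_mul]
  rw [Finset.sum_congr rfl e1, ← Complex.ofReal_sum, lop_real Z γ α' α h1 h4 hq.2.1,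
    Complex.ofReal_sum]
  exact (Finset.sum_congr rfl e2).symm

/-- The leaf of `X ∘ Z` is two copies of the leaf of `Z`. -/
theorem exists_lop (Z : Conn) : ∃ l : Fin 2 → HL (comp cX Z) →L[ℂ] HL Z,
    ∑ γ, adjoint (l γ) ∘L l γ = 1 ∧ (∀ γ, Intw (VL (comp cX Z)) (VL Z) (l γ)) ∧
    ∀ γ s (m c : ℕ) e t, LV (comp cX Z) (s, (((m, c) : ℕ × ℕ), e), t) →
      l γ (bv (comp cX Z) s (((m, c) : ℕ × ℕ), e) t) =
        ∑ s₀ ∈ lev m, ((A s s₀ γ / Real.sqrt (m + 1) : ℝ) : ℂ) • bv Z s₀ e t := by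
  have hex : ∀ γ : Fin 2, ∃ T : HL (comp cX Z) →L[ℂ] HL Z, ∀ p, LV _ p →
      T (bvec (LV (comp cX Z)) p) = lopV Z γ p.1 p.2.1.1.1 p.2.1.2 p.2.2 := by
    intro γ
    refine exists_op_bvec (LV (comp cX Z)) _
      (fun p => lopV Z (bar γ) p.1 p.2.1.1.1 p.2.1.2 p.2.2) fun p q hp hq => ?_
    rw [← lop_gram Z p q hp hq, Fin.sum_univ_two]
    fin_cases γ
    · rfl
    · exact add_comm _ _
  choose l hl using hex
  refine ⟨l, ?_, fun γ => lop_intw Z γ (l γ) fun s m c e t h => hl γ _ h,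
    fun γ s m c e t h => hl γ _ h⟩
  refine bvec_ext fun q hq => bvec_vec_ext fun p hp => ?_
  rw [one_apply_eq_self, inner_bvec, sum_apply, inner_sum,
    ind_congr (and_iff_left hq), ← lop_gram Z p q hp hq]
  refine Finset.sum_congr rfl fun γ _ => ?_
  rw [comp_apply, adjoint_inner_right, hl γ p hp, hl γ q hq]

end Pool.Agent.Lib.MP_d81181_an
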