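import Pool.Agent.Lib.MP_d81181_an.Emb
import Pool.Agent.Lib.MP_d81181_an.Iota
import Pool.Agent.Lib.MP_d81181_an.Lop
import Pool.Agent.Lib.MP_d81181_an.Rop

/-! The leaves separate the von Neumann algebra. -/

open scoped Classical InnerProductSpace ComplexConjugate
open ContinuousLinearMap

noncomputable section

namespace Pool.Agent.Lib.MP_d81181_an

open Conn

lemma Sep_up {E : Type} [AddCommGroup E] [Module ℂ E] {n : ℕ} {t : St} (ht : sz t = n)
    (γ : Fin 2) (c : ℝ) (F : St → E) : ∑ u ∈ lev (n + 1), ((A u t γ / c : ℝ) : ℂ) • F u =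
      ((Real.sqrt (co t γ + 1) / c : ℝ) : ℂ) • F (up γ t) := by
  simp only [Complex.coe_smul, div_eq_mul_inv, mul_smul]
  exact sum_A_up ht γ fun u => c⁻¹ • F u

lemma Sep_down {E : Type} [AddCommGroup E] [Module ℂ E] {n : ℕ} {s : St} (hs : sz s = n)
    (γ : Fin 2) (c : ℝ) (F : St → E) : ∑ u ∈ lev (n + 1), ((A s u γ / c : ℝ) : ℂ) • F u =
      ((sgn γ * Real.sqrt (co s (bar γ) + 1) / c : ℝ) : ℂ) • F (up (bar γ) s) := by
  simp only [Complex.coe_smul, div_eq_mul_inv, mul_smul _ c⁻¹]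
  exact sum_A_down hs γ fun u => c⁻¹ • F u

lemma Sep_smul {E F : Type} [NormedAddCommGroup E] [InnerProductSpace ℂ E] [CompleteSpace E]
    [NormedAddCommGroup F] [InnerProductSpace ℂ F] [CompleteSpace F]
    {V : Fin 2 → Fin 2 → E →L[ℂ] E} {W : Fin 2 → Fin 2 → F →L[ℂ] F} {T : E →L[ℂ] F}
    (h : Intw V W T) (c : ℂ) : Intw V W (c • T) := fun α β => by
  rw [comp_smul, smul_comp, h α β]

/-- Every basis vector of positive right degree is the image of a basis vector of smaller right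
degree under an intertwiner. -/
lemma exists_rlift (B : Conn) {s : St} {e : B.E} {t : St} {a : ℕ} (h : LV B (s, e, t))
    (ha : sz t = a + 1) : ∃ (T : HL (comp B cX) →L[ℂ] HL B) (t₀ : St), sz t₀ = a ∧
      LV (comp B cX) (s, (e, ((a, a + 1) : ℕ × ℕ)), t₀) ∧ Intw (VL (comp B cX)) (VL B) T ∧
      T (bv (comp B cX) s (e, ((a, a + 1) : ℕ × ℕ)) t₀) = bv B s e t := by
  obtain ⟨γ, t₀, h0, rfl⟩ := exists_up ha
  obtain ⟨r, -, hr, hf⟩ := exists_rop B
  have hv : LV (comp B cX) (s, (e, ((a, a + 1) : ℕ × ℕ)), t₀) :=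
    ⟨(comp_valid B cX e _).2 ⟨h.1, (letter_valid le_rfl a (a + 1)).2 (Or.inl rfl),
      h.2.2.symm.trans ha⟩, h.2.1, h0⟩
  have hne : ((Real.sqrt (co t₀ γ + 1) / Real.sqrt (((a + 1 : ℕ) : ℝ) + 1) : ℝ) : ℂ) ≠ 0 :=
    Complex.ofReal_ne_zero.2 (div_ne_zero (leaf_ne _) (leaf_ne _))
  have h1 := hf γ s e a (a + 1) t₀ hv
  rw [Sep_up h0, ← inv_smul_eq_iff₀ hne] at h1
  exact ⟨_, t₀, h0, hv, Sep_smul (hr γ) _, h1⟩

/-- Every basis vector of positive left degree is the image of a basis vector of smaller left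
degree under an intertwiner. -/
lemma exists_llift (B : Conn) {s : St} {e : B.E} {t : St} {c : ℕ} (h : LV B (s, e, t))
    (hc : sz s = c + 1) : ∃ (T : HL (comp cX B) →L[ℂ] HL B) (s₀ : St), sz s₀ = c ∧
      LV (comp cX B) (s₀, (((c + 1, c) : ℕ × ℕ), e), t) ∧ Intw (VL (comp cX B)) (VL B) T ∧
      T (bv (comp cX B) s₀ (((c + 1, c) : ℕ × ℕ), e) t) = bv B s e t := by
  obtain ⟨γ, s₀, h0, rfl⟩ := exists_up hc
  obtain ⟨l, -, hl, hf⟩ := exists_lop B
  have hv : LV (comp cX B) (s₀, (((c + 1, c) : ℕ × ℕ), e), t) :=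
    ⟨(comp_valid cX B _ e).2 ⟨(letter_valid le_rfl (c + 1) c).2 (Or.inr rfl), h.1,
      hc.symm.trans h.2.1⟩, h0, h.2.2⟩
  have hs : sgn (bar γ) ≠ 0 := left_ne_zero_of_mul_eq_one (sgn_mul_self _)
  have hne : ((sgn (bar γ) * Real.sqrt (co s₀ (bar (bar γ)) + 1) /
      Real.sqrt (((c + 1 : ℕ) : ℝ) + 1) : ℝ) : ℂ) ≠ 0 :=
    Complex.ofReal_ne_zero.2 (div_ne_zero (mul_ne_zero hs (leaf_ne _)) (leaf_ne _))
  have h1 := hf (bar γ) s₀ (c + 1) c e t hv
  rw [Sep_down h0 (bar γ) _ fun u => bv B u e t, ← inv_smul_eq_iff₀ hne, bar_bar] at h1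
  exact ⟨_, s₀, h0, hv, Sep_smul (hl (bar γ)) _, h1⟩

/-- An element that kills all vectors of right degree zero kills all leaves. -/
lemma kill_of_root {y : BH →L[ℂ] BH} (hy : y ∈ MM)
    (h : ∀ (B : Tm) s e, LV B.c (s, e, (0, 0)) → y (JL B (bv B.c s e (0, 0))) = 0) (B : Tm) :
    y ∘L JL B = 0 := by
  have key : ∀ (a : ℕ) (B : Tm) s e t, LV B.c (s, e, t) → sz t = a →
      y (JL B (bv B.c s e t)) = 0 := by
    intro a
    induction a with
    | zero =>
      intro B s e t hv ht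
      obtain rfl := sz_eq_zero ht
      exact h B s e hv
    | succ a ih =>
      intro B s e t hv ht
      obtain ⟨T, t₀, h0, hv0, hT, hb⟩ := exists_rlift B.c hv ht
      rw [← hb]
      exact (emb_JL (B.comp Tm.X)).kill (emb_JL B) hT hy (ih (B.comp Tm.X) s _ t₀ hv0 h0)
  exact bv_ext fun s e t hv => key _ B s e t hv rfl

lemma Sep_base {y : BH →L[ℂ] BH} (hy : y ∈ MM) (h : ∀ B, y ∘L JL B = 0) (B C : Tm) {s t : St}
    {g : B.c.E} {e : C.c.E} (h1 : LV B.c (s, g, (0, 0))) (h2 : LV C.c ((0, 0), e, t)) :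
    y (NN (tm (JL B (bv B.c s g (0, 0))) (JL C (bv C.c (0, 0) e t)))) = 0 := by
  obtain ⟨I, -, hI, hf⟩ := exists_iota B.c C.c
  have hg : B.c.src g = 0 := h1.2.2.symm
  have he : C.c.tgt e = 0 := h2.2.1.symm
  have hv : LV (comp B.c C.c) (s, (g, e), t) :=
    ⟨(comp_valid _ _ g e).2 ⟨h1.1, h2.1, hg.trans he.symm⟩, h1.2.1, h2.2.2⟩
  have h3 := (emb_JL (B.comp C)).kill ((emb_JL B).node (emb_JL C)) hI hy
    (v := bv (comp B.c C.c) s (g, e) t)
    (congrArg (fun Y => Y (bv (comp B.c C.c) s (g, e) t)) (h (B.comp C)))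
  replace h3 := (congrArg (fun z => y ((NN ∘L tens (JL B) (JL C)) z))
    (hf s g e t hv)).symm.trans h3
  rw [hg, lev_zero, Finset.sum_singleton] at h3
  simpa using h3

lemma Sep_basis {y : BH →L[ℂ] BH} (hy : y ∈ MM) (h : ∀ B, y ∘L JL B = 0) (a c : ℕ) :
    ∀ (B C : Tm) s g u s' e t, LV B.c (s, g, u) → LV C.c (s', e, t) → sz u = a → sz s' = c →
      y (NN (tm (JL B (bv B.c s g u)) (JL C (bv C.c s' e t)))) = 0 := by
  induction a with
  | zero =>
    induction c with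
    | zero =>
      intro B C s g u s' e t h1 h2 hu hs
      obtain rfl := sz_eq_zero hu
      obtain rfl := sz_eq_zero hs
      exact Sep_base hy h B C h1 h2
    | succ c ih =>
      intro B C s g u s' e t h1 h2 hu hs
      obtain ⟨T, s₀, h0, hv0, hT, hb⟩ := exists_llift C.c h2 hs
      have h3 := ((emb_JL B).node (emb_JL (Tm.X.comp C))).kill ((emb_JL B).node (emb_JL C))
        (Intw.id.tens hT) hy (v := tm (bv B.c s g u) (bv _ s₀ _ t))
        (by rw [comp_apply, tens_tm]; exact ih B (Tm.X.comp C) s g u s₀ _ t h1 hv0 hu h0)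
      rw [tens_tm, comp_apply, tens_tm, one_apply_eq_self] at h3
      rw [← hb]
      exact h3
  | succ a ih =>
    intro B C s g u s' e t h1 h2 hu hs
    obtain ⟨T, t₀, h0, hv0, hT, hb⟩ := exists_rlift B.c h1 hu
    have h3 := ((emb_JL (B.comp Tm.X)).node (emb_JL C)).kill ((emb_JL B).node (emb_JL C))
      (hT.tens Intw.id) hy (v := tm (bv _ s _ t₀) (bv C.c s' e t))
      (by rw [comp_apply, tens_tm]; exact ih (B.comp Tm.X) C s _ t₀ s' e t hv0 h2 h0 hs)
    have h4 := tens_tm T (1 : HL C.c →L[ℂ] HL C.c) (bv (comp B.c cX) s (g, a, a + 1) t₀)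
      (bv C.c s' e t)
    replace h3 := (congrArg (fun z => y ((NN ∘L tens (JL B) (JL C)) z)) h4).symm.trans h3
    rwa [comp_apply, tens_tm, one_apply_eq_self, hb] at h3

lemma sep_leaf {y : BH →L[ℂ] BH} (hy : y ∈ MM) (h : ∀ B, y ∘L JL B = 0) (B C : Tm)
    (v : HL B.c) (w : HL C.c) : y (NN (tm (JL B v) (JL C w))) = 0 := by
  have h1 : ∀ s g u, LV B.c (s, g, u) → y ∘L NN ∘L tmL (JL B (bv B.c s g u)) ∘L JL C = 0 :=
    fun s g u h1 => bv_ext fun s' e t h2 => Sep_basis hy h _ _ B C s g u s' e t h1 h2 rfl rfl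
  have h2 : y ∘L NN ∘L tmR (JL C w) ∘L JL B = 0 :=
    bv_ext fun s g u hv => congrArg (fun Y => Y w) (h1 s g u hv)
  exact congrArg (fun Y => Y v) h2

theorem sep {y : BH →L[ℂ] BH} (hy : y ∈ MM) (h : ∀ B, y ∘L JL B = 0) : y = 0 := by
  have key : ∀ (i : Idx) (y : BH →L[ℂ] BH), y ∈ MM → (∀ B, y ∘L JL B = 0) → y (eb Idx i) = 0 := by
    intro i
    induction i with
    | leaf B p =>
      intro y _ h
      rw [← JL_eb]
      exact congrArg (fun Y => Y (eb _ p)) (h B)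
    | node i j ihi ihj =>
      intro y hy h
      have h1 : ∀ (B : Tm) (v : HL B.c), Delta y (tm (JL B v) (eb Idx j)) = 0 := fun B v =>
        HT_vec_ext fun a' b' => by
          rw [← inner_sliceL, ihj _ (sliceL_mem hy a' _), inner_zero_right, inner_zero_right]
          intro C
          refine ContinuousLinearMap.ext fun w => ext_inner_left ℂ fun b => ?_
          rw [comp_apply, inner_sliceL, inner_Delta, sep_leaf hy h, zero_apply, inner_zero_right,
            inner_zero_right]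
      have h2 : Delta y (tm (eb Idx i) (eb Idx j)) = 0 :=
        HT_vec_ext fun a' b' => by
          rw [← inner_sliceR, ihi _ (sliceR_mem hy b' _), inner_zero_right, inner_zero_right]
          intro B
          refine ContinuousLinearMap.ext fun v => ext_inner_left ℂ fun a => ?_
          rw [comp_apply, inner_sliceR, h1, zero_apply, inner_zero_right, inner_zero_right]
      rw [← NN_eb, apply_NN hy, h2, map_zero]
  exact basis_ext (eb Idx) fun i => key i y hy h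

end Pool.Agent.Lib.MP_d81181_an
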