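import Pool.Agent.Lib.MP_d81181_an.VN

/-! Transfer of identities from separating families of reducing subspaces. -/

open scoped InnerProductSpace ComplexConjugate ENNReal NNReal
open ContinuousLinearMap Filter Topology

set_option linter.unusedSectionVars false

noncomputable section

namespace Pool.Agent.Lib.MP_d81181_an

variable {H H' : Type} [NormedAddCommGroup H] [InnerProductSpace ℂ H] [CompleteSpace H]
  [NormedAddCommGroup H'] [InnerProductSpace ℂ H'] [CompleteSpace H']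

lemma vt_mem {M : VonNeumannAlgebra H} {x : H →L[ℂ] H}
    (hx : ∀ T : H →L[ℂ] H, (∀ m ∈ M, T * m = m * T) → T * x = x * T) : x ∈ M := by
  have h1 : x ∈ Set.centralizer (Set.centralizer (M : Set (H →L[ℂ] H))) :=
    fun T hT => hx T fun m hm => (hT m hm).symm
  rwa [M.centralizer_centralizer] at h1

lemma vt_nonneg {M : VonNeumannAlgebra H} {β : Type} {E : β → Type}
    [∀ b, NormedAddCommGroup (E b)] [∀ b, InnerProductSpace ℂ (E b)] [∀ b, CompleteSpace (E b)]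
    (J : ∀ b, E b →L[ℂ] H)
    (hred : ∀ x ∈ M, ∀ b, x ∘L J b = J b ∘L (adjoint (J b) ∘L x ∘L J b))
    (hsep : ∀ x ∈ M, (∀ b, x ∘L J b = 0) → x = 0)
    (D : ∀ b, Set (E b)) (hD : ∀ b, Dense (D b)) {x : H →L[ℂ] H} (hxM : x ∈ M)
    (hx : IsSelfAdjoint x) (h : ∀ b, ∀ v ∈ D b, 0 ≤ (⟪J b v, x (J b v)⟫_ℂ).re) : 0 ≤ x := by
  have h' : ∀ b v, 0 ≤ (⟪J b v, x (J b v)⟫_ℂ).re := fun b v => by
    have hc : IsClosed {v : E b | 0 ≤ (⟪J b v, x (J b v)⟫_ℂ).re} :=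
      isClosed_le continuous_const (Complex.continuous_re.comp
        ((J b).continuous.inner (x.continuous.comp (J b).continuous)))
    exact hc.closure_subset_iff.mpr (h b) (hD b v)
  have hn : 0 ≤ x⁻ := CFC.negPart_nonneg x
  have hsa : IsSelfAdjoint x⁻ := hn.isSelfAdjoint
  have hnM : x⁻ ∈ M := vt_mem fun T hT => by
    have h1 : Commute x T := (hT x hxM).symm
    rw [CFC.negPart_def]
    exact (h1.cfcₙ_real _).symm
  have hsub : x⁺ - x⁻ = x := CFC.posPart_sub_negPart x hx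
  have hmul : x * x⁻ = -(x⁻ * x⁻) := by
    have h1 : x * x⁻ = (x⁺ - x⁻) * x⁻ := by rw [hsub]
    rw [h1, sub_mul, CFC.posPart_mul_negPart, zero_sub]
  have h0 : x⁻ = 0 := hsep _ hnM fun b => by
    ext v
    have h1 : x⁻ (J b v) = J b ((adjoint (J b) ∘L x⁻ ∘L J b) v) :=
      congrArg (fun T : E b →L[ℂ] H => T v) (hred _ hnM b)
    have h2 := h' b ((adjoint (J b) ∘L x⁻ ∘L J b) v)
    have h3 : x (x⁻ (J b v)) = -(x⁻ (x⁻ (J b v))) :=
      congrArg (fun T : H →L[ℂ] H => T (J b v)) hmul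
    rw [← h1, h3, inner_neg_right, Complex.neg_re] at h2
    have h4 := re_inner_nonneg_of_nonneg hn (x⁻ (J b v))
    have h5 : x⁻ (x⁻ (J b v)) = 0 := apply_eq_zero_of_re_inner hn (by linarith)
    have h6 : ⟪x⁻ (J b v), x⁻ (J b v)⟫_ℂ = 0 := by
      rw [← adjoint_inner_right, hsa.adjoint_eq, h5, inner_zero_right]
    exact inner_self_eq_zero.mp h6
  rw [← hsub, h0, sub_zero]
  exact CFC.posPart_nonneg x

lemma vt_sum {ι : Type} (y : ι → H →L[ℂ] H) (hy : ∀ j, 0 ≤ y j) (F : Finset ι) (ξ : H) :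
    ∑ j ∈ F, ENNReal.ofReal (⟪ξ, y j ξ⟫_ℂ).re = ENNReal.ofReal (⟪ξ, (∑ j ∈ F, y j) ξ⟫_ℂ).re := by
  rw [← ENNReal.ofReal_sum_of_nonneg fun j _ => re_inner_nonneg_of_nonneg (hy j) ξ,
    _root_.sum_apply, inner_sum, Complex.re_sum]

lemma vt_const (c : ℝ≥0) (ξ : H) :
    (⟪ξ, (((c : ℝ) : ℂ) • (1 : H →L[ℂ] H)) ξ⟫_ℂ).re = ‖ξ‖ ^ 2 * c := by
  rw [_root_.smul_apply, inner_smul_right, Complex.re_ofReal_mul, mul_comm]
  congr 1
  exact (norm_sq_eq_re_inner (𝕜 := ℂ) ξ).symm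

lemma vt_norm {E : Type} [NormedAddCommGroup E] [InnerProductSpace ℂ E] [CompleteSpace E]
    (J : E →L[ℂ] H) (hJ : adjoint J ∘L J = 1) (v : E) : ‖J v‖ ^ 2 = ‖v‖ ^ 2 := by
  have h1 : adjoint J (J v) = v := congrArg (fun T : E →L[ℂ] E => T v) hJ
  rw [norm_sq_eq_re_inner (𝕜 := ℂ), norm_sq_eq_re_inner (𝕜 := ℂ), ← adjoint_inner_right, h1]

/-- Transfer of an identity `∑ⱼ yⱼ = c` from a separating family of reducing subspaces. -/
theorem tsum_eq_of_leaves {M : VonNeumannAlgebra H} {β : Type} {E : β → Type}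
    [∀ b, NormedAddCommGroup (E b)] [∀ b, InnerProductSpace ℂ (E b)] [∀ b, CompleteSpace (E b)]
    (J : ∀ b, E b →L[ℂ] H) (hJ : ∀ b, adjoint (J b) ∘L J b = 1)
    (hred : ∀ x ∈ M, ∀ b, x ∘L J b = J b ∘L (adjoint (J b) ∘L x ∘L J b))
    (hsep : ∀ x ∈ M, (∀ b, x ∘L J b = 0) → x = 0)
    {ι : Type} (y : ι → H →L[ℂ] H) (hyM : ∀ j, y j ∈ M) (hy : ∀ j, 0 ≤ y j) (c : ℝ≥0)
    (D : ∀ b, Set (E b)) (hD : ∀ b, Dense (D b))
    (h : ∀ b, ∀ v ∈ D b, ∑' j, ENNReal.ofReal (⟪J b v, y j (J b v)⟫_ℂ).re =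
      ENNReal.ofReal (‖v‖ ^ 2) * c) (ξ : H) :
    ∑' j, ENNReal.ofReal (⟪ξ, y j ξ⟫_ℂ).re = ENNReal.ofReal (‖ξ‖ ^ 2) * c := by
  classical
  set z : H →L[ℂ] H := ((c : ℝ) : ℂ) • (1 : H →L[ℂ] H) with hz
  have hzM : z ∈ M := vt_mem fun T _ => by
    rw [hz, mul_smul_comm, smul_mul_assoc, mul_one, one_mul]
  have hzs : IsSelfAdjoint z := by
    rw [hz, IsSelfAdjoint, star_smul, star_one, Complex.star_def, Complex.conj_ofReal]
  have hc : ∀ η : H, ENNReal.ofReal (‖η‖ ^ 2) * c = ENNReal.ofReal (⟪η, z η⟫_ℂ).re := fun η => by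
    rw [hz, vt_const, ENNReal.ofReal_mul (sq_nonneg _), ENNReal.ofReal_coe_nnreal]
  have hz0 : ∀ η : H, 0 ≤ (⟪η, z η⟫_ℂ).re := fun η => by
    rw [hz, vt_const]; positivity
  have h' : ∀ b, ∀ v ∈ D b, ∑' j, ENNReal.ofReal (⟪J b v, y j (J b v)⟫_ℂ).re =
      ENNReal.ofReal (⟪J b v, z (J b v)⟫_ℂ).re := fun b v hv => by
    rw [h b v hv, ← hc, vt_norm (J b) (hJ b)]
  have hFM : ∀ F : Finset ι, ∑ j ∈ F, y j ∈ M := fun F => sum_mem fun j _ => hyM j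
  have hF0 : ∀ F : Finset ι, 0 ≤ ∑ j ∈ F, y j := fun F => Finset.sum_nonneg fun j _ => hy j
  have hFz : ∀ F : Finset ι, ∑ j ∈ F, y j ≤ z := fun F => by
    refine sub_nonneg.mp (vt_nonneg J hred hsep D hD (sub_mem hzM (hFM F))
      (hzs.sub (hF0 F).isSelfAdjoint) fun b v hv => ?_)
    have h1 := ENNReal.sum_le_tsum (f := fun j => ENNReal.ofReal (⟪J b v, y j (J b v)⟫_ℂ).re) F
    rw [h' b v hv, vt_sum y hy, ENNReal.ofReal_le_ofReal_iff (hz0 _)] at h1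
    simp only [sub_apply, inner_sub_right, Complex.sub_re]
    linarith
  obtain ⟨x, hx1, hx2, hx3⟩ := exists_sup (Set.range fun F : Finset ι => ∑ j ∈ F, y j)
    (Set.range_nonempty _)
    (by
      rintro _ ⟨F, rfl⟩ _ ⟨G, rfl⟩
      exact ⟨_, ⟨F ∪ G, rfl⟩,
        Finset.sum_le_sum_of_subset_of_nonneg Finset.subset_union_left fun j _ _ => hy j,
        Finset.sum_le_sum_of_subset_of_nonneg Finset.subset_union_right fun j _ _ => hy j⟩)
    (by rintro _ ⟨F, rfl⟩; exact hF0 F) z (by rintro _ ⟨F, rfl⟩; exact hFz F)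
  have hx0 : 0 ≤ x := (hF0 ∅).trans (hx1 _ ⟨∅, rfl⟩)
  have hxM : x ∈ M := vt_mem fun T hT => hx3 T (by rintro _ ⟨F, rfl⟩; exact hT _ (hFM F))
  have hsum : ∀ η : H, ∑' j, ENNReal.ofReal (⟪η, y j η⟫_ℂ).re =
      ENNReal.ofReal (⟪η, x η⟫_ℂ).re := fun η => by
    refine le_antisymm ?_ (ENNReal.le_of_forall_pos_le_add fun ε hε _ => ?_)
    · rw [ENNReal.tsum_eq_iSup_sum]
      refine iSup_le fun F => ?_
      rw [vt_sum y hy]
      exact ENNReal.ofReal_le_ofReal (re_inner_le_of_le (hx1 _ ⟨F, rfl⟩) η)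
    · obtain ⟨_, ⟨F, rfl⟩, hF⟩ := hx2 η ε (by exact_mod_cast hε)
      refine (ENNReal.ofReal_le_ofReal hF.le).trans (ENNReal.ofReal_add_le.trans ?_)
      rw [ENNReal.ofReal_coe_nnreal, ← vt_sum y hy]
      exact add_le_add (ENNReal.sum_le_tsum F) le_rfl
  have heq : ∀ b, ∀ v ∈ D b, (⟪J b v, x (J b v)⟫_ℂ).re = (⟪J b v, z (J b v)⟫_ℂ).re :=
    fun b v hv => by
      have h1 := h' b v hv
      rwa [hsum, ENNReal.ofReal_eq_ofReal_iff (re_inner_nonneg_of_nonneg hx0 _) (hz0 _)] at h1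
  have hxz : x = z := by
    refine le_antisymm (sub_nonneg.mp (vt_nonneg J hred hsep D hD (sub_mem hzM hxM)
      (hzs.sub hx0.isSelfAdjoint) fun b v hv => ?_))
      (sub_nonneg.mp (vt_nonneg J hred hsep D hD (sub_mem hxM hzM)
      (hx0.isSelfAdjoint.sub hzs) fun b v hv => ?_)) <;>
    · simp only [sub_apply, inner_sub_right, Complex.sub_re]
      rw [heq b v hv, sub_self]
  rw [hsum, hxz, hc]

end Pool.Agent.Lib.MP_d81181_an
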