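import Pool.Agent.Lib.MP_d81181_an.Inv0
import Pool.Agent.Lib.MP_d81181_an.Blk
import Pool.Agent.Lib.MP_d81181_an.Sep
import Pool.Agent.Lib.MP_d81181_an.VT
import Pool.Agent.Lib.MP_d81181_an.Val

/-! Left invariance of the Haar weight. -/

open scoped Classical InnerProductSpace ComplexConjugate ENNReal
open ContinuousLinearMap

noncomputable section

namespace Pool.Agent.Lib.MP_d81181_an

open Conn

lemma inv_pol0 {H : Type} [NormedAddCommGroup H] [InnerProductSpace ℂ H] (y : H →L[ℂ] H)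
    (a' a : H) : ⟪a', y a⟫_ℂ = (⟪a + a', y (a + a')⟫_ℂ - ⟪a - a', y (a - a')⟫_ℂ +
      Complex.I * ⟪a + Complex.I • a', y (a + Complex.I • a')⟫_ℂ -
      Complex.I * ⟪a - Complex.I • a', y (a - Complex.I • a')⟫_ℂ) / 4 := by
  simp only [map_add, map_sub, map_smul, inner_add_left, inner_add_right, inner_sub_left,
    inner_sub_right, inner_smul_left, inner_smul_right, Complex.conj_I]
  linear_combination (⟪a', y a⟫_ℂ / 2) * Complex.I_mul_I - (⟪a, y a'⟫_ℂ / 2) * Complex.I_mul_I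

lemma inv_pol {E H ι : Type} [NormedAddCommGroup E] [InnerProductSpace ℂ E]
    [NormedAddCommGroup H] [InnerProductSpace ℂ H] (J : E →L[ℂ] H) (y : ι → H →L[ℂ] H) (c : ℂ)
    (S : Submodule ℂ E) (h : ∀ v ∈ S, HasSum (fun j => ⟪J v, y j (J v)⟫_ℂ) (⟪v, v⟫_ℂ * c))
    {v' v : E} (hv' : v' ∈ S) (hv : v ∈ S) :
    HasSum (fun j => ⟪J v', y j (J v)⟫_ℂ) (⟪v', v⟫_ℂ * c) := by
  have h1 := h _ (S.add_mem hv hv')
  have h2 := h _ (S.sub_mem hv hv')
  have h3 := h _ (S.add_mem hv (S.smul_mem Complex.I hv'))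
  have h4 := h _ (S.sub_mem hv (S.smul_mem Complex.I hv'))
  have h5 := (((h1.sub h2).add (h3.mul_left Complex.I)).sub (h4.mul_left Complex.I)).div_const 4
  have e1 : (fun j => ⟪J v', y j (J v)⟫_ℂ) = fun j => (⟪J (v + v'), y j (J (v + v'))⟫_ℂ -
      ⟪J (v - v'), y j (J (v - v'))⟫_ℂ +
      Complex.I * ⟪J (v + Complex.I • v'), y j (J (v + Complex.I • v'))⟫_ℂ -
      Complex.I * ⟪J (v - Complex.I • v'), y j (J (v - Complex.I • v'))⟫_ℂ) / 4 := by
    funext j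
    rw [inv_pol0 (y j) (J v') (J v), map_add J, map_sub J, map_add J, map_sub J, map_smul J]
  have e2 := inv_pol0 (1 : E →L[ℂ] E) v' v
  simp only [one_apply_eq_self] at e2
  rw [e1, e2]
  have e3 : (⟪v + v', v + v'⟫_ℂ - ⟪v - v', v - v'⟫_ℂ +
      Complex.I * ⟪v + Complex.I • v', v + Complex.I • v'⟫_ℂ -
      Complex.I * ⟪v - Complex.I • v', v - Complex.I • v'⟫_ℂ) / 4 * c =
      (⟪v + v', v + v'⟫_ℂ * c - ⟪v - v', v - v'⟫_ℂ * c +
      Complex.I * (⟪v + Complex.I • v', v + Complex.I • v'⟫_ℂ * c) -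
      Complex.I * (⟪v - Complex.I • v', v - Complex.I • v'⟫_ℂ * c)) / 4 := by ring
  rw [e3]
  exact h5

lemma inv_bv_mem (B : Conn) {s : St} {e : B.E} (h : LV B (s, e, (0, 0))) :
    bv B s e (0, 0) ∈ LinearMap.range (vec B) := by
  refine ⟨fun e' s' => (ind (e' = e ∧ s' = s) : ℂ), ?_⟩
  have he : e ∈ B.out 0 := B.mem_out.2 ⟨h.1, h.2.2.symm⟩
  have hs : s ∈ lev (B.tgt e) := mem_lev.2 h.2.1
  rw [vec_apply, Finset.sum_eq_single_of_mem e he, Finset.sum_eq_single_of_mem s hs,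
    ind_of ⟨rfl, rfl⟩]
  · simp
  · intro b _ hb
    rw [ind_of_not fun h' => hb h'.2]; simp
  · intro b _ hb
    refine Finset.sum_eq_zero fun s' _ => ?_
    rw [ind_of_not fun h' => hb h'.1]; simp

lemma inv_sq {E : Type} [NormedAddCommGroup E] [InnerProductSpace ℂ E] (v : E) :
    ⟪v, v⟫_ℂ = ((‖v‖ ^ 2 : ℝ) : ℂ) := by
  rw [inner_self_eq_norm_sq_to_K]; simp

lemma inv_base {x : BH →L[ℂ] BH} (hx : x ∈ MM) (h0 : 0 ≤ x) (hf : phi x < ⊤) (B : Tm)
    {v' v : HL B.c} (hv' : v' ∈ LinearMap.range (vec B.c)) (hv : v ∈ LinearMap.range (vec B.c)) :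
    HasSum (fun j => ⟪JL B v', ysl x j (JL B v)⟫_ℂ) (⟪v', v⟫_ℂ * ((phi x).toReal : ℂ)) := by
  refine inv_pol (JL B) (ysl x) _ _ ?_ hv' hv
  rintro _ ⟨ζ, rfl⟩
  have h1 := hasSum_of_tsum_ofReal
    (fun j => re_inner_nonneg_of_nonneg (ysl_nonneg h0 j) (JL B (vec B.c ζ)))
    (ENNReal.mul_lt_top ENNReal.ofReal_lt_top hf) (inv_vec hx h0 B ζ)
  rw [ENNReal.toReal_mul, ENNReal.toReal_ofReal (sq_nonneg _), Complex.ofReal_mul, ← inv_sq] at h1
  have e : (fun j => ⟪JL B (vec B.c ζ), ysl x j (JL B (vec B.c ζ))⟫_ℂ) =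
      fun j => ((⟪JL B (vec B.c ζ), ysl x j (JL B (vec B.c ζ))⟫_ℂ).re : ℂ) :=
    funext fun j => inner_eq_re_of_nonneg (ysl_nonneg h0 j) _
  rw [e]
  exact h1

lemma inv_blk {x : BH →L[ℂ] BH} (hx : x ∈ MM) (h0 : 0 ≤ x) (j : HI) : Blk (ysl x j) :=
  blk_of_base (ysl_mem hx j) (IsSelfAdjoint.of_nonneg (ysl_nonneg h0 j))
    fun B s' s e' e _ ht => ysl_base hx j B s' s e' e ht

lemma inv_lv {B : Conn} {s : St} {e : B.E} {γ : Fin 2} {t : St} (h : LV B (s, e, up γ t)) :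
    LV (comp B cX) (s, (e, ((sz t, sz t + 1) : ℕ × ℕ)), t) :=
  ⟨(comp_valid B cX _ _).2 ⟨h.1, (letter_valid le_rfl _ _).2 (Or.inl rfl),
    h.2.2.symm.trans (sz_up γ t)⟩, h.2.1, rfl⟩

lemma inv_diag {x : BH →L[ℂ] BH} (hx : x ∈ MM) (h0 : 0 ≤ x) (hf : phi x < ⊤) (n : ℕ) :
    ∀ (B : Tm) (s' s : St) (e' e : B.c.E) (t : St), sz t = n → LV B.c (s', e', t) →
      LV B.c (s, e, t) → HasSum (fun j => ⟪JL B (bv B.c s' e' t), ysl x j (JL B (bv B.c s e t))⟫_ℂ)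
        ((ind (s' = s ∧ e' = e) : ℂ) * ((phi x).toReal : ℂ)) := by
  induction n with
  | zero =>
    intro B s' s e' e t ht h' h
    obtain rfl := sz_eq_zero ht
    have h1 := inv_base hx h0 hf B (inv_bv_mem _ h') (inv_bv_mem _ h)
    rwa [inner_bv, ind_congr (Q := s' = s ∧ e' = e) (by simp [h])] at h1
  | succ n ih =>
    intro B s' s e' e t ht h' h
    obtain ⟨γ, t₀, ht₀, rfl⟩ := exists_up ht
    have h1 := ih (B.comp Tm.X) s' s (e', ((sz t₀, sz t₀ + 1) : ℕ × ℕ))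
      (e, ((sz t₀, sz t₀ + 1) : ℕ × ℕ)) t₀ ht₀ (inv_lv h') (inv_lv h)
    have e1 : (fun j => ⟪JL B (bv B.c s' e' (up γ t₀)), ysl x j (JL B (bv B.c s e (up γ t₀)))⟫_ℂ) =
        _ := funext fun j => (inv_blk hx h0 j).lift (ysl_mem hx j) B s' s e' e γ t₀ h' h
    rw [e1, ← ind_congr (P := s' = s ∧ (e', ((sz t₀, sz t₀ + 1) : ℕ × ℕ)) =
      (e, ((sz t₀, sz t₀ + 1) : ℕ × ℕ))) (by simp)]
    exact h1

theorem hasSum_entry {x : BH →L[ℂ] BH} (hx : x ∈ MM) (h0 : 0 ≤ x) (hf : phi x < ⊤) (B : Tm)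
    {q' q : Raw B.c} (hq' : LV B.c q') (hq : LV B.c q) :
    HasSum (fun j => ⟪JL B (bvec (LV B.c) q'), ysl x j (JL B (bvec (LV B.c) q))⟫_ℂ)
      ((ind (q' = q) * (phi x).toReal : ℝ) : ℂ) := by
  obtain ⟨s', e', t'⟩ := q'
  obtain ⟨s, e, t⟩ := q
  by_cases ht : t' = t
  · subst ht
    rw [Complex.ofReal_mul, ind_congr (Q := s' = s ∧ e' = e) (by simp)]
    exact inv_diag hx h0 hf _ B s' s e' e t' rfl hq' hq
  · rw [ind_of_not (by simp [ht]), zero_mul, Complex.ofReal_zero]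
    have e1 : (fun j => ⟪JL B (bvec (LV B.c) (s', e', t')),
        ysl x j (JL B (bvec (LV B.c) (s, e, t)))⟫_ℂ) = fun _ => 0 :=
      funext fun j => inv_blk hx h0 j B s' s e' e t' t ht
    rw [e1]
    exact hasSum_zero

lemma inv_span {x : BH →L[ℂ] BH} (hx : x ∈ MM) (h0 : 0 ≤ x) (hf : phi x < ⊤) (B : Tm)
    {v' v : HL B.c} (hv' : v' ∈ Submodule.span ℂ (Set.range (eb {p // LV B.c p})))
    (hv : v ∈ Submodule.span ℂ (Set.range (eb {p // LV B.c p}))) :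
    HasSum (fun j => ⟪JL B v', ysl x j (JL B v)⟫_ℂ) (⟪v', v⟫_ℂ * ((phi x).toReal : ℂ)) := by
  induction hv using Submodule.span_induction with
  | mem v hv =>
    obtain ⟨q, rfl⟩ := hv
    induction hv' using Submodule.span_induction with
    | mem v' hv' =>
      obtain ⟨q', rfl⟩ := hv'
      have h1 := hasSum_entry hx h0 hf B q'.2 q.2
      rw [bvec_of q'.2, bvec_of q.2, Complex.ofReal_mul,
        ind_congr (Q := q' = q) Subtype.ext_iff.symm] at h1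
      rw [inner_basis]
      exact h1
    | zero => simp
    | add a b _ _ ha hb => simpa only [map_add, inner_add_left, add_mul] using ha.add hb
    | smul c a _ ha =>
      simpa only [map_smul, inner_smul_left, mul_assoc] using ha.mul_left (conj c)
  | zero => simp
  | add a b _ _ ha hb => simpa only [map_add, inner_add_right, add_mul] using ha.add hb
  | smul c a _ ha => simpa only [map_smul, inner_smul_right, mul_assoc] using ha.mul_left c

theorem phi_sliceL {x : BH →L[ℂ] BH} (hx : x ∈ MM) (h0 : 0 ≤ x) (hf : phi x < ⊤) (ξ : BH) :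
    phi (sliceL ξ ξ (Delta x)) = ENNReal.ofReal (‖ξ‖ ^ 2) * phi x := by
  have e1 : phi (sliceL ξ ξ (Delta x)) = ∑' j, ENNReal.ofReal (⟪ξ, ysl x j ξ⟫_ℂ).re :=
    tsum_congr fun j => by rw [inner_sliceL, ysl, inner_sliceR]
  have hc : (((phi x).toNNReal : NNReal) : ℝ≥0∞) = phi x := ENNReal.coe_toNNReal hf.ne
  have h1 := tsum_eq_of_leaves (M := MM) JL JL_iso (fun y hy B => (emb_JL B).red hy)
    (fun y hy h => sep hy h) (ysl x) (ysl_mem hx) (ysl_nonneg h0) (phi x).toNNReal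
    (fun B => (Submodule.span ℂ (Set.range (eb {p // LV B.c p})) : Set (HL B.c)))
    (fun B => Submodule.dense_iff_topologicalClosure_eq_top.2 (eb _).dense_span)
    (fun B v hv => by
      have h2 := inv_span hx h0 hf B hv hv
      have e : (fun j => ⟪JL B v, ysl x j (JL B v)⟫_ℂ) =
          fun j => ((⟪JL B v, ysl x j (JL B v)⟫_ℂ).re : ℂ) :=
        funext fun j => inner_eq_re_of_nonneg (ysl_nonneg h0 j) _
      rw [e, inv_sq, ← Complex.ofReal_mul] at h2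
      rw [tsum_ofReal_of_hasSum (fun j => re_inner_nonneg_of_nonneg (ysl_nonneg h0 j) _) h2,
        ENNReal.ofReal_mul (sq_nonneg _), ENNReal.ofReal_toReal hf.ne, hc]) ξ
  rw [e1, h1, hc]

end Pool.Agent.Lib.MP_d81181_an
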