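import Pool.Agent.Lib.MP_d81181_an.Psi
import Pool.Agent.Lib.MP_d81181_an.Iota

/-! Left invariance for vectors of right degree zero. -/

open scoped Classical InnerProductSpace ComplexConjugate ENNReal
open ContinuousLinearMap

noncomputable section

namespace Pool.Agent.Lib.MP_d81181_an

open Conn

/-- The slices of `Δ x` by the vectors of the Haar weight. -/
def ysl (x : BH →L[ℂ] BH) (j : HI) : BH →L[ℂ] BH := sliceR (eta j) (eta j) (Delta x)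

lemma ysl_mem {x : BH →L[ℂ] BH} (hx : x ∈ MM) (j : HI) : ysl x j ∈ MM := sliceR_mem hx _ _

lemma ysl_nonneg {x : BH →L[ℂ] BH} (h0 : 0 ≤ x) (j : HI) : 0 ≤ ysl x j :=
  cp_nonneg (tmR (eta j)) (Delta_nonneg h0)

lemma inner_ysl (x : BH →L[ℂ] BH) (j : HI) (a' a : BH) :
    ⟪a', ysl x j a⟫_ℂ = ⟪NN (tm a' (eta j)), x (NN (tm a (eta j)))⟫_ℂ := by
  rw [ysl, inner_sliceR, inner_Delta]

lemma inv0_act (B : Conn) (Z : Irr) {π : Z.c.E} (hπ : π ∈ Z.c.ed 0) (ζ : B.E → St → ℂ)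
    (g' : B.E) (hg : g' ∈ B.out 0) (π' : Z.c.E) :
    act (Mor.wl B Z.p) (lft B 0 ζ π) (g', π') = Z.p.k π' π • ζ g' := by
  obtain ⟨hv, hs, ht⟩ := Conn.mem_ed.mp hπ
  obtain ⟨hgv, hgs⟩ := B.mem_out.mp hg
  unfold act
  rw [sum_comp_out, Finset.sum_eq_single π, ht, Finset.sum_eq_single g']
  · rw [Mor.wl_k, ind_of ⟨rfl, hgv, hgs.trans ht.symm⟩]
    simp [lft, ind_of hg]
  · intro g _ hne
    rw [Mor.wl_k, ind_of_not (fun h => hne h.1.symm)]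
    simp
  · intro h; exact absurd hg h
  · intro b _ hb
    refine Finset.sum_eq_zero fun g _ => ?_
    have : ¬ (b = π ∧ g ∈ B.out 0) := fun h => hb h.1
    simp [lft, ind_of_not this]
  · intro h'; exact absurd (Z.c.mem_out.mpr ⟨hv, hs⟩) h'

lemma inv0_act_zero (B : Conn) (Z : Irr) {π : Z.c.E} (hπ : π ∈ Z.c.ed 0) (ζ : B.E → St → ℂ)
    (g' : B.E) (π' : Z.c.E) (h : Z.c.tgt π' ≠ 0) :
    act (Mor.wl B Z.p) (lft B 0 ζ π) (g', π') = 0 := by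
  obtain ⟨-, -, ht⟩ := Conn.mem_ed.mp hπ
  have hk : Z.p.k π' π = 0 := by
    by_contra hne
    exact h ((Z.p.supp hne).2.2.2.trans ht)
  unfold act
  rw [sum_comp_out]
  refine Finset.sum_eq_zero fun b _ => Finset.sum_eq_zero fun g _ => ?_
  by_cases hb : b = π
  · subst hb
    rw [Mor.wl_k, hk]; simp
  · have : ¬ (b = π ∧ g ∈ B.out 0) := fun h => hb h.1
    simp [lft, ind_of_not this]

lemma inv0_bv {B C : Conn} {I : HL (comp B C) →L[ℂ] HT (HL B) (HL C)}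
    (hI : ∀ s g e t, LV (comp B C) (s, (g, e), t) → I (bv (comp B C) s (g, e) t) =
      ((Real.sqrt (B.src g + 1) : ℂ))⁻¹ • ∑ u ∈ lev (B.src g), tm (bv B s g u) (bv C u e t))
    {s : St} {g : B.E} {e : C.E} (h : LV B (s, g, (0, 0))) (he : e ∈ C.ed 0) :
    I (bv (comp B C) s (g, e) (0, 0)) = tm (bv B s g (0, 0)) (bv C (0, 0) e (0, 0)) := by
  obtain ⟨hv, hs, ht⟩ := Conn.mem_ed.mp he
  have h0 : B.src g = 0 := h.2.2.symm
  rw [hI s g e (0, 0) (iota_LV.mpr ⟨⟨h.1, hv, h0.trans ht.symm⟩, h.2.1, hs.symm⟩), h0, lev_zero,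
    Finset.sum_singleton]
  simp

lemma inv0_vec (B : Conn) (Z : Irr) {I : HL (comp B Z.c) →L[ℂ] HT (HL B) (HL Z.c)}
    (hI : ∀ s g e t, LV (comp B Z.c) (s, (g, e), t) → I (bv (comp B Z.c) s (g, e) t) =
      ((Real.sqrt (B.src g + 1) : ℂ))⁻¹ • ∑ u ∈ lev (B.src g), tm (bv B s g u) (bv Z.c u e t))
    {π : Z.c.E} (hπ : π ∈ Z.c.ed 0) (ζ : B.E → St → ℂ) :
    I (vec (comp B Z.c) (act (Mor.wl B Z.p) (lft B 0 ζ π))) = tm (vec B ζ) (ev Z π) := by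
  rw [ev_eq Z hπ, tm_sum_right, vec_apply (comp B Z.c), sum_comp_out, map_sum, Conn.ed,
    Finset.sum_filter]
  refine Finset.sum_congr rfl fun e he => ?_
  split_ifs with ht
  · have he' : e ∈ Z.c.ed 0 := Finset.mem_filter.mpr ⟨he, ht⟩
    rw [ht, map_sum, tm_smul_right, vec_apply, tm_sum_left, Finset.smul_sum]
    refine Finset.sum_congr rfl fun g hg => ?_
    obtain ⟨hgv, hgs⟩ := B.mem_out.mp hg
    rw [map_sum, tm_sum_left, Finset.smul_sum]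
    refine Finset.sum_congr rfl fun s hs => ?_
    rw [map_smul, inv0_act B Z hπ ζ g hg e, inv0_bv hI ⟨hgv, mem_lev.mp hs, hgs.symm⟩ he',
      tm_smul_left, smul_smul, Pi.smul_apply, smul_eq_mul]
  · rw [Finset.sum_eq_zero, map_zero]
    intro g _
    refine Finset.sum_eq_zero fun s _ => ?_
    rw [inv0_act_zero B Z hπ ζ g e ht, Pi.zero_apply, zero_smul]

lemma inv0_eta (x : BH →L[ℂ] BH) (j : HI) (a' a : BH) :
    ⟪a', ysl x j a⟫_ℂ = ((j.1.d / j.1.c.w j.2.1 : ℝ) : ℂ) *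
      ⟪NN (tm a' (JL j.1.t (ev j.1 j.2.1))), x (NN (tm a (JL j.1.t (ev j.1 j.2.1))))⟫_ℂ := by
  rw [inner_ysl, eta, tm_smul_right, tm_smul_right, map_smul, map_smul, map_smul, inner_smul_left,
    inner_smul_right, Complex.conj_ofReal, ← mul_assoc, ← Complex.ofReal_mul,
    Real.mul_self_sqrt (coef_nonneg _ _)]

lemma inv0_G {x : BH →L[ℂ] BH} (hx : x ∈ MM) (h0 : 0 ≤ x) (B : Tm) (Z : Irr) {π : Z.c.E}
    (hπ : π ∈ Z.c.ed 0) (ζ : B.c.E → St → ℂ) :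
    ⟪NN (tm (JL B (vec B.c ζ)) (JL Z.t (ev Z π))),
        x (NN (tm (JL B (vec B.c ζ)) (JL Z.t (ev Z π))))⟫_ℂ =
      (nform x hx h0).G (B.comp Z.t) (act (Mor.wl B.c Z.p) (lft B.c 0 ζ π))
        (act (Mor.wl B.c Z.p) (lft B.c 0 ζ π)) := by
  obtain ⟨I, hi, hw, hI⟩ := exists_iota B.c Z.c
  have h1 := inv0_vec B.c Z hI hπ ζ
  have h2 := (emb_JL (B.comp Z.t)).nat_inner ((emb_JL B).node (emb_JL Z.t)) hw hx
    (I (vec (comp B.c Z.c) (act (Mor.wl B.c Z.p) (lft B.c 0 ζ π))))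
    (vec (comp B.c Z.c) (act (Mor.wl B.c Z.p) (lft B.c 0 ζ π)))
  have h3 : ∀ w, adjoint I (I w) = w := fun w => congrArg (fun Y => Y w) hi
  rw [nform_G]
  refine Eq.trans ?_ (h2.trans ?_)
  · erw [h1]
    simp only [comp_apply, tens_tm]
  · erw [h3]
    rfl

theorem inv_vec {x : BH →L[ℂ] BH} (hx : x ∈ MM) (h0 : 0 ≤ x) (B : Tm) (ζ : B.c.E → St → ℂ) :
    ∑' j, ENNReal.ofReal (⟪JL B (vec B.c ζ), ysl x j (JL B (vec B.c ζ))⟫_ℂ).re =
      ENNReal.ofReal (‖vec B.c ζ‖ ^ 2) * phi x := by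
  have h1 : ∀ j : HI, ENNReal.ofReal (⟪JL B (vec B.c ζ), ysl x j (JL B (vec B.c ζ))⟫_ℂ).re =
      (fun (Z : Irr) (π : Z.c.E) => ENNReal.ofReal (Z.d / Z.c.w π *
        ((nform x hx h0).G (B.comp Z.t) (act (Mor.wl B.c Z.p) (lft B.c 0 ζ π))
          (act (Mor.wl B.c Z.p) (lft B.c 0 ζ π))).re)) j.1 j.2.1 := fun j => by
    rw [inv0_eta, Complex.re_ofReal_mul, inv0_G hx h0 B j.1 j.2.2 ζ]
  have h2 := tsum_HI (fun (Z : Irr) (π : Z.c.E) => ENNReal.ofReal (Z.d / Z.c.w π *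
        ((nform x hx h0).G (B.comp Z.t) (act (Mor.wl B.c Z.p) (lft B.c 0 ζ π))
          (act (Mor.wl B.c Z.p) (lft B.c 0 ζ π))).re))
  refine (tsum_congr h1).trans (h2.trans ?_)
  refine ((nform x hx h0).left B 0 ζ).trans ?_
  rw [norm_vec,
    ENNReal.ofReal_sum_of_nonneg fun e _ => Finset.sum_nonneg fun s _ => sq_nonneg _,
    Finset.sum_mul]
  exact Finset.sum_congr rfl fun e _ => Psi_eq hx h0 _ _

/-- The slices preserve the vectors of right degree zero. -/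
theorem ysl_base {x : BH →L[ℂ] BH} (hx : x ∈ MM) (j : HI) (B : Tm) (s' s : St) (e' e : B.c.E)
    {t' : St} (ht : t' ≠ (0, 0)) :
    ⟪JL B (bv B.c s' e' t'), ysl x j (JL B (bv B.c s e (0, 0)))⟫_ℂ = 0 := by
  obtain ⟨Z, π, hπ⟩ := j
  by_cases h1 : LV B.c (s', e', t')
  swap
  · rw [bv_of_not h1, map_zero, inner_zero_left]
  by_cases h2 : LV B.c (s, e, (0, 0))
  swap
  · rw [bv_of_not h2, map_zero, map_zero, inner_zero_right]
  obtain ⟨I, -, hw, hI⟩ := exists_iota B.c Z.c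
  have e1 : tm (bv B.c s e (0, 0)) (ev Z π) =
      I (∑ π' ∈ Z.c.ed 0, Z.p.k π' π • bv (comp B.c Z.c) s (e, π') (0, 0)) := by
    rw [ev_eq Z hπ, tm_sum_right, map_sum]
    refine Finset.sum_congr rfl fun π' hπ' => ?_
    rw [map_smul, inv0_bv hI h2 hπ', tm_smul_right]
  have e2 : adjoint I (tm (bv B.c s' e' t') (ev Z π)) = 0 := by
    rw [ev_eq Z hπ, tm_sum_right, map_sum]
    refine Finset.sum_eq_zero fun π' _ => ?_
    rw [tm_smul_right, map_smul, iota_adjoint hI h1, ind_of_not ht]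
    simp
  have h3 := (emb_JL (B.comp Z.t)).nat_inner ((emb_JL B).node (emb_JL Z.t)) hw hx
    (tm (bv B.c s' e' t') (ev Z π))
    (∑ π' ∈ Z.c.ed 0, Z.p.k π' π • bv (comp B.c Z.c) s (e, π') (0, 0))
  rw [inv0_eta]
  refine mul_eq_zero_of_right _ ?_
  refine Eq.trans ?_ (h3.trans ?_)
  · erw [← e1]
    simp only [comp_apply, tens_tm]
  · have e3 : JL (B.comp Z.t) (adjoint I (tm (bv B.c s' e' t') (ev Z π))) = 0 := by
      rw [e2]; exact map_zero _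
    exact (congrArg (fun y => ⟪y, _⟫_ℂ) e3).trans (inner_zero_left _)

end Pool.Agent.Lib.MP_d81181_an
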