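import Pool.Agent.Lib.MP_d81181_an.Sph

/-! Simple objects and the resolution of projections. -/

open scoped Classical ComplexConjugate InnerProductSpace

noncomputable section

namespace Pool.Agent.Lib.MP_d81181_an

open Conn

variable {A B : Conn}

/-- Self-adjoint idempotents. -/
def IsProj (p : Mor A A) : Prop := p * p = p ∧ p.adj = p

/-- Minimal projections. -/
def IsMin (E : Mor A A) : Prop := IsProj E ∧ E ≠ 0 ∧ ∀ f : Mor A A, ∃ c : ℂ, E * f * E = c • E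

lemma isProj_one (A : Conn) : IsProj (Mor.one A) := ⟨Mor.one_mul _, Mor.adj_one⟩

lemma IsProj.wl (B : Conn) {p : Mor A A} (hp : IsProj p) : IsProj (Mor.wl B p) :=
  ⟨by rw [Mor.wl_mul, hp.1], by rw [Mor.wl_adj, hp.2]⟩

lemma IsProj.wr {p : Mor A A} (hp : IsProj p) (C : Conn) : IsProj (Mor.wr p C) :=
  ⟨by rw [Mor.wr_mul, hp.1], by rw [Mor.wr_adj, hp.2]⟩

/-- A term with a minimal projection. -/
structure Ob : Type where
  t : Tm
  p : Mor t.c t.c
  min : IsMin p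

/-- Murray-von Neumann equivalence. -/
def Ob.Eqv (Z Z' : Ob) : Prop :=
  ∃ v : Mor Z.t.c Z'.t.c, v.adj * v = Z.p ∧ v * v.adj = Z'.p

instance : Setoid Ob where
  r := Ob.Eqv
  iseqv := by
    refine ⟨fun Z => ⟨Z.p, ?_, ?_⟩, ?_, ?_⟩
    · rw [Z.min.1.2, Z.min.1.1]
    · rw [Z.min.1.2, Z.min.1.1]
    · rintro Z Z' ⟨v, h1, h2⟩
      exact ⟨v.adj, by rw [Mor.adj_adj, h2], by rw [Mor.adj_adj, h1]⟩
    · rintro Z Z' Z'' ⟨v, h1, h2⟩ ⟨u, h3, h4⟩
      refine ⟨u * v, ?_, ?_⟩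
      · rw [Mor.adj_mul, Mor.mul_assoc, ← Mor.mul_assoc u.adj, h3, ← h2, Mor.mul_assoc v,
          ← Mor.mul_assoc v.adj, h1, Z.min.1.1]
      · rw [Mor.adj_mul, Mor.mul_assoc, ← Mor.mul_assoc v, h2, ← h3, Mor.mul_assoc u.adj,
          ← Mor.mul_assoc u, h4, Z''.min.1.1]

/-- Isomorphism classes of simple objects. -/
def Irr : Type := Quotient (inferInstance : Setoid Ob)

namespace Irr

/-- A representative. -/
def ob (Z : Irr) : Ob := Quotient.out Z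

/-- The term of the representative. -/
abbrev t (Z : Irr) : Tm := Z.ob.t

/-- The connection of the representative. -/
abbrev c (Z : Irr) : Conn := Z.ob.t.c

/-- The minimal projection of the representative. -/
abbrev p (Z : Irr) : Mor Z.c Z.c := Z.ob.p

lemma isProj (Z : Irr) : IsProj Z.p := Z.ob.min.1

/-- The dimension. -/
def d (Z : Irr) : ℝ := (tau Z.p).re

lemma irr_tau (Z : Irr) : tau Z.p = ((‖Z.p‖ ^ 2 : ℝ) : ℂ) := by
  have h : ⟪Z.p, Z.p⟫_ℂ = tau Z.p := by rw [mor_inner, Z.isProj.2, Z.isProj.1]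
  rw [← h, inner_self_eq_norm_sq_to_K]
  push_cast
  rfl

lemma tau_p (Z : Irr) : tau Z.p = Z.d := by
  rw [d, irr_tau, Complex.ofReal_re]

lemma d_pos (Z : Irr) : 0 < Z.d := by
  rw [d, irr_tau, Complex.ofReal_re]
  exact pow_pos (norm_pos_iff.2 Z.ob.min.2.1) 2

lemma schur1 (Z : Irr) (f g : Mor Z.c B) (hf : f * Z.p = f) (hg : g * Z.p = g) :
    g.adj * f = (⟪g, f⟫_ℂ / Z.d) • Z.p := by
  obtain ⟨c, hc⟩ := Z.ob.min.2.2 (g.adj * f)
  have h1 : Z.p * g.adj = g.adj := by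
    have := congrArg Mor.adj hg
    rwa [Mor.adj_mul, Z.isProj.2] at this
  have h2 : g.adj * f = c • Z.p := by
    rw [← hc, ← Mor.mul_assoc, h1, Mor.mul_assoc, hf]
  have hd : (Z.d : ℂ) ≠ 0 := Complex.ofReal_ne_zero.2 Z.d_pos.ne'
  rw [mor_inner, h2, tau_smul, tau_p, mul_div_cancel_right₀ _ hd]

lemma schur2 {Z Z' : Irr} (h : Z ≠ Z') (f : Mor Z.c Z'.c) : Z'.p * f * Z.p = 0 := by
  by_contra hu
  have h1 : Z'.p * f * Z.p * Z.p = Z'.p * f * Z.p := by rw [Mor.mul_assoc, Z.isProj.1]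
  have h2 : Z'.p * (Z'.p * f * Z.p) = Z'.p * f * Z.p := by
    rw [← Mor.mul_assoc, ← Mor.mul_assoc, Z'.isProj.1]
  generalize Z'.p * f * Z.p = u at hu h1 h2
  have h3 : u.adj * Z'.p = u.adj := by
    have := congrArg Mor.adj h2
    rwa [Mor.adj_mul, Z'.isProj.2] at this
  have h4 := Z.schur1 u u h1 h1
  have h5 := Z'.schur1 u.adj u.adj h3 h3
  rw [Mor.adj_adj] at h5
  obtain ⟨c, hc, hc0⟩ : ∃ c : ℝ, ⟪u, u⟫_ℂ / Z.d = (c : ℂ) ∧ 0 < c := by
    refine ⟨‖u‖ ^ 2 / Z.d, ?_, div_pos (pow_pos (norm_pos_iff.2 hu) 2) Z.d_pos⟩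
    rw [inner_self_eq_norm_sq_to_K]
    push_cast
    rfl
  rw [hc] at h4
  have h6 : ⟪u.adj, u.adj⟫_ℂ / Z'.d = (c : ℂ) := by
    have e := Mor.mul_assoc u u.adj u
    rw [h4, h5, Mor.smul_mul, Mor.mul_smul, h1, h2] at e
    exact smul_left_injective ℂ hu e
  rw [h6] at h5
  have h7 : (((Real.sqrt c)⁻¹ : ℝ) : ℂ) * ((((Real.sqrt c)⁻¹ : ℝ) : ℂ) * c) = 1 := by
    rw [← Complex.ofReal_mul, ← Complex.ofReal_mul, ← _root_.mul_assoc, ← mul_inv,
      Real.mul_self_sqrt hc0.le, inv_mul_cancel₀ hc0.ne', Complex.ofReal_one]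
  have h8 : Ob.Eqv Z.ob Z'.ob := by
    refine ⟨(((Real.sqrt c)⁻¹ : ℝ) : ℂ) • u, ?_, ?_⟩
    · rw [Mor.adj_smul, Complex.conj_ofReal, Mor.smul_mul, Mor.mul_smul, h4, smul_smul, smul_smul,
        _root_.mul_assoc, h7, one_smul]
    · rw [Mor.adj_smul, Complex.conj_ofReal, Mor.smul_mul, Mor.mul_smul, h5, smul_smul, smul_smul,
        _root_.mul_assoc, h7, one_smul]
  exact h ((Quotient.out_eq Z).symm.trans ((Quotient.sound h8).trans (Quotient.out_eq Z')))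

end Irr

/-- `T` is an orthonormal basis of the space of morphisms `f` with `p f = f = f E`. -/
structure IsONB (E : Mor A A) (p : Mor B B) {n : ℕ} (T : Fin n → Mor A B) : Prop where
  left : ∀ i, p * T i = T i
  right : ∀ i, T i * E = T i
  orth : ∀ i j, ⟪T i, T j⟫_ℂ = (ind (i = j) : ℂ)
  span : ∀ f : Mor A B, p * f = f → f * E = f → f = ∑ i, ⟪T i, f⟫_ℂ • T i

/-- The space of morphisms `f` with `p f = f = f E`. -/
def irr_sub (E : Mor A A) (p : Mor B B) : Submodule ℂ (Mor A B) where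
  carrier := {f | p * f = f ∧ f * E = f}
  add_mem' := fun ha hb => ⟨by rw [Mor.mul_add, ha.1, hb.1], by rw [Mor.add_mul, ha.2, hb.2]⟩
  zero_mem' := ⟨Mor.mul_zero _, Mor.zero_mul _⟩
  smul_mem' := fun c f hf => ⟨by rw [Mor.mul_smul, hf.1], by rw [Mor.smul_mul, hf.2]⟩

lemma exists_onb (E : Mor A A) (p : Mor B B) :
    ∃ (n : ℕ) (T : Fin n → Mor A B), IsONB E p T := by
  let b := stdOrthonormalBasis ℂ (irr_sub E p)
  refine ⟨_, fun i => (b i : Mor A B), fun i => (b i).2.1, fun i => (b i).2.2, fun i j => ?_,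
    fun f h1 h2 => ?_⟩
  · have := orthonormal_iff_ite.1 b.orthonormal i j
    rw [Submodule.coe_inner] at this
    rw [this]
    by_cases hij : i = j <;> simp [ind, hij]
  · have := congrArg Subtype.val (b.sum_repr' ⟨f, h1, h2⟩)
    simp only [Submodule.coe_sum, Submodule.coe_smul, Submodule.coe_inner] at this
    exact this.symm

lemma irr_flat_sum {Z Z' : Conn} {n : ℕ} (c : Fin n → ℂ) (T : Fin n → Mor Z' (comp B Z)) :
    (∑ i, c i • T i).flat = ∑ i, c i • (T i).flat := by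
  refine Mor.ext fun π q => ?_
  obtain ⟨g, π'⟩ := q
  simp only [Mor.flat_k, Mor.sum_k, Mor.smul_k, Finset.mul_sum, mul_left_comm]

lemma irr_sharp_sum {C Z Z' : Conn} {n : ℕ} (c : Fin n → ℂ) (T : Fin n → Mor Z' (comp Z C)) :
    (∑ i, c i • T i).sharp = ∑ i, c i • (T i).sharp := by
  refine Mor.ext fun π q => ?_
  obtain ⟨π', g⟩ := q
  simp only [Mor.sharp_k, Mor.sum_k, Mor.smul_k, Finset.mul_sum, mul_left_comm]

lemma IsONB.flat {Z Z' : Conn} (hZ' : Sph Z') (hBZ : Sph (comp B Z)) {E : Mor Z Z}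
    {E' : Mor Z' Z'} (hE : IsProj E) (hE' : IsProj E') {n : ℕ} {T : Fin n → Mor Z' (comp B Z)}
    (hT : IsONB E' (Mor.wl B E) T) :
    IsONB E (Mor.wl B.conj E') (fun i => (T i).flat.adj) := by
  have k1 : ∀ S : Mor Z' (comp B Z), Mor.wl B.conj E' * S.flat.adj = (S * E').flat.adj :=
    fun S => by rw [Mor.flat_mul, Mor.adj_mul, Mor.wl_adj, hE'.2]
  have k2 : ∀ S : Mor Z' (comp B Z), S.flat.adj * E = (Mor.wl B E * S).flat.adj :=
    fun S => by rw [Mor.flat_wl_mul, Mor.adj_mul, hE.2]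
  have inj : ∀ S S' : Mor Z' (comp B Z), S.flat.adj = S'.flat.adj → S = S' := fun S S' h => by
    rw [← Mor.flat_adj_unflat S, h, Mor.flat_adj_unflat]
  refine ⟨fun i => by rw [k1, hT.right], fun i => by rw [k2, hT.left], fun i j => ?_,
    fun f h1 h2 => ?_⟩
  · rw [inner_flat_adj hZ' hBZ, hT.orth, ind_congr eq_comm]
  · obtain ⟨S, rfl⟩ : ∃ S : Mor Z' (comp B Z), S.flat.adj = f := ⟨_, Mor.unflat_flat_adj f⟩
    rw [k1] at h1
    rw [k2] at h2
    have e := congrArg (fun S : Mor Z' (comp B Z) => S.flat.adj)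
      (hT.span S (inj _ _ h2) (inj _ _ h1))
    simp only [irr_flat_sum, Mor.adj_sum, Mor.adj_smul, inner_conj_symm] at e
    simp only [inner_flat_adj hZ' hBZ]
    exact e

lemma IsONB.sharp {C Z Z' : Conn} (hZ : Sph Z) (hZ' : Sph Z') (hZC : Sph (comp Z C))
    {E : Mor Z Z} {E' : Mor Z' Z'} (hE : IsProj E) (hE' : IsProj E') {n : ℕ}
    {T : Fin n → Mor Z' (comp Z C)} (hT : IsONB E' (Mor.wr E C) T) :
    IsONB E (Mor.wr E' C.conj) (fun i => (T i).sharp.adj) := by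
  have k1 : ∀ S : Mor Z' (comp Z C), Mor.wr E' C.conj * S.sharp.adj = (S * E').sharp.adj :=
    fun S => by rw [Mor.sharp_mul, Mor.adj_mul, Mor.wr_adj, hE'.2]
  have k2 : ∀ S : Mor Z' (comp Z C), S.sharp.adj * E = (Mor.wr E C * S).sharp.adj :=
    fun S => by rw [Mor.sharp_wr_mul, Mor.adj_mul, hE.2]
  have inj : ∀ S S' : Mor Z' (comp Z C), S.sharp.adj = S'.sharp.adj → S = S' := fun S S' h => by
    rw [← Mor.sharp_adj_unsharp S, h, Mor.sharp_adj_unsharp]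
  refine ⟨fun i => by rw [k1, hT.right], fun i => by rw [k2, hT.left], fun i j => ?_,
    fun f h1 h2 => ?_⟩
  · rw [inner_sharp_adj hZ hZ' hZC, hT.orth, ind_congr eq_comm]
  · obtain ⟨S, rfl⟩ : ∃ S : Mor Z' (comp Z C), S.sharp.adj = f := ⟨_, Mor.unsharp_sharp_adj f⟩
    rw [k1] at h1
    rw [k2] at h2
    have e := congrArg (fun S : Mor Z' (comp Z C) => S.sharp.adj)
      (hT.span S (inj _ _ h2) (inj _ _ h1))
    simp only [irr_sharp_sum, Mor.adj_sum, Mor.adj_smul, inner_conj_symm] at e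
    simp only [inner_sharp_adj hZ hZ' hZC]
    exact e

end Pool.Agent.Lib.MP_d81181_an
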