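import Pool.Agent.Lib.MP_d81181_an.Rep
import Pool.Agent.Lib.MP_d81181_an.Fock

/-! The unitary `2 × 2` matrix of operators attached to a connection. -/

open scoped Classical InnerProductSpace ComplexConjugate
open ContinuousLinearMap

noncomputable section

namespace Pool.Agent.Lib.MP_d81181_an

open Conn

/-- Raw indices `(s, e, t)`. -/
abbrev Raw (B : Conn) : Type := St × B.E × St

/-- Valid indices: `e : a → c` valid, `s` of degree `c`, `t` of degree `a`. -/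
def LV (B : Conn) (p : Raw B) : Prop :=
  B.valid p.2.1 ∧ sz p.1 = B.tgt p.2.1 ∧ sz p.2.2 = B.src p.2.1

/-- The Hilbert space `⊕_{e : a → c} V_c ⊗ conj V_a`. -/
abbrev HL (B : Conn) : Type := L2 {p // LV B p}

/-- Basis vectors. -/
def bv (B : Conn) (s : St) (e : B.E) (t : St) : HL B := bvec (LV B) (s, e, t)

lemma inner_bv (B : Conn) (s' s : St) (e' e : B.E) (t' t : St) :
    ⟪bv B s' e' t', bv B s e t⟫_ℂ = (ind ((s' = s ∧ e' = e ∧ t' = t) ∧ LV B (s, e, t)) : ℂ) := by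
  rw [bv, bv, inner_bvec]; simp only [Prod.mk.injEq]

lemma bv_of_not {B : Conn} {s : St} {e : B.E} {t : St} (h : ¬ LV B (s, e, t)) : bv B s e t = 0 :=
  bvec_of_not h

lemma bv_ext {B : Conn} {F : Type} [NormedAddCommGroup F] [InnerProductSpace ℂ F]
    {S T : HL B →L[ℂ] F} (h : ∀ s e t, LV B (s, e, t) → S (bv B s e t) = T (bv B s e t)) :
    S = T := bvec_ext fun r hr => h r.1 r.2.1 r.2.2 hr

lemma bv_vec_ext {B : Conn} {v w : HL B}
    (h : ∀ s e t, LV B (s, e, t) → ⟪bv B s e t, v⟫_ℂ = ⟪bv B s e t, w⟫_ℂ) : v = w :=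
  bvec_vec_ext fun r hr => h r.1 r.2.1 r.2.2 hr

/-- The valid indices whose edge starts at `a`. -/
def fibO (B : Conn) (a : ℕ) : Finset (Raw B) :=
  (B.out a).biUnion fun e => lev (B.tgt e) ×ˢ ({e} ×ˢ lev a)

/-- The valid indices whose edge ends at `c`. -/
def fibI (B : Conn) (c : ℕ) : Finset (Raw B) :=
  (B.inn c).biUnion fun e => lev c ×ˢ ({e} ×ˢ lev (B.src e))

/-- The valid indices whose edge starts at a neighbour of `a`. -/
def nearO (B : Conn) (a : ℕ) : Finset (Raw B) := (nb a).biUnion (fibO B)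

/-- The valid indices whose edge ends at a neighbour of `c`. -/
def nearI (B : Conn) (c : ℕ) : Finset (Raw B) := (nb c).biUnion (fibI B)

lemma mem_fibO {B : Conn} {a : ℕ} {p : Raw B} : p ∈ fibO B a ↔ LV B p ∧ B.src p.2.1 = a := by
  simp only [fibO, LV, Finset.mem_biUnion, Finset.mem_product, Finset.mem_singleton, mem_lev,
    mem_out]
  constructor
  · rintro ⟨e, ⟨h1, h2⟩, h3, rfl, h4⟩
    exact ⟨⟨h1, h3, h4.trans h2.symm⟩, h2⟩
  · rintro ⟨⟨h1, h2, h3⟩, h4⟩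
    exact ⟨_, ⟨h1, h4⟩, h2, rfl, h3.trans h4⟩
lemma mem_fibI {B : Conn} {c : ℕ} {p : Raw B} : p ∈ fibI B c ↔ LV B p ∧ B.tgt p.2.1 = c := by
  simp only [fibI, LV, Finset.mem_biUnion, Finset.mem_product, Finset.mem_singleton, mem_lev,
    mem_inn]
  constructor
  · rintro ⟨e, ⟨h1, h2⟩, h3, rfl, h4⟩
    exact ⟨⟨h1, h3.trans h2.symm, h4⟩, h2⟩
  · rintro ⟨⟨h1, h2, h3⟩, h4⟩
    exact ⟨_, ⟨h1, h4⟩, h2.trans h4, rfl, h3⟩
lemma mem_nearO {B : Conn} {a : ℕ} {p : Raw B} :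
    p ∈ nearO B a ↔ LV B p ∧ Adj a (B.src p.2.1) := by
  simp only [nearO, Finset.mem_biUnion, mem_fibO, mem_nb]
  constructor
  · rintro ⟨b, h1, h2, rfl⟩
    exact ⟨h2, h1⟩
  · rintro ⟨h1, h2⟩
    exact ⟨_, h2, h1, rfl⟩
lemma mem_nearI {B : Conn} {c : ℕ} {p : Raw B} :
    p ∈ nearI B c ↔ LV B p ∧ Adj c (B.tgt p.2.1) := by
  simp only [nearI, Finset.mem_biUnion, mem_fibI, mem_nb]
  constructor
  · rintro ⟨b, h1, h2, rfl⟩
    exact ⟨h2, h1⟩
  · rintro ⟨h1, h2⟩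
    exact ⟨_, h2, h1, rfl⟩

lemma leaf_sum {M : Type*} [AddCommMonoid M] (B : Conn) (S : Finset B.E) (X Y : B.E → Finset St)
    (F : Raw B → M) : ∑ p ∈ S.biUnion fun e => X e ×ˢ ({e} ×ˢ Y e), F p =
      ∑ e ∈ S, ∑ s ∈ X e, ∑ t ∈ Y e, F (s, e, t) := by
  rw [Finset.sum_biUnion]
  · refine Finset.sum_congr rfl fun e _ => ?_
    rw [Finset.sum_product]
    refine Finset.sum_congr rfl fun s _ => ?_
    rw [Finset.sum_product, Finset.sum_singleton]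
  · intro e _ e' _ h
    refine Finset.disjoint_left.2 fun p hp hp' => h ?_
    simp only [Finset.mem_product, Finset.mem_singleton] at hp hp'
    exact hp.2.1.symm.trans hp'.2.1

lemma sum_fibO {M : Type*} [AddCommMonoid M] (B : Conn) (a : ℕ) (F : Raw B → M) :
    ∑ p ∈ fibO B a, F p = ∑ e ∈ B.out a, ∑ s ∈ lev (B.tgt e), ∑ t ∈ lev a, F (s, e, t) :=
  leaf_sum B _ (fun e => lev (B.tgt e)) (fun _ => lev a) F
lemma sum_fibI {M : Type*} [AddCommMonoid M] (B : Conn) (c : ℕ) (F : Raw B → M) :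
    ∑ p ∈ fibI B c, F p = ∑ e ∈ B.inn c, ∑ s ∈ lev c, ∑ t ∈ lev (B.src e), F (s, e, t) :=
  leaf_sum B _ (fun _ => lev c) (fun e => lev (B.src e)) F
lemma sum_nearO {M : Type*} [AddCommMonoid M] (B : Conn) (a : ℕ) (F : Raw B → M) :
    ∑ p ∈ nearO B a, F p =
      ∑ a' ∈ nb a, ∑ e ∈ B.out a', ∑ s ∈ lev (B.tgt e), ∑ t ∈ lev a', F (s, e, t) := by
  rw [nearO, Finset.sum_biUnion]
  · exact Finset.sum_congr rfl fun a' _ => sum_fibO B a' F
  · intro b _ b' _ h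
    exact Finset.disjoint_left.2 fun p hp hp' =>
      h ((mem_fibO.1 hp).2.symm.trans (mem_fibO.1 hp').2)
lemma sum_nearI {M : Type*} [AddCommMonoid M] (B : Conn) (c : ℕ) (F : Raw B → M) :
    ∑ p ∈ nearI B c, F p =
      ∑ c' ∈ nb c, ∑ e ∈ B.inn c', ∑ s ∈ lev c', ∑ t ∈ lev (B.src e), F (s, e, t) := by
  rw [nearI, Finset.sum_biUnion]
  · exact Finset.sum_congr rfl fun c' _ => sum_fibI B c' F
  · intro b _ b' _ h
    exact Finset.disjoint_left.2 fun p hp hp' =>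
      h ((mem_fibI.1 hp).2.symm.trans (mem_fibI.1 hp').2)

/-- The matrix coefficients: Clebsch-Gordan, connection, Clebsch-Gordan. -/
def Vk (B : Conn) (α' α : Fin 2) (q p : Raw B) : ℝ :=
  A q.1 p.1 α * A q.2.2 p.2.2 α' * B.x q.2.1 p.2.1 / Real.sqrt ((sz p.1 + 1) * (sz q.2.2 + 1))

lemma Vk_supp {B : Conn} {α' α : Fin 2} {q p : Raw B} (h : Vk B α' α q p ≠ 0) :
    Adj (B.src q.2.1) (B.src p.2.1) ∧ Adj (B.tgt q.2.1) (B.tgt p.2.1) := by
  have hx : B.x q.2.1 p.2.1 ≠ 0 := fun h0 => h (by simp [Vk, h0])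
  exact (B.x_supp hx).2.2

lemma leaf_sqrt (a b : ℕ) :
    Real.sqrt (((a : ℝ) + 1) * (b + 1)) = Real.sqrt (a + 1) * Real.sqrt (b + 1) :=
  Real.sqrt_mul (by positivity) _

lemma leaf_sq (a : ℕ) : Real.sqrt ((a : ℝ) + 1) ^ 2 = a + 1 := Real.sq_sqrt (by positivity)

lemma leaf_ne (a : ℕ) : Real.sqrt ((a : ℝ) + 1) ≠ 0 := by positivity

lemma leaf_ind {P Q : Prop} {y : ℝ} (h : y ≠ 0 → Q) : ind (P ∧ Q) * y = ind P * y := by
  by_cases hy : y = 0
  · rw [hy, mul_zero, mul_zero]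
  · rw [ind_congr (and_iff_left (h hy))]

lemma Vk_col (B : Conn) (α β : Fin 2) {p p' : Raw B} (hp : LV B p) (hp' : LV B p') :
    ∑ γ, ∑ q ∈ nearI B (B.tgt p.2.1), Vk B γ α q p * Vk B γ β q p' = ind (p = p' ∧ α = β) := by
  obtain ⟨s, e, t⟩ := p
  obtain ⟨s₁, e₁, t₁⟩ := p'
  obtain ⟨h1, h2, h3⟩ : B.valid e ∧ sz s = B.tgt e ∧ sz t = B.src e := hp
  obtain ⟨-, h5, h6⟩ : B.valid e₁ ∧ sz s₁ = B.tgt e₁ ∧ sz t₁ = B.src e₁ := hp'
  have step : ∀ g s', ∑ t' ∈ lev (B.src g), ∑ γ,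
      Vk B γ α (s', g, t') (s, e, t) * Vk B γ β (s', g, t') (s₁, e₁, t₁) =
      A s' s α * A s' s₁ β * (Real.sqrt (sz s + 1) * Real.sqrt (sz s₁ + 1))⁻¹ * ind (t = t₁) *
        (B.x g e * B.x g e₁) := by
    intro g s'
    rw [Finset.sum_comm, mul_assoc _ (ind _), ← leaf_ind (Q := Adj (B.src g) (sz t)) fun h => by
      rw [h3]; exact (B.x_supp (left_ne_zero_of_mul h)).2.2.1]
    have hA := A3 (B.src g) t t₁
    have e1 : ∑ γ, ∑ t' ∈ lev (B.src g),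
        Vk B γ α (s', g, t') (s, e, t) * Vk B γ β (s', g, t') (s₁, e₁, t₁) =
        A s' s α * A s' s₁ β * (Real.sqrt (sz s + 1) * Real.sqrt (sz s₁ + 1))⁻¹ *
          (B.x g e * B.x g e₁) * ((B.src g : ℝ) + 1)⁻¹ *
          ∑ γ, ∑ t' ∈ lev (B.src g), A t' t γ * A t' t₁ γ := by
      simp only [Finset.mul_sum]
      refine Finset.sum_congr rfl fun γ _ => Finset.sum_congr rfl fun t' ht' => ?_
      simp only [Vk, leaf_sqrt, mem_lev.1 ht']
      have := leaf_ne (sz s)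
      have := leaf_ne (sz s₁)
      have := leaf_ne (B.src g)
      conv_rhs => rw [← leaf_sq (B.src g)]
      field_simp
    rw [e1, hA]
    field_simp
  rw [Finset.sum_comm, sum_nearI]
  simp only [step]
  by_cases ht : t = t₁
  swap
  · simp [ht]
  subst ht
  have e2 : ∀ c' ∈ nb (B.tgt e), ∑ g ∈ B.inn c', ∑ s' ∈ lev c',
      A s' s α * A s' s₁ β * (Real.sqrt (sz s + 1) * Real.sqrt (sz s₁ + 1))⁻¹ * ind (t = t) *
        (B.x g e * B.x g e₁) = (Real.sqrt (sz s + 1) * Real.sqrt (sz s₁ + 1))⁻¹ * ind (e = e₁) *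
          ∑ s' ∈ lev c', A s' s α * A s' s₁ β := by
    intro c' hc'
    rw [Finset.sum_comm, Finset.mul_sum]
    refine Finset.sum_congr rfl fun s' _ => ?_
    rw [← Finset.mul_sum, B.U1a c' e e₁ (h3.symm.trans h6), ind_of rfl,
      ind_congr (and_iff_left ⟨h1, (mem_nb.1 hc').symm⟩)]
    ring
  rw [Finset.sum_congr rfl e2, ← Finset.mul_sum]
  by_cases he : e = e₁
  swap
  · simp [he]
  subst he
  rw [A1 h2 h5, h2, h5, ← sq, leaf_sq, ind_of rfl]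
  simp only [Prod.mk.injEq, and_true]
  field_simp

lemma Vk_row (B : Conn) (α β : Fin 2) {q q' : Raw B} (hq : LV B q) (hq' : LV B q') :
    ∑ γ, ∑ p ∈ nearO B (B.src q.2.1), Vk B α γ q p * Vk B β γ q' p = ind (q = q' ∧ α = β) := by
  obtain ⟨s, g, t⟩ := q
  obtain ⟨s₁, g₁, t₁⟩ := q'
  obtain ⟨h1, h2, h3⟩ : B.valid g ∧ sz s = B.tgt g ∧ sz t = B.src g := hq
  obtain ⟨-, h5, h6⟩ : B.valid g₁ ∧ sz s₁ = B.tgt g₁ ∧ sz t₁ = B.src g₁ := hq'
  have step : ∀ e t', ∑ s' ∈ lev (B.tgt e), ∑ γ,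
      Vk B α γ (s, g, t) (s', e, t') * Vk B β γ (s₁, g₁, t₁) (s', e, t') =
      A t t' α * A t₁ t' β * (Real.sqrt (sz t + 1) * Real.sqrt (sz t₁ + 1))⁻¹ * ind (s = s₁) *
        (B.x g e * B.x g₁ e) := by
    intro e t'
    rw [Finset.sum_comm, mul_assoc _ (ind _), ← leaf_ind (Q := Adj (B.tgt e) (sz s)) fun h => by
      rw [h2]; exact (B.x_supp (left_ne_zero_of_mul h)).2.2.2.symm]
    have hA := A2 (B.tgt e) s s₁
    have e1 : ∑ γ, ∑ s' ∈ lev (B.tgt e),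
        Vk B α γ (s, g, t) (s', e, t') * Vk B β γ (s₁, g₁, t₁) (s', e, t') =
        A t t' α * A t₁ t' β * (Real.sqrt (sz t + 1) * Real.sqrt (sz t₁ + 1))⁻¹ *
          (B.x g e * B.x g₁ e) * ((B.tgt e : ℝ) + 1)⁻¹ *
          ∑ γ, ∑ s' ∈ lev (B.tgt e), A s s' γ * A s₁ s' γ := by
      simp only [Finset.mul_sum]
      refine Finset.sum_congr rfl fun γ _ => Finset.sum_congr rfl fun s' hs' => ?_
      simp only [Vk, leaf_sqrt, mem_lev.1 hs']
      have := leaf_ne (sz t)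
      have := leaf_ne (sz t₁)
      have := leaf_ne (B.tgt e)
      conv_rhs => rw [← leaf_sq (B.tgt e)]
      field_simp
    rw [e1, hA]
    field_simp
  rw [Finset.sum_comm, sum_nearO]
  have e2 : ∀ a ∈ nb (B.src g), ∑ e ∈ B.out a, ∑ s' ∈ lev (B.tgt e), ∑ t' ∈ lev a, ∑ γ,
      Vk B α γ (s, g, t) (s', e, t') * Vk B β γ (s₁, g₁, t₁) (s', e, t') =
      (Real.sqrt (sz t + 1) * Real.sqrt (sz t₁ + 1))⁻¹ * ind (s = s₁ ∧ g = g₁) *
          ∑ t' ∈ lev a, A t t' α * A t₁ t' β := by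
    intro a ha
    rw [Finset.sum_congr rfl fun e _ => Finset.sum_comm]
    simp only [step]
    rw [Finset.sum_comm, Finset.mul_sum]
    refine Finset.sum_congr rfl fun t' _ => ?_
    by_cases hs : s = s₁
    swap
    · simp [hs]
    subst hs
    rw [← Finset.mul_sum, B.U1b a g g₁ (h2.symm.trans h5), ind_of rfl,
      ind_congr (and_iff_left ⟨h1, (mem_nb.1 ha).symm⟩), ind_congr (and_iff_right rfl)]
    ring
  rw [Finset.sum_congr rfl e2, ← Finset.mul_sum]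
  by_cases he : s = s₁ ∧ g = g₁
  swap
  · rw [ind_of_not he, ind_of_not, mul_zero, zero_mul]
    simp only [Prod.mk.injEq]
    tauto
  obtain ⟨rfl, rfl⟩ := he
  rw [A4 h3 h6, h3, h6, ← sq, leaf_sq, ind_of ⟨rfl, rfl⟩]
  simp only [Prod.mk.injEq, true_and]
  field_simp

/-- The modular weight of an index. -/
def Qw (B : Conn) (p : Raw B) : ℝ := B.w p.2.1 * (B.src p.2.1 + 1) / (B.tgt p.2.1 + 1)

lemma Qw_pos (B : Conn) (p : Raw B) : 0 < Qw B p := by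
  have := B.w_pos p.2.1
  unfold Qw; positivity

lemma Vk_tr (B : Conn) (i i₀ : Fin 2) {q q' : Raw B} (hq : LV B q) (hq' : LV B q') :
    ∑ k, ∑ p ∈ nearI B (B.tgt q.2.1), Vk B k i q' p * ((Qw B p)⁻¹ * Vk B k i₀ q p) =
      (Qw B q)⁻¹ * ind (q' = q ∧ i = i₀) := by
  obtain ⟨s, g, t⟩ := q
  obtain ⟨s₁, g₁, t₁⟩ := q'
  obtain ⟨h1, h2, h3⟩ : B.valid g ∧ sz s = B.tgt g ∧ sz t = B.src g := hq
  obtain ⟨-, h5, h6⟩ : B.valid g₁ ∧ sz s₁ = B.tgt g₁ ∧ sz t₁ = B.src g₁ := hq'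
  have step : ∀ e s', sz s' = B.tgt e → ∑ t' ∈ lev (B.src e), ∑ k,
      Vk B k i (s₁, g₁, t₁) (s', e, t') *
        ((Qw B (s', e, t'))⁻¹ * Vk B k i₀ (s, g, t) (s', e, t')) =
      A s₁ s' i * A s s' i₀ * (Real.sqrt (sz t + 1) * Real.sqrt (sz t₁ + 1))⁻¹ * ind (t₁ = t) *
        ((B.w e)⁻¹ * (B.x g e * B.x g₁ e)) := by
    intro e s' hs'
    rw [Finset.sum_comm, mul_assoc _ (ind _), ← leaf_ind (Q := Adj (B.src e) (sz t₁)) fun h => by
      rw [h6]; exact (B.x_supp (right_ne_zero_of_mul (right_ne_zero_of_mul h))).2.2.1.symm]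
    have hA := A2 (B.src e) t₁ t
    have e1 : ∑ k, ∑ t' ∈ lev (B.src e), Vk B k i (s₁, g₁, t₁) (s', e, t') *
        ((Qw B (s', e, t'))⁻¹ * Vk B k i₀ (s, g, t) (s', e, t')) =
        A s₁ s' i * A s s' i₀ * (Real.sqrt (sz t + 1) * Real.sqrt (sz t₁ + 1))⁻¹ *
          ((B.w e)⁻¹ * (B.x g e * B.x g₁ e)) * ((B.src e : ℝ) + 1)⁻¹ *
          ∑ k, ∑ t' ∈ lev (B.src e), A t₁ t' k * A t t' k := by
      simp only [Finset.mul_sum]
      refine Finset.sum_congr rfl fun γ _ => Finset.sum_congr rfl fun t' _ => ?_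
      simp only [Vk, Qw, leaf_sqrt, hs']
      have := leaf_ne (sz t)
      have := leaf_ne (sz t₁)
      have := leaf_ne (B.tgt e)
      have := B.w_ne e
      have h7 := leaf_sq (B.tgt e)
      generalize Real.sqrt ((B.tgt e : ℝ) + 1) = r at *
      rw [← h7]
      field_simp
    rw [e1, hA]
    field_simp
  rw [Finset.sum_comm, sum_nearI]
  have e2 : ∀ c ∈ nb (B.tgt g), ∑ e ∈ B.inn c, ∑ s' ∈ lev c, ∑ t' ∈ lev (B.src e), ∑ k,
      Vk B k i (s₁, g₁, t₁) (s', e, t') *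
        ((Qw B (s', e, t'))⁻¹ * Vk B k i₀ (s, g, t) (s', e, t')) =
      (Real.sqrt (sz t + 1) * Real.sqrt (sz t₁ + 1))⁻¹ * (B.w g)⁻¹ * ind (g = g₁ ∧ t₁ = t) *
          ∑ s' ∈ lev c, A s₁ s' i * A s s' i₀ := by
    intro c hc
    rw [Finset.sum_congr rfl fun e he => Finset.sum_congr rfl fun s' hs' =>
      step e s' ((mem_lev.1 hs').trans (B.tgt_of_inn he).symm), Finset.sum_comm, Finset.mul_sum]
    refine Finset.sum_congr rfl fun s' _ => ?_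
    by_cases ht : t₁ = t
    swap
    · simp [ht]
    subst ht
    rw [← Finset.mul_sum, B.U2b c g g₁ (h3.symm.trans h6), ind_of rfl,
      ind_congr (and_iff_left ⟨h1, (mem_nb.1 hc).symm⟩), ind_congr (and_iff_left rfl)]
    ring
  rw [Finset.sum_congr rfl e2, ← Finset.mul_sum]
  by_cases he : g = g₁ ∧ t₁ = t
  swap
  · rw [ind_of_not he, ind_of_not, mul_zero, zero_mul, mul_zero]
    simp only [Prod.mk.injEq]
    tauto
  obtain ⟨rfl, rfl⟩ := he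
  rw [A4 h5 h2, h3, ← sq, leaf_sq, ind_of ⟨rfl, rfl⟩]
  have := B.w_ne g
  simp only [Prod.mk.injEq, and_true, Qw]
  field_simp

end Pool.Agent.Lib.MP_d81181_an
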