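import Pool.Agent.Lib.MP_d81181_an.Leaf

/-! The leaf representation. -/

open scoped Classical InnerProductSpace ComplexConjugate
open ContinuousLinearMap

noncomputable section

namespace Pool.Agent.Lib.MP_d81181_an

open Conn

/-- The columns of the kernel. -/
def leafV_col (B : Conn) (α' α : Fin 2) (p : Raw B) : HL B :=
  ∑ q ∈ nearI B (B.tgt p.2.1), (Vk B α' α q p : ℂ) • bvec (LV B) q

lemma leafV_inner_col (B : Conn) (α' α : Fin 2) {q : Raw B} (hq : LV B q) (p : Raw B) :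
    ⟪bvec (LV B) q, leafV_col B α' α p⟫_ℂ = (Vk B α' α q p : ℂ) := by
  rw [leafV_col, inner_bvec_sum]
  by_cases h : Vk B α' α q p = 0
  · simp [h]
  · rw [ind_of ⟨mem_nearI.mpr ⟨hq, (Vk_supp h).2.symm⟩, hq⟩]
    simp

lemma leafV_gram (B : Conn) (α β : Fin 2) {p p' : Raw B} (hp : LV B p) (hp' : LV B p') :
    ∑ γ, ⟪leafV_col B γ α p, leafV_col B γ β p'⟫_ℂ = (ind (p = p' ∧ α = β) : ℂ) := by
  rw [← Vk_col B α β hp hp']
  push_cast
  refine Finset.sum_congr rfl fun γ _ => ?_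
  conv_lhs => rw [leafV_col, sum_inner]
  refine Finset.sum_congr rfl fun q hq => ?_
  rw [inner_smul_left, leafV_inner_col B γ β (mem_nearI.mp hq).1, Complex.conj_ofReal]

lemma leafV_inner_adj {B : Conn} {T : HL B →L[ℂ] HL B} {q p : Raw B} {r : ℝ}
    (h : ⟪bvec (LV B) q, T (bvec (LV B) p)⟫_ℂ = (r : ℂ)) :
    ⟪bvec (LV B) p, adjoint T (bvec (LV B) q)⟫_ℂ = (r : ℂ) := by
  rw [adjoint_inner_right, ← inner_conj_symm, h, Complex.conj_ofReal]

theorem exists_VL (B : Conn) : ∃ V : Fin 2 → Fin 2 → HL B →L[ℂ] HL B, IsUni V ∧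
    ∀ α' α q p, LV B q → LV B p →
      ⟪bvec (LV B) q, V α' α (bvec (LV B) p)⟫_ℂ = (Vk B α' α q p : ℂ) := by
  have h1 : ∀ α' α : Fin 2, ∃ T : HL B →L[ℂ] HL B,
      ∀ p, LV B p → T (bvec (LV B) p) = leafV_col B α' α p := fun α' α => by
    refine exists_op_bvec (LV B) (leafV_col B α' α) (leafV_col B (bar α') α) fun r q hr hq => ?_
    have h2 := leafV_gram B α α hr hq
    rw [Fin.sum_univ_two, ind_congr (and_iff_left rfl)] at h2
    rw [← h2]
    fin_cases α'
    · rfl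
    · exact add_comm _ _
  choose V hV using h1
  have hk : ∀ α' α q p, LV B q → LV B p →
      ⟪bvec (LV B) q, V α' α (bvec (LV B) p)⟫_ℂ = (Vk B α' α q p : ℂ) := fun α' α q p hq hp => by
    rw [hV α' α p hp, leafV_inner_col B α' α hq]
  refine ⟨V, ⟨fun α β => ?_, fun α β => ?_⟩, hk⟩
  · refine bvec_ext fun p hp => bvec_vec_ext fun p' hp' => ?_
    rw [_root_.sum_apply, inner_sum, _root_.smul_apply,
      one_apply_eq_self, inner_smul_right, inner_bvec, ← Complex.ofReal_mul, ← ind_and,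
      ind_congr (show (α = β ∧ p' = p ∧ LV B p) ↔ (p' = p ∧ α = β) by tauto),
      ← leafV_gram B α β hp' hp]
    refine Finset.sum_congr rfl fun γ _ => ?_
    rw [mul_apply_eq_comp, star_eq_adjoint, adjoint_inner_right, hV _ _ _ hp, hV _ _ _ hp']
  · refine bvec_ext fun q hq => bvec_vec_ext fun q' hq' => ?_
    rw [_root_.sum_apply, inner_sum, _root_.smul_apply,
      one_apply_eq_self, inner_smul_right, inner_bvec, ← Complex.ofReal_mul, ← ind_and,
      ind_congr (show (α = β ∧ q' = q ∧ LV B q) ↔ (q' = q ∧ α = β) by tauto),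
      ← Vk_row B α β hq' hq, Complex.ofReal_sum]
    refine Finset.sum_congr rfl fun γ _ => ?_
    rw [Complex.ofReal_sum, mul_apply_eq_comp, star_eq_adjoint, ← adjoint_inner_left,
      bvec_expand (adjoint (V α γ) (bvec (LV B) q')) (nearO B (B.src q'.2.1)) ?_, sum_inner]
    · refine Finset.sum_congr rfl fun p hp => ?_
      have hp' := (mem_nearO.mp hp).1
      rw [inner_smul_left, leafV_inner_adj (hk α γ q' p hq' hp'),
        leafV_inner_adj (hk β γ q p hq hp'), Complex.conj_ofReal, Complex.ofReal_mul]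
    · intro p hp hn
      rw [leafV_inner_adj (hk α γ q' p hq' hp)]
      by_contra h
      exact hn (mem_nearO.mpr ⟨hp, (Vk_supp (by exact_mod_cast h)).1⟩)

/-- The unitary matrix of operators attached to a connection. -/
def VL (B : Conn) : Fin 2 → Fin 2 → HL B →L[ℂ] HL B := (exists_VL B).choose

lemma VL_uni (B : Conn) : IsUni (VL B) := (exists_VL B).choose_spec.1

lemma inner_VL (B : Conn) (α' α : Fin 2) {q p : Raw B} (hq : LV B q) (hp : LV B p) :
    ⟪bvec (LV B) q, VL B α' α (bvec (LV B) p)⟫_ℂ = (Vk B α' α q p : ℂ) :=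
  (exists_VL B).choose_spec.2 α' α q p hq hp

lemma VL_bvecO (B : Conn) (α' α : Fin 2) {p : Raw B} (hp : LV B p) :
    VL B α' α (bvec (LV B) p) =
      ∑ q ∈ nearO B (B.src p.2.1), (Vk B α' α q p : ℂ) • bvec (LV B) q := by
  refine bvec_vec_ext fun q hq => ?_
  rw [inner_VL B α' α hq hp, inner_bvec_sum]
  by_cases h : Vk B α' α q p = 0
  · simp [h]
  · rw [ind_of ⟨mem_nearO.mpr ⟨hq, (Vk_supp h).1.symm⟩, hq⟩]
    simp

lemma VL_bvecI (B : Conn) (α' α : Fin 2) {p : Raw B} (hp : LV B p) :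
    VL B α' α (bvec (LV B) p) =
      ∑ q ∈ nearI B (B.tgt p.2.1), (Vk B α' α q p : ℂ) • bvec (LV B) q :=
  bvec_vec_ext fun _ hq => (inner_VL B α' α hq hp).trans (leafV_inner_col B α' α hq p).symm

/-- The algebraic inverse of the transposed matrix, applied to a basis vector. -/
lemma exists_zeta (B : Conn) (i₀ : Fin 2) {q : Raw B} (hq : LV B q) :
    ∃ ζ : Fin 2 → HL B, (∀ i, ∑ k, VL B k i (ζ k) = (ind (i = i₀) : ℂ) • bvec (LV B) q) ∧
      ∀ k p, LV B p → ⟪bvec (LV B) p, ζ k⟫_ℂ = ((Qw B q / Qw B p * Vk B k i₀ q p : ℝ) : ℂ) := by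
  refine ⟨fun k => ∑ p ∈ nearI B (B.tgt q.2.1),
    ((Qw B q / Qw B p * Vk B k i₀ q p : ℝ) : ℂ) • bvec (LV B) p, fun i => ?_, fun k p hp => ?_⟩
  · refine bvec_vec_ext fun q' hq' => ?_
    have h1 := Vk_tr B i i₀ hq hq'
    have h2 : Qw B q * ∑ k, ∑ p ∈ nearI B (B.tgt q.2.1),
        Vk B k i q' p * ((Qw B p)⁻¹ * Vk B k i₀ q p) = ind (q' = q ∧ i = i₀) := by
      rw [h1, ← mul_assoc, mul_inv_cancel₀ (Qw_pos B q).ne', one_mul]
    rw [inner_sum, inner_smul_right, inner_bvec, ← Complex.ofReal_mul, ← ind_and,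
      ind_congr (show (i = i₀ ∧ q' = q ∧ LV B q) ↔ (q' = q ∧ i = i₀) by tauto), ← h2,
      Finset.mul_sum, Complex.ofReal_sum]
    refine Finset.sum_congr rfl fun k _ => ?_
    rw [map_sum, inner_sum, Finset.mul_sum, Complex.ofReal_sum]
    refine Finset.sum_congr rfl fun p hp => ?_
    rw [map_smul, inner_smul_right, inner_VL B k i hq' (mem_nearI.mp hp).1, ← Complex.ofReal_mul]
    congr 1
    rw [div_eq_mul_inv]
    ring
  · rw [inner_bvec_sum]
    by_cases h : Vk B k i₀ q p = 0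
    · simp [h]
    · rw [ind_of ⟨mem_nearI.mpr ⟨hp, (Vk_supp h).2⟩, hp⟩]
      simp

lemma leafV_rot {B : Conn} {s t : St} {e : B.E} : LV B.rot (t, e, s) ↔ LV B (s, e, t) :=
  ⟨fun h => ⟨(rot_valid B e).mp h.1, h.2.2, h.2.1⟩, fun h => ⟨(rot_valid B e).mpr h.1, h.2.2, h.2.1⟩⟩

lemma leafV_kernel (B : Conn) (α' α : Fin 2) {s t s' t' : St} {e g : B.E} (h : LV B (s, e, t))
    (h' : LV B (s', g, t')) :
    Vk B.rot α' α (t', g, s') (t, e, s) =
      sgn α * sgn α' * Vk B (bar α) (bar α') (s, e, t) (s', g, t') := by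
  have e1 : sz s = B.tgt e := h.2.1
  have e2 : sz t = B.src e := h.2.2
  have e3 : sz s' = B.tgt g := h'.2.1
  have e4 : sz t' = B.src g := h'.2.2
  have e5 : B.rot.x g e = sg (B.tgt g) (B.tgt e) * sg (B.src g) (B.src e) * B.x e g := rfl
  have e6 := sg_mul_self (B.tgt g) (B.tgt e)
  have e7 := sg_mul_self (B.src g) (B.src e)
  change A t' t α * A s' s α' * B.rot.x g e / Real.sqrt ((sz t + 1) * (sz s' + 1)) =
    sgn α * sgn α' * (A s s' (bar α') * A t t' (bar α) * B.x e g /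
      Real.sqrt ((sz s' + 1) * (sz t + 1)))
  rw [A5 t' t α, A5 s' s α', e5, mul_comm ((sz t : ℝ) + 1), ← mul_div_assoc]
  congr 1
  rw [e1, e2, e3, e4]
  calc _ = (sg (B.tgt g) (B.tgt e) * sg (B.tgt g) (B.tgt e)) *
        (sg (B.src g) (B.src e) * sg (B.src g) (B.src e)) *
        (sgn α * sgn α' * (A s s' (bar α') * A t t' (bar α) * B.x e g)) := by ring
    _ = _ := by rw [e6, e7, one_mul, one_mul]

/-- The reversal of indices intertwines the rotated matrix with the contragredient one. -/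
theorem exists_jop (B : Conn) : ∃ J : HL B →L[ℂ] HL B.rot,
    (∀ s e t, J (bv B s e t) = bv B.rot t e s) ∧
    ∀ α' α, VL B.rot α' α ∘L J =
      ((sgn α * sgn α' : ℝ) : ℂ) • (J ∘L star (VL B (bar α) (bar α'))) := by
  obtain ⟨J, hJ⟩ := exists_op_bvec (LV B) (fun r => bv B.rot r.2.2 r.2.1 r.1)
    (fun _ => (0 : HL B)) fun r q _ hq => by
      rw [inner_zero_left, add_zero]
      refine (inner_bv B.rot _ _ _ _ _ _).trans ?_
      congr 1
      refine ind_congr ⟨fun h => Prod.ext h.1.2.2 (Prod.ext h.1.2.1 h.1.1), fun h => ?_⟩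
      subst h
      exact ⟨⟨rfl, rfl, rfl⟩, leafV_rot.mpr hq⟩
  have hJ' : ∀ s e t, J (bv B s e t) = bv B.rot t e s := fun s e t => by
    by_cases h : LV B (s, e, t)
    · exact hJ (s, e, t) h
    · rw [bv_of_not h, map_zero, bv_of_not fun h' => h (leafV_rot.mp h')]
  have hI : ∀ s e t x, ⟪bv B.rot t e s, J x⟫_ℂ = ⟪bv B s e t, x⟫_ℂ := fun s e t x => by
    have h1 : innerSL ℂ (bv B.rot t e s) ∘L J = innerSL ℂ (bv B s e t) := by
      refine bv_ext fun s' e' t' h => ?_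
      rw [comp_apply, hJ', innerSL_apply_apply, innerSL_apply_apply]
      refine (inner_bv B.rot _ _ _ _ _ _).trans (Eq.trans ?_ (inner_bv B _ _ _ _ _ _).symm)
      congr 1
      exact ind_congr ⟨fun h1 => ⟨⟨h1.1.2.2, h1.1.2.1, h1.1.1⟩, h⟩,
        fun h1 => ⟨⟨h1.1.2.2, h1.1.2.1, h1.1.1⟩, leafV_rot.mpr h⟩⟩
    exact congrArg (fun f => f x) h1
  refine ⟨J, hJ', fun α' α => bv_ext fun s e t h => bv_vec_ext fun t' g s' h' => ?_⟩
  have h'' : LV B (s', g, t') := leafV_rot.mp h'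
  rw [comp_apply, hJ', _root_.smul_apply, comp_apply, inner_smul_right, hI,
    star_eq_adjoint]
  have h1 := inner_VL B.rot α' α h' (leafV_rot.mpr h)
  have h2 := leafV_inner_adj (inner_VL B (bar α) (bar α') h h'')
  rw [leafV_kernel B α' α h h''] at h1
  refine h1.trans ?_
  rw [Complex.ofReal_mul]
  exact congrArg _ h2.symm

end Pool.Agent.Lib.MP_d81181_an
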