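import Pool.Agent.Lib.MP_d81181_an.Conn

/-! The Temperley-Lieb connection with loop value `β ≥ 2` over `A_∞`. -/

open scoped Classical

noncomputable section

namespace Pool.Agent.Lib.MP_d81181_an

/-- The quantum integers `[n+1]` for the loop value `β`. -/
def mu (β : ℝ) : ℕ → ℝ
  | 0 => 1
  | 1 => β
  | (n + 2) => β * mu β (n + 1) - mu β n

@[simp] lemma mu_zero (β : ℝ) : mu β 0 = 1 := rfl
@[simp] lemma mu_one (β : ℝ) : mu β 1 = β := rfl
lemma mu_succ_succ (β : ℝ) (n : ℕ) : mu β (n + 2) = β * mu β (n + 1) - mu β n := rfl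

lemma mu_pos_le {β : ℝ} (hβ : 2 ≤ β) (n : ℕ) : 0 < mu β n ∧ mu β n ≤ mu β (n + 1) := by
  induction n with
  | zero => simp only [mu_zero, zero_add, mu_one]; constructor <;> linarith
  | succ n ih =>
    refine ⟨by linarith [ih.1, ih.2], ?_⟩
    rw [mu_succ_succ]
    nlinarith [ih.1, ih.2]

lemma mu_pos {β : ℝ} (hβ : 2 ≤ β) (n : ℕ) : 0 < mu β n := (mu_pos_le hβ n).1

lemma mu_cassini (β : ℝ) (n : ℕ) : mu β (n + 1) ^ 2 = mu β (n + 2) * mu β n + 1 := by
  induction n with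
  | zero => simp [mu_succ_succ]; ring
  | succ n ih =>
    rw [mu_succ_succ β (n + 1)]
    rw [mu_succ_succ β n] at ih ⊢
    linear_combination ih

lemma mu_two (n : ℕ) : mu 2 n = n + 1 := by
  induction n using Nat.twoStepInduction with
  | zero => simp
  | one => simp; norm_num
  | more n h1 h2 => rw [mu_succ_succ, h1, h2]; push_cast; ring

/-- The cells of the Temperley-Lieb connection. -/
def lx (β : ℝ) (g e : ℕ × ℕ) : ℝ :=
  if Adj e.1 e.2 then
    (if g.1 = e.2 ∧ g.2 + e.1 = 2 * e.2 then 1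
    else if g.2 = e.1 ∧ g.1 + e.2 = 2 * e.1 then Real.sqrt (mu β g.1 * mu β e.2) / mu β e.1
    else if g.1 = e.2 ∧ g.2 = e.1 then -Conn.sg e.1 e.2 / mu β e.1 else 0)
  else 0

lemma lx_uu (β : ℝ) (a : ℕ) : lx β (a + 1, a + 2) (a, a + 1) = 1 := by
  simp [lx, Adj]; omega

lemma lx_dd (β : ℝ) (a : ℕ) : lx β (a + 1, a) (a + 2, a + 1) = 1 := by
  simp [lx, Adj]; omega

lemma lx_ud (β : ℝ) (a : ℕ) : lx β (a, a + 1) (a + 1, a + 2) =
    Real.sqrt (mu β a * mu β (a + 2)) / mu β (a + 1) := by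
  have h1 : ¬ (a = a + 2 ∧ a + 1 + (a + 1) = 2 * (a + 2)) := by omega
  have h2 : a + (a + 2) = 2 * (a + 1) := by omega
  simp only [lx, Adj, true_or, if_true, h1, if_false, h2, and_self]

lemma lx_du (β : ℝ) (a : ℕ) : lx β (a + 2, a + 1) (a + 1, a) =
    Real.sqrt (mu β a * mu β (a + 2)) / mu β (a + 1) := by
  have h1 : ¬ (a + 2 = a ∧ a + 1 + (a + 1) = 2 * a) := by omega
  have h2 : a + 2 + a = 2 * (a + 1) := by omega
  simp only [lx, Adj, or_true, if_true, h1, if_false, h2, and_self, mul_comm (mu β (a + 2))]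

lemma lx_ou (β : ℝ) (a : ℕ) : lx β (a + 1, a) (a, a + 1) = -1 / mu β a := by
  have h1 : ¬ (a + a = 2 * (a + 1)) := by omega
  have h2 : ¬ (a + 1 + (a + 1) = 2 * a) := by omega
  simp [lx, Adj, h1, h2, Conn.sg]

lemma lx_od (β : ℝ) (a : ℕ) : lx β (a, a + 1) (a + 1, a) = 1 / mu β (a + 1) := by
  have h1 : ¬ (a + 1 + (a + 1) = 2 * a) := by omega
  have h2 : ¬ (a + a = 2 * (a + 1)) := by omega
  simp [lx, Adj, h1, h2, Conn.sg]

lemma lx_supp {β : ℝ} {g e : ℕ × ℕ} (h : lx β g e ≠ 0) :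
    Adj g.1 g.2 ∧ Adj e.1 e.2 ∧ Adj g.1 e.1 ∧ Adj g.2 e.2 := by
  unfold lx at h
  unfold Adj at *
  split_ifs at h with h1 h2 h3 h4 <;> first | omega | exact absurd rfl h

lemma letter_z1 {β : ℝ} {a' c' a c : ℕ} (h : ¬ Adj a' a) : lx β (a', c') (a, c) = 0 := by
  by_contra h0; exact h (lx_supp h0).2.2.1

lemma letter_z2 {β : ℝ} {a' c' a c : ℕ} (h : ¬ Adj c' c) : lx β (a', c') (a, c) = 0 := by
  by_contra h0; exact h (lx_supp h0).2.2.2

lemma letter_single {a b : ℕ} (hb : Adj a b) (F : ℕ → ℝ) (h0 : ∀ x, Adj a x → x ≠ b → F x = 0) :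
    ∑ x ∈ nb a, F x = F b :=
  Finset.sum_eq_single_of_mem b (mem_nb.mpr hb) fun x hx hne => h0 x (mem_nb.mp hx) hne

lemma letter_sq {β : ℝ} (hβ : 2 ≤ β) (n : ℕ) :
    Real.sqrt (mu β n * mu β (n + 2)) ^ 2 = mu β n * mu β (n + 2) :=
  Real.sq_sqrt (mul_pos (mu_pos hβ _) (mu_pos hβ _)).le

/-- The four possible shapes of a square in the half line graph. -/
lemma letter_cases {a c p p' : ℕ} (h1 : Adj a p) (h2 : Adj c p) (h3 : Adj a p') (h4 : Adj c p') :
    (c = a + 2 ∧ p = a + 1 ∧ p' = a + 1) ∨ (a = c + 2 ∧ p = c + 1 ∧ p' = c + 1) ∨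
    (a = 0 ∧ c = 0 ∧ p = 1 ∧ p' = 1) ∨ ∃ n, a = n + 1 ∧ c = n + 1 ∧
      ((p = n ∧ p' = n) ∨ (p = n ∧ p' = n + 2) ∨ (p = n + 2 ∧ p' = n) ∨
        (p = n + 2 ∧ p' = n + 2)) := by
  unfold Adj at *
  by_cases hac : a = c
  · cases a with
    | zero => right; right; left; omega
    | succ n => right; right; right; exact ⟨n, by omega⟩
  · omega

lemma letter_A1 {β : ℝ} (hβ : 2 ≤ β) (c a p p' : ℕ) :
    ∑ x ∈ nb c, lx β (x, c) (a, p) * lx β (x, c) (a, p') = ind (p = p' ∧ Adj a p ∧ Adj c p) := by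
  by_cases h : Adj a p ∧ Adj c p ∧ Adj a p' ∧ Adj c p'
  swap
  · rw [ind_of_not (by rintro ⟨rfl, h1, h2⟩; exact h ⟨h1, h2, h1, h2⟩)]
    refine Finset.sum_eq_zero fun x _ => ?_
    by_contra h0
    have h1 := lx_supp (left_ne_zero_of_mul h0)
    have h2 := lx_supp (right_ne_zero_of_mul h0)
    exact h ⟨h1.2.1, h1.2.2.2, h2.2.1, h2.2.2.2⟩
  obtain ⟨h1, h2, h3, h4⟩ := h
  rcases letter_cases h1 h2 h3 h4 with ⟨rfl, rfl, rfl⟩ | ⟨rfl, rfl, rfl⟩ | ⟨rfl, rfl, rfl, rfl⟩ |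
    ⟨n, rfl, rfl, h⟩
  · rw [ind_of ⟨rfl, h1, h2⟩, letter_single h2 _ fun x hx hne => by
      rw [letter_z1 (by unfold Adj at *; omega), zero_mul], lx_uu, one_mul]
  · rw [ind_of ⟨rfl, h1, h2⟩, letter_single h2 _ fun x hx hne => by
      rw [letter_z1 (by unfold Adj at *; omega), zero_mul], lx_dd, one_mul]
  · rw [ind_of ⟨rfl, h1, h2⟩, sum_nb_zero, lx_ou β 0]
    simp
  · have m1 := (mu_pos hβ (n + 1)).ne'
    have hs := letter_sq hβ n
    have hc := mu_cassini β n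
    rw [sum_nb_succ]
    rcases h with ⟨hp, hp'⟩ | ⟨hp, hp'⟩ | ⟨hp, hp'⟩ | ⟨hp, hp'⟩ <;> rw [hp, hp']
    · rw [ind_of (by unfold Adj; omega), lx_od, lx_du]
      field_simp
      linear_combination hs - hc
    · rw [ind_of_not (by omega), lx_od, lx_du, lx_ud, lx_ou β (n + 1)]
      ring
    · rw [ind_of_not (by omega), lx_od, lx_du, lx_ud, lx_ou β (n + 1)]
      ring
    · rw [ind_of (by unfold Adj; omega), lx_ud, lx_ou β (n + 1)]
      field_simp
      linear_combination hs - hc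

lemma letter_B1 {β : ℝ} (hβ : 2 ≤ β) (a c p p' : ℕ) :
    ∑ x ∈ nb a, lx β (p, c) (a, x) * lx β (p', c) (a, x) = ind (p = p' ∧ Adj p c ∧ Adj a p) := by
  by_cases h : Adj a p ∧ Adj c p ∧ Adj a p' ∧ Adj c p'
  swap
  · rw [ind_of_not (by rintro ⟨rfl, h1, h2⟩; exact h ⟨h2, h1.symm, h2, h1.symm⟩)]
    refine Finset.sum_eq_zero fun x _ => ?_
    by_contra h0
    have h1 := lx_supp (left_ne_zero_of_mul h0)
    have h2 := lx_supp (right_ne_zero_of_mul h0)
    exact h ⟨h1.2.2.1.symm, h1.1.symm, h2.2.2.1.symm, h2.1.symm⟩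
  obtain ⟨h1, h2, h3, h4⟩ := h
  rcases letter_cases h1 h2 h3 h4 with ⟨rfl, rfl, rfl⟩ | ⟨rfl, rfl, rfl⟩ | ⟨rfl, rfl, rfl, rfl⟩ |
    ⟨n, rfl, rfl, h⟩
  · rw [ind_of ⟨rfl, h2.symm, h1⟩, letter_single h1 _ fun x hx hne => by
      rw [letter_z2 (by unfold Adj at *; omega), zero_mul], lx_uu, one_mul]
  · rw [ind_of ⟨rfl, h2.symm, h1⟩, letter_single h1 _ fun x hx hne => by
      rw [letter_z2 (by unfold Adj at *; omega), zero_mul], lx_dd, one_mul]
  · rw [ind_of ⟨rfl, h2.symm, h1⟩, sum_nb_zero, lx_ou β 0]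
    simp
  · have m1 := (mu_pos hβ (n + 1)).ne'
    have hs := letter_sq hβ n
    have hc := mu_cassini β n
    rw [sum_nb_succ]
    rcases h with ⟨hp, hp'⟩ | ⟨hp, hp'⟩ | ⟨hp, hp'⟩ | ⟨hp, hp'⟩ <;> rw [hp, hp']
    · rw [ind_of (by unfold Adj; omega), lx_od, lx_ud]
      field_simp
      linear_combination hs - hc
    · rw [ind_of_not (by omega), lx_od, lx_du, lx_ud, lx_ou β (n + 1)]
      ring
    · rw [ind_of_not (by omega), lx_od, lx_du, lx_ud, lx_ou β (n + 1)]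
      ring
    · rw [ind_of (by unfold Adj; omega), lx_du, lx_ou β (n + 1)]
      field_simp
      linear_combination hs - hc

lemma letter_A2 {β : ℝ} (hβ : 2 ≤ β) (a c p p' : ℕ) :
    ∑ x ∈ nb a, mu β x / mu β a * (lx β (a, x) (p, c) * lx β (a, x) (p', c)) =
      mu β c / mu β p * ind (p = p' ∧ Adj p c ∧ Adj a p) := by
  by_cases h : Adj a p ∧ Adj c p ∧ Adj a p' ∧ Adj c p'
  swap
  · rw [ind_of_not (by rintro ⟨rfl, h1, h2⟩; exact h ⟨h2, h1.symm, h2, h1.symm⟩), mul_zero]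
    refine Finset.sum_eq_zero fun x _ => ?_
    by_contra h0
    have h1 := lx_supp (left_ne_zero_of_mul (right_ne_zero_of_mul h0))
    have h2 := lx_supp (right_ne_zero_of_mul (right_ne_zero_of_mul h0))
    exact h ⟨h1.2.2.1, h1.2.1.symm, h2.2.2.1, h2.2.1.symm⟩
  obtain ⟨h1, h2, h3, h4⟩ := h
  rcases letter_cases h1 h2 h3 h4 with ⟨rfl, rfl, rfl⟩ | ⟨rfl, rfl, rfl⟩ | ⟨rfl, rfl, rfl, rfl⟩ |
    ⟨n, rfl, rfl, h⟩
  · have m0 := (mu_pos hβ a).ne'
    have m1 := (mu_pos hβ (a + 1)).ne'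
    have hs := letter_sq hβ a
    rw [ind_of ⟨rfl, h2.symm, h1⟩, letter_single h1 _ fun x hx hne => by
      rw [letter_z2 (by unfold Adj at *; omega), zero_mul, mul_zero], lx_ud]
    generalize Real.sqrt (mu β a * mu β (a + 2)) = S at hs
    field_simp
    linear_combination hs
  · have m0 := (mu_pos hβ (c + 2)).ne'
    have m1 := (mu_pos hβ (c + 1)).ne'
    have hs := letter_sq hβ c
    rw [ind_of ⟨rfl, h2.symm, h1⟩, letter_single h1 _ fun x hx hne => by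
      rw [letter_z2 (by unfold Adj at *; omega), zero_mul, mul_zero], lx_du]
    generalize Real.sqrt (mu β c * mu β (c + 2)) = S at hs
    field_simp
    linear_combination hs
  · have m1 := (mu_pos hβ (0 + 1)).ne'
    rw [ind_of ⟨rfl, h2.symm, h1⟩, sum_nb_zero, lx_od β 0, mu_zero]
    field_simp
  · have m0 := (mu_pos hβ n).ne'
    have m1 := (mu_pos hβ (n + 1)).ne'
    have m2 := (mu_pos hβ (n + 2)).ne'
    have hc := mu_cassini β n
    have e1 : lx β (n + 1, n + 2) (n + 2, n + 1) = 1 / mu β (n + 2) := lx_od β (n + 1)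
    rw [sum_nb_succ]
    rcases h with ⟨hp, hp'⟩ | ⟨hp, hp'⟩ | ⟨hp, hp'⟩ | ⟨hp, hp'⟩ <;> rw [hp, hp']
    · rw [ind_of (by unfold Adj; omega), lx_ou, lx_uu]
      field_simp
      linear_combination -hc
    · rw [ind_of_not (by omega), lx_ou, lx_uu, lx_dd, e1]
      field_simp
      ring
    · rw [ind_of_not (by omega), lx_ou, lx_uu, lx_dd, e1]
      field_simp
      ring
    · rw [ind_of (by unfold Adj; omega), lx_dd, e1]
      field_simp
      linear_combination -hc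

lemma letter_B2 {β : ℝ} (hβ : 2 ≤ β) (c a p p' : ℕ) :
    ∑ x ∈ nb c, (mu β c / mu β x)⁻¹ * (lx β (a, p) (x, c) * lx β (a, p') (x, c)) =
      (mu β p / mu β a)⁻¹ * ind (p = p' ∧ Adj a p ∧ Adj c p) := by
  by_cases h : Adj a p ∧ Adj c p ∧ Adj a p' ∧ Adj c p'
  swap
  · rw [ind_of_not (by rintro ⟨rfl, h1, h2⟩; exact h ⟨h1, h2, h1, h2⟩), mul_zero]
    refine Finset.sum_eq_zero fun x _ => ?_
    by_contra h0
    have h1 := lx_supp (left_ne_zero_of_mul (right_ne_zero_of_mul h0))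
    have h2 := lx_supp (right_ne_zero_of_mul (right_ne_zero_of_mul h0))
    exact h ⟨h1.1, h1.2.2.2.symm, h2.1, h2.2.2.2.symm⟩
  obtain ⟨h1, h2, h3, h4⟩ := h
  rcases letter_cases h1 h2 h3 h4 with ⟨rfl, rfl, rfl⟩ | ⟨rfl, rfl, rfl⟩ | ⟨rfl, rfl, rfl, rfl⟩ |
    ⟨n, rfl, rfl, h⟩
  · have m0 := (mu_pos hβ a).ne'
    have m1 := (mu_pos hβ (a + 1)).ne'
    have m2 := (mu_pos hβ (a + 2)).ne'
    have hs := letter_sq hβ a
    rw [ind_of ⟨rfl, h1, h2⟩, letter_single h2 _ fun x hx hne => by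
      rw [letter_z1 (by unfold Adj at *; omega), zero_mul, mul_zero], lx_ud]
    generalize Real.sqrt (mu β a * mu β (a + 2)) = S at hs
    field_simp
    linear_combination hs
  · have m0 := (mu_pos hβ c).ne'
    have m1 := (mu_pos hβ (c + 1)).ne'
    have m2 := (mu_pos hβ (c + 2)).ne'
    have hs := letter_sq hβ c
    rw [ind_of ⟨rfl, h1, h2⟩, letter_single h2 _ fun x hx hne => by
      rw [letter_z1 (by unfold Adj at *; omega), zero_mul, mul_zero], lx_du]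
    generalize Real.sqrt (mu β c * mu β (c + 2)) = S at hs
    field_simp
    linear_combination hs
  · have m1 := (mu_pos hβ (0 + 1)).ne'
    rw [ind_of ⟨rfl, h1, h2⟩, sum_nb_zero, lx_od β 0, mu_zero]
    field_simp
  · have m0 := (mu_pos hβ n).ne'
    have m1 := (mu_pos hβ (n + 1)).ne'
    have m2 := (mu_pos hβ (n + 2)).ne'
    have hc := mu_cassini β n
    have e1 : lx β (n + 1, n + 2) (n + 2, n + 1) = 1 / mu β (n + 2) := lx_od β (n + 1)
    rw [sum_nb_succ]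
    rcases h with ⟨hp, hp'⟩ | ⟨hp, hp'⟩ | ⟨hp, hp'⟩ | ⟨hp, hp'⟩ <;> rw [hp, hp']
    · rw [ind_of (by unfold Adj; omega), lx_ou, lx_dd]
      field_simp
      linear_combination -hc
    · rw [ind_of_not (by omega), lx_ou, lx_uu, lx_dd, e1]
      field_simp
      ring
    · rw [ind_of_not (by omega), lx_ou, lx_uu, lx_dd, e1]
      field_simp
      ring
    · rw [ind_of (by unfold Adj; omega), lx_uu, e1]
      field_simp
      linear_combination -hc

lemma letter_mem (a c : ℕ) : (a, c) ∈ (nb a).image (fun c => (a, c)) ↔ Adj a c := by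
  simp [mem_nb]

lemma letter_sum_out (a : ℕ) (F : ℕ × ℕ → ℝ) :
    ∑ e ∈ (nb a).image (fun c => (a, c)), F e = ∑ c ∈ nb a, F (a, c) :=
  Finset.sum_image fun _ _ _ _ h => (Prod.mk.inj h).2

lemma letter_sum_inn (c : ℕ) (F : ℕ × ℕ → ℝ) :
    ∑ e ∈ (nb c).image (fun a => (a, c)), F e = ∑ a ∈ nb c, F (a, c) :=
  Finset.sum_image fun _ _ _ _ h => (Prod.mk.inj h).1

/-- The Temperley-Lieb connection: edges `(a, c)` with `a ~ c`, weight `[c+1] / [a+1]`. -/
def letter (β : ℝ) (hβ : 2 ≤ β) : Conn where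
  E := ℕ × ℕ
  src e := e.1
  tgt e := e.2
  out a := (nb a).image fun c => (a, c)
  inn c := (nb c).image fun a => (a, c)
  src_of_out h := by
    obtain ⟨c, _, rfl⟩ := Finset.mem_image.mp h; rfl
  tgt_of_inn h := by
    obtain ⟨c, _, rfl⟩ := Finset.mem_image.mp h; rfl
  out_iff_inn e := by
    obtain ⟨a, c⟩ := e
    simp [mem_nb, adj_comm]
  w e := mu β e.2 / mu β e.1
  w_pos e := div_pos (mu_pos hβ _) (mu_pos hβ _)
  x := lx β
  x_supp h := by
    obtain ⟨h1, h2, h3, h4⟩ := lx_supp h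
    exact ⟨Finset.mem_image.mpr ⟨_, mem_nb.mpr h1, rfl⟩,
      Finset.mem_image.mpr ⟨_, mem_nb.mpr h2, rfl⟩, h3, h4⟩
  U1a := by
    rintro c ⟨a, p⟩ ⟨a', p'⟩ h
    obtain rfl : a = a' := h
    refine (letter_sum_inn c _).trans ((letter_A1 hβ c a p p').trans (ind_congr ?_))
    exact and_congr (by simp) (and_congr (letter_mem a p).symm Iff.rfl)
  U1b := by
    rintro a ⟨p, c⟩ ⟨p', c'⟩ h
    obtain rfl : c = c' := h
    refine (letter_sum_out a _).trans ((letter_B1 hβ a c p p').trans (ind_congr ?_))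
    exact and_congr (by simp) (and_congr (letter_mem p c).symm Iff.rfl)
  U2a := by
    rintro a ⟨p, c⟩ ⟨p', c'⟩ h
    obtain rfl : c = c' := h
    refine (letter_sum_out a _).trans ((letter_A2 hβ a c p p').trans
      (congrArg _ (ind_congr ?_)))
    exact and_congr (by simp) (and_congr (letter_mem p c).symm Iff.rfl)
  U2b := by
    rintro c ⟨a, p⟩ ⟨a', p'⟩ h
    obtain rfl : a = a' := h
    refine (letter_sum_inn c _).trans ((letter_B2 hβ c a p p').trans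
      (congrArg _ (ind_congr ?_)))
    exact and_congr (by simp) (and_congr (letter_mem a p).symm Iff.rfl)

lemma letter_valid {β : ℝ} (hβ : 2 ≤ β) (a c : ℕ) : (letter β hβ).valid (a, c) ↔ Adj a c := by
  change (a, c) ∈ (nb a).image (fun c => (a, c)) ↔ _
  simp [mem_nb]

lemma sum_letter_out {M : Type*} [AddCommMonoid M] {β : ℝ} (hβ : 2 ≤ β) (a : ℕ)
    (F : ℕ × ℕ → M) : ∑ e ∈ (letter β hβ).out a, F e = ∑ c ∈ nb a, F (a, c) := by
  change ∑ e ∈ (nb a).image (fun c => (a, c)), F e = _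
  exact Finset.sum_image fun _ _ _ _ h => (Prod.mk.inj h).2

lemma sum_letter_inn {M : Type*} [AddCommMonoid M] {β : ℝ} (hβ : 2 ≤ β) (c : ℕ)
    (F : ℕ × ℕ → M) : ∑ e ∈ (letter β hβ).inn c, F e = ∑ a ∈ nb c, F (a, c) := by
  change ∑ e ∈ (nb c).image (fun a => (a, c)), F e = _
  exact Finset.sum_image fun _ _ _ _ h => (Prod.mk.inj h).1

/-- The connection of the spin one half representation of `SU(2)`. -/
def cX : Conn := letter 2 le_rfl

/-- The Temperley-Lieb connection with loop value `5`. -/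
def cY : Conn := letter 5 (by norm_num)

end Pool.Agent.Lib.MP_d81181_an
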