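import Pool.Agent.Lib.MP_d81181_an.MorW

/-! Algebra of whiskering and Frobenius reciprocity. -/

open scoped Classical ComplexConjugate

noncomputable section

namespace Pool.Agent.Lib.MP_d81181_an

open Conn

lemma morF_indC_of {P : Prop} (h : P) : ((ind P : ℝ) : ℂ) = 1 := by
  rw [ind_of h, Complex.ofReal_one]

lemma morF_indC_of_not {P : Prop} (h : ¬ P) : ((ind P : ℝ) : ℂ) = 0 := by
  rw [ind_of_not h, Complex.ofReal_zero]

lemma morF_sqrt_ne (B : Conn) (e : B.E) : ((Real.sqrt (B.w e) : ℝ) : ℂ) ≠ 0 := by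
  exact_mod_cast (Real.sqrt_pos.mpr (B.w_pos e)).ne'

namespace Mor

variable {B C Z Z' Z'' : Conn}

lemma wl_mul (B : Conn) (f : Mor Z' Z'') (g : Mor Z Z') : wl B f * wl B g = wl B (f * g) := by
  ext ⟨g'', e''⟩ ⟨g0, e⟩
  rw [mul_k, sum_comp_out, wl_k, mul_k, Finset.mul_sum]
  change ∑ e' ∈ Z'.out (Z.src e), _ = _
  refine Finset.sum_congr rfl fun e' _ => ?_
  by_cases hg : g.k e' e = 0
  · simp only [wl_k, hg, MulZeroClass.mul_zero, Finset.sum_const_zero]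
  obtain ⟨-, -, -, ht⟩ := g.supp hg
  rw [Finset.sum_eq_single g0]
  · rw [wl_k, wl_k, ht]
    by_cases hP : B.valid g0 ∧ B.src g0 = Z.tgt e
    · rw [morF_indC_of (P := g0 = g0 ∧ _) ⟨rfl, hP⟩]; ring
    · rw [morF_indC_of_not (P := g0 = g0 ∧ _) fun h => hP h.2,
        morF_indC_of_not (P := g'' = g0 ∧ _) fun h => hP h.2]; ring
  · intro h _ hne
    rw [wl_k, wl_k, morF_indC_of_not (P := h = g0 ∧ _) fun h => hne h.1]; ring
  · intro hn
    rw [wl_k, wl_k, morF_indC_of_not (P := g0 = g0 ∧ _) fun h => hn ?_]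
    · ring
    · rw [mem_out, ht]; exact h.2

lemma wl_adj (B : Conn) (f : Mor Z Z') : (wl B f).adj = wl B f.adj := by
  ext ⟨g, e⟩ ⟨g', e'⟩
  rw [adj_k, wl_k, wl_k, adj_k, map_mul, Complex.conj_ofReal]
  by_cases hf : f.k e' e = 0
  · simp only [hf, map_zero, MulZeroClass.mul_zero]
  obtain ⟨-, -, -, ht⟩ := f.supp hf
  congr 2
  refine ind_congr ⟨?_, ?_⟩
  · rintro ⟨rfl, h1, h2⟩; exact ⟨rfl, h1, h2.trans ht.symm⟩
  · rintro ⟨rfl, h1, h2⟩; exact ⟨rfl, h1, h2.trans ht⟩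

lemma wr_mul (f : Mor Z' Z'') (g : Mor Z Z') (C : Conn) : wr f C * wr g C = wr (f * g) C := by
  ext ⟨e'', g''⟩ ⟨e, g0⟩
  rw [mul_k, sum_comp_out, wr_k, mul_k, Finset.mul_sum]
  change ∑ h ∈ C.out (C.src g0), _ = _
  rw [Finset.sum_eq_single g0]
  · by_cases hP : C.valid g0 ∧ Z.src e = C.tgt g0
    · refine Finset.sum_congr (congrArg Z'.out hP.2.symm) fun e' he' => ?_
      have hs : Z'.src e' = Z.src e := Z'.src_of_out he'
      rw [wr_k, wr_k, hs, morF_indC_of (P := g0 = g0 ∧ _) ⟨rfl, hP⟩]; ring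
    · rw [morF_indC_of_not (P := g'' = g0 ∧ _) fun h => hP h.2]
      simp only [MulZeroClass.zero_mul, Finset.sum_const_zero]
      refine Finset.sum_eq_zero fun e' _ => ?_
      rw [wr_k, wr_k, morF_indC_of_not (P := g0 = g0 ∧ _) fun h => hP h.2]; ring
  · intro h _ hne
    refine Finset.sum_eq_zero fun e' _ => ?_
    rw [wr_k, wr_k, morF_indC_of_not (P := h = g0 ∧ _) fun h => hne h.1]; ring
  · intro hn
    refine Finset.sum_eq_zero fun e' _ => ?_
    rw [wr_k, wr_k, morF_indC_of_not (P := g0 = g0 ∧ _) fun h => hn h.2.1]; ring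

lemma wr_adj (f : Mor Z Z') (C : Conn) : (wr f C).adj = wr f.adj C := by
  ext ⟨e, g⟩ ⟨e', g'⟩
  rw [adj_k, wr_k, wr_k, adj_k, map_mul, Complex.conj_ofReal]
  by_cases hf : f.k e' e = 0
  · simp only [hf, map_zero, MulZeroClass.mul_zero]
  obtain ⟨-, -, hs, -⟩ := f.supp hf
  congr 2
  refine ind_congr ⟨?_, ?_⟩
  · rintro ⟨rfl, h1, h2⟩; exact ⟨rfl, h1, hs.trans h2⟩
  · rintro ⟨rfl, h1, h2⟩; exact ⟨rfl, h1, hs.symm.trans h2⟩

lemma unflat_flat_adj (S : Mor Z (comp B.conj Z')) : S.unflat.flat.adj = S := by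
  ext ⟨g, π'⟩ π
  have h1 : S.unflat.flat.k π (g, π') =
      (Real.sqrt (B.w g) : ℂ) * ((Real.sqrt (B.w g) : ℂ)⁻¹ * conj (S.k (g, π') π)) := rfl
  rw [adj_k, h1, mul_inv_cancel_left₀ (morF_sqrt_ne B g), Complex.conj_conj]

lemma unsharp_sharp_adj (S : Mor Z (comp Z' C.conj)) : S.unsharp.sharp.adj = S := by
  ext ⟨π', g⟩ π
  have h1 : S.unsharp.sharp.k π (π', g) =
      (Real.sqrt (C.w g) : ℂ)⁻¹ * ((Real.sqrt (C.w g) : ℂ) * conj (S.k (π', g) π)) := rfl
  rw [adj_k, h1, inv_mul_cancel_left₀ (morF_sqrt_ne C g), Complex.conj_conj]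

lemma flat_adj_unflat (T : Mor Z' (comp B Z)) : T.flat.adj.unflat = T := by
  ext ⟨g, π⟩ π'
  have h1 : T.flat.adj.unflat.k (g, π) π' = (Real.sqrt (B.w g) : ℂ)⁻¹ *
      conj (conj ((Real.sqrt (B.w g) : ℂ) * T.k (g, π) π')) := rfl
  rw [h1, Complex.conj_conj, inv_mul_cancel_left₀ (morF_sqrt_ne B g)]

lemma sharp_adj_unsharp (T : Mor Z' (comp Z C)) : T.sharp.adj.unsharp = T := by
  ext ⟨π, g⟩ π'
  have h1 : T.sharp.adj.unsharp.k (π, g) π' = (Real.sqrt (C.w g) : ℂ) *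
      conj (conj ((Real.sqrt (C.w g) : ℂ)⁻¹ * T.k (π, g) π')) := rfl
  rw [h1, Complex.conj_conj, mul_inv_cancel_left₀ (morF_sqrt_ne C g)]

lemma flat_wl_mul (h : Mor Z Z'') (T : Mor Z' (comp B Z)) :
    (wl B h * T).flat = h * T.flat := by
  have key : ∀ (π'' : Z''.E) (g : B.E) (π' : Z'.E),
      (Real.sqrt (B.w g) : ℂ) * (wl B h * T).k (g, π'') π' = ∑ π ∈ Z.out (Z'.src π'),
        h.k π'' π * ((Real.sqrt (B.w g) : ℂ) * T.k (g, π) π') := by
    intro π'' g π'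
    rw [mul_k, sum_comp_out, Finset.mul_sum]
    refine Finset.sum_congr rfl fun π _ => ?_
    rw [Finset.sum_eq_single g]
    · rw [wl_k]
      by_cases hT : T.k (g, π) π' = 0
      · rw [hT]; ring
      obtain ⟨hv, -, -, -⟩ := T.supp hT
      rw [comp_valid] at hv
      rw [morF_indC_of (P := g = g ∧ _) ⟨rfl, hv.1, hv.2.2⟩]; ring
    · intro m _ hne
      rw [wl_k, morF_indC_of_not (P := g = m ∧ _) fun h => hne h.1.symm]; ring
    · intro hn
      rw [wl_k, morF_indC_of_not (P := g = g ∧ _) fun h => hn (B.mem_out.mpr h.2)]; ring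
  ext π'' ⟨g, π'⟩
  exact key π'' g π'

lemma flat_mul (T : Mor Z' (comp B Z)) (h : Mor Z'' Z') :
    (T * h).flat = T.flat * wl B.conj h := by
  have key : ∀ (π : Z.E) (g : B.E) (π'' : Z''.E), (Real.sqrt (B.w g) : ℂ) *
      ∑ π' ∈ Z'.out (Z''.src π''), T.k (g, π) π' * h.k π' π'' =
      ∑ π' ∈ Z'.out (Z''.src π''), ∑ m ∈ B.inn (Z'.tgt π'),
        (Real.sqrt (B.w m) : ℂ) * T.k (m, π) π' *
        ((ind (m = g ∧ B.conj.valid g ∧ B.tgt g = Z''.tgt π'') : ℂ) * h.k π' π'') := by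
    intro π g π''
    rw [Finset.mul_sum]
    refine Finset.sum_congr rfl fun π' _ => ?_
    rw [Finset.sum_eq_single g]
    · by_cases hT : T.k (g, π) π' = 0
      · rw [hT]; ring
      by_cases hh : h.k π' π'' = 0
      · rw [hh]; ring
      obtain ⟨hv, -, -, ht⟩ := T.supp hT
      obtain ⟨-, -, -, ht'⟩ := h.supp hh
      rw [comp_valid] at hv
      rw [morF_indC_of (P := g = g ∧ B.conj.valid g ∧ B.tgt g = Z''.tgt π'')
        ⟨rfl, (conj_valid B g).mpr hv.1, Eq.trans ht ht'⟩]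
      ring
    · intro m _ hne
      rw [morF_indC_of_not (P := m = g ∧ _) fun h => hne h.1]; ring
    · intro hn
      by_cases hh : h.k π' π'' = 0
      · rw [hh]; ring
      obtain ⟨-, -, -, ht'⟩ := h.supp hh
      rw [morF_indC_of_not (P := g = g ∧ B.conj.valid g ∧ B.tgt g = Z''.tgt π'') fun h' => hn ?_]
      · ring
      · exact B.mem_inn.mpr ⟨(conj_valid B g).mp h'.2.1, h'.2.2.trans ht'.symm⟩
  ext π ⟨g, π''⟩
  rw [mul_k, sum_comp_out]
  exact key π g π''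

lemma sharp_wr_mul (h : Mor Z Z'') (T : Mor Z' (comp Z C)) :
    (wr h C * T).sharp = h * T.sharp := by
  have key : ∀ (π'' : Z''.E) (π' : Z'.E) (g : C.E),
      (Real.sqrt (C.w g) : ℂ)⁻¹ * (wr h C * T).k (π'', g) π' = ∑ π ∈ Z.out (C.tgt g),
        h.k π'' π * ((Real.sqrt (C.w g) : ℂ)⁻¹ * T.k (π, g) π') := by
    intro π'' π' g
    rw [mul_k', sum_comp_out]
    change _ * ∑ m ∈ C.out (C.src g), _ = _
    rw [Finset.sum_eq_single g]
    · rw [Finset.mul_sum]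
      refine Finset.sum_congr rfl fun π _ => ?_
      rw [wr_k]
      by_cases hT : T.k (π, g) π' = 0
      · rw [hT]; ring
      obtain ⟨hv, -, -, -⟩ := T.supp hT
      rw [comp_valid] at hv
      rw [morF_indC_of (P := g = g ∧ _) ⟨rfl, hv.2.1, hv.2.2⟩]; ring
    · intro m _ hne
      refine Finset.sum_eq_zero fun π _ => ?_
      rw [wr_k, morF_indC_of_not (P := g = m ∧ _) fun h => hne h.1.symm]; ring
    · intro hn
      refine Finset.sum_eq_zero fun π _ => ?_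
      rw [wr_k, morF_indC_of_not (P := g = g ∧ _) fun h => hn h.2.1]; ring
  ext π'' ⟨π', g⟩
  exact key π'' π' g

lemma sharp_mul (T : Mor Z' (comp Z C)) (h : Mor Z'' Z') :
    (T * h).sharp = T.sharp * wr h C.conj := by
  have key : ∀ (π : Z.E) (π'' : Z''.E) (g : C.E), (Real.sqrt (C.w g) : ℂ)⁻¹ *
      ∑ π' ∈ Z'.out (Z''.src π''), T.k (π, g) π' * h.k π' π'' =
      ∑ m ∈ C.inn (C.tgt g), ∑ π' ∈ Z'.out (C.src m),
        (Real.sqrt (C.w m) : ℂ)⁻¹ * T.k (π, m) π' *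
        ((ind (m = g ∧ C.conj.valid g ∧ Z''.src π'' = C.src g) : ℂ) * h.k π' π'') := by
    intro π π'' g
    rw [Finset.sum_eq_single g]
    · by_cases hP : C.conj.valid g ∧ Z''.src π'' = C.src g
      · rw [Finset.mul_sum]
        refine Finset.sum_congr (congrArg Z'.out hP.2) fun π' _ => ?_
        rw [morF_indC_of (P := g = g ∧ _) ⟨rfl, hP⟩]; ring
      · rw [morF_indC_of_not (P := g = g ∧ _) fun h => hP h.2]
        simp only [MulZeroClass.zero_mul, MulZeroClass.mul_zero, Finset.sum_const_zero]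
        rw [Finset.sum_eq_zero, MulZeroClass.mul_zero]
        intro π' hπ'
        by_contra hne
        obtain ⟨hv, -, hs, -⟩ := T.supp (left_ne_zero_of_mul hne)
        rw [comp_valid] at hv
        exact hP ⟨(conj_valid C g).mpr hv.2.1, (Z'.src_of_out hπ').symm.trans (Eq.symm hs)⟩
    · intro m _ hne
      refine Finset.sum_eq_zero fun π' _ => ?_
      rw [morF_indC_of_not (P := m = g ∧ _) fun h => hne h.1]; ring
    · intro hn
      refine Finset.sum_eq_zero fun π' _ => ?_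
      rw [morF_indC_of_not (P := g = g ∧ C.conj.valid g ∧ Z''.src π'' = C.src g)
        fun h => hn h.2.1]
      ring
  ext π ⟨π'', g⟩
  rw [mul_k, sum_comp_out]
  exact key π π'' g

lemma runit_mul_adj (B : Conn) : runit B * (runit B).adj = one B := by
  ext e' e
  rw [mul_k, sum_comp_out, one_k]
  change ∑ a ∈ ({B.src e} : Finset ℕ), ∑ g ∈ B.out a, _ = _
  rw [Finset.sum_singleton]
  have h3 : ∀ g : B.E, (runit B).k e' (g, B.src e) * (runit B).adj.k (g, B.src e) e =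
      (ind (e' = g ∧ B.valid e' ∧ B.src e' = B.src e) : ℂ) *
        conj (ind (e = g ∧ B.valid e ∧ B.src e = B.src e) : ℂ) := fun _ => rfl
  rw [Finset.sum_eq_single e]
  · rw [h3, Complex.conj_ofReal, ← Complex.ofReal_mul, ← ind_and]
    congr 1
    refine ind_congr ⟨?_, ?_⟩
    · rintro ⟨⟨h1, -, -⟩, -, h2, -⟩; exact ⟨h1, h2⟩
    · rintro ⟨rfl, h2⟩; exact ⟨⟨rfl, h2, rfl⟩, rfl, h2, rfl⟩
  · intro g _ hne
    rw [h3, Complex.conj_ofReal, morF_indC_of_not (P := e = g ∧ _) fun h => hne h.1.symm]; ring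
  · intro hn
    rw [h3, Complex.conj_ofReal, morF_indC_of_not (P := e = e ∧ _) fun h => hn h.2.1]; ring

end Mor

end Pool.Agent.Lib.MP_d81181_an
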