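import Pool.Agent.Lib.MP_d81181_an.Mor

/-! Whiskering and Frobenius reciprocity of morphisms. -/

open scoped Classical ComplexConjugate

noncomputable section

namespace Pool.Agent.Lib.MP_d81181_an

open Conn

lemma morw_x (B C : Conn) (q p : B.E × C.E) : (((comp B C).x q p : ℝ) : ℂ) =
    (ind (B.src q.1 = C.tgt q.2) : ℂ) * (ind (B.src p.1 = C.tgt p.2) : ℂ) *
      ((B.x q.1 p.1 : ℂ) * (C.x q.2 p.2 : ℂ)) := by
  change ((ind (B.src q.1 = C.tgt q.2) * ind (B.src p.1 = C.tgt p.2) *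
    (B.x q.1 p.1 * C.x q.2 p.2) : ℝ) : ℂ) = _
  push_cast; rfl

lemma morw_one {P : Prop} (h : P) : ((ind P : ℝ) : ℂ) = 1 := by rw [ind_of h]; rfl
lemma morw_zero {P : Prop} (h : ¬ P) : ((ind P : ℝ) : ℂ) = 0 := by rw [ind_of_not h]; rfl

/-- Left whiskering `B ▷ f`. -/
lemma isMor_wl (B : Conn) {Z Z' : Conn} (f : Mor Z Z') :
    IsMor (comp B Z) (comp B Z') (fun q p =>
      (ind (q.1 = p.1 ∧ B.valid p.1 ∧ B.src p.1 = Z.tgt p.2) : ℂ) * f.k q.2 p.2) := by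
  refine ⟨?_, ?_⟩
  · rintro ⟨g', e'⟩ ⟨g, e⟩ h
    obtain ⟨h1, h2, h3⟩ := indC_ne_zero (left_ne_zero_of_mul h)
    obtain ⟨s1, s2, s3, s4⟩ := f.supp (right_ne_zero_of_mul h)
    simp only at h1 h2 h3 s1 s2 s3 s4
    subst h1
    exact ⟨(comp_valid _ _ _ _).2 ⟨h2, s1, h3.trans s4.symm⟩, (comp_valid _ _ _ _).2 ⟨h2, s2, h3⟩,
      s3, rfl⟩
  · rintro ⟨g', e'⟩ ⟨g, e⟩
    rw [sum_comp_out, sum_comp_out]
    simp only [morw_x]
    have key := f.isMor.comm e' e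
    have h1 : ∀ h ∈ Z'.out (Z.src e), ∑ m ∈ B.out (Z'.tgt h),
        (ind (B.src g' = Z'.tgt e') : ℂ) * (ind (B.src m = Z'.tgt h) : ℂ) *
          ((B.x g' m : ℂ) * (Z'.x e' h : ℂ)) *
          ((ind (m = g ∧ B.valid g ∧ B.src g = Z.tgt e) : ℂ) * f.k h e) =
        (ind (B.src g' = Z'.tgt e') : ℂ) * (ind (B.src g = Z.tgt e) : ℂ) * (B.x g' g : ℂ) *
          ((Z'.x e' h : ℂ) * f.k h e) := by
      intro h _
      by_cases h0 : f.k h e = 0
      · simp [h0]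
      by_cases h2 : B.valid g ∧ B.src g = Z.tgt e
      · rw [Finset.sum_eq_single g]
        · rw [morw_one (P := g = g ∧ _) ⟨rfl, h2⟩, morw_one h2.2,
            morw_one (h2.2.trans (f.supp h0).2.2.2.symm)]
          ring
        · intro m _ hm
          rw [morw_zero (P := m = g ∧ _) fun h' => hm h'.1]; ring
        · intro hg
          exact absurd (B.mem_out.2 ⟨h2.1, h2.2.trans (f.supp h0).2.2.2.symm⟩) hg
      · rw [Finset.sum_eq_zero fun m _ => by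
          rw [morw_zero (P := m = g ∧ _) fun h' => h2 h'.2]; ring]
        by_cases h3 : (B.x g' g : ℂ) = 0
        · rw [h3]; ring
        · rw [morw_zero (P := B.src g = _) fun h' => h2 ⟨(mor_xC h3).2.1, h'⟩]; ring
    have h2 : ∀ h ∈ Z.out (Z'.src e'), ∑ m ∈ B.out (Z.tgt h),
        (ind (g' = m ∧ B.valid m ∧ B.src m = Z.tgt h) : ℂ) * f.k e' h *
          ((ind (B.src m = Z.tgt h) : ℂ) * (ind (B.src g = Z.tgt e) : ℂ) *
          ((B.x m g : ℂ) * (Z.x h e : ℂ))) =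
        (ind (B.src g' = Z'.tgt e') : ℂ) * (ind (B.src g = Z.tgt e) : ℂ) * (B.x g' g : ℂ) *
          (f.k e' h * (Z.x h e : ℂ)) := by
      intro h _
      by_cases h0 : f.k e' h = 0
      · simp [h0]
      by_cases h2 : B.valid g' ∧ B.src g' = Z.tgt h
      · rw [Finset.sum_eq_single g']
        · rw [morw_one (P := g' = g' ∧ _) ⟨rfl, h2⟩, morw_one h2.2,
            morw_one (h2.2.trans (f.supp h0).2.2.2.symm)]
          ring
        · intro m _ hm
          rw [morw_zero (P := g' = m ∧ _) fun h' => hm h'.1.symm]; ring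
        · intro hg
          exact absurd (B.mem_out.2 h2) hg
      · rw [Finset.sum_eq_zero fun m _ => by
          rw [morw_zero (P := g' = m ∧ _) fun h' => h2 (h'.1 ▸ h'.2)]; ring]
        by_cases h3 : (B.x g' g : ℂ) = 0
        · rw [h3]; ring
        · rw [morw_zero (P := B.src g' = _) fun h' =>
            h2 ⟨(mor_xC h3).1, h'.trans (f.supp h0).2.2.2⟩]
          ring
    refine (Finset.sum_congr rfl h1).trans (Eq.trans ?_ (Finset.sum_congr rfl h2).symm)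
    rw [← Finset.mul_sum, ← Finset.mul_sum, key]

/-- Right whiskering `f ◁ C`. -/
lemma isMor_wr {Z Z' : Conn} (f : Mor Z Z') (C : Conn) :
    IsMor (comp Z C) (comp Z' C) (fun q p =>
      (ind (q.2 = p.2 ∧ C.valid p.2 ∧ Z.src p.1 = C.tgt p.2) : ℂ) * f.k q.1 p.1) := by
  refine ⟨?_, ?_⟩
  · rintro ⟨e', g'⟩ ⟨e, g⟩ h
    obtain ⟨h1, h2, h3⟩ := indC_ne_zero (left_ne_zero_of_mul h)
    obtain ⟨s1, s2, s3, s4⟩ := f.supp (right_ne_zero_of_mul h)
    simp only at h1 h2 h3 s1 s2 s3 s4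
    subst h1
    exact ⟨(comp_valid _ _ _ _).2 ⟨s1, h2, s3.trans h3⟩, (comp_valid _ _ _ _).2 ⟨s2, h2, h3⟩,
      rfl, s4⟩
  · rintro ⟨e', g'⟩ ⟨e, g⟩
    rw [sum_comp_out, sum_comp_out]
    simp only [morw_x]
    have key := f.isMor.comm e' e
    have h1 : ∑ m ∈ C.out (C.src g), ∑ h ∈ Z'.out (C.tgt m),
        (ind (Z'.src e' = C.tgt g') : ℂ) * (ind (Z'.src h = C.tgt m) : ℂ) *
          ((Z'.x e' h : ℂ) * (C.x g' m : ℂ)) *
          ((ind (m = g ∧ C.valid g ∧ Z.src e = C.tgt g) : ℂ) * f.k h e) =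
        (ind (Z'.src e' = C.tgt g') : ℂ) * (ind (Z.src e = C.tgt g) : ℂ) * (C.x g' g : ℂ) *
          ∑ h ∈ Z'.out (Z.src e), (Z'.x e' h : ℂ) * f.k h e := by
      by_cases h2 : C.valid g ∧ Z.src e = C.tgt g
      · rw [Finset.sum_eq_single g, ← h2.2, Finset.mul_sum]
        · refine Finset.sum_congr rfl fun h hh => ?_
          rw [morw_one (P := g = g ∧ _) ⟨rfl, h2.1, rfl⟩, morw_one (rfl : Z.src e = _),
            morw_one (Z'.src_of_out hh)]
          ring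
        · intro m _ hm
          refine Finset.sum_eq_zero fun h _ => ?_
          rw [morw_zero (P := m = g ∧ _) fun h' => hm h'.1]; ring
        · intro hg
          exact absurd h2.1 hg
      · rw [Finset.sum_eq_zero fun m _ => Finset.sum_eq_zero fun h _ => by
          rw [morw_zero (P := m = g ∧ _) fun h' => h2 h'.2]; ring]
        by_cases h3 : (C.x g' g : ℂ) = 0
        · rw [h3]; ring
        · rw [morw_zero (P := Z.src e = _) fun h' => h2 ⟨(mor_xC h3).2.1, h'⟩]; ring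
    have h2 : ∑ m ∈ C.out (C.src g'), ∑ h ∈ Z.out (C.tgt m),
        (ind (g' = m ∧ C.valid m ∧ Z.src h = C.tgt m) : ℂ) * f.k e' h *
          ((ind (Z.src h = C.tgt m) : ℂ) * (ind (Z.src e = C.tgt g) : ℂ) *
          ((Z.x h e : ℂ) * (C.x m g : ℂ))) =
        (ind (Z'.src e' = C.tgt g') : ℂ) * (ind (Z.src e = C.tgt g) : ℂ) * (C.x g' g : ℂ) *
          ∑ h ∈ Z.out (Z'.src e'), f.k e' h * (Z.x h e : ℂ) := by
      by_cases h3 : (C.x g' g : ℂ) = 0
      · rw [h3, mul_zero, zero_mul]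
        refine Finset.sum_eq_zero fun m _ => Finset.sum_eq_zero fun h _ => ?_
        by_cases hm : g' = m
        · rw [← hm, h3]; ring
        · rw [morw_zero (P := g' = m ∧ _) fun h' => hm h'.1]; ring
      rw [Finset.sum_eq_single g']
      · by_cases h2 : Z'.src e' = C.tgt g'
        · rw [← h2, Finset.mul_sum]
          refine Finset.sum_congr rfl fun h hh => ?_
          rw [morw_one (P := g' = g' ∧ _) ⟨rfl, (mor_xC h3).1, Z.src_of_out hh⟩,
            morw_one (rfl : Z'.src e' = _), morw_one (Z.src_of_out hh)]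
          ring
        · rw [morw_zero h2, zero_mul, zero_mul, zero_mul]
          refine Finset.sum_eq_zero fun h hh => ?_
          by_cases h0 : f.k e' h = 0
          · rw [h0]; ring
          · exact absurd ((f.supp h0).2.2.1.trans (Z.src_of_out hh)) h2
      · intro m _ hm
        refine Finset.sum_eq_zero fun h _ => ?_
        rw [morw_zero (P := g' = m ∧ _) fun h' => hm h'.1.symm]; ring
      · intro hg
        exact absurd (mor_xC h3).1 hg
    exact h1.trans (Eq.trans (by rw [key]) h2.symm)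

lemma morw_supp {B Z Z' : Conn} (T : Mor Z' (comp B Z)) {g : B.E} {π : Z.E} {π' : Z'.E}
    (h : T.k (g, π) π' ≠ 0) : B.valid g ∧ Z.valid π ∧ B.src g = Z.tgt π ∧ Z'.valid π' ∧
      Z.src π = Z'.src π' ∧ B.tgt g = Z'.tgt π' := by
  obtain ⟨s1, s2, s3, s4⟩ := T.supp h
  obtain ⟨t1, t2, t3⟩ := (comp_valid _ _ _ _).1 s1
  exact ⟨t1, t2, t3, s2, s3, s4⟩

lemma morw_comm {B Z Z' : Conn} (T : Mor Z' (comp B Z)) (m : B.E) (π : Z.E) (π' : Z'.E)
    (hm : B.src m = Z.tgt π) :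
    ∑ ρ ∈ Z.out (Z'.src π'), ∑ n ∈ B.out (Z.tgt ρ), (B.x m n : ℂ) * (Z.x π ρ : ℂ) * T.k (n, ρ) π' =
      ∑ ρ' ∈ Z'.out (Z.src π), T.k (m, π) ρ' * (Z'.x ρ' π' : ℂ) := by
  have key := T.isMor.comm (m, π) π'
  rw [sum_comp_out] at key
  refine Eq.trans (Finset.sum_congr rfl fun ρ _ => Finset.sum_congr rfl fun n hn => ?_) key
  rw [morw_x, morw_one hm, morw_one (B.src_of_out hn)]
  ring

/-- Frobenius reciprocity on the left. -/
lemma isMor_flat {B Z Z' : Conn} (T : Mor Z' (comp B Z)) :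
    IsMor (comp B.conj Z') Z (fun π q => (Real.sqrt (B.w q.1) : ℂ) * T.k (q.1, π) q.2) := by
  refine ⟨?_, ?_⟩
  · rintro π ⟨g, π'⟩ h
    obtain ⟨s1, s2, s3, s4, s5, s6⟩ := morw_supp T (right_ne_zero_of_mul h)
    exact ⟨s2, (comp_valid _ _ _ _).2 ⟨(B.conj_valid _).2 s1, s4, s6⟩, s5, s3.symm⟩
  · rintro π ⟨g, π'⟩
    rw [sum_comp_out]
    simp only [morw_x]
    change ∑ ρ ∈ Z.out (Z'.src π'), (Z.x π ρ : ℂ) * ((Real.sqrt (B.w g) : ℂ) * T.k (g, ρ) π') =
      ∑ ρ' ∈ Z'.out (Z.src π), ∑ m ∈ B.inn (Z'.tgt ρ'), (Real.sqrt (B.w m) : ℂ) * T.k (m, π) ρ' *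
        ((ind (B.tgt m = Z'.tgt ρ') : ℂ) * (ind (B.tgt g = Z'.tgt π') : ℂ) *
          (((Real.sqrt (B.w m) * (Real.sqrt (B.w g))⁻¹ * B.x m g : ℝ) : ℂ) * (Z'.x ρ' π' : ℂ)))
    by_cases hg : B.tgt g = Z'.tgt π'
    swap
    · rw [morw_zero hg, Finset.sum_eq_zero, Finset.sum_eq_zero]
      · intro ρ _; exact Finset.sum_eq_zero fun m _ => by ring
      · intro ρ _
        by_cases h0 : T.k (g, ρ) π' = 0
        · rw [h0]; ring
        · exact absurd (morw_supp T h0).2.2.2.2.2 hg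
    have h1 : ∑ m ∈ B.out (Z.tgt π), (B.w m : ℂ) * (B.x m g : ℂ) *
        ∑ ρ ∈ Z.out (Z'.src π'), ∑ n ∈ B.out (Z.tgt ρ),
          (B.x m n : ℂ) * (Z.x π ρ : ℂ) * T.k (n, ρ) π' =
        (B.w g : ℂ) * ∑ ρ ∈ Z.out (Z'.src π'), (Z.x π ρ : ℂ) * T.k (g, ρ) π' := by
      simp only [Finset.mul_sum]
      rw [Finset.sum_comm]
      refine Finset.sum_congr rfl fun ρ _ => ?_
      rw [Finset.sum_comm, ← mor_single (B.out (Z.tgt ρ))
        (fun n => (B.w n : ℂ) * ((Z.x π ρ : ℂ) * T.k (n, ρ) π')) g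
        (fun n => B.valid n ∧ Adj (Z.tgt π) (B.src n))]
      · refine Finset.sum_congr rfl fun n _ => ?_
        by_cases h0 : T.k (n, ρ) π' = 0
        · simp [h0]
        have h3 := B.U2aC (Z.tgt π) n g ((morw_supp T h0).2.2.2.2.2.trans hg.symm)
        calc _ = (Z.x π ρ : ℂ) * T.k (n, ρ) π' *
              ∑ m ∈ B.out (Z.tgt π), (B.w m : ℂ) * ((B.x m n : ℂ) * B.x m g) := by
              rw [Finset.mul_sum]; exact Finset.sum_congr rfl fun m _ => by ring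
          _ = _ := by rw [h3]; ring
      · intro h0
        have s1 := morw_supp T (right_ne_zero_of_mul (right_ne_zero_of_mul h0))
        have s2 := mor_xC (left_ne_zero_of_mul (right_ne_zero_of_mul h0))
        exact ⟨B.mem_out.2 ⟨s1.1, s1.2.2.1⟩, s1.1, s1.2.2.1 ▸ s2.2.2.2⟩
    rw [Finset.sum_congr rfl fun m hm => by rw [morw_comm T m π π' (B.src_of_out hm)]] at h1
    have hs := mor_sqrt_ne B g
    have hq : (B.w g : ℂ) = (Real.sqrt (B.w g) : ℂ) * Real.sqrt (B.w g) := by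
      exact_mod_cast (Real.mul_self_sqrt (B.w_pos g).le).symm
    refine mul_left_cancel₀ hs ?_
    have h2 : (Real.sqrt (B.w g) : ℂ) * ∑ ρ ∈ Z.out (Z'.src π'),
        (Z.x π ρ : ℂ) * ((Real.sqrt (B.w g) : ℂ) * T.k (g, ρ) π') =
        (B.w g : ℂ) * ∑ ρ ∈ Z.out (Z'.src π'), (Z.x π ρ : ℂ) * T.k (g, ρ) π' := by
      rw [Finset.mul_sum, Finset.mul_sum]
      refine Finset.sum_congr rfl fun ρ _ => ?_
      linear_combination (-(Z.x π ρ : ℂ) * T.k (g, ρ) π') * hq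
    rw [h2, ← h1]
    simp only [Finset.mul_sum]
    rw [Finset.sum_comm]
    refine Finset.sum_congr rfl fun ρ' _ => ?_
    rw [B.sum_out_eq_sum_inn (Z.tgt π) (Z'.tgt ρ')]
    · refine Finset.sum_congr rfl fun m hm => ?_
      have hm2 : (B.w m : ℂ) = (Real.sqrt (B.w m) : ℂ) * Real.sqrt (B.w m) := by
        exact_mod_cast (Real.mul_self_sqrt (B.w_pos m).le).symm
      rw [morw_one (B.tgt_of_inn hm), morw_one hg]
      push_cast
      field_simp
      linear_combination ((B.x m g : ℂ) * T.k (m, π) ρ' * (Z'.x ρ' π' : ℂ)) * hm2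
    · intro m h0 _
      have s1 := morw_supp T (left_ne_zero_of_mul (right_ne_zero_of_mul h0))
      exact ⟨fun _ => s1.2.2.2.2.2, fun _ => s1.2.2.1⟩

/-- Frobenius reciprocity on the right. -/
lemma isMor_sharp {C Z Z' : Conn} (T : Mor Z' (comp Z C)) :
    IsMor (comp Z' C.conj) Z
      (fun π q => (Real.sqrt (C.w q.2) : ℂ)⁻¹ * T.k (π, q.2) q.1) := by
  refine ⟨?_, ?_⟩
  · rintro π ⟨π', g⟩ h
    obtain ⟨s1, s2, s3, s4, s5, s6⟩ := morw_supp T (right_ne_zero_of_mul h)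
    exact ⟨s1, (comp_valid _ _ _ _).2 ⟨s4, (C.conj_valid _).2 s2, s5.symm⟩, s3, s6⟩
  · rintro π ⟨π', g⟩
    rw [sum_comp_out]
    simp only [morw_x]
    change ∑ ρ ∈ Z.out (C.tgt g), (Z.x π ρ : ℂ) * ((Real.sqrt (C.w g) : ℂ)⁻¹ * T.k (ρ, g) π') =
      ∑ m ∈ C.inn (Z.src π), ∑ ρ' ∈ Z'.out (C.src m), (Real.sqrt (C.w m) : ℂ)⁻¹ * T.k (π, m) ρ' *
        ((ind (Z'.src ρ' = C.src m) : ℂ) * (ind (Z'.src π' = C.src g) : ℂ) *
          ((Z'.x ρ' π' : ℂ) * ((Real.sqrt (C.w m) * (Real.sqrt (C.w g))⁻¹ * C.x m g : ℝ) : ℂ)))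
    by_cases hg : Z'.src π' = C.src g
    swap
    · rw [morw_zero hg, Finset.sum_eq_zero, Finset.sum_eq_zero]
      · intro ρ _; exact Finset.sum_eq_zero fun m _ => by ring
      · intro ρ _
        by_cases h0 : T.k (ρ, g) π' = 0
        · rw [h0]; ring
        · exact absurd (morw_supp T h0).2.2.2.2.1.symm hg
    have h1 : ∑ m ∈ C.inn (Z.src π), (C.x m g : ℂ) *
        ∑ n ∈ C.out (Z'.src π'), ∑ ρ ∈ Z.out (C.tgt n),
          (Z.x π ρ : ℂ) * (C.x m n : ℂ) * T.k (ρ, n) π' =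
        ∑ ρ ∈ Z.out (C.tgt g), (Z.x π ρ : ℂ) * T.k (ρ, g) π' := by
      rw [← mor_single (C.out (Z'.src π'))
        (fun n => ∑ ρ ∈ Z.out (C.tgt n), (Z.x π ρ : ℂ) * T.k (ρ, n) π') g
        (fun n => C.valid n ∧ Adj (Z.src π) (C.tgt n))]
      · simp only [Finset.mul_sum]
        rw [Finset.sum_comm]
        refine Finset.sum_congr rfl fun n hn => ?_
        rw [← C.U1aC (Z.src π) n g ((C.src_of_out hn).trans hg), Finset.sum_mul_sum,
          Finset.sum_comm]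
        exact Finset.sum_congr rfl fun ρ _ => Finset.sum_congr rfl fun m _ => by ring
      · intro h0
        obtain ⟨ρ, hρ, h2⟩ := Finset.exists_ne_zero_of_sum_ne_zero h0
        have s1 := morw_supp T (right_ne_zero_of_mul h2)
        have s2 := mor_xC (left_ne_zero_of_mul h2)
        exact ⟨C.mem_out.2 ⟨s1.2.1, hg.symm⟩, s1.2.1, s1.2.2.1 ▸ s2.2.2.1⟩
    rw [Finset.sum_congr rfl fun m hm => by
      rw [morw_comm T π m π' (C.tgt_of_inn hm).symm]] at h1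
    have h2 : ∑ ρ ∈ Z.out (C.tgt g), (Z.x π ρ : ℂ) * ((Real.sqrt (C.w g) : ℂ)⁻¹ * T.k (ρ, g) π') =
        (Real.sqrt (C.w g) : ℂ)⁻¹ * ∑ ρ ∈ Z.out (C.tgt g), (Z.x π ρ : ℂ) * T.k (ρ, g) π' := by
      rw [Finset.mul_sum]
      exact Finset.sum_congr rfl fun ρ _ => by ring
    rw [h2, ← h1]
    simp only [Finset.mul_sum]
    refine Finset.sum_congr rfl fun m _ => Finset.sum_congr rfl fun ρ' hρ => ?_
    have hs := mor_sqrt_ne C g
    have hm := mor_sqrt_ne C m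
    rw [morw_one (Z'.src_of_out hρ), morw_one hg]
    push_cast
    field_simp

lemma morw_cc (B : Conn) (g e : B.E) : B.conj.conj.x g e = B.x g e := by
  change Real.sqrt (B.w g)⁻¹ * (Real.sqrt (B.w e)⁻¹)⁻¹ *
    (Real.sqrt (B.w g) * (Real.sqrt (B.w e))⁻¹ * B.x g e) = _
  have h1 := (Real.sqrt_pos.2 (B.w_pos g)).ne'
  have h2 := (Real.sqrt_pos.2 (B.w_pos e)).ne'
  rw [Real.sqrt_inv, Real.sqrt_inv]
  field_simp

lemma isMor_unflat {B Z Z' : Conn} (S : Mor Z (comp B.conj Z')) :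
    IsMor Z' (comp B Z)
      (fun p π' => (Real.sqrt (B.w p.1) : ℂ)⁻¹ * conj (S.k (p.1, π') p.2)) := by
  have h := (isMor_flat S).adj
  have e : ∀ (p : B.E × Z.E) (π' : Z'.E), conj ((Real.sqrt (B.conj.w p.1) : ℂ) * S.k (p.1, π') p.2) =
      (Real.sqrt (B.w p.1) : ℂ)⁻¹ * conj (S.k (p.1, π') p.2) := fun p π' => by
    change conj ((Real.sqrt (B.w p.1)⁻¹ : ℂ) * _) = _
    rw [map_mul, Complex.conj_ofReal, Real.sqrt_inv, Complex.ofReal_inv]
  have ex : ∀ q p : B.E × Z.E, (comp B.conj.conj Z).x q p = (comp B Z).x q p := fun q p => by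
    change _ * (B.conj.conj.x q.1 p.1 * _) = _
    rw [morw_cc]; rfl
  refine ⟨fun {p π'} h0 => h.supp (by rw [e]; exact h0), fun p π' => ?_⟩
  have := h.comm p π'
  simp only [e, ex] at this
  exact this

lemma isMor_unsharp {C Z Z' : Conn} (S : Mor Z (comp Z' C.conj)) :
    IsMor Z' (comp Z C)
      (fun p π' => (Real.sqrt (C.w p.2) : ℂ) * conj (S.k (π', p.2) p.1)) := by
  have h := (isMor_sharp S).adj
  have e : ∀ (p : Z.E × C.E) (π' : Z'.E),
      conj ((Real.sqrt (C.conj.w p.2) : ℂ)⁻¹ * S.k (π', p.2) p.1) =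
      (Real.sqrt (C.w p.2) : ℂ) * conj (S.k (π', p.2) p.1) := fun p π' => by
    change conj ((Real.sqrt (C.w p.2)⁻¹ : ℂ)⁻¹ * _) = _
    rw [map_mul, Real.sqrt_inv, Complex.ofReal_inv, inv_inv, Complex.conj_ofReal]
  have ex : ∀ q p : Z.E × C.E, (comp Z C.conj.conj).x q p = (comp Z C).x q p := fun q p => by
    change _ * (_ * C.conj.conj.x q.2 p.2) = _
    rw [morw_cc]; rfl
  refine ⟨fun {p π'} h0 => h.supp (by rw [e]; exact h0), fun p π' => ?_⟩
  have := h.comm p π'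
  simp only [e, ex] at this
  exact this

/-- The right unit constraint `B ∘ 1 → B`. -/
lemma isMor_runit (B : Conn) :
    IsMor (comp B Conn.one) B
      (fun e p => (ind (e = p.1 ∧ B.valid e ∧ B.src e = p.2) : ℂ)) := by
  refine ⟨?_, ?_⟩
  · rintro e ⟨g, a⟩ h
    obtain ⟨h1, h2, h3⟩ := indC_ne_zero h
    simp only at h1 h3
    subst h1
    exact ⟨h2, (comp_valid _ _ _ _).2 ⟨h2, one_valid _, h3⟩, h3, rfl⟩
  · rintro e ⟨g, a⟩
    rw [sum_comp_out]
    simp only [morw_x]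
    change ∑ m ∈ B.out a, (B.x e m : ℂ) * (ind (m = g ∧ B.valid m ∧ B.src m = a) : ℂ) =
      ∑ b ∈ ({B.src e} : Finset ℕ), ∑ m ∈ B.out b, (ind (e = m ∧ B.valid e ∧ B.src e = b) : ℂ) *
        ((ind (B.src m = b) : ℂ) * (ind (B.src g = a) : ℂ) * ((B.x m g : ℂ) * (ind (Adj b a) : ℂ)))
    rw [Finset.sum_singleton]
    by_cases h0 : (B.x e g : ℂ) = 0
    · rw [Finset.sum_eq_zero, Finset.sum_eq_zero]
      · intro m _
        by_cases hm : e = m
        · rw [← hm, h0]; ring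
        · rw [morw_zero (P := e = m ∧ _) fun h' => hm h'.1]; ring
      · intro m _
        by_cases hm : m = g
        · rw [hm, h0]; ring
        · rw [morw_zero (P := m = g ∧ _) fun h' => hm h'.1]; ring
    have s := mor_xC h0
    by_cases hg : B.src g = a
    · rw [mor_single (B.out a) (fun m => (B.x e m : ℂ)) g (fun m => B.valid m ∧ B.src m = a)
        fun _ => ⟨B.mem_out.2 ⟨s.2.1, hg⟩, s.2.1, hg⟩, Finset.sum_eq_single e]
      · rw [morw_one (P := e = e ∧ _) ⟨rfl, s.1, rfl⟩, morw_one (rfl : B.src e = _), morw_one hg,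
          morw_one (hg ▸ s.2.2.1)]
        ring
      · intro m _ hm
        rw [morw_zero (P := e = m ∧ _) fun h' => hm h'.1.symm]; ring
      · intro he
        exact absurd s.1 he
    · rw [morw_zero hg, Finset.sum_eq_zero, Finset.sum_eq_zero]
      · intro m _; ring
      · intro m _
        rw [morw_zero (P := m = g ∧ _) fun h' => hg (h'.1 ▸ h'.2.2)]; ring

namespace Mor

variable {B C Z Z' Z'' : Conn}

/-- Left whiskering. -/
def wl (B : Conn) (f : Mor Z Z') : Mor (comp B Z) (comp B Z') := mk' _ (isMor_wl B f)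
/-- Right whiskering. -/
def wr (f : Mor Z Z') (C : Conn) : Mor (comp Z C) (comp Z' C) := mk' _ (isMor_wr f C)
/-- Left Frobenius map. -/
def flat (T : Mor Z' (comp B Z)) : Mor (comp B.conj Z') Z := mk' _ (isMor_flat T)
/-- Right Frobenius map. -/
def sharp (T : Mor Z' (comp Z C)) : Mor (comp Z' C.conj) Z := mk' _ (isMor_sharp T)
/-- Inverse of `T ↦ T.flat.adj`. -/
def unflat (S : Mor Z (comp B.conj Z')) : Mor Z' (comp B Z) := mk' _ (isMor_unflat S)
/-- Inverse of `T ↦ T.sharp.adj`. -/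
def unsharp (S : Mor Z (comp Z' C.conj)) : Mor Z' (comp Z C) := mk' _ (isMor_unsharp S)
/-- Right unit constraint. -/
def runit (B : Conn) : Mor (comp B Conn.one) B := mk' _ (isMor_runit B)

lemma wl_k (B : Conn) (f : Mor Z Z') (g' g : B.E) (e' : Z'.E) (e : Z.E) :
    (wl B f).k (g', e') (g, e) =
      (ind (g' = g ∧ B.valid g ∧ B.src g = Z.tgt e) : ℂ) * f.k e' e := rfl
lemma wr_k (f : Mor Z Z') (C : Conn) (g' g : C.E) (e' : Z'.E) (e : Z.E) :
    (wr f C).k (e', g') (e, g) =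
      (ind (g' = g ∧ C.valid g ∧ Z.src e = C.tgt g) : ℂ) * f.k e' e := rfl
lemma flat_k (T : Mor Z' (comp B Z)) (π : Z.E) (g : B.E) (π' : Z'.E) :
    T.flat.k π (g, π') = (Real.sqrt (B.w g) : ℂ) * T.k (g, π) π' := rfl
lemma sharp_k (T : Mor Z' (comp Z C)) (π : Z.E) (g : C.E) (π' : Z'.E) :
    T.sharp.k π (π', g) = (Real.sqrt (C.w g) : ℂ)⁻¹ * T.k (π, g) π' := rfl
lemma unflat_k (S : Mor Z (comp B.conj Z')) (π : Z.E) (g : B.E) (π' : Z'.E) :
    S.unflat.k (g, π) π' = (Real.sqrt (B.w g) : ℂ)⁻¹ * conj (S.k (g, π') π) := rfl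
lemma unsharp_k (S : Mor Z (comp Z' C.conj)) (π : Z.E) (g : C.E) (π' : Z'.E) :
    S.unsharp.k (π, g) π' = (Real.sqrt (C.w g) : ℂ) * conj (S.k (π', g) π) := rfl
lemma runit_k (B : Conn) (e g : B.E) (a : ℕ) :
    (runit B).k e (g, a) = (ind (e = g ∧ B.valid e ∧ B.src e = a) : ℂ) := rfl

end Mor

end Pool.Agent.Lib.MP_d81181_an
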