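import Pool.Agent.Lib.MP_d81181_an.Emb

/-! The transposed matrix is not invertible. -/

open scoped Classical InnerProductSpace ComplexConjugate Matrix
open ContinuousLinearMap

noncomputable section

namespace Pool.Agent.Lib.MP_d81181_an

/-- The representation. -/
def UU : Matrix (Fin 2) (Fin 2) (BH →L[ℂ] BH) := Matrix.of fun i j => star (VV j i)

lemma UU_apply (i j : Fin 2) : UU i j = star (VV j i) := rfl

lemma UU_mem (i j : Fin 2) : UU i j ∈ MM := MM_star (VV_mem j i)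

lemma nonAdm_one (i j : Fin 2) : (1 : Matrix (Fin 2) (Fin 2) (BH →L[ℂ] BH)) i j =
    (ind (i = j) : ℂ) • (1 : BH →L[ℂ] BH) := by
  rw [Matrix.one_apply]
  by_cases h : i = j
  · rw [if_pos h, ind_of h, Complex.ofReal_one, one_smul]
  · rw [if_neg h, ind_of_not h, Complex.ofReal_zero, zero_smul]

theorem UU_unitary : UU ∈ unitary (Matrix (Fin 2) (Fin 2) (BH →L[ℂ] BH)) := by
  refine Unitary.mem_iff.mpr ⟨Matrix.ext fun i j => ?_, Matrix.ext fun i j => ?_⟩
  · rw [Matrix.mul_apply, nonAdm_one, ← VV_uni.row]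
    simp only [Matrix.star_apply, UU_apply, star_star]
  · rw [Matrix.mul_apply, nonAdm_one, ← VV_uni.col]
    simp only [Matrix.star_apply, UU_apply, star_star]

theorem Delta_UU (i j : Fin 2) : Delta (UU i j) = ∑ k, tens (UU i k) (UU k j) := by
  rw [UU_apply, Delta_star, Delta_VV, star_node]; rfl

lemma nonAdm_edges (N : ℕ) : ∃ (B : Tm) (e' e : B.c.E), B.c.valid e' ∧ B.c.valid e ∧
    B.c.src e' = 0 ∧ B.c.tgt e' = 0 ∧ B.c.src e = 1 ∧ B.c.tgt e = 1 ∧
    B.c.w e' = (5 / 2) ^ N ∧ B.c.w e = (2 / 5) ^ N ∧ B.c.x e' e = (-1 / 5) ^ N := by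
  induction N with
  | zero =>
    exact ⟨Tm.one, (0 : ℕ), (1 : ℕ), Conn.one_valid _, Conn.one_valid _, rfl, rfl, rfl, rfl,
      (pow_zero _).symm, (pow_zero _).symm, (ind_of (Or.inl rfl)).trans (pow_zero _).symm⟩
  | succ N ih =>
    obtain ⟨B, e', e, v', v, s', t', s, t, w', w, x⟩ := ih
    have a01 : Adj 0 1 := Or.inl rfl
    refine ⟨Tm.X.comp (Tm.Y.comp B), (((1, 0) : ℕ × ℕ), (((0, 1) : ℕ × ℕ), e')),
      (((0, 1) : ℕ × ℕ), (((1, 0) : ℕ × ℕ), e)), ?_, ?_, s', rfl, s, rfl, ?_, ?_, ?_⟩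
    · exact (Conn.comp_valid cX (Conn.comp cY B.c) _ _).mpr
        ⟨(letter_valid le_rfl 1 0).mpr a01.symm,
          (Conn.comp_valid cY B.c _ _).mpr ⟨(letter_valid (by norm_num) 0 1).mpr a01, v', t'.symm⟩,
          rfl⟩
    · exact (Conn.comp_valid cX (Conn.comp cY B.c) _ _).mpr
        ⟨(letter_valid le_rfl 0 1).mpr a01,
          (Conn.comp_valid cY B.c _ _).mpr
            ⟨(letter_valid (by norm_num) 1 0).mpr a01.symm, v, t.symm⟩, rfl⟩
    · change mu 2 0 / mu 2 1 * (mu 5 1 / mu 5 0 * B.c.w e') = _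
      rw [w', pow_succ, mu_zero, mu_zero, mu_one, mu_one]
      ring
    · change mu 2 1 / mu 2 0 * (mu 5 0 / mu 5 1 * B.c.w e) = _
      rw [w, pow_succ, mu_zero, mu_zero, mu_one, mu_one]
      ring
    · change ind ((1 : ℕ) = 1) * ind ((0 : ℕ) = 0) * (lx 2 (0 + 1, 0) (0, 0 + 1) *
        (ind (0 = B.c.tgt e') * ind (1 = B.c.tgt e) * (lx 5 (0, 0 + 1) (0 + 1, 0) * B.c.x e' e))) = _
      rw [lx_ou, lx_od, x, ind_of rfl, ind_of rfl, ind_of t'.symm, ind_of t.symm, pow_succ,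
        mu_zero, zero_add, mu_one]
      ring

/-- The coefficients of the algebraic inverse of the transposed matrix are unbounded. -/
theorem exists_big_coef (C : ℝ) : ∃ (B : Tm) (q p : Raw B.c), LV B.c q ∧ LV B.c p ∧
    C < |Qw B.c q / Qw B.c p * Vk B.c 0 0 q p| := by
  obtain ⟨N, hN⟩ := pow_unbounded_of_one_lt (2 * C) (by norm_num : (1 : ℝ) < 5 / 4)
  obtain ⟨B, e', e, v', v, s', t', s, t, w', w, x⟩ := nonAdm_edges N
  refine ⟨B, ((0, 0), e', (0, 0)), ((0, 1), e, (0, 1)), ⟨v', t'.symm, s'.symm⟩,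
    ⟨v, t.symm, s.symm⟩, ?_⟩
  have hA : A (0, 0) (0, 1) 0 = 1 := by simp [A, ind, up, bar, co, sgn]
  have hc : Qw B.c ((0, 0), e', (0, 0)) / Qw B.c ((0, 1), e, (0, 1)) *
      Vk B.c 0 0 ((0, 0), e', (0, 0)) ((0, 1), e, (0, 1)) = (-(5 / 4)) ^ N / Real.sqrt 2 := by
    have h1 : (-(5 / 4) : ℝ) ^ N = (5 / 2) ^ N / (2 / 5) ^ N * (-1 / 5) ^ N := by
      rw [← div_pow, ← mul_pow]; norm_num
    simp only [Qw, Vk, hA, s', t', s, t, w', w, x, sz, h1]
    norm_num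
    ring
  have h2 : Real.sqrt 2 ≤ 2 := Real.sqrt_le_iff.mpr ⟨by norm_num, by norm_num⟩
  have h3 : 0 < Real.sqrt 2 := by positivity
  have h4 : (0 : ℝ) < (5 / 4) ^ N := by positivity
  rw [hc, abs_div, abs_pow, abs_neg, abs_of_pos (by norm_num : (0 : ℝ) < 5 / 4), abs_of_pos h3]
  calc C < (5 / 4) ^ N / 2 := by linarith
    _ ≤ (5 / 4) ^ N / Real.sqrt 2 := div_le_div_of_nonneg_left h4.le h3 h2

lemma nonAdm_norm (B : Tm) {p : Raw B.c} (hp : LV B.c p) : ‖JL B (bvec (LV B.c) p)‖ = 1 := by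
  rw [(emb_JL B).norm, bvec_of hp]
  exact (eb _).orthonormal.1 _

theorem UU_not_adm : ¬ IsUnit UUᵀ := by
  intro h
  obtain ⟨Y, hY⟩ := h.exists_right_inv
  have h1 : ∀ k : Fin 2, ∑ i, star (Y i 0) * VV k i = (ind (k = 0) : ℂ) • (1 : BH →L[ℂ] BH) := by
    intro k
    have h2 := congrArg star (congrFun (congrFun hY k) 0)
    rw [Matrix.mul_apply, nonAdm_one, star_sum, star_smul, star_one] at h2
    simp only [star_mul, Matrix.transpose_apply, UU_apply, star_star] at h2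
    rw [h2]
    congr 1
    exact Complex.conj_ofReal _
  obtain ⟨B, q, p, hq, hp, hC⟩ := exists_big_coef ‖star (Y 0 0)‖
  obtain ⟨ζ, hζ, hc⟩ := exists_zeta B.c 0 hq
  have h3 : ∀ i, ∑ k, VV k i (JL B (ζ k)) = (ind (i = 0) : ℂ) • JL B (bvec (LV B.c) q) := by
    intro i
    rw [← map_smul, ← hζ, map_sum]
    exact Finset.sum_congr rfl fun k _ => congrArg (fun T => T (ζ k)) (JL_intw B k i)
  have h4 : JL B (ζ 0) = star (Y 0 0) (JL B (bvec (LV B.c) q)) := by
    calc JL B (ζ 0) = ∑ k, (ind (k = 0) : ℂ) • JL B (ζ k) :=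
          (sum_ind_smul_right 0 fun k => JL B (ζ k)).symm
      _ = ∑ k, ∑ i, star (Y i 0) (VV k i (JL B (ζ k))) := Finset.sum_congr rfl fun k _ => by
          have h5 := congrArg (fun T => T (JL B (ζ k))) (h1 k)
          simp only [sum_apply, mul_apply_eq_comp, smul_apply, one_apply_eq_self] at h5
          exact h5.symm
      _ = ∑ i, (ind (i = 0) : ℂ) • star (Y i 0) (JL B (bvec (LV B.c) q)) := by
          rw [Finset.sum_comm]
          exact Finset.sum_congr rfl fun i _ => by rw [← map_sum, h3, map_smul]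
      _ = _ := sum_ind_smul_right 0 fun i => star (Y i 0) (JL B (bvec (LV B.c) q))
  have h6 := hc 0 p hp
  rw [← (emb_JL B).inner, h4] at h6
  have h7 := norm_inner_le_norm (𝕜 := ℂ) (JL B (bvec (LV B.c) p))
    (star (Y 0 0) (JL B (bvec (LV B.c) q)))
  have h8 := (star (Y 0 0)).le_opNorm (JL B (bvec (LV B.c) q))
  rw [h6, Complex.norm_real, Real.norm_eq_abs, nonAdm_norm B hp, one_mul] at h7
  rw [nonAdm_norm B hq, mul_one] at h8
  exact absurd (h7.trans h8) (not_le.mpr hC)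

end Pool.Agent.Lib.MP_d81181_an
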