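import Pool.Agent.Lib.MP_d81181_an.Psi
import Pool.Agent.Lib.MP_d81181_an.FrobR
import Pool.Agent.Lib.MP_d81181_an.Rop

/-! The Haar weight and right multiplication by the generators. -/

open scoped Classical InnerProductSpace ComplexConjugate ENNReal
open ContinuousLinearMap

noncomputable section

namespace Pool.Agent.Lib.MP_d81181_an

open Conn

/-- The function on the first level with coefficients `lam`. -/
def star_chi (lam : Fin 2 → ℂ) : St → ℂ := fun s => ∑ l, lam l * (A s (0, 0) l : ℂ)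

lemma star_chi_norm (lam : Fin 2 → ℂ) :
    ∑ s ∈ lev 1, ‖star_chi lam s‖ ^ 2 = ∑ l, ‖lam l‖ ^ 2 := by
  have h : lev 1 = {((1, 0) : St), (0, 1)} := by
    ext ⟨i, j⟩
    simp only [mem_lev, sz, Finset.mem_insert, Finset.mem_singleton, Prod.mk.injEq]
    omega
  have h1 : ∀ s : St, sz s = 1 → ∀ l, A s (0, 0) l = ind (s = up l (0, 0)) := fun s hs l => by
    rw [fk_A_above (s := (0, 0)) hs l]
    have : co (0, 0) l = 0 := by unfold co; split_ifs <;> rfl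
    rw [this]
    simp
  rw [h, Finset.sum_pair (by simp), Fin.sum_univ_two]
  simp [star_chi, Fin.sum_univ_two, h1 (1, 0) rfl, h1 (0, 1) rfl, up]

lemma star_up (k : Fin 2) {M : Type} [AddCommGroup M] [Module ℂ M] (F : St → M) (c : ℂ) :
    ∑ u ∈ lev 1, ((A u (0, 0) k : ℂ) * c) • F u = c • F (up k (0, 0)) := by
  have h := sum_A_up (M := M) (n := 0) (t := (0, 0)) rfl k fun u => c • F u
  have h0 : co (0, 0) k = 0 := by unfold co; split_ifs <;> rfl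
  rw [h0] at h
  simp only [Nat.cast_zero, zero_add, Real.sqrt_one, one_smul] at h
  rw [← h]
  refine Finset.sum_congr rfl fun u _ => ?_
  rw [mul_smul, Complex.coe_smul]

lemma star_VL (Z : Conn) (k l : Fin 2) {π : Z.E} (hπ : π ∈ Z.ed 0) :
    VL Z k l (bv Z (0, 0) π (0, 0)) = ∑ g ∈ Z.out 1, ∑ s ∈ lev (Z.tgt g),
      ((A s (0, 0) l : ℂ) * (Z.x g π : ℂ) / (Real.sqrt 2 : ℂ)) • bv Z s g (up k (0, 0)) := by
  obtain ⟨h1, h2, h3⟩ := mem_ed.mp hπ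
  have hp : LV Z ((0, 0), π, (0, 0)) := ⟨h1, h3.symm, h2.symm⟩
  rw [bv, VL_bvecO Z k l hp, sum_nearO]
  change ∑ a' ∈ nb (Z.src π), _ = _
  rw [h2, sum_nb_zero]
  refine Finset.sum_congr rfl fun g _ => Finset.sum_congr rfl fun s _ => ?_
  rw [← star_up k (fun u => bv Z s g u)]
  refine Finset.sum_congr rfl fun t ht => ?_
  have h4 : sz t = 1 := mem_lev.mp ht
  have h5 : Vk Z k l (s, g, t) ((0, 0), π, (0, 0)) =
      A t (0, 0) k * (A s (0, 0) l * Z.x g π / Real.sqrt 2) := by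
    have h6 : sz ((0, 0) : St) = 0 := rfl
    simp only [Vk, h4, h6]
    norm_num
    ring
  rw [h5]
  push_cast
  rfl

lemma star_act {Z : Conn} (p : Mor Z Z) (π g : Z.E) (χ : St → ℂ) :
    act (Mor.wr p cX) (rgt π χ) (g, ((0, 1) : ℕ × ℕ)) =
      (∑ g' ∈ Z.out 1, p.k g g' * (Z.x g' π : ℂ)) • χ := by
  have hval : cX.valid ((0, 1) : ℕ × ℕ) := (letter_valid le_rfl 0 1).mpr (Or.inl rfl)
  have h1 : act (Mor.wr p cX) (rgt π χ) (g, ((0, 1) : ℕ × ℕ)) =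
      ∑ e ∈ cX.out 0, ∑ g' ∈ Z.out (cX.tgt e),
        (Mor.wr p cX).k (g, ((0, 1) : ℕ × ℕ)) (g', e) • rgt π χ (g', e) :=
    sum_comp_out Z cX 0 fun q => (Mor.wr p cX).k (g, ((0, 1) : ℕ × ℕ)) q • rgt π χ q
  rw [h1]
  refine (frobR_out_zero fun e => ∑ g' ∈ Z.out (cX.tgt e),
    (Mor.wr p cX).k (g, ((0, 1) : ℕ × ℕ)) (g', e) • rgt π χ (g', e)).trans ?_
  rw [Finset.sum_smul]
  refine Finset.sum_congr rfl fun g' hg' => ?_
  have h2 : rgt π χ (g', ((0, 1) : ℕ × ℕ)) = ((Z.x g' π : ℝ) : ℂ) • χ := by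
    have h3 : rgt π χ (g', ((0, 1) : ℕ × ℕ)) =
        ((ind (((0, 1) : ℕ × ℕ) = (0, 1)) * Z.x g' π : ℝ) : ℂ) • χ := rfl
    rw [h3, ind_of rfl, one_mul]
  have h4 : (Mor.wr p cX).k (g, ((0, 1) : ℕ × ℕ)) (g', ((0, 1) : ℕ × ℕ)) = p.k g g' := by
    refine (Mor.wr_k p cX _ _ g g').trans ?_
    rw [ind_of ⟨rfl, hval, Z.src_of_out hg'⟩, Complex.ofReal_one, one_mul]
  rw [h2, h4, smul_smul]

lemma star_rop {Z : Conn} (p : Mor Z Z) (π : Z.E) (χ : St → ℂ) (k : Fin 2)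
    (r : HL (comp Z cX) →L[ℂ] HL Z)
    (hr : ∀ s e (a m : ℕ) t, LV (comp Z cX) (s, (e, ((a, m) : ℕ × ℕ)), t) →
      r (bv (comp Z cX) s (e, ((a, m) : ℕ × ℕ)) t) =
        ∑ u ∈ lev m, ((A u t k / Real.sqrt (m + 1) : ℝ) : ℂ) • bv Z s e u) :
    r (vec (comp Z cX) (act (Mor.wr p cX) (rgt π χ))) = ∑ g ∈ Z.out 1, ∑ s ∈ lev (Z.tgt g),
      ((∑ g' ∈ Z.out 1, p.k g g' * (Z.x g' π : ℂ)) * χ s / (Real.sqrt 2 : ℂ)) •
        bv Z s g (up k (0, 0)) := by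
  have hval : cX.valid ((0, 1) : ℕ × ℕ) := (letter_valid le_rfl 0 1).mpr (Or.inl rfl)
  have h1 : vec (comp Z cX) (act (Mor.wr p cX) (rgt π χ)) = ∑ g ∈ Z.out 1, ∑ s ∈ lev (Z.tgt g),
      act (Mor.wr p cX) (rgt π χ) (g, ((0, 1) : ℕ × ℕ)) s •
        bv (comp Z cX) s (g, ((0, 1) : ℕ × ℕ)) (0, 0) := by
    rw [vec_apply]
    refine (sum_comp_out Z cX 0 fun q => ∑ s ∈ lev ((comp Z cX).tgt q),
      act (Mor.wr p cX) (rgt π χ) q s • bv (comp Z cX) s q (0, 0)).trans ?_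
    exact frobR_out_zero fun e => ∑ g ∈ Z.out (cX.tgt e), ∑ s ∈ lev ((comp Z cX).tgt (g, e)),
      act (Mor.wr p cX) (rgt π χ) (g, e) s • bv (comp Z cX) s (g, e) (0, 0)
  rw [h1, map_sum]
  refine Finset.sum_congr rfl fun g hg => ?_
  rw [map_sum]
  refine Finset.sum_congr rfl fun s hs => ?_
  obtain ⟨hg1, hg2⟩ := Z.mem_out.mp hg
  have hv : LV (comp Z cX) (s, (g, ((0, 1) : ℕ × ℕ)), (0, 0)) :=
    ⟨(comp_valid Z cX _ _).mpr ⟨hg1, hval, hg2⟩, mem_lev.mp hs, rfl⟩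
  have h2 : ∑ u ∈ lev 1, ((A u (0, 0) k / Real.sqrt ((1 : ℕ) + 1) : ℝ) : ℂ) • bv Z s g u =
      (Real.sqrt 2 : ℂ)⁻¹ • bv Z s g (up k (0, 0)) := by
    rw [← star_up k (fun u => bv Z s g u)]
    refine Finset.sum_congr rfl fun u _ => ?_
    have h3 : (((1 : ℕ) : ℝ) + 1) = 2 := by norm_num
    rw [h3, Complex.ofReal_div, div_eq_mul_inv]
  rw [map_smul, hr s g 0 1 (0, 0) hv, h2, star_act, smul_smul, Pi.smul_apply, smul_eq_mul,
    div_eq_mul_inv]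

lemma star_key (Z : Irr) {π : Z.c.E} (hπ : π ∈ Z.c.ed 0) (lam : Fin 2 → ℂ) (k : Fin 2) :
    ∑ l, lam l • VL Z.c k l (ev Z π) = ∑ g ∈ Z.c.out 1, ∑ s ∈ lev (Z.c.tgt g),
      ((∑ g' ∈ Z.c.out 1, Z.p.k g g' * (Z.c.x g' π : ℂ)) * star_chi lam s / (Real.sqrt 2 : ℂ)) •
        bv Z.c s g (up k (0, 0)) := by
  obtain ⟨-, h2, h3⟩ := mem_ed.mp hπ
  have h1 : ∀ l, VL Z.c k l (ev Z π) = ∑ g ∈ Z.c.out 1, ∑ s ∈ lev (Z.c.tgt g),
      ((∑ g' ∈ Z.c.out 1, Z.p.k g g' * (Z.c.x g' π : ℂ)) * (A s (0, 0) l : ℂ) /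
        (Real.sqrt 2 : ℂ)) • bv Z.c s g (up k (0, 0)) := by
    intro l
    rw [ev_eq Z hπ, map_sum, Finset.sum_congr rfl fun π' hπ' => by
      rw [map_smul, star_VL Z.c k l hπ', Finset.smul_sum], Finset.sum_comm]
    refine Finset.sum_congr rfl fun g hg => ?_
    simp only [Finset.smul_sum, smul_smul]
    rw [Finset.sum_comm]
    refine Finset.sum_congr rfl fun s _ => ?_
    rw [← Finset.sum_smul]
    refine congrArg (· • _) ?_
    have h4 := Z.p.isMor.comm g π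
    rw [h2, Z.c.src_of_out hg] at h4
    rw [← h4, Finset.sum_mul, Finset.sum_div, Conn.ed, Finset.sum_filter]
    refine Finset.sum_congr rfl fun π' _ => ?_
    split_ifs with h
    · ring
    · have h5 : Z.p.k π' π = 0 := by
        by_contra h0
        exact h ((Z.p.supp h0).2.2.2.trans h3)
      rw [h5]
      simp
  simp only [h1, Finset.smul_sum, smul_smul]
  rw [Finset.sum_comm]
  refine Finset.sum_congr rfl fun g _ => ?_
  rw [Finset.sum_comm]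
  refine Finset.sum_congr rfl fun s _ => ?_
  rw [← Finset.sum_smul, star_chi, Finset.mul_sum, Finset.sum_div]
  refine congrArg (· • _) (Finset.sum_congr rfl fun l _ => ?_)
  ring

theorem phi_conj_VV {x : BH →L[ℂ] BH} (hx : x ∈ MM) (h0 : 0 ≤ x) (lam : Fin 2 → ℂ) :
    ∑ k, phi (cp (∑ l, lam l • VV k l) x) = ENNReal.ofReal (∑ l, ‖lam l‖ ^ 2) * phi x := by
  rw [← star_chi_norm, ← Psi_eq hx h0 1 (star_chi lam), ← NatForm.right]
  simp only [phi_eq]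
  rw [← Summable.tsum_finsetSum fun _ _ => ENNReal.summable]
  refine tsum_congr fun Z => ?_
  rw [Finset.sum_comm]
  refine Finset.sum_congr rfl fun π hπ => ?_
  obtain ⟨r, hr1, hr2, hr3⟩ := exists_rop Z.c
  obtain ⟨u, hu⟩ : ∃ u, u = vec (comp Z.c cX) (act (Mor.wr Z.p cX) (rgt π (star_chi lam))) :=
    ⟨_, rfl⟩
  have h1 : ∀ k, (∑ l, lam l • VV k l) (JL Z.t (ev Z π)) = JL Z.t (r k u) := fun k => by
    rw [hu, star_rop Z.p π _ k (r k) (hr3 k), ← star_key Z hπ lam k, map_sum, _root_.sum_apply]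
    refine Finset.sum_congr rfl fun l _ => ?_
    rw [map_smul, smul_apply]
    exact congrArg (fun Y => lam l • Y (ev Z π)) (JL_intw Z.t k l)
  have h2 := (emb_JL (Z.t.comp Tm.X)).inner_split (emb_JL Z.t) hr2 hr1 hx u u
  have h3 : (nform x hx h0).G (Z.t.comp Tm.X) (act (Mor.wr Z.p cX) (rgt π (star_chi lam)))
      (act (Mor.wr Z.p cX) (rgt π (star_chi lam))) =
      ⟪JL (Z.t.comp Tm.X) u, x (JL (Z.t.comp Tm.X) u)⟫_ℂ := by
    rw [hu]
    rfl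
  rw [h3, h2, Complex.re_sum, Finset.mul_sum, ENNReal.ofReal_sum_of_nonneg fun k _ =>
    mul_nonneg (coef_nonneg Z π) (re_inner_nonneg_of_nonneg h0 _)]
  refine Finset.sum_congr rfl fun k _ => ?_
  rw [inner_cp, h1]
  rfl

end Pool.Agent.Lib.MP_d81181_an
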