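import Pool.Agent.Lib.MP_d81181_an.Gen
import Pool.Agent.Lib.MP_d81181_an.Star
import Pool.Agent.Lib.MP_d81181_an.NonAdm

/-! The entries of the representation are multipliers of the reduced C*-algebra. -/

open scoped Classical InnerProductSpace ComplexConjugate ENNReal
open ContinuousLinearMap

noncomputable section

namespace Pool.Agent.Lib.MP_d81181_an

lemma mult_fin {x : BH →L[ℂ] BH} (hx : x ∈ MM) (h0 : 0 ≤ x) (hf : phi x < ⊤) (lam : Fin 2 → ℂ)
    (k : Fin 2) : phi (cp (∑ l, lam l • VV k l) x) < ⊤ := by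
  refine lt_of_le_of_lt (Finset.single_le_sum (f := fun k => phi (cp (∑ l, lam l • VV k l) x))
    (fun _ _ => zero_le) (Finset.mem_univ k)) ?_
  rw [phi_conj_VV hx h0]
  exact ENNReal.mul_lt_top ENNReal.ofReal_lt_top hf

lemma Nphi.right {a : BH →L[ℂ] BH} (ha : Nphi a) (k l : Fin 2) : Nphi (a * VV k l) := by
  refine ⟨mul_mem ha.1 (VV_mem k l), ?_⟩
  have h := mult_fin (mul_mem (MM_star ha.1) ha.1) (star_mul_self_nonneg a) ha.2
    (fun l' => (ind (l' = l) : ℂ)) k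
  rw [sum_ind_smul_right l (VV k)] at h
  have e : star (a * VV k l) * (a * VV k l) = cp (VV k l) (star a * a) := by
    rw [star_mul, cp, ← star_eq_adjoint, ← mul_def, ← mul_def]
    simp only [mul_assoc]
  rw [e]
  exact h

lemma mult_quad {p : BH →L[ℂ] BH} (hp : p ∈ MM) (h0 : 0 ≤ p) (hf : phi p < ⊤) (lam : Fin 2 → ℂ) :
    HasSum (fun j => ∑ l, ∑ m, conj (lam l) * lam m *
      ∑ k, ⟪VV k l (eta j), p (VV k m (eta j))⟫_ℂ)
      (((∑ l, ‖lam l‖ ^ 2 : ℝ) : ℂ) * ((phi p).toReal : ℂ)) := by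
  have h1 := hasSum_sum (s := (Finset.univ : Finset (Fin 2))) fun k _ =>
    hasSum_vw (η := eta) (cp_nonneg (∑ l, lam l • VV k l) h0) (mult_fin hp h0 hf lam k)
  have h2 : ∑ k, ((vw eta (cp (∑ l, lam l • VV k l) p)).toReal : ℂ) =
      ((∑ l, ‖lam l‖ ^ 2 : ℝ) : ℂ) * ((phi p).toReal : ℂ) := by
    have h3 := congrArg ENNReal.toReal (phi_conj_VV hp h0 lam)
    rw [ENNReal.toReal_sum fun k _ => (mult_fin hp h0 hf lam k).ne, ENNReal.toReal_mul,
      ENNReal.toReal_ofReal (Finset.sum_nonneg fun l _ => sq_nonneg _)] at h3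
    rw [← Complex.ofReal_mul, ← h3, Complex.ofReal_sum]
    rfl
  have h4 : (fun j => ∑ k, ⟪eta j, cp (∑ l, lam l • VV k l) p (eta j)⟫_ℂ) =
      fun j => ∑ l, ∑ m, conj (lam l) * lam m *
        ∑ k, ⟪VV k l (eta j), p (VV k m (eta j))⟫_ℂ := by
    funext j
    simp only [inner_cp, Fin.sum_univ_two, add_apply, smul_apply, map_add, map_smul,
      inner_add_left, inner_add_right, inner_smul_left, inner_smul_right]
    ring
  rw [h2, h4] at h1
  exact h1

lemma mult_polar {J : Type} {S : Fin 2 → Fin 2 → J → ℂ} {c : ℂ}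
    (h : ∀ lam : Fin 2 → ℂ, HasSum (fun j => ∑ l, ∑ m, conj (lam l) * lam m * S l m j)
      (((∑ l, ‖lam l‖ ^ 2 : ℝ) : ℂ) * c)) (l m : Fin 2) :
    HasSum (S l m) ((ind (l = m) : ℂ) * c) := by
  have h0 : HasSum (S 0 0) c := by simpa [Fin.sum_univ_two] using h ![1, 0]
  have h1 : HasSum (S 1 1) c := by simpa [Fin.sum_univ_two] using h ![0, 1]
  have h2 : HasSum (fun j => S 0 0 j + S 0 1 j + (S 1 0 j + S 1 1 j)) ((1 + 1) * c) := by
    simpa [Fin.sum_univ_two] using h ![1, 1]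
  have h3 : HasSum (fun j => S 0 0 j + Complex.I * S 0 1 j +
      (-(Complex.I * S 1 0 j) + S 1 1 j)) ((1 + 1) * c) := by
    simpa [Fin.sum_univ_two] using h ![1, Complex.I]
  have hA := (h2.sub h0).sub h1
  have hB := ((h3.sub h0).sub h1).mul_left Complex.I
  have h01 : HasSum (S 0 1) 0 := by
    have h4 := (hA.sub hB).mul_left (1 / 2)
    have e1 : (fun j => 1 / 2 * (S 0 0 j + S 0 1 j + (S 1 0 j + S 1 1 j) - S 0 0 j - S 1 1 j -
        Complex.I * (S 0 0 j + Complex.I * S 0 1 j + (-(Complex.I * S 1 0 j) + S 1 1 j) -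
          S 0 0 j - S 1 1 j))) = S 0 1 := by
      funext j
      linear_combination (-1 / 2 * (S 0 1 j - S 1 0 j)) * Complex.I_mul_I
    have e2 : 1 / 2 * ((1 + 1) * c - c - c - Complex.I * ((1 + 1) * c - c - c)) = 0 := by ring
    rw [e1, e2] at h4
    exact h4
  have h10 : HasSum (S 1 0) 0 := by
    have h4 := (hA.add hB).mul_left (1 / 2)
    have e1 : (fun j => 1 / 2 * (S 0 0 j + S 0 1 j + (S 1 0 j + S 1 1 j) - S 0 0 j - S 1 1 j +
        Complex.I * (S 0 0 j + Complex.I * S 0 1 j + (-(Complex.I * S 1 0 j) + S 1 1 j) -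
          S 0 0 j - S 1 1 j))) = S 1 0 := by
      funext j
      linear_combination (1 / 2 * (S 0 1 j - S 1 0 j)) * Complex.I_mul_I
    have e2 : 1 / 2 * ((1 + 1) * c - c - c + Complex.I * ((1 + 1) * c - c - c)) = 0 := by ring
    rw [e1, e2] at h4
    exact h4
  fin_cases l <;> fin_cases m
  · simpa [ind] using h0
  · simpa [ind] using h01
  · simpa [ind] using h10
  · simpa [ind] using h1

lemma HasVal.conj_VV {z : BH →L[ℂ] BH} {v : ℂ} (h : HasVal MM phi z v) (l m : Fin 2) :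
    HasSum (fun j => ∑ k, ⟪VV k l (eta j), z (VV k m (eta j))⟫_ℂ) ((ind (l = m) : ℂ) * v) := by
  obtain ⟨p, hp, rfl, rfl⟩ := h
  have h1 := hasSum_sum (s := (Finset.univ : Finset (Fin 4))) fun n _ =>
    (mult_polar (S := fun l m j => ∑ k, ⟪VV k l (eta j), p n (VV k m (eta j))⟫_ℂ)
      (mult_quad (hp n).1 (hp n).2.1 (hp n).2.2) l m).mul_left (Complex.I ^ (n : ℕ))
  have e1 : (fun j => ∑ n : Fin 4, Complex.I ^ (n : ℕ) *
      ∑ k, ⟪VV k l (eta j), p n (VV k m (eta j))⟫_ℂ) =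
      fun j => ∑ k, ⟪VV k l (eta j),
        (∑ n : Fin 4, Complex.I ^ (n : ℕ) • p n) (VV k m (eta j))⟫_ℂ := by
    funext j
    simp only [sum_apply, smul_apply, inner_sum, inner_smul_right, Finset.mul_sum]
    exact Finset.sum_comm
  have e2 : ∑ n : Fin 4, Complex.I ^ (n : ℕ) * ((ind (l = m) : ℂ) * ((phi (p n)).toReal : ℂ)) =
      (ind (l = m) : ℂ) * ∑ n : Fin 4, Complex.I ^ (n : ℕ) * ((phi (p n)).toReal : ℂ) := by
    rw [Finset.mul_sum]
    exact Finset.sum_congr rfl fun n _ => mul_left_comm _ _ _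
  rw [e1, e2] at h1
  exact h1

lemma mult_key (i j : Fin 2) (w : HT BH BH) (ξ u : BH) :
    ∑ k, ⟪node VV VV k i w, tm ξ (VV k j u)⟫_ℂ = ⟪w, tm (star (VV j i) ξ) u⟫_ℂ := by
  have h1 : ∀ k, ⟪node VV VV k i w, tm ξ (VV k j u)⟫_ℂ =
      ⟪w, ∑ γ, tm (star (VV γ i) ξ) ((star (VV k γ) * VV k j) u)⟫_ℂ := fun k => by
    rw [← adjoint_inner_right, ← star_eq_adjoint, star_node, sum_apply]
    simp only [tens_tm, mul_apply_eq_comp]
  have h2 : ∀ γ, ∑ k, tm (star (VV γ i) ξ) ((star (VV k γ) * VV k j) u) =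
      (ind (γ = j) : ℂ) • tm (star (VV γ i) ξ) u := fun γ => by
    rw [← tm_sum_right, ← sum_apply, VV_uni.col, smul_apply, one_apply_eq_self, tm_smul_right]
  simp only [h1]
  rw [← inner_sum, Finset.sum_comm]
  simp only [h2]
  rw [sum_ind_smul_right j fun γ => tm (star (VV γ i) ξ) u]

lemma gen_mul_right {a b c : BH →L[ℂ] BH} (hb : b ∈ MM) (hc : Gen a b c) (i j : Fin 2)
    {d : Fin 2 → BH →L[ℂ] BH} (hd : ∀ k, Gen (VV k j * a) (VV k i * b) (d k)) :
    c * UU i j = ∑ k, d k := by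
  refine ContinuousLinearMap.ext fun ξ => ext_inner_left ℂ fun ξ' => ?_
  have h1 := hasSum_sum (s := (Finset.univ : Finset (Fin 2))) fun k _ => hd k ξ' ξ
  have e : (fun n => ∑ k, ⟪Delta (VV k i * b) (tm ξ' (eta n)), tm ξ ((VV k j * a) (eta n))⟫_ℂ) =
      fun n => ⟪Delta b (tm ξ' (eta n)), tm (UU i j ξ) (a (eta n))⟫_ℂ := by
    funext n
    simp only [Delta_mul _ hb, Delta_VV, mul_apply_eq_comp]
    exact mult_key i j _ _ _
  rw [e] at h1
  rw [sum_apply, inner_sum, mul_apply_eq_comp]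
  exact (hc ξ' (UU i j ξ)).unique h1

lemma gen_mul_left {a b c : BH →L[ℂ] BH} (ha : Nphi a) (hb : Nphi b) (hc : Gen a b c)
    (i j : Fin 2) {d : Fin 2 → BH →L[ℂ] BH} (hd : ∀ k, Gen (a * VV k j) (b * VV k i) (d k)) :
    UU i j * c = ∑ k, d k := by
  refine ContinuousLinearMap.ext fun ξ => ext_inner_left ℂ fun ξ' => ?_
  have h1 := hasSum_sum (s := (Finset.univ : Finset (Fin 2))) fun k _ => hd k ξ' ξ
  have h2 := hasSum_sum (s := (Finset.univ : Finset (Fin 2))) fun γ _ =>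
    ((gen_iff ha hb c).mpr hc (VV γ i ξ') ξ).conj_VV γ j
  have e : (fun n => ∑ k, ⟪Delta (b * VV k i) (tm ξ' (eta n)), tm ξ ((a * VV k j) (eta n))⟫_ℂ) =
      fun n => ∑ γ, ∑ k, ⟪VV k γ (eta n),
        sliceL (VV γ i ξ') ξ (Delta (star b) * tens 1 a) (VV k j (eta n))⟫_ℂ := by
    funext n
    rw [Finset.sum_comm]
    refine Finset.sum_congr rfl fun k _ => ?_
    rw [Delta_mul _ (VV_mem k i), Delta_VV, mul_apply_eq_comp, node_tm, map_sum, sum_inner]
    refine Finset.sum_congr rfl fun γ _ => ?_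
    rw [inner_sliceL, Delta_star, mul_apply_eq_comp, mul_apply_eq_comp, star_eq_adjoint,
      adjoint_inner_right, tens_tm, one_apply_eq_self]
  have e2 : ∑ γ, (ind (γ = j) : ℂ) * ⟪VV γ i ξ', c ξ⟫_ℂ = ⟪VV j i ξ', c ξ⟫_ℂ :=
    sum_ind_smul_right j fun γ => ⟪VV γ i ξ', c ξ⟫_ℂ
  rw [e] at h1
  rw [e2] at h2
  rw [sum_apply, inner_sum, mul_apply_eq_comp, UU_apply, star_eq_adjoint, adjoint_inner_right]
  exact h2.unique h1

theorem UU_mult (i j : Fin 2) : IsMultiplier MM (C0 MM Delta phi) (UU i j) := by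
  refine ⟨UU_mem i j, fun c hc => ?_⟩
  set S : Set (BH →L[ℂ] BH) := {c | ∃ a ∈ MM, ∃ b ∈ MM,
    phi (star a * a) < ⊤ ∧ phi (star b * b) < ⊤ ∧
    ∀ ξ' ξ : BH, HasVal MM phi (sliceL ξ' ξ (Delta (star b) * tens 1 a)) ⟪ξ', c ξ⟫_ℂ} with hS
  have hmem : ∀ {a b d : BH →L[ℂ] BH}, Nphi a → Nphi b → Gen a b d → d ∈ Submodule.span ℂ S :=
    fun {a b d} ha hb hd =>
      Submodule.subset_span ⟨a, ha.1, b, hb.1, ha.2, hb.2, (gen_iff ha hb d).mpr hd⟩
  have hspan : ∀ x ∈ Submodule.span ℂ S,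
      UU i j * x ∈ Submodule.span ℂ S ∧ x * UU i j ∈ Submodule.span ℂ S := by
    intro x hx
    induction hx using Submodule.span_induction with
    | mem x hx =>
      obtain ⟨a, ha1, b, hb1, ha2, hb2, hx⟩ := hx
      have ha : Nphi a := ⟨ha1, ha2⟩
      have hb : Nphi b := ⟨hb1, hb2⟩
      have hg := (gen_iff ha hb x).mp hx
      choose d hd using fun k => exists_gen (ha.right k j) (hb.right k i)
      choose d' hd' using fun k => exists_gen (ha.left (VV_mem k j)) (hb.left (VV_mem k i))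
      rw [gen_mul_left ha hb hg i j hd, gen_mul_right hb1 hg i j hd']
      exact ⟨Submodule.sum_mem _ fun k _ => hmem (ha.right k j) (hb.right k i) (hd k),
        Submodule.sum_mem _ fun k _ =>
          hmem (ha.left (VV_mem k j)) (hb.left (VV_mem k i)) (hd' k)⟩
    | zero => simp
    | add x y _ _ hx hy =>
      rw [mul_add, add_mul]
      exact ⟨add_mem hx.1 hy.1, add_mem hx.2 hy.2⟩
    | smul r x _ hx =>
      rw [mul_smul_comm, smul_mul_assoc]
      exact ⟨Submodule.smul_mem _ _ hx.1, Submodule.smul_mem _ _ hx.2⟩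
  exact ⟨map_mem_closure (f := fun x => UU i j * x) (continuous_const.mul continuous_id) hc
      fun x hx => (hspan x hx).1,
    map_mem_closure (f := fun x => x * UU i j) (continuous_id.mul continuous_const) hc
      fun x hx => (hspan x hx).2⟩

end Pool.Agent.Lib.MP_d81181_an
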