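import Pool.Agent.Lib.MP_d81181_an.Form
import Pool.Agent.Lib.MP_d81181_an.FrobL
import Pool.Agent.Lib.MP_d81181_an.Lop

/-! The quantity `Psi` is a multiple of the Haar weight. -/

open scoped Classical InnerProductSpace ComplexConjugate ENNReal
open ContinuousLinearMap

noncomputable section

namespace Pool.Agent.Lib.MP_d81181_an

open Conn

lemma psi_act_sing {A B : Conn} (f : Mor A B) {π : A.E} (hπ : π ∈ A.out 0) (χ : St → ℂ)
    (e' : B.E) : act f (sing π χ) e' = f.k e' π • χ := by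
  unfold act sing
  rw [Finset.sum_eq_single π]
  · simp
  · intro e _ he
    simp [ind_of_not he]
  · exact fun h => absurd hπ h

lemma psi_vec_sing {Z : Conn} (f : Mor Z Z) {c : ℕ} {π : Z.E} (hπ : π ∈ Z.ed c) (χ : St → ℂ) :
    vec Z (act f (sing π χ)) =
      ∑ π' ∈ Z.out 0, f.k π' π • ∑ s ∈ lev c, χ s • bv Z s π' (0, 0) := by
  obtain ⟨h1, h2, h3⟩ := mem_ed.mp hπ
  rw [vec_apply]
  refine Finset.sum_congr rfl fun π' _ => ?_
  rw [psi_act_sing f (Z.mem_out.mpr ⟨h1, h2⟩)]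
  by_cases h : f.k π' π = 0
  · simp [h]
  · rw [(f.supp h).2.2.2, h3, Finset.smul_sum]
    simp [smul_smul]

lemma psi_act_lft (B : Conn) {Z : Conn} (f : Mor Z Z) {c : ℕ} {π : Z.E} (hπ : π ∈ Z.ed c)
    (ζ : B.E → St → ℂ) {g' : B.E} (hg : g' ∈ B.out c) (e' : Z.E) :
    act (Mor.wl B f) (lft B c ζ π) (g', e') = f.k e' π • ζ g' := by
  obtain ⟨h1, h2, h3⟩ := mem_ed.mp hπ
  obtain ⟨h4, h5⟩ := B.mem_out.mp hg
  unfold act
  refine (Finset.sum_eq_single (s := (comp B Z).out 0) (g', π) ?_ ?_).trans ?_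
  rotate_left 2
  · rw [Mor.wl_k, ind_of ⟨rfl, h4, h5.trans h3.symm⟩]
    simp [lft, hg]
  · rintro ⟨g, e⟩ _ hne
    rw [Mor.wl_k]
    by_cases hg' : g' = g
    · subst hg'
      have he : ¬ (e = π ∧ g' ∈ B.out c) := fun h => hne (by rw [h.1])
      simp [lft, ind_of_not he]
    · rw [ind_of_not fun h => hg' h.1]
      simp
  · intro h
    exact absurd ((mem_compOut B Z).mpr ⟨h4, h1, h5.trans h3.symm, h2⟩) h

lemma psi_act_lft_zero (B : Conn) {Z : Conn} (f : Mor Z Z) (c : ℕ) (π : Z.E)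
    (ζ : B.E → St → ℂ) (g' : B.E) {e' : Z.E} (h : f.k e' π = 0) :
    act (Mor.wl B f) (lft B c ζ π) (g', e') = 0 := by
  unfold act
  refine Finset.sum_eq_zero ?_
  rintro ⟨g, e⟩ _
  rw [Mor.wl_k]
  by_cases he : e = π
  · subst he
    simp [h]
  · have he' : ¬ (e = π ∧ g ∈ B.out c) := fun h => he h.1
    simp [lft, ind_of_not he']

lemma psi_vec_lft (B : Conn) {Z : Conn} (f : Mor Z Z) {c : ℕ} {π : Z.E} (hπ : π ∈ Z.ed c)
    (ζ : B.E → St → ℂ) :
    vec (comp B Z) (act (Mor.wl B f) (lft B c ζ π)) =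
      ∑ π' ∈ Z.out 0, f.k π' π •
        ∑ g ∈ B.out c, ∑ s ∈ lev (B.tgt g), ζ g s • bv (comp B Z) s (g, π') (0, 0) := by
  obtain ⟨h1, h2, h3⟩ := mem_ed.mp hπ
  rw [vec_apply]
  refine (sum_comp_out B Z 0 _).trans (Finset.sum_congr rfl fun π' _ => ?_)
  by_cases h : f.k π' π = 0
  · rw [h, zero_smul]
    refine Finset.sum_eq_zero fun g _ => Finset.sum_eq_zero fun s _ => ?_
    rw [psi_act_lft_zero B f c π ζ g h]
    simp
  · rw [(f.supp h).2.2.2, h3, Finset.smul_sum]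
    refine Finset.sum_congr rfl fun g hg => ?_
    rw [psi_act_lft B f hπ ζ hg, Finset.smul_sum]
    refine Finset.sum_congr rfl fun s _ => ?_
    simp [smul_smul]

/-- The function supported on the edge `c → c + 1`. -/
def psiZ (c : ℕ) (χ : St → ℂ) : ℕ × ℕ → St → ℂ := fun e => if e = (c, c + 1) then χ else 0

/-- The lowered coefficient function. -/
def psiC (c : ℕ) (χ : St → ℂ) (γ : Fin 2) : St → ℂ :=
  fun s₀ => ∑ s ∈ lev (c + 1), χ s * ((A s s₀ γ / Real.sqrt (c + 1) : ℝ) : ℂ)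

lemma psi_sum_out {M : Type*} [AddCommMonoid M] (c : ℕ) (χ : St → ℂ)
    (F : ℕ × ℕ → (St → ℂ) → M) (hF : ∀ e, F e 0 = 0) :
    ∑ e ∈ cX.out c, F e (psiZ c χ e) = F (c, c + 1) χ := by
  refine (Finset.sum_eq_single (s := cX.out c) (c, c + 1) ?_ ?_).trans ?_
  rotate_left 2
  · simp [psiZ]
  · intro e _ he
    exact (congrArg (F e) (if_neg he : psiZ c χ e = 0)).trans (hF e)
  · intro h
    exact absurd (cX.mem_out.mpr ⟨(letter_valid le_rfl c (c + 1)).mpr (Or.inl rfl), rfl⟩) h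

lemma psi_norm (c : ℕ) (χ : St → ℂ) :
    ∑ γ, ∑ s₀ ∈ lev c, ‖psiC c χ γ s₀‖ ^ 2 = ∑ s ∈ lev (c + 1), ‖χ s‖ ^ 2 := by
  have hc : (0 : ℝ) < (c : ℝ) + 1 := by positivity
  have key : ∀ s ∈ lev (c + 1), ∀ s' : St, ∑ γ, ∑ s₀ ∈ lev c,
      ((A s s₀ γ / Real.sqrt (c + 1) : ℝ) : ℂ) * ((A s' s₀ γ / Real.sqrt (c + 1) : ℝ) : ℂ) =
        ((ind (s = s') : ℝ) : ℂ) := by
    intro s hs s'
    have h := A2 c s s'
    have ha : Adj c (sz s) := Or.inl (mem_lev.mp hs).symm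
    rw [ind_congr (and_iff_left ha)] at h
    have h2 : ∑ γ, ∑ s₀ ∈ lev c,
        A s s₀ γ / Real.sqrt (c + 1) * (A s' s₀ γ / Real.sqrt (c + 1)) = ind (s = s') := by
      simp only [div_mul_div_comm, Real.mul_self_sqrt hc.le, ← Finset.sum_div]
      rw [h, mul_div_cancel_left₀ _ hc.ne']
    exact_mod_cast h2
  have h3 : ∀ z : ℂ, ((‖z‖ ^ 2 : ℝ) : ℂ) = z * conj z := fun z => by
    rw [Complex.mul_conj, Complex.normSq_eq_norm_sq]
  apply Complex.ofReal_injective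
  simp only [Complex.ofReal_sum, h3]
  have h4 : ∀ γ s₀, psiC c χ γ s₀ * conj (psiC c χ γ s₀) =
      ∑ s ∈ lev (c + 1), ∑ s' ∈ lev (c + 1), χ s * conj (χ s') *
        (((A s s₀ γ / Real.sqrt (c + 1) : ℝ) : ℂ) * ((A s' s₀ γ / Real.sqrt (c + 1) : ℝ) : ℂ)) := by
    intro γ s₀
    unfold psiC
    rw [map_sum, Finset.sum_mul_sum]
    refine Finset.sum_congr rfl fun s _ => Finset.sum_congr rfl fun s' _ => ?_
    rw [map_mul, Complex.conj_ofReal]
    ring
  simp only [h4]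
  have h5 : ∀ G : Fin 2 → St → St → St → ℂ,
      ∑ γ, ∑ s₀ ∈ lev c, ∑ s ∈ lev (c + 1), ∑ s' ∈ lev (c + 1), G γ s₀ s s' =
        ∑ s ∈ lev (c + 1), ∑ s' ∈ lev (c + 1), ∑ γ, ∑ s₀ ∈ lev c, G γ s₀ s s' := by
    intro G
    rw [← Finset.sum_product', Finset.sum_comm]
    refine Finset.sum_congr rfl fun s _ => ?_
    rw [Finset.sum_comm]
    refine Finset.sum_congr rfl fun s' _ => ?_
    rw [Finset.sum_product]
  rw [h5]
  refine Finset.sum_congr rfl fun s hs => ?_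
  simp only [← Finset.mul_sum, key s hs]
  rw [Finset.sum_eq_single s]
  · simp
  · intro s' _ h
    simp [ind_of_not (Ne.symm h)]
  · exact fun h => absurd hs h

lemma psi_step {x : BH →L[ℂ] BH} (hx : x ∈ MM) (h0 : 0 ≤ x) (c : ℕ) (χ : St → ℂ) (Z : Irr)
    {π : Z.c.E} (hπ : π ∈ Z.c.ed c) :
    (nform x hx h0).G (Tm.X.comp Z.t) (act (Mor.wl cX Z.p) (lft cX c (psiZ c χ) π))
        (act (Mor.wl cX Z.p) (lft cX c (psiZ c χ) π)) =
      ∑ γ, (nform x hx h0).G Z.t (act Z.p (sing π (psiC c χ γ)))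
        (act Z.p (sing π (psiC c χ γ))) := by
  obtain ⟨l, h1, h2, h3⟩ := exists_lop Z.c
  have key : ∀ γ, l γ (vec (comp cX Z.c) (act (Mor.wl cX Z.p) (lft cX c (psiZ c χ) π))) =
      vec Z.c (act Z.p (sing π (psiC c χ γ))) := by
    intro γ
    rw [psi_vec_lft cX Z.p hπ, psi_vec_sing Z.p hπ, map_sum]
    refine Finset.sum_congr rfl fun π' hπ' => ?_
    rw [map_smul]
    by_cases h : Z.p.k π' π = 0
    · rw [h, zero_smul, zero_smul]
    refine congrArg _ ?_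
    have e1 := psi_sum_out c χ
      (fun g ξ => ∑ s ∈ lev (cX.tgt g), ξ s • bv (comp cX Z.c) s (g, π') (0, 0)) (by simp)
    rw [e1, map_sum]
    have hv := Z.p.supp h
    have e2 : ∀ s ∈ lev (c + 1), l γ (χ s • bv (comp cX Z.c) s ((c, c + 1), π') (0, 0)) =
        ∑ s₀ ∈ lev c, (χ s * ((A s s₀ γ / Real.sqrt (c + 1) : ℝ) : ℂ)) • bv Z.c s₀ π' (0, 0) := by
      intro s hs
      rw [map_smul, h3 γ s c (c + 1) π' (0, 0), Finset.smul_sum]
      · simp only [smul_smul]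
      · refine ⟨(comp_valid cX Z.c _ _).mpr ⟨(letter_valid le_rfl c (c + 1)).mpr (Or.inl rfl),
          hv.1, ?_⟩, mem_lev.mp hs, (Z.c.src_of_out hπ').symm⟩
        rw [hv.2.2.2, (mem_ed.mp hπ).2.2]
        rfl
    refine (Finset.sum_congr rfl e2).trans ?_
    rw [Finset.sum_comm]
    refine Finset.sum_congr rfl fun s₀ _ => ?_
    rw [psiC, Finset.sum_smul]
  simp only [nform_G, ← key]
  exact (emb_JL (Tm.X.comp Z.t)).inner_split (emb_JL Z.t) h2 h1 hx _ _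

theorem Psi_eq {x : BH →L[ℂ] BH} (hx : x ∈ MM) (h0 : 0 ≤ x) (c : ℕ) (χ : St → ℂ) :
    (nform x hx h0).Psi c χ = ENNReal.ofReal (∑ s ∈ lev c, ‖χ s‖ ^ 2) * phi x := by
  induction c generalizing χ with
  | zero =>
    rw [phi_eq, ← ENNReal.tsum_mul_left, NatForm.Psi]
    refine tsum_congr fun Z => ?_
    rw [Finset.mul_sum]
    refine Finset.sum_congr rfl fun π hπ => ?_
    have e1 : vec Z.c (act Z.p (sing π χ)) = χ (0, 0) • ev Z π := by
      rw [ev, psi_vec_sing Z.p hπ, psi_vec_sing Z.p hπ, Finset.smul_sum]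
      refine Finset.sum_congr rfl fun π' _ => ?_
      have hv : vac (0, 0) = 1 := by simp [vac]
      rw [lev_zero, Finset.sum_singleton, Finset.sum_singleton, hv, one_smul, smul_comm]
    rw [nform_G, e1, lev_zero, Finset.sum_singleton, ← ENNReal.ofReal_mul (by positivity)]
    refine congrArg _ ?_
    rw [map_smul, map_smul, inner_smul_left, inner_smul_right, ← mul_assoc, mul_comm (conj _),
      Complex.mul_conj, Complex.normSq_eq_norm_sq, Complex.re_ofReal_mul]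
    ring
  | succ c ih =>
    have h1 := (nform x hx h0).left Tm.X c (psiZ c χ)
    have h2 := psi_sum_out c χ (fun e ξ => (nform x hx h0).Psi (cX.tgt e) ξ)
      fun e => NatForm.Psi_zero _ _
    have h3 : (nform x hx h0).Psi (c + 1) χ = ∑ γ, (nform x hx h0).Psi c (psiC c χ γ) := by
      refine (h1.trans h2).symm.trans ?_
      simp only [NatForm.Psi, Fin.sum_univ_two]
      rw [← ENNReal.tsum_add]
      refine tsum_congr fun Z => ?_
      rw [← Finset.sum_add_distrib]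
      refine Finset.sum_congr rfl fun π hπ => ?_
      rw [← ENNReal.ofReal_add (mul_nonneg (coef_nonneg Z π) ((nform x hx h0).pos _ _))
        (mul_nonneg (coef_nonneg Z π) ((nform x hx h0).pos _ _)), ← mul_add, ← Complex.add_re]
      have h4 := psi_step hx h0 c χ Z hπ
      rw [Fin.sum_univ_two] at h4
      exact congrArg (fun z : ℂ => ENNReal.ofReal (Z.d / Z.c.w π * z.re)) h4
    rw [h3, ← psi_norm c χ]
    simp only [ih]
    rw [← Finset.sum_mul, ENNReal.ofReal_sum_of_nonneg fun γ _ => by positivity]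

end Pool.Agent.Lib.MP_d81181_an
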