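import Pool.Agent.Lib.MP_d81181_an.Hilb

/-! Unitary `2 × 2` matrices of operators, intertwiners and tensor products. -/

open scoped InnerProductSpace ComplexConjugate
open ContinuousLinearMap

set_option linter.unusedSectionVars false

noncomputable section

namespace Pool.Agent.Lib.MP_d81181_an

variable {E F G E' F' : Type} [NormedAddCommGroup E] [InnerProductSpace ℂ E] [CompleteSpace E]
  [NormedAddCommGroup F] [InnerProductSpace ℂ F] [CompleteSpace F]
  [NormedAddCommGroup G] [InnerProductSpace ℂ G] [CompleteSpace G]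
  [NormedAddCommGroup E'] [InnerProductSpace ℂ E'] [CompleteSpace E']
  [NormedAddCommGroup F'] [InnerProductSpace ℂ F'] [CompleteSpace F']

/-- The matrix `(V α' α)` is unitary. -/
structure IsUni (V : Fin 2 → Fin 2 → E →L[ℂ] E) : Prop where
  col : ∀ α β, ∑ γ, star (V γ α) * V γ β = (ind (α = β) : ℂ) • 1
  row : ∀ α β, ∑ γ, V α γ * star (V β γ) = (ind (α = β) : ℂ) • 1

/-- `T` intertwines `V` and `W`. -/
def Intw (V : Fin 2 → Fin 2 → E →L[ℂ] E) (W : Fin 2 → Fin 2 → F →L[ℂ] F) (T : E →L[ℂ] F) : Prop :=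
  ∀ α β, W α β ∘L T = T ∘L V α β

variable {V : Fin 2 → Fin 2 → E →L[ℂ] E} {W : Fin 2 → Fin 2 → F →L[ℂ] F}
  {X : Fin 2 → Fin 2 → G →L[ℂ] G} {V' : Fin 2 → Fin 2 → E' →L[ℂ] E'}
  {W' : Fin 2 → Fin 2 → F' →L[ℂ] F'}

lemma sum_ind_smul_left {M : Type*} [AddCommGroup M] [Module ℂ M] (α : Fin 2) (F : Fin 2 → M) :
    ∑ γ, (ind (α = γ) : ℂ) • F γ = F α := by
  fin_cases α <;> simp [ind]

lemma sum_ind_smul_right {M : Type*} [AddCommGroup M] [Module ℂ M] (α : Fin 2) (F : Fin 2 → M) :
    ∑ γ, (ind (γ = α) : ℂ) • F γ = F α := by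
  fin_cases α <;> simp [ind]

lemma Intw.star' (hV : IsUni V) (hW : IsUni W) {T : E →L[ℂ] F} (h : Intw V W T) (α β : Fin 2) :
    star (W α β) ∘L T = T ∘L star (V α β) := by
  have h1 : ∑ γ, ∑ δ, star (W γ β) ∘L (W γ δ ∘L T) ∘L star (V α δ) =
      ∑ γ, ∑ δ, star (W γ β) ∘L (T ∘L V γ δ) ∘L star (V α δ) := by
    simp only [h _ _]
  have h2 : ∑ γ, ∑ δ, star (W γ β) ∘L (W γ δ ∘L T) ∘L star (V α δ) = T ∘L star (V α β) := by
    rw [Finset.sum_comm]
    have : ∀ δ, ∑ γ, star (W γ β) ∘L (W γ δ ∘L T) ∘L star (V α δ) =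
        (ind (β = δ) : ℂ) • (T ∘L star (V α δ)) := fun δ => by
      have h3 := congrArg (fun Y => Y ∘L (T ∘L star (V α δ))) (hW.col β δ)
      simp only [finsetSum_comp, smul_comp] at h3
      exact h3
    simp only [this]
    exact sum_ind_smul_left β _
  have h4 : ∑ γ, ∑ δ, star (W γ β) ∘L (T ∘L V γ δ) ∘L star (V α δ) = star (W α β) ∘L T := by
    have : ∀ γ, ∑ δ, star (W γ β) ∘L (T ∘L V γ δ) ∘L star (V α δ) =
        (ind (γ = α) : ℂ) • (star (W γ β) ∘L T) := fun γ => by
      have h3 := congrArg (fun Y => (star (W γ β) ∘L T) ∘L Y) (hV.row γ α)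
      simp only [comp_finsetSum, comp_smul] at h3
      exact h3
    simp only [this]
    exact sum_ind_smul_right α _
  rw [← h4, ← h1, h2]

lemma Intw.adj (hV : IsUni V) (hW : IsUni W) {T : E →L[ℂ] F} (h : Intw V W T) :
    Intw W V (adjoint T) := fun α β => by
  have := congrArg adjoint (h.star' hV hW α β)
  simp only [adjoint_comp, star_eq_adjoint, adjoint_adjoint] at this
  exact this.symm

lemma Intw.comp {S : F →L[ℂ] G} {T : E →L[ℂ] F} (hS : Intw W X S) (hT : Intw V W T) :
    Intw V X (S ∘L T) := fun α β => by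
  rw [← comp_assoc, hS, comp_assoc, hT, comp_assoc]

lemma Intw.id : Intw V V 1 := fun _ _ => rfl

/-- The tensor product of two unitary matrices (the index enters the first factor). -/
def node (V : Fin 2 → Fin 2 → E →L[ℂ] E) (W : Fin 2 → Fin 2 → F →L[ℂ] F) :
    Fin 2 → Fin 2 → HT E F →L[ℂ] HT E F :=
  fun α β => ∑ γ, tens (V γ β) (W α γ)

lemma node_tm (α β : Fin 2) (a : E) (b : F) :
    node V W α β (tm a b) = ∑ γ, tm (V γ β a) (W α γ b) := by
  simp [node]

lemma star_node (α β : Fin 2) :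
    star (node V W α β) = ∑ γ, tens (star (V γ β)) (star (W α γ)) := by
  simp only [node, star_sum, star_tens]

lemma IsUni.node (hV : IsUni V) (hW : IsUni W) : IsUni (node V W) where
  col α β := by
    simp only [star_node]
    simp only [MP_d81181_an.node, Finset.sum_mul, Finset.mul_sum, tens_mul]
    rw [Finset.sum_comm]
    have : ∀ δ, ∑ γ, ∑ ε, tens (star (V ε α) * V δ β) (star (W γ ε) * W γ δ) =
        tens (star (V δ α) * V δ β) 1 := fun δ => by
      rw [Finset.sum_comm]
      simp only [← tens_sum_right, hW.col, tens_smul_right]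
      exact sum_ind_smul_right δ _
    simp only [this, ← tens_sum_left, hV.col, tens_smul_left, tens_one]
  row α β := by
    simp only [star_node]
    simp only [MP_d81181_an.node, Finset.sum_mul, Finset.mul_sum, tens_mul]
    rw [Finset.sum_comm]
    have : ∀ δ, ∑ γ, ∑ ε, tens (V ε γ * star (V δ γ)) (W α ε * star (W β δ)) =
        tens 1 (W α δ * star (W β δ)) := fun δ => by
      rw [Finset.sum_comm]
      simp only [← tens_sum_left, hV.row, tens_smul_left]
      exact sum_ind_smul_right δ _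
    simp only [this, ← tens_sum_right, hW.row, tens_smul_right, tens_one]

lemma Intw.tens {S : E →L[ℂ] E'} {T : F →L[ℂ] F'} (hS : Intw V V' S) (hT : Intw W W' T) :
    Intw (node V W) (node V' W') (tens S T) := fun α β => by
  simp only [node, finsetSum_comp, comp_finsetSum, tens_comp, hS _ _, hT _ _]

end Pool.Agent.Lib.MP_d81181_an
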