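import Pool.Agent.Lib.MP_d81181_an.MorF

/-! Left and right traces, sphericality, the class of terms, the inner product on morphisms. -/

open scoped Classical ComplexConjugate InnerProductSpace

noncomputable section

namespace Pool.Agent.Lib.MP_d81181_an

open Conn

variable {A B C Z Z' : Conn}

/-- Left trace at the vertex `a`. -/
def tauL (f : Mor A A) (a : ℕ) : ℂ := ∑ e ∈ A.out a, (A.w e : ℂ) * f.k e e

/-- Right trace at the vertex `c`. -/
def tauR (f : Mor A A) (c : ℕ) : ℂ := ∑ e ∈ A.inn c, (A.w e : ℂ)⁻¹ * f.k e e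

/-- Left and right traces agree. -/
def Sph (A : Conn) : Prop := ∀ f : Mor A A, tauL f 0 = tauR f 0

lemma trace_tauL_mul (g : Mor B A) (f : Mor A B) :
    tauL (g * f) 0 =
      ∑ e ∈ A.out 0, ∑ e' ∈ B.out 0, (A.w e : ℂ) * (g.k e e' * f.k e' e) := by
  refine Finset.sum_congr rfl fun e he => ?_
  rw [Mor.mul_k, A.src_of_out he, Finset.mul_sum]

lemma trace_tauR_mul (g : Mor B A) (f : Mor A B) :
    tauR (g * f) 0 =
      ∑ e ∈ A.inn 0, ∑ e' ∈ B.inn 0, (A.w e : ℂ)⁻¹ * (g.k e e' * f.k e' e) := by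
  refine Finset.sum_congr rfl fun e he => ?_
  rw [Mor.mul_k_inn, A.tgt_of_inn he, Finset.mul_sum]

lemma trace_tauL_self (f : Mor A B) :
    tauL (f.adj * f) 0 =
      ((∑ e ∈ A.out 0, ∑ e' ∈ B.out 0, A.w e * Complex.normSq (f.k e' e) : ℝ) : ℂ) := by
  rw [trace_tauL_mul]
  push_cast
  refine Finset.sum_congr rfl fun e _ => Finset.sum_congr rfl fun e' _ => ?_
  rw [Mor.adj_k, Complex.normSq_eq_conj_mul_self]

lemma trace_definite (f : Mor A B) (h : tauL (f.adj * f) 0 = 0) : f = 0 := by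
  rw [trace_tauL_self] at h
  have h1 : ∑ e ∈ A.out 0, ∑ e' ∈ B.out 0, A.w e * Complex.normSq (f.k e' e) = 0 := by
    exact_mod_cast h
  have hnn : ∀ e e', 0 ≤ A.w e * Complex.normSq (f.k e' e) := fun e e' =>
    mul_nonneg (A.w_pos e).le (Complex.normSq_nonneg _)
  refine Mor.ext_root fun e' he' e he => ?_
  have h2 := (Finset.sum_eq_zero_iff_of_nonneg
    (fun e _ => Finset.sum_nonneg fun e' _ => hnn e e')).mp h1 e he
  have h3 := (Finset.sum_eq_zero_iff_of_nonneg (fun e' _ => hnn e e')).mp h2 e' he'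
  rw [Mor.zero_k]
  exact Complex.normSq_eq_zero.mp ((mul_eq_zero.mp h3).resolve_left (A.w_ne e))

/-- Morphisms between spherical connections preserve the weights. -/
lemma w_eq_of_sph (hA : Sph A) (hB : Sph B) (f : Mor A B) {e' : B.E} {e : A.E}
    (h : f.k e' e ≠ 0) : B.w e' = A.w e := by
  set F1 : Mor A B := Mor.mk' _ f.isMor.alpha with hF1
  set F2 : Mor A B := Mor.mk' _ f.isMor.alpha_inv with hF2
  have k1 : ∀ a b, F1.k a b = (B.w a : ℂ) * (A.w b : ℂ)⁻¹ * f.k a b := fun _ _ => rfl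
  have k2 : ∀ a b, F2.k a b = (B.w a : ℂ)⁻¹ * (A.w b : ℂ) * f.k a b := fun _ _ => rfl
  have e1 : ∀ u : Mor B A, tauL (u * F1) 0 = tauL (f * u) 0 := by
    intro u
    rw [trace_tauL_mul, trace_tauL_mul, Finset.sum_comm]
    refine Finset.sum_congr rfl fun a _ => Finset.sum_congr rfl fun b _ => ?_
    rw [k1]
    have := A.wC_ne b
    field_simp
  have e2 : ∀ u : Mor B A, tauR (f * u) 0 = tauR (u * F2) 0 := by
    intro u
    rw [trace_tauR_mul, trace_tauR_mul, Finset.sum_comm]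
    refine Finset.sum_congr rfl fun b _ => Finset.sum_congr rfl fun a _ => ?_
    rw [k2]
    have := A.wC_ne b
    have := B.wC_ne a
    field_simp
  have e3 : tauL ((F1 - F2).adj * (F1 - F2)) 0 = 0 := by
    have e4 : tauL ((F1 - F2).adj * F1) 0 = tauL ((F1 - F2).adj * F2) 0 := by
      rw [e1, hB, e2, ← hA]
    rw [Mor.mul_sub]
    simp only [tauL, Mor.sub_k, mul_sub, Finset.sum_sub_distrib] at e4 ⊢
    exact sub_eq_zero.mpr e4
  have e5 := trace_definite _ e3
  have e6 : (F1 - F2).k e' e = 0 := by rw [e5, Mor.zero_k]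
  rw [Mor.sub_k, k1, k2, ← sub_mul] at e6
  have e7 := (mul_eq_zero.mp e6).resolve_right h
  have e8 : B.w e' * (A.w e)⁻¹ - (B.w e')⁻¹ * A.w e = 0 := by exact_mod_cast e7
  have p1 := A.w_pos e
  have p2 := B.w_pos e'
  have e9 : B.w e' * B.w e' = A.w e * A.w e := by
    field_simp at e8
    nlinarith
  exact (mul_self_inj_of_nonneg p2.le p1.le).mp e9

/-- The trace. -/
def tau (f : Mor A A) : ℂ := tauL f 0

lemma tau_add (f g : Mor A A) : tau (f + g) = tau f + tau g := by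
  simp [tau, tauL, mul_add, Finset.sum_add_distrib]

lemma tau_smul (c : ℂ) (f : Mor A A) : tau (c • f) = c * tau f := by
  simp [tau, tauL, Finset.mul_sum, mul_left_comm]

lemma tau_adj_mul (f g : Mor A B) :
    tau (f.adj * g) =
      ∑ e ∈ A.out 0, (A.w e : ℂ) * ∑ e' ∈ B.out 0, conj (f.k e' e) * g.k e' e := by
  refine Finset.sum_congr rfl fun e he => ?_
  rw [Mor.mul_k, A.src_of_out he]
  rfl

lemma tau_comm (hA : Sph A) (hB : Sph B) (f : Mor A B) (g : Mor B A) :
    tau (g * f) = tau (f * g) := by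
  unfold tau
  rw [trace_tauL_mul, trace_tauL_mul, Finset.sum_comm]
  refine Finset.sum_congr rfl fun a _ => Finset.sum_congr rfl fun b _ => ?_
  by_cases h : f.k a b = 0
  · simp [h]
  · rw [w_eq_of_sph hA hB f h]
    ring

/-- The inner product `⟪f, g⟫ = τ(f* g)`. -/
@[instance_reducible] def morCore (A B : Conn) : InnerProductSpace.Core ℂ (Mor A B) where
  inner f g := tau (f.adj * g)
  conj_inner_symm f g := by
    rw [tau_adj_mul, tau_adj_mul, map_sum]
    refine Finset.sum_congr rfl fun e _ => ?_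
    rw [map_mul, map_sum, Complex.conj_ofReal]
    congr 1
    refine Finset.sum_congr rfl fun e' _ => ?_
    rw [map_mul, Complex.conj_conj, mul_comm]
  re_inner_nonneg f := by
    change 0 ≤ (tauL (f.adj * f) 0).re
    rw [trace_tauL_self, Complex.ofReal_re]
    exact Finset.sum_nonneg fun e _ => Finset.sum_nonneg fun e' _ =>
      mul_nonneg (A.w_pos e).le (Complex.normSq_nonneg _)
  add_left f g h := by rw [Mor.adj_add, Mor.add_mul, tau_add]
  smul_left f g c := by rw [Mor.adj_smul, Mor.smul_mul, tau_smul]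
  definite f h := trace_definite f h

instance (A B : Conn) : NormedAddCommGroup (Mor A B) :=
  @InnerProductSpace.Core.toNormedAddCommGroup ℂ _ _ _ _ (morCore A B)

instance (A B : Conn) : InnerProductSpace ℂ (Mor A B) := .ofCore (morCore A B).toCore

lemma mor_inner (f g : Mor A B) : ⟪f, g⟫_ℂ = tau (f.adj * g) := rfl

lemma inner_flat_adj (hZ' : Sph Z') (hBZ : Sph (comp B Z)) (T T' : Mor Z' (comp B Z)) :
    ⟪T.flat.adj, T'.flat.adj⟫_ℂ = ⟪T', T⟫_ℂ := by
  rw [mor_inner, mor_inner, Mor.adj_adj]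
  unfold tau
  rw [trace_tauL_mul, trace_tauL_mul]
  refine (Finset.sum_congr rfl fun π _ => sum_comp_out B.conj Z' 0 _).trans
    (Eq.trans ?_ (Finset.sum_congr rfl fun π' _ => sum_comp_out B Z 0 _).symm)
  rw [Finset.sum_comm]
  refine Finset.sum_congr rfl fun π' _ => Finset.sum_congr rfl fun π _ => ?_
  rw [B.sum_out_eq_sum_inn (Z.tgt π) (Z'.tgt π')]
  · refine Finset.sum_congr rfl fun (g : B.E) _ => ?_
    change (Z.w π : ℂ) * ((Real.sqrt (B.w g) : ℂ) * T.k (g, π) π' *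
        conj ((Real.sqrt (B.w g) : ℂ) * T'.k (g, π) π')) =
      (Z'.w π' : ℂ) * (conj (T'.k (g, π) π') * T.k (g, π) π')
    by_cases h : T.k (g, π) π' = 0
    · simp [h]
    · have hw : B.w g * Z.w π = Z'.w π' := w_eq_of_sph hZ' hBZ T h
      have hs : (Real.sqrt (B.w g) : ℂ) * (Real.sqrt (B.w g) : ℂ) = B.w g := by
        exact_mod_cast Real.mul_self_sqrt (B.w_pos g).le
      rw [← hw, map_mul, Complex.conj_ofReal]
      push_cast
      linear_combination (Z.w π : ℂ) * (conj (T'.k (g, π) π') * T.k (g, π) π') * hs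
  · intro g hg _
    have h : T.k (g, π) π' ≠ 0 := right_ne_zero_of_mul (right_ne_zero_of_mul hg)
    obtain ⟨h1, _, _, h4⟩ := T.supp h
    exact ⟨fun _ => h4, fun _ => ((comp_valid B Z g π).mp h1).2.2⟩

lemma inner_sharp_adj (hZ : Sph Z) (hZ' : Sph Z') (hZC : Sph (comp Z C))
    (T T' : Mor Z' (comp Z C)) : ⟪T.sharp.adj, T'.sharp.adj⟫_ℂ = ⟪T', T⟫_ℂ := by
  rw [mor_inner, mor_inner, Mor.adj_adj]
  unfold tau
  rw [hZ, hZ', trace_tauR_mul, trace_tauR_mul]
  refine (Finset.sum_congr rfl fun π _ => sum_comp_inn Z' C.conj 0 _).trans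
    (Eq.trans ?_ (Finset.sum_congr rfl fun π' _ => sum_comp_inn Z C 0 _).symm)
  rw [Finset.sum_comm]
  refine Finset.sum_congr rfl fun π' _ => Finset.sum_congr rfl fun π _ => ?_
  rw [← C.sum_out_eq_sum_inn (Z'.src π') (Z.src π)]
  · refine Finset.sum_congr rfl fun (g : C.E) _ => ?_
    change (Z.w π : ℂ)⁻¹ * ((Real.sqrt (C.w g) : ℂ)⁻¹ * T.k (π, g) π' *
        conj ((Real.sqrt (C.w g) : ℂ)⁻¹ * T'.k (π, g) π')) =
      (Z'.w π' : ℂ)⁻¹ * (conj (T'.k (π, g) π') * T.k (π, g) π')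
    by_cases h : T.k (π, g) π' = 0
    · simp [h]
    · have hw : Z.w π * C.w g = Z'.w π' := w_eq_of_sph hZ' hZC T h
      have hs : (Real.sqrt (C.w g) : ℂ)⁻¹ * (Real.sqrt (C.w g) : ℂ)⁻¹ = (C.w g : ℂ)⁻¹ := by
        rw [← mul_inv]
        congr 1
        exact_mod_cast Real.mul_self_sqrt (C.w_pos g).le
      rw [← hw, map_mul, map_inv₀, Complex.conj_ofReal]
      push_cast
      rw [mul_inv, ← hs]
      ring
  · intro g hg _
    have h : T.k (π, g) π' ≠ 0 := right_ne_zero_of_mul (right_ne_zero_of_mul hg)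
    obtain ⟨h1, _, h3, _⟩ := T.supp h
    exact ⟨fun _ => ((comp_valid Z C π g).mp h1).2.2.symm, fun _ => h3⟩

end Pool.Agent.Lib.MP_d81181_an
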