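import Pool.Agent.Lib.MP_d81181_an.Stmt
import Pool.Agent.Lib.MP_d81181_an.Haar
import Pool.Agent.Lib.MP_d81181_an.Mult

/-! Transfer from the working definitions to the definitions of the statement. -/

open scoped ENNReal

noncomputable section

namespace Pool.Agent.Lib.MP_d81181_an

variable {H : Type} [NormedAddCommGroup H] [InnerProductSpace ℂ H] [CompleteSpace H]
  {M : VonNeumannAlgebra H}

lemma IsNSFWeight.kv {φ : (H →L[ℂ] H) → ℝ≥0∞} (h : IsNSFWeight M φ) : KV.IsNSFWeight M φ :=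
  ⟨h.map_add, h.map_smul, h.normal, h.semifinite, h.faithful⟩

lemma IsLCQG.kv {Δ : (H →L[ℂ] H) → (HT H H →L[ℂ] HT H H)} {φ ψ : (H →L[ℂ] H) → ℝ≥0∞}
    (h : IsLCQG M Δ φ ψ) : KV.IsLCQG M Δ φ ψ where
  map_mem := h.map_mem
  map_add := h.map_add
  map_smul := h.map_smul
  map_mul := h.map_mul
  map_star := h.map_star
  map_one := h.map_one
  normal := h.normal
  coassoc := h.coassoc
  left_weight := h.left_weight.kv
  right_weight := h.right_weight.kv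
  left_inv := h.left_inv
  right_inv := h.right_inv

lemma kv_C0 (Δ : (H →L[ℂ] H) → (HT H H →L[ℂ] HT H H)) (φ : (H →L[ℂ] H) → ℝ≥0∞) :
    KV.C0 M Δ φ = C0 M Δ φ := rfl

lemma kv_corep {Δ : (H →L[ℂ] H) → (HT H H →L[ℂ] HT H H)} {φ : (H →L[ℂ] H) → ℝ≥0∞} {n : ℕ}
    {U : Matrix (Fin n) (Fin n) (H →L[ℂ] H)} (h1 : ∀ i j, IsMultiplier M (C0 M Δ φ) (U i j))
    (h2 : U ∈ unitary (Matrix (Fin n) (Fin n) (H →L[ℂ] H)))
    (h3 : ∀ i j, Δ (U i j) = ∑ k, tens (U i k) (U k j)) : KV.IsUnitaryCorep M Δ φ U :=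
  ⟨h1, h2, h3⟩

theorem kv_main : KV.HasNonAdmissible BH :=
  ⟨MM, Delta, phi, psi, isLCQG.kv, UU, kv_corep UU_mult UU_unitary Delta_UU, UU_not_adm⟩

end Pool.Agent.Lib.MP_d81181_an
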